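import Pool.Agent.Lib.MP_601e9e_an.Cv.Defs

/-!
Existence of graph charts.
-/

set_option autoImplicit false

open Complex Metric Set ComplexConjugate
open scoped ContDiff Topology

namespace Pool.Agent.Lib.MP_601e9e_an.Cv

variable {n m : ℕ} {ρ : Vs n → ℝ} {R K σ : ℝ}

theorem ChartEx_graph {E Y : Type} [NormedAddCommGroup E] [NormedSpace ℝ E]
    [FiniteDimensional ℝ E] [NormedAddCommGroup Y] [NormedSpace ℝ Y] [FiniteDimensional ℝ Y]
    {f : E → ℝ} (hf : ContDiff ℝ ∞ f) {p₀ : E} (hp : f p₀ = 0) (pr : E →L[ℝ] Y)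
    (A : E ≃L[ℝ] Y × ℝ) (hA : (A : E →L[ℝ] Y × ℝ) = pr.prod (fderiv ℝ f p₀)) :
    ∃ (P : Y → E) (r R₁ : ℝ), 0 < r ∧ 0 < R₁ ∧ ContDiff ℝ ∞ P ∧ P 0 = p₀ ∧
      (∀ b, ‖b‖ ≤ r → f (P b) = 0 ∧ pr (P b - p₀) = b) ∧
      ∀ x, f x = 0 → ‖x - p₀‖ ≤ R₁ → P (pr (x - p₀)) = x := by
  have : CompleteSpace E := FiniteDimensional.complete ℝ E
  set Ψ : E → Y × ℝ := fun x => (pr (x - p₀), f x) with hΨ
  have hΨs : ContDiff ℝ ∞ Ψ :=
    (pr.contDiff.comp (contDiff_id.sub contDiff_const)).prodMk hf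
  have hΨd : Differentiable ℝ Ψ := hΨs.differentiable (by simp)
  have hd : HasFDerivAt Ψ (A : E →L[ℝ] Y × ℝ) p₀ := by
    rw [hA]
    refine HasFDerivAt.prodMk ?_ ((hf.differentiable (by simp)) p₀).hasFDerivAt
    exact pr.hasFDerivAt.comp p₀ ((hasFDerivAt_id p₀).sub_const p₀)
  have hΨ0 : Ψ p₀ = 0 := by simp [hΨ, hp]
  set e := hΨs.contDiffAt.toOpenPartialHomeomorph Ψ hd (by simp) with he
  have hec : (e : E → Y × ℝ) = Ψ := rfl
  have hs : p₀ ∈ e.source := hΨs.contDiffAt.mem_toOpenPartialHomeomorph_source hd (by simp)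
  have ht : (0 : Y × ℝ) ∈ e.target := by
    rw [← hΨ0]
    exact e.map_source hs
  have hi0 : e.symm 0 = p₀ := by
    rw [← hΨ0]
    exact e.left_inv hs
  have hcf : Continuous (fderiv ℝ Ψ) := hΨs.continuous_fderiv (by simp)
  have hO : IsOpen {x | fderiv ℝ Ψ x ∈
      range ((↑) : (E ≃L[ℝ] Y × ℝ) → E →L[ℝ] Y × ℝ)} :=
    ContinuousLinearEquiv.isOpen.preimage hcf
  have hO0 : p₀ ∈ {x | fderiv ℝ Ψ x ∈
      range ((↑) : (E ≃L[ℝ] Y × ℝ) → E →L[ℝ] Y × ℝ)} := ⟨A, hd.fderiv.symm⟩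
  have hN : e.target ∩ e.symm ⁻¹' {x | fderiv ℝ Ψ x ∈
      range ((↑) : (E ≃L[ℝ] Y × ℝ) → E →L[ℝ] Y × ℝ)} ∈ 𝓝 (0 : Y × ℝ) := by
    refine Filter.inter_mem (e.open_target.mem_nhds ht) ?_
    refine (e.continuousAt_symm ht).preimage_mem_nhds ?_
    rw [hi0]
    exact hO.mem_nhds hO0
  obtain ⟨δ, hδ, hball⟩ := Metric.mem_nhds_iff.1 hN
  have hin : ∀ b : Y, ‖b‖ < δ → ((b, 0) : Y × ℝ) ∈ ball (0 : Y × ℝ) δ := by
    intro b hb
    rw [mem_ball_zero_iff, Prod.norm_def]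
    exact max_lt hb (by simpa using hδ)
  have hsm : ∀ b : Y, ‖b‖ < δ → ContDiffAt ℝ ∞ (fun b' : Y => e.symm (b', 0)) b := by
    intro b hb
    obtain ⟨h1, B, hB⟩ := hball (hin b hb)
    have h2 : ContDiffAt ℝ ∞ e.symm (b, 0) := by
      refine e.contDiffAt_symm (f₀' := B) h1 ?_ hΨs.contDiffAt
      rw [hB]
      exact (hΨd _).hasFDerivAt
    exact h2.comp b (contDiffAt_id.prodMk contDiffAt_const)
  let χ : ContDiffBump (0 : Y) := ⟨δ / 4, δ / 2, by positivity, by linarith⟩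
  have hχ1 : ∀ b : Y, ‖b‖ ≤ δ / 4 → χ b = 1 := fun b hb =>
    χ.one_of_mem_closedBall (mem_closedBall_zero_iff.2 hb)
  have hP : ∀ b : Y, ‖b‖ ≤ δ / 4 → p₀ + χ b • (e.symm (b, 0) - p₀) = e.symm (b, 0) := by
    intro b hb
    rw [hχ1 b hb, one_smul]
    abel
  obtain ⟨R₂, hR₂, hR₂s⟩ := Metric.mem_nhds_iff.1 (e.open_source.mem_nhds hs)
  refine ⟨fun b => p₀ + χ b • (e.symm (b, 0) - p₀), δ / 4,
    min (R₂ / 2) (δ / 4 / (‖pr‖ + 1)), by positivity, by positivity, ?_, ?_, ?_, ?_⟩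
  · refine contDiff_iff_contDiffAt.2 fun b => contDiffAt_const.add ?_
    by_cases hb : ‖b‖ < δ
    · exact χ.contDiff.contDiffAt.smul ((hsm b hb).sub contDiffAt_const)
    · have hn : {b' : Y | δ / 2 < ‖b'‖} ∈ 𝓝 b :=
        (isOpen_lt continuous_const continuous_norm).mem_nhds (by
          show δ / 2 < ‖b‖
          linarith [not_lt.1 hb])
      refine (contDiffAt_const (c := (0 : E))).congr_of_eventuallyEq ?_
      filter_upwards [hn] with b' hb'
      rw [χ.zero_of_le_dist (by simpa using le_of_lt hb'), zero_smul]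
  · have : ((0 : Y), (0 : ℝ)) = (0 : Y × ℝ) := rfl
    simp only [this, hi0, sub_self, smul_zero, add_zero]
  · intro b hb
    have h1 := (hball (hin b (by linarith))).1
    have h2 : Ψ (e.symm (b, 0)) = (b, 0) := e.right_inv h1
    simp only [hP b hb]
    exact ⟨congrArg Prod.snd h2, congrArg Prod.fst h2⟩
  · intro x hx hxR
    have h1 : x ∈ e.source := hR₂s (by
      rw [mem_ball, dist_eq_norm]
      linarith [min_le_left (R₂ / 2) (δ / 4 / (‖pr‖ + 1))])
    have h2 : ‖pr (x - p₀)‖ ≤ δ / 4 := by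
      have h3 := hxR.trans (min_le_right _ _)
      rw [le_div_iff₀ (by positivity)] at h3
      have h4 := pr.le_opNorm (x - p₀)
      nlinarith [norm_nonneg (x - p₀)]
    have h3 : e.symm (Ψ x) = x := e.left_inv h1
    simp only [hP _ h2]
    simpa only [hΨ, hx] using h3

theorem ChartEx_lin (hm : m + 2 = 2 * n) {g : Vs n} (hg : nsq g ≠ 0) :
    ∃ (pr : Vs n →L[ℝ] Ys m) (A : Vs n ≃L[ℝ] Ys m × ℝ),
      (∀ v, (pr v).2 = (ip v g).im) ∧ ∀ v, A v = (pr v, (ip v g).re) := by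
  let L : Vs n →ₗ[ℝ] ℂ :=
    { toFun := fun v => ip v g
      map_add' := fun u v => ip_add_left u v g
      map_smul' := fun c v => by
        have := ip_smul_left (c : ℂ) v g
        simpa using this }
  have hL : ∀ v, L v = ip v g := fun _ => rfl
  have hg' : (nsq g : ℂ) ≠ 0 := ofReal_ne_zero.2 hg
  have hsur : LinearMap.range L = ⊤ := by
    refine LinearMap.range_eq_top.2 fun c => ⟨(c / nsq g) • g, ?_⟩
    rw [hL, ip_smul_left, ip_self, div_mul_cancel₀ _ hg']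
  have hE : Module.finrank ℝ (Vs n) = 2 * n := by
    simp [Module.finrank_pi_fintype, mul_comm]
  have hk : Module.finrank ℝ (LinearMap.ker L) = m := by
    have := L.finrank_range_add_finrank_ker
    rw [hsur, finrank_top, finrank_real_complex, hE] at this
    omega
  obtain ⟨π, hπ⟩ := (LinearMap.ker L).subtype.exists_leftInverse_of_injective
    (Submodule.ker_subtype _)
  let φ : LinearMap.ker L ≃ₗ[ℝ] (Fin m → ℝ) := LinearEquiv.ofFinrankEq _ _ (by simp [hk])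
  let p : Vs n →ₗ[ℝ] Ys m := (φ.toLinearMap ∘ₗ π).prod (imLm ∘ₗ L)
  let A₀ : Vs n →ₗ[ℝ] Ys m × ℝ := p.prod (reLm ∘ₗ L)
  have hinj : Function.Injective A₀ := by
    refine (injective_iff_map_eq_zero A₀).2 fun v hv => ?_
    have h1 : φ (π v) = 0 := congrArg (fun y => y.1.1) hv
    have h2 : (L v).im = 0 := congrArg (fun y => y.1.2) hv
    have h3 : (L v).re = 0 := congrArg (fun y => y.2) hv
    have h4 : v ∈ LinearMap.ker L := Complex.ext h3 h2
    have h5 : π v = ⟨v, h4⟩ := LinearMap.congr_fun hπ ⟨v, h4⟩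
    rw [h5, map_eq_zero_iff _ φ.injective] at h1
    exact congrArg Subtype.val h1
  have hdim : Module.finrank ℝ (Vs n) = Module.finrank ℝ (Ys m × ℝ) := by
    rw [hE]
    simp
    omega
  exact ⟨LinearMap.toContinuousLinearMap p,
    (A₀.linearEquivOfInjective hinj hdim).toContinuousLinearEquiv, fun _ => rfl, fun _ => rfl⟩

theorem ChartEx_zero {Y : Type} [NormedAddCommGroup Y] [NormedSpace ℝ Y] {u w : Y → Vs n} {b : Y}
    (hu : DifferentiableAt ℝ u b) (hw : DifferentiableAt ℝ w b) (hu0 : u b = 0) (hw0 : w b = 0) :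
    HasFDerivAt (fun y => ip (u y) (w y)) (0 : Y →L[ℝ] ℂ) b := by
  have h : ∀ j : Fin n, HasFDerivAt (fun y => u y j * conj (w y j)) (0 : Y →L[ℝ] ℂ) b := by
    intro j
    have h1 := (differentiableAt_pi.1 hu j).hasFDerivAt
    have h2 : DifferentiableAt ℝ (fun y => conj (w y j)) b :=
      conjCLE.differentiableAt.comp b (differentiableAt_pi.1 hw j)
    have h3 := h1.fun_mul h2.hasFDerivAt
    refine h3.congr_fderiv ?_
    ext1 v
    simp [hu0, hw0]
  have := HasFDerivAt.fun_sum (u := Finset.univ) fun j _ => h j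
  simpa [ip] using this

theorem ChartEx_near {Z : Type} [PseudoMetricSpace Z] {G : Z → ℝ} (hG : Continuous G) (z₀ : Z)
    (h : G z₀ = -1) : ∃ δ, 0 < δ ∧ ∀ z, dist z z₀ < δ → G z ≤ -(1 / 2) := by
  obtain ⟨δ, hδ, h1⟩ := Metric.continuousAt_iff.1 (hG.continuousAt (x := z₀)) (1 / 2) (by norm_num)
  refine ⟨δ, hδ, fun z hz => ?_⟩
  have h2 := h1 hz
  rw [h, Real.dist_eq, abs_lt] at h2
  linarith [h2.2]

theorem Cvx.exists_chart (h : Cvx ρ R K) (hm : m + 2 = 2 * n) {p₀ : Vs n} (hp : ρ p₀ = 0) :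
    ∃ (P : Ys m → Vs n) (pr : Vs n →L[ℝ] Ys m) (r R₀ ϱ : ℝ), Chart ρ p₀ P pr r R₀ ϱ := by
  obtain ⟨pr, A, hpr, hA⟩ := ChartEx_lin hm (h.nsq_ne hp)
  obtain ⟨P, r₁, R₁, hr₁, hR₁, hPs, hP0, hmem, honto⟩ := ChartEx_graph h.smooth hp pr A (by
    ext1 v
    simp [hA, fderiv_eq_gr])
  have hH : ContDiff ℝ ∞ (Function.uncurry fun (z : Ys m × Vs n) (b' : Ys m) =>
      (co1 ρ (P b') z.2).2.re) := by
    have h1 : ContDiff ℝ ∞ fun q : (Ys m × Vs n) × Ys m => (P q.2, q.1.2) :=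
      (hPs.comp contDiff_snd).prodMk (contDiff_snd.comp contDiff_fst)
    exact reCLM.contDiff.comp (contDiff_snd.comp ((contDiff_co1 h.smooth).comp h1))
  have hG : Continuous fun z : Ys m × Vs n =>
      fderiv ℝ (fun b' => (co1 ρ (P b') z.2).2.re) z.1 (0, 1) :=
    ((hH.fderiv (n := 0) contDiff_fst (by simp)).clm_apply contDiff_const).continuous
  have hval : fderiv ℝ (fun b' => (co1 ρ (P b') p₀).2.re) 0 (0, 1) = -1 := by
    have hPd : DifferentiableAt ℝ P 0 := hPs.differentiable (by simp) 0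
    have hgd : DifferentiableAt ℝ (fun b' => gr ρ (P b') - gr ρ p₀) 0 :=
      ((((contDiff_gr h.smooth).comp hPs).differentiable (by simp)) 0).sub_const _
    have h1 := ChartEx_zero (u := fun b' => p₀ - P b') (hPd.const_sub p₀) hgd (by simp [hP0])
      (by simp [hP0])
    have h2 := imCLM.hasFDerivAt.comp (0 : Ys m) h1
    have h3 := h2.sub (ContinuousLinearMap.snd ℝ (Fin m → ℝ) ℝ).hasFDerivAt
    have h4 : HasFDerivAt (fun b' => (co1 ρ (P b') p₀).2.re)
        (imCLM.comp (0 : Ys m →L[ℝ] ℂ) - ContinuousLinearMap.snd ℝ (Fin m → ℝ) ℝ) (0 : Ys m) := by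
      refine h3.congr_of_eventuallyEq ?_
      filter_upwards [closedBall_mem_nhds (0 : Ys m) hr₁] with b hb
      have h5 := congrArg Prod.snd (hmem b (mem_closedBall_zero_iff.1 hb)).2
      rw [hpr] at h5
      have h6 : ip (p₀ - P b) (gr ρ (P b)) =
          ip (p₀ - P b) (gr ρ (P b) - gr ρ p₀) - ip (P b - p₀) (gr ρ p₀) := by
        rw [sub_eq_add_neg (ip _ _), ← ip_neg_left, neg_sub, ← ip_add_right, sub_add_cancel]
      simp only [co1, h6, Pi.sub_apply, Function.comp_apply, imCLM_apply,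
        ContinuousLinearMap.coe_snd', ← h5]
      simp
    rw [h4.fderiv]
    simp
  obtain ⟨δ, hδ, hball⟩ := ChartEx_near hG (0, p₀) hval
  set r := min r₁ (δ / 2) with hr
  have hr0 : 0 < r := by positivity
  set R₀ := min (min R₁ (δ / 2)) (r / 8 / (‖pr‖ + 1)) with hR₀
  have hR0 : 0 < R₀ := by positivity
  obtain ⟨η, hη, hηP⟩ := Metric.continuousAt_iff.1 (hPs.continuous.continuousAt (x := 0))
    (R₀ / 4) (by positivity)
  refine ⟨P, pr, r, R₀, min (r / 8) (η / 2), hR0, by positivity, ?_, hPs, hP0, ?_, ?_, ?_, ?_⟩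
  · linarith [min_le_left (r / 8) (η / 2)]
  · exact fun b hb => hmem b (hb.trans (min_le_left _ _))
  · intro x hx hxR
    refine ⟨?_, honto x hx (hxR.trans ((min_le_left _ _).trans (min_le_left _ _)))⟩
    have h3 := hxR.trans (min_le_right _ _)
    rw [le_div_iff₀ (by positivity)] at h3
    have h4 := pr.le_opNorm (x - p₀)
    nlinarith [norm_nonneg (x - p₀)]
  · intro b X hb hX
    have h1 : ‖b‖ ≤ δ / 2 := hb.trans (min_le_right _ _)
    have h2 : ‖X - p₀‖ ≤ δ / 2 := hX.trans ((min_le_left _ _).trans (min_le_right _ _))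
    have h3 : dist ((b, X) : Ys m × Vs n) (0, p₀) < δ := by
      rw [Prod.dist_eq, dist_zero_right, dist_eq_norm]
      exact max_lt (by linarith) (by linarith)
    exact hball (b, X) h3
  · intro b hb
    have h1 : dist b 0 < η := by
      rw [dist_zero_right]
      linarith [min_le_right (r / 8) (η / 2)]
    have h2 := hηP h1
    rw [hP0, dist_eq_norm] at h2
    exact h2.le

end Pool.Agent.Lib.MP_601e9e_an.Cv
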