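import Pool.Agent.Lib.MP_601e9e_an.Step

/-!
Strongly convex domains: definitions and algebra.
-/

set_option autoImplicit false

open Complex Metric Set ComplexConjugate
open scoped ContDiff

namespace Pool.Agent.Lib.MP_601e9e_an.Cv

noncomputable section

variable {n m : ℕ}

/-- the gradient: `fderiv ρ p v = re (ip v (gr ρ p))` -/
def gr (ρ : Vs n → ℝ) (p : Vs n) : Vs n := fun j =>
  (fderiv ℝ ρ p (Pi.single j 1) : ℂ) + (fderiv ℝ ρ p (Pi.single j I) : ℂ) * I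

/-- coordinates centred at `p`, before scaling -/
def co1 (ρ : Vs n → ℝ) (p X : Vs n) : Xs n := (X - p, -I * ip (X - p) (gr ρ p))

/-- coordinates centred at `p` at the scale `σ` -/
def co (ρ : Vs n → ℝ) (σ : ℝ) (p X : Vs n) : Xs n := dil σ⁻¹ (co1 ρ p X)

/-- projection onto the orthogonal complement of `g` -/
def pj (g v : Vs n) : Vs n := v - (ip v g / (nsq g : ℂ)) • g

/-- the affine left inverse of `co` -/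
def ch (ρ : Vs n → ℝ) (σ : ℝ) (p : Vs n) (ξ : Xs n) : Vs n :=
  p + (σ : ℂ) • pj (gr ρ p) ξ.1 + ((σ : ℂ) ^ 2 * I * ξ.2 / (nsq (gr ρ p) : ℂ)) • gr ρ p

/-- the free real coordinates -/
def fr (g : Vs n) (X : Xs n) : Xs n := (pj g X.1, (X.2.re : ℂ))

/-- the enlarged domain at the scale `σ` -/
def Ob (ρ : Vs n → ℝ) (R σ : ℝ) : Set (Vs n) := {X | ρ X < σ ^ 2 / 2 ∧ ‖X‖ < R}

/-- strong convexity with constants -/
structure Cvx (ρ : Vs n → ℝ) (R K : ℝ) : Prop where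
  smooth : ContDiff ℝ ∞ ρ
  K_ge : 1 ≤ K
  bdd : ∀ X, ρ X ≤ 0 → ‖X‖ ≤ R - 1
  low : ∀ p X, ‖p‖ ≤ R → ‖X‖ ≤ R → ‖X - p‖ ^ 2 / K ≤ ρ X - ρ p - (ip (X - p) (gr ρ p)).re
  up : ∀ p X, ‖p‖ ≤ R → ‖X‖ ≤ R → ρ X - ρ p - (ip (X - p) (gr ρ p)).re ≤ K * ‖X - p‖ ^ 2
  lip : ∀ p p', ‖p‖ ≤ R → ‖p'‖ ≤ R → ‖gr ρ p - gr ρ p'‖ ≤ K * ‖p - p'‖
  gup : ∀ p, ‖p‖ ≤ R → ‖gr ρ p‖ ≤ K
  glow : ∀ p, ρ p = 0 → 1 / K ≤ nsq (gr ρ p)

/-- the estimates for the denominators -/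
structure Geo (ρ : Vs n → ℝ) (R K : ℝ) : Prop extends Cvx ρ R K where
  qlow : ∀ σ p X, 0 < σ → ρ p = 0 → X ∈ Ob ρ R σ →
    1 / 2 + ‖X - p‖ ^ 2 / (K * σ ^ 2) ≤ ‖qq (co ρ σ p X)‖
  cole : ∀ σ p X, 0 < σ → ρ p = 0 → X ∈ Ob ρ R σ → ‖co ρ σ p X‖ ≤ K * ‖qq (co ρ σ p X)‖
  pjle : ∀ p v, ρ p = 0 → ‖pj (gr ρ p) v‖ ≤ K * ‖v‖
  chle : ∀ σ p ξ, 0 < σ → σ ≤ 1 → ρ p = 0 → ‖ch ρ σ p ξ - p‖ ≤ K * σ * ‖ξ‖
  chmem : ∀ σ p ξ, 0 < σ → σ ≤ 1 → ρ p = 0 → ‖ξ‖ < 1 / K → ch ρ σ p ξ ∈ Ob ρ R σ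
  chq : ∀ σ p p' ξ, 0 < σ → σ ≤ 1 → ρ p = 0 → ρ p' = 0 → ‖ξ‖ < 1 / K →
    ‖qq (co ρ σ p' (ch ρ σ p ξ)) - qq (co ρ σ p' p)‖ ≤ ‖qq (co ρ σ p' p)‖ / 2
  thick : ∀ σ x, 0 < σ → σ ≤ 1 → ρ x ≤ 0 → ball x (σ ^ 2 / K) ⊆ Ob ρ R σ

/-- holomorphic jets of order `k` at all boundary points -/
def JF {κ : Type} [Fintype κ] (ρ : Vs n → ℝ) (R : ℝ) (k : ℕ) (σ : ℝ) (F : Vs n → κ → ℂ)
    (β : ℝ) : Prop :=
  ∀ p, ρ p = 0 → ∃ v : Option (Idx (Lt n) k) → κ → ℂ, ∀ X ∈ Ob ρ R σ,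
    ‖F X - v none - ∑ a, mon cx (wd a) (co ρ σ p X) • v (some a)‖ ≤ β * ‖co ρ σ p X‖ ^ (k + 1)

/-- a polynomial in the coordinates and their conjugates, without constant term -/
def hp {M : ℕ} (v : Idx (Lt n ⊕ Lt n) M → ℂ) (X : Xs n) : ℂ :=
  ∑ a, mon c2 (wd a) (X, star X) * v a

/-- real jets of order `M` at all boundary points -/
def JE (ρ : Vs n → ℝ) (M : ℕ) (σ : ℝ) (e : Vs n → ℝ) (θ β : ℝ) : Prop :=
  ∀ p, ρ p = 0 → ∃ v : Idx (Lt n ⊕ Lt n) M → ℂ, ∑ a, ‖v a‖ ≤ θ ∧ ∀ x, ρ x = 0 →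
    ‖(e x : ℂ) - e p - hp v (co ρ σ p x)‖ ≤ β * ‖co ρ σ p x‖ ^ (M + 1)

/-- homogeneous polynomials with a bound for their size -/
inductive PN {V : Type} [NormedAddCommGroup V] [NormedSpace ℝ V] : ℕ → ℝ → (V → ℂ) → Prop
  | const (c : ℂ) : PN 0 ‖c‖ fun _ => c
  | mul (φ : V →L[ℝ] ℂ) {i : ℕ} {B : ℝ} {Q : V → ℂ} :
      PN i B Q → PN (i + 1) (‖φ‖ * B) fun X => φ X * Q X
  | add {i : ℕ} {B B' : ℝ} {Q Q' : V → ℂ} :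
      PN i B Q → PN i B' Q' → PN i (B + B') fun X => Q X + Q' X
  | mono {i : ℕ} {B B' : ℝ} {Q : V → ℂ} : PN i B Q → B ≤ B' → PN i B' Q

/-- `f` is a polynomial of degree at most `M` without constant term, of size at most `B` -/
def WD (M : ℕ) (B : ℝ) (f : Xs n → ℂ) : Prop :=
  ∃ v : Idx (Lt n ⊕ Lt n) M → ℂ, ∑ a, ‖v a‖ ≤ B ∧ ∀ X, f X = hp v X

/-- the kernels -/
def kk (e A : ℕ) (X : Xs n) : ℝ := (‖qq X‖ ^ 2 - 2 * rho X) ^ e * ker (2 * A) X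

/-- a weighted and coloured net of boundary points -/
structure IsNet (ρ : Vs n → ℝ) (R C σ : ℝ) (l L : ℕ) {Γ Co : Type} [Fintype Γ] (pt : Γ → Vs n)
    (wt : Γ → ℝ) (col : Γ → Co) (A : Set (Vs n)) : Prop where
  mem : ∀ γ, ρ (pt γ) = 0
  wt0 : ∀ γ, 0 ≤ wt γ
  wt1 : ∀ γ, wt γ ≤ 1
  up : ∀ X ∈ Ob ρ R σ, ∑ γ, ker (2 * n) (co ρ σ (pt γ) X) ≤ C * (l : ℝ) ^ (2 * n)
  sep : ∀ γ γ', γ ≠ γ' → col γ = col γ' → ∀ X ∈ Ob ρ R σ,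
    ((L : ℝ) + 1) / (C * (l : ℝ) ^ 2) ≤ ‖qq (co ρ σ (pt γ) X)‖ ∨
      ((L : ℝ) + 1) / (C * (l : ℝ) ^ 2) ≤ ‖qq (co ρ σ (pt γ') X)‖
  low : ∀ x ∈ A, ∃ s : Finset Γ, (l : ℝ) ^ (2 * n) ≤ s.card ∧
    ∀ γ ∈ s, 1 / 2 ≤ wt γ ∧ ‖qq (co ρ σ (pt γ) x)‖ ≤ C
  shift : ∀ x y, ρ x = 0 → ρ y = 0 → ∃ (s : Set Γ) (b : Γ → Γ), InjOn b s ∧
    (∀ γ ∈ s, ‖co ρ σ (pt (b γ)) y - co ρ σ (pt γ) x‖ ≤
        C * (1 / l + ‖x - y‖ + σ) * ‖qq (co ρ σ (pt γ) x)‖ ∧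
      wt γ ≤ wt (b γ) + C * (1 / l + ‖x - y‖ + σ)) ∧
    ∀ γ ∉ s, wt γ ≤ C * (1 / l + ‖x - y‖ + σ) * ‖qq (co ρ σ (pt γ) x)‖

/-- the weighted sum of the kernels -/
def SK (ρ : Vs n → ℝ) (σ : ℝ) (e A : ℕ) {Γ : Type} [Fintype Γ] (pt : Γ → Vs n) (wt : Γ → ℝ)
    (x : Vs n) : ℝ := ∑ γ, wt γ * kk e A (co ρ σ (pt γ) x)

open Classical in
/-- one peak, as a function of the coordinates; the block vector sits in the colour `c` -/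
def pe {M : ℕ} {B Co : Type} (A : ℕ) (c : Co) (nv : (Fin M → Bs n) → B → ℂ) (Y : Xs n) :
    Co × B → ℂ := fun cb =>
  if cb.1 = c then (qq Y ^ A)⁻¹ * (∑ w, num w Y • nv w) cb.2 else 0

/-- real parameters of the boundary -/
abbrev Ys (m : ℕ) : Type := (Fin m → ℝ) × ℝ

/-- a graph chart of the boundary at `p₀` -/
structure Chart (ρ : Vs n → ℝ) (p₀ : Vs n) (P : Ys m → Vs n) (pr : Vs n →L[ℝ] Ys m)
    (r R₀ ϱ : ℝ) : Prop where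
  R_pos : 0 < R₀
  ϱ_pos : 0 < ϱ
  ϱ_le : 8 * ϱ ≤ r
  smooth : ContDiff ℝ ∞ P
  zero : P 0 = p₀
  mem : ∀ b, ‖b‖ ≤ r → ρ (P b) = 0 ∧ pr (P b - p₀) = b
  onto : ∀ x, ρ x = 0 → ‖x - p₀‖ ≤ R₀ → ‖pr (x - p₀)‖ ≤ r / 8 ∧ P (pr (x - p₀)) = x
  slope : ∀ b X, ‖b‖ ≤ r → ‖X - p₀‖ ≤ R₀ →
    fderiv ℝ (fun b' => (co1 ρ (P b') X).2.re) b (0, 1) ≤ -(1 / 2)
  near : ∀ b, ‖b‖ ≤ ϱ → ‖P b - p₀‖ ≤ R₀ / 4

/-- integer points -/
abbrev Lz (m : ℕ) : Type := (Fin m → ℤ) × ℤ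

/-- the anisotropic lattice -/
def lb (σ : ℝ) (l : ℕ) (γ : Lz m) : Ys m := (fun i => σ * γ.1 i / l, σ ^ 2 * γ.2 / (l : ℝ) ^ 2)

/-- the lattice points in use -/
abbrev Lg (m : ℕ) (σ : ℝ) (l : ℕ) (ϱ : ℝ) : Type := {γ : Lz m // ‖lb σ l γ‖ < ϱ}

/-- the colours -/
abbrev Cl (m L : ℕ) : Type := (Fin m → ZMod (L + 1)) × ZMod (L + 1)

def cl (L : ℕ) (γ : Lz m) : Cl m L := (fun i => (γ.1 i : ZMod (L + 1)), (γ.2 : ZMod (L + 1)))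

variable {ρ : Vs n → ℝ} {R K σ : ℝ}

theorem fderiv_eq_gr (ρ : Vs n → ℝ) (p v : Vs n) : fderiv ℝ ρ p v = (ip v (gr ρ p)).re := by
  have hv : v = ∑ j, ((v j).re • (Pi.single j 1 : Vs n) + (v j).im • (Pi.single j I : Vs n)) := by
    ext i
    simp only [Finset.sum_apply, Pi.add_apply, Pi.smul_apply, Pi.single_apply]
    rw [Finset.sum_eq_single i (fun j _ hj => by simp [Ne.symm hj]) (by simp)]
    simp
  conv_lhs => rw [hv]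
  simp [ip, gr, map_sum]

theorem contDiff_gr (h : ContDiff ℝ ∞ ρ) : ContDiff ℝ ∞ (gr ρ) := by
  have h1 : ContDiff ℝ ∞ (fderiv ℝ ρ) := h.fderiv_right (m := ∞) (by simp)
  refine contDiff_pi.2 fun j => ?_
  exact (ofRealCLM.contDiff.comp (h1.clm_apply contDiff_const)).add
    ((ofRealCLM.contDiff.comp (h1.clm_apply contDiff_const)).mul contDiff_const)

theorem contDiff_ip : ContDiff ℝ ∞ fun p : Vs n × Vs n => ip p.1 p.2 := by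
  unfold ip
  refine ContDiff.sum fun j _ => ContDiff.mul (by fun_prop) ?_
  exact conjCLE.contDiff.comp (f := fun p : Vs n × Vs n => p.2 j) (by fun_prop)

theorem contDiff_co1 (h : ContDiff ℝ ∞ ρ) :
    ContDiff ℝ ∞ fun p : Vs n × Vs n => co1 ρ p.1 p.2 :=
  (contDiff_snd.sub contDiff_fst).prodMk (contDiff_const.mul
    (contDiff_ip.comp ((contDiff_snd.sub contDiff_fst).prodMk
      ((contDiff_gr h).comp contDiff_fst))))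

theorem co_fst (p X : Vs n) : (co ρ σ p X).1 = ((σ⁻¹ : ℝ) : ℂ) • (X - p) := rfl

theorem co_snd (p X : Vs n) :
    (co ρ σ p X).2 = ((σ⁻¹ : ℝ) : ℂ) ^ 2 * (-I * ip (X - p) (gr ρ p)) := rfl

theorem co_self (p : Vs n) : co ρ σ p p = 0 := by
  simp [co, co1, dil, ip_zero_left]

theorem qq_co (p X : Vs n) :
    qq (co ρ σ p X) = 1 - ((σ⁻¹ : ℝ) : ℂ) ^ 2 * ip (X - p) (gr ρ p) := by
  rw [qq, co_snd]
  linear_combination (((σ⁻¹ : ℝ) : ℂ) ^ 2 * ip (X - p) (gr ρ p)) * I_mul_I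

theorem norm_co_fst (hσ : 0 < σ) (p X : Vs n) : ‖(co ρ σ p X).1‖ = ‖X - p‖ / σ := by
  rw [co_fst, norm_smul, norm_real, norm_inv, Real.norm_of_nonneg hσ.le, div_eq_inv_mul]

theorem norm_snd_le_qq (X : Xs n) : ‖X.2‖ ≤ ‖qq X‖ + 1 := by
  have e : X.2 = I * (qq X - 1) := by
    simp only [qq]
    linear_combination X.2 * I_mul_I
  rw [e, norm_mul, norm_I, one_mul]
  simpa using norm_sub_le (qq X) 1

theorem co_dil {T : ℝ} (hT : T ≠ 0) (p X : Vs n) : co ρ σ p X = dil T⁻¹ (co ρ (σ / T) p X) := by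
  rw [co, co, dil_dil, inv_div, div_eq_mul_inv, inv_mul_cancel_left₀ hT]

theorem differentiable_co (p : Vs n) : Differentiable ℂ (co ρ σ p) := by
  unfold co co1 dil ip
  fun_prop

theorem differentiable_ch (p : Vs n) : Differentiable ℂ (ch ρ σ p) := by
  unfold ch pj ip
  fun_prop

theorem ip_pj {g : Vs n} (hg : nsq g ≠ 0) (v : Vs n) : ip (pj g v) g = 0 := by
  have : (nsq g : ℂ) ≠ 0 := ofReal_ne_zero.2 hg
  rw [pj, ip_sub_left, ip_smul_left, ip_self]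
  field_simp
  ring

theorem pj_pj {g : Vs n} (hg : nsq g ≠ 0) (v : Vs n) : pj g (pj g v) = pj g v := by
  conv_lhs => rw [pj, ip_pj hg]
  simp

theorem pj_add (g v w : Vs n) : pj g (v + w) = pj g v + pj g w := by
  simp only [pj, ip_add_left, add_div, add_smul]
  abel

theorem pj_smul (g v : Vs n) (c : ℂ) : pj g (c • v) = c • pj g v := by
  simp only [pj, ip_smul_left, smul_sub, smul_smul, mul_div_assoc]

theorem pj_self {g : Vs n} (hg : nsq g ≠ 0) : pj g g = 0 := by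
  have : (nsq g : ℂ) ≠ 0 := ofReal_ne_zero.2 hg
  rw [pj, ip_self, div_self this, one_smul, sub_self]

theorem ch_zero (p : Vs n) : ch ρ σ p 0 = p := by simp [ch, pj, ip_zero_left]

theorem ch_co (hσ : σ ≠ 0) (p X : Vs n) : ch ρ σ p (co ρ σ p X) = X := by
  have h : (σ : ℂ) ≠ 0 := ofReal_ne_zero.2 hσ
  have e : (σ : ℂ) ^ 2 * I * (((σ⁻¹ : ℝ) : ℂ) ^ 2 * (-I * ip (X - p) (gr ρ p))) =
      ip (X - p) (gr ρ p) := by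
    push_cast
    field_simp
    linear_combination (-ip (X - p) (gr ρ p)) * I_mul_I
  rw [ch, co_fst, co_snd, e, pj_smul, smul_smul, ← ofReal_mul, mul_inv_cancel₀ hσ, ofReal_one,
    one_smul, pj]
  abel

theorem co_ch (hσ : σ ≠ 0) {p : Vs n} (hg : nsq (gr ρ p) ≠ 0) (ξ : Xs n) :
    co ρ σ p (ch ρ σ p ξ) =
      (pj (gr ρ p) ξ.1 + ((σ : ℂ) * I * ξ.2 / (nsq (gr ρ p) : ℂ)) • gr ρ p, ξ.2) := by
  have h : (σ : ℂ) ≠ 0 := ofReal_ne_zero.2 hσ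
  have h' : (nsq (gr ρ p) : ℂ) ≠ 0 := ofReal_ne_zero.2 hg
  have e : ch ρ σ p ξ - p = (σ : ℂ) • pj (gr ρ p) ξ.1 +
      ((σ : ℂ) ^ 2 * I * ξ.2 / (nsq (gr ρ p) : ℂ)) • gr ρ p := by
    rw [ch]
    abel
  refine Prod.ext ?_ ?_
  · rw [co_fst, e, smul_add, smul_smul, smul_smul]
    push_cast
    congr 1
    · rw [inv_mul_cancel₀ h, one_smul]
    · congr 1
      field_simp
  · rw [co_snd, e, ip_add_left, ip_smul_left, ip_smul_left, ip_pj hg, ip_self]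
    push_cast
    field_simp
    linear_combination (-(σ : ℂ) * ξ.2) * I_mul_I

theorem Ob_mono {σ' : ℝ} (h0 : 0 ≤ σ') (h : σ' ≤ σ) : Ob ρ R σ' ⊆ Ob ρ R σ := fun _ hX =>
  ⟨hX.1.trans_le (by gcongr), hX.2⟩

theorem Cvx.isOpen (h : Cvx ρ R K) (σ : ℝ) : IsOpen (Ob ρ R σ) :=
  (isOpen_lt h.smooth.continuous continuous_const).inter
    (isOpen_lt continuous_norm continuous_const)

theorem Cvx.mem_Ob (h : Cvx ρ R K) (hσ : 0 < σ) {x : Vs n} (hx : ρ x ≤ 0) : x ∈ Ob ρ R σ :=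
  ⟨hx.trans_lt (by positivity), by linarith [h.bdd x hx]⟩

theorem Cvx.norm_le (h : Cvx ρ R K) {x : Vs n} (hx : ρ x ≤ 0) : ‖x‖ ≤ R := by
  linarith [h.bdd x hx]

theorem Cvx.K_pos (h : Cvx ρ R K) : 0 < K := one_pos.trans_le h.K_ge

theorem Cvx.nsq_ne (h : Cvx ρ R K) {p : Vs n} (hp : ρ p = 0) : nsq (gr ρ p) ≠ 0 :=
  ((one_div_pos.2 h.K_pos).trans_le (h.glow p hp)).ne'

theorem Cvx.isCompact (h : Cvx ρ R K) : IsCompact {x | ρ x = 0} :=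
  (isCompact_closedBall (0 : Vs n) R).of_isClosed_subset
    (isClosed_eq h.smooth.continuous continuous_const)
    fun _ hx => mem_closedBall_zero_iff.2 (h.norm_le (le_of_eq hx))

theorem Geo.half_le (h : Geo ρ R K) (hσ : 0 < σ) {p X : Vs n} (hp : ρ p = 0)
    (hX : X ∈ Ob ρ R σ) : 1 / 2 ≤ ‖qq (co ρ σ p X)‖ := by
  have h1 := h.qlow σ p X hσ hp hX
  have h2 := h.K_pos
  have : 0 ≤ ‖X - p‖ ^ 2 / (K * σ ^ 2) := by positivity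
  linarith

theorem Geo.sq_le (h : Geo ρ R K) (hσ : 0 < σ) {p X : Vs n} (hp : ρ p = 0)
    (hX : X ∈ Ob ρ R σ) : ‖X - p‖ ^ 2 ≤ K * σ ^ 2 * ‖qq (co ρ σ p X)‖ := by
  have h1 := h.qlow σ p X hσ hp hX
  have h2 := h.K_pos
  rw [← div_le_iff₀' (by positivity)]
  linarith

theorem Geo.dist_le (h : Geo ρ R K) (hσ : 0 < σ) {p X : Vs n} (hp : ρ p = 0)
    (hX : X ∈ Ob ρ R σ) : ‖X - p‖ ≤ K * σ * ‖qq (co ρ σ p X)‖ := by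
  have h1 := (norm_fst_le _).trans (h.cole σ p X hσ hp hX)
  rw [norm_co_fst hσ, div_le_iff₀ hσ] at h1
  linarith

theorem ker_le {a b : ℕ} (hab : a ≤ b) {X : Xs n} (hX : 1 / 2 ≤ ‖qq X‖) :
    ker b X ≤ 2 ^ (b - a) * ker a X := by
  obtain ⟨c, rfl⟩ := Nat.exists_eq_add_of_le hab
  have h0 : 0 < ‖qq X‖ := by linarith
  rw [Nat.add_sub_cancel_left, ker, ker, pow_add, mul_inv, mul_comm, ← inv_pow _ c]
  gcongr
  rw [inv_le_comm₀ h0 two_pos]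
  linarith

theorem ker_mul {X : Xs n} (hX : 1 / 2 ≤ ‖qq X‖) (a b : ℕ) :
    ker (a + b) X * ‖qq X‖ ^ b = ker a X := by
  have h0 : ‖qq X‖ ≠ 0 := by linarith
  unfold ker
  rw [pow_add]
  field_simp

theorem nn_eq (X : Xs n) : ‖qq X‖ ^ 2 - 2 * rho X = 1 + ‖X.2‖ ^ 2 + 2 * nsq X.1 := by
  rw [← dn_sum_bas, Fintype.sum_sum_type, Fintype.sum_option, Fintype.sum_option]
  simp only [bas, cx, norm_one, nsq]
  ring

end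

end Pool.Agent.Lib.MP_601e9e_an.Cv
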