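import Pool.Agent.Lib.MP_601e9e_an.Cv.Wd

/-!
Elimination of the imaginary part of the last coordinate.
-/

set_option autoImplicit false

open Complex Metric Set ComplexConjugate
open scoped ContDiff

namespace Pool.Agent.Lib.MP_601e9e_an.Cv

variable {n m : ℕ} {ρ : Vs n → ℝ} {R K σ : ℝ}

theorem elim_aux (n M : ℕ) {D : ℝ} (hD : 1 ≤ D) (d : ℕ) : ∃ C : ℝ, 1 ≤ C ∧
    ∀ (S : Set (Xs n)) (e : Xs n) (Rr : ℕ → Xs n → ℂ), ‖e‖ ≤ D → (∀ X ∈ S, ‖X‖ ≤ 1) →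
      (∀ i, 2 ≤ i → i ≤ M → PN i D (Rr i)) →
      (∀ X ∈ S, ‖(X.2.im : ℂ) - ∑ i ∈ Finset.Icc 2 M, Rr i X‖ ≤ D * ‖X‖ ^ (M + 1)) →
      ∀ (i : ℕ) (B : ℝ) (Q : Xs n → ℂ), 1 ≤ i → M + 1 ≤ i + d → PN i B Q →
        ∃ f' : Xs n → ℂ, WD M (C * B) f' ∧
          ∀ X ∈ S, ‖Q X - f' (X - X.2.im • e)‖ ≤ C * B * ‖X‖ ^ (M + 1) := by
  induction d with
  | zero =>
    refine ⟨1, le_rfl, fun S e Rr _ hS _ _ i B Q _ hi hQ => ⟨fun _ => 0,
      (WD.zero M).mono (by simpa using hQ.nonneg), fun X hX => ?_⟩⟩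
    rw [sub_zero, one_mul]
    exact (hQ.norm_le X).trans (mul_le_mul_of_nonneg_left
      (pow_le_pow_of_le_one (norm_nonneg _) (hS X hX) hi) hQ.nonneg)
  | succ d ih =>
    obtain ⟨C, hC, ih⟩ := ih
    have hn : (1 : ℝ) ≤ 2 * (n + 1) := by linarith [Nat.cast_nonneg (α := ℝ) n]
    have hD2 : 1 ≤ 2 * D := by linarith
    obtain ⟨E, hE⟩ : ∃ E : ℝ, E = D * (M * (2 * D) ^ M) := ⟨_, rfl⟩
    have hE0 : 0 ≤ E := by rw [hE]; positivity
    have hP : (1 : ℝ) ≤ (2 * (n + 1)) ^ M := one_le_pow₀ hn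
    have hM0 : 0 ≤ (M : ℝ) * (C * E) := by positivity
    refine ⟨C + (2 * (n + 1)) ^ M + M * (C * E) + E, by linarith,
      fun S e Rr he hS hR hs i B Q h1 hi hQ => ?_⟩
    have hB := hQ.nonneg
    by_cases hi' : M + 1 ≤ i + d
    · obtain ⟨f', h2, h3⟩ := ih S e Rr he hS hR hs i B Q h1 hi' hQ
      exact ⟨f', h2.mono (by gcongr; linarith), fun X hX =>
        (h3 X hX).trans (by gcongr; linarith)⟩
    have hiM : i ≤ M := by omega
    let s : Xs n →L[ℝ] ℝ := imCLM.comp (ContinuousLinearMap.snd ℝ (Vs n) ℂ)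
    have hsa : ∀ X, s X = X.2.im := fun _ => rfl
    obtain ⟨Q₁, hQ₁, hq⟩ := hQ.div s e hD2 (by linarith) fun X => by
      refine (norm_sub_le _ _).trans ?_
      have h2 : |X.2.im| ≤ ‖X‖ := (abs_im_le_norm _).trans (norm_snd_le X)
      rw [norm_smul, hsa, Real.norm_eq_abs]
      have h3 : |X.2.im| * ‖e‖ ≤ ‖X‖ * D := by gcongr
      nlinarith [norm_nonneg X]
    have hQ₂ : PN (i - 1) (M * (2 * D) ^ M * B) Q₁ := hQ₁.mono (by
      have := pow_le_pow_right₀ hD2 hiM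
      gcongr)
    have hj : ∀ j ∈ Finset.Icc 2 M, ∃ f' : Xs n → ℂ, WD M (C * E * B) f' ∧
        ∀ X ∈ S, ‖Rr j X * Q₁ X - f' (X - X.2.im • e)‖ ≤ C * E * B * ‖X‖ ^ (M + 1) := by
      intro j hj
      rw [Finset.mem_Icc] at hj
      have h2 := ih S e Rr he hS hR hs _ _ _ (by omega) (by omega) ((hR j hj.1 hj.2).mul' hQ₂)
      rwa [show C * (D * (M * (2 * D) ^ M * B)) = C * E * B by rw [hE]; ring] at h2
    choose! F hF1 hF2 using hj
    have hcard : ((Finset.Icc 2 M).card : ℝ) ≤ M := by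
      rw [Nat.card_Icc]
      exact_mod_cast (by omega : M + 1 - 2 ≤ M)
    refine ⟨fun X => Q X + ∑ j ∈ Finset.Icc 2 M, F j X,
      ((hQ.wd h1 hiM).add (WD.sum _ hF1)).mono ?_, fun X hX => ?_⟩
    · rw [Finset.sum_const, nsmul_eq_mul]
      have h2 : (2 * ((n : ℝ) + 1)) ^ i * B ≤ (2 * (n + 1)) ^ M * B := by
        have := pow_le_pow_right₀ hn hiM
        gcongr
      have h3 : ((Finset.Icc 2 M).card : ℝ) * (C * E * B) ≤ M * (C * E * B) := by gcongr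
      nlinarith [mul_nonneg hE0 hB, mul_nonneg (zero_le_one.trans hC) hB]
    · have e1 : Q X - (Q (X - X.2.im • e) + ∑ j ∈ Finset.Icc 2 M, F j (X - X.2.im • e)) =
          ((X.2.im : ℂ) - ∑ i ∈ Finset.Icc 2 M, Rr i X) * Q₁ X +
            ∑ j ∈ Finset.Icc 2 M, (Rr j X * Q₁ X - F j (X - X.2.im • e)) := by
        have := hq X
        rw [hsa] at this
        rw [Finset.sum_sub_distrib, ← Finset.sum_mul]
        linear_combination this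
      have h2 : ‖Q₁ X‖ ≤ M * (2 * D) ^ M * B := (hQ₂.norm_le X).trans
        (mul_le_of_le_one_right hQ₂.nonneg (pow_le_one₀ (norm_nonneg _) (hS X hX)))
      have h3 : ‖((X.2.im : ℂ) - ∑ i ∈ Finset.Icc 2 M, Rr i X) * Q₁ X‖ ≤
          E * B * ‖X‖ ^ (M + 1) := by
        rw [norm_mul]
        refine (mul_le_mul (hs X hX) h2 (norm_nonneg _) (by positivity)).trans (le_of_eq ?_)
        rw [hE]
        ring
      have h4 := (norm_sum_le _ _).trans (Finset.sum_le_sum fun j hj => hF2 j hj X hX)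
      rw [Finset.sum_const, nsmul_eq_mul] at h4
      have h5 : ((Finset.Icc 2 M).card : ℝ) * (C * E * B * ‖X‖ ^ (M + 1)) ≤
          M * (C * E * B * ‖X‖ ^ (M + 1)) := by gcongr
      have h6 : 0 ≤ (C + (2 * (n + 1)) ^ M) * B * ‖X‖ ^ (M + 1) := by positivity
      rw [e1]
      refine (norm_add_le _ _).trans ?_
      linarith

theorem elim (n M : ℕ) {D : ℝ} (hD : 1 ≤ D) : ∃ C : ℝ, 1 ≤ C ∧
    ∀ (S : Set (Xs n)) (e : Xs n) (Rr : ℕ → Xs n → ℂ), ‖e‖ ≤ D → (∀ X ∈ S, ‖X‖ ≤ 1) →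
      (∀ i, 2 ≤ i → i ≤ M → PN i D (Rr i)) →
      (∀ X ∈ S, ‖(X.2.im : ℂ) - ∑ i ∈ Finset.Icc 2 M, Rr i X‖ ≤ D * ‖X‖ ^ (M + 1)) →
      ∀ (B : ℝ) (f : Xs n → ℂ), WD M B f → ∃ f' : Xs n → ℂ, WD M (C * B) f' ∧
        ∀ X ∈ S, ‖f X - f' (X - X.2.im • e)‖ ≤ C * B * ‖X‖ ^ (M + 1) := by
  obtain ⟨C, hC, h⟩ := elim_aux n M hD M
  refine ⟨C, hC, fun S e Rr he hS hR hs B f ⟨v, h1, h2⟩ => ?_⟩
  choose F hF1 hF2 using fun a : Idx (Lt n ⊕ Lt n) M => h S e Rr he hS hR hs _ _ _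
    (wd_length a).1 (by have := (wd_length a).1; omega) ((word_PN (wd a)).smul (v a))
  have h3 : ∑ a, C * (‖v a‖ * 1) ≤ C * B := by
    simp only [mul_one, ← Finset.mul_sum]
    gcongr
  refine ⟨fun X => ∑ a, F a X, (WD.sum _ fun a _ => hF1 a).mono h3, fun X hX => ?_⟩
  rw [h2, hp, ← Finset.sum_sub_distrib]
  refine (norm_sum_le _ _).trans ((Finset.sum_le_sum (g := fun a => C * (‖v a‖ * 1) * ‖X‖ ^ (M + 1))
    fun a _ => ?_).trans ?_)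
  · rw [mul_comm]
    exact hF2 a X hX
  · rw [← Finset.sum_mul]
    gcongr

end Pool.Agent.Lib.MP_601e9e_an.Cv
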