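import Pool.Agent.Lib.MP_601e9e_an.Cv.Defs

/-!
Second order estimates in a chart.
-/

set_option autoImplicit false

open Complex Metric Set ComplexConjugate
open scoped ContDiff

namespace Pool.Agent.Lib.MP_601e9e_an.Cv

variable {n m : ℕ} {ρ : Vs n → ℝ} {R K σ : ℝ}

variable {p₀ : Vs n} {P : Ys m → Vs n} {pr : Vs n →L[ℝ] Ys m} {r R₀ ϱ : ℝ}

theorem mv_ball {E F : Type} [NormedAddCommGroup E] [NormedSpace ℝ E]
    [NormedAddCommGroup F] [NormedSpace ℝ F] {f : E → F} {f' : E → E →L[ℝ] F} {s C : ℝ}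
    (hf : ∀ x, HasFDerivAt f (f' x) x) (hC : ∀ x, ‖x‖ ≤ s → ‖f' x‖ ≤ C) {x y : E}
    (hx : ‖x‖ ≤ s) (hy : ‖y‖ ≤ s) : ‖f x - f y‖ ≤ C * ‖x - y‖ :=
  (convex_closedBall (0 : E) s).norm_image_sub_le_of_norm_hasFDerivWithin_le
    (fun z _ => (hf z).hasFDerivWithinAt) (fun z hz => hC z (mem_closedBall_zero_iff.1 hz))
    (mem_closedBall_zero_iff.2 hy) (mem_closedBall_zero_iff.2 hx)

theorem lip_ball {E F : Type} [NormedAddCommGroup E] [NormedSpace ℝ E] [FiniteDimensional ℝ E]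
    [NormedAddCommGroup F] [NormedSpace ℝ F] {f : E → F} (hf : ContDiff ℝ 1 f) (s : ℝ) :
    ∃ C : ℝ, 0 ≤ C ∧ ∀ x y, ‖x‖ ≤ s → ‖y‖ ≤ s → ‖f x - f y‖ ≤ C * ‖x - y‖ := by
  have : ProperSpace E := FiniteDimensional.proper ℝ E
  obtain ⟨C, hC⟩ := (isCompact_closedBall (0 : E) s).exists_bound_of_continuousOn
    (hf.continuous_fderiv one_ne_zero).continuousOn
  exact ⟨max C 0, le_max_right _ _, fun x y hx hy =>
    mv_ball (fun z => (hf.differentiable one_ne_zero z).hasFDerivAt)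
      (fun z hz => (hC z (mem_closedBall_zero_iff.2 hz)).trans (le_max_left _ _)) hx hy⟩

theorem hasFDerivAt_snd_slice {Y F : Type} [NormedAddCommGroup Y] [NormedSpace ℝ Y]
    [NormedAddCommGroup F] [NormedSpace ℝ F] {g : Y × Y → F} (hg : Differentiable ℝ g)
    (c b : Y) : HasFDerivAt (fun b => g (c, b))
      ((fderiv ℝ g (c, b)).comp (ContinuousLinearMap.inr ℝ Y Y)) b :=
  (hg (c, b)).hasFDerivAt.comp b (hasFDerivAt_prodMk_right c b)

theorem mixed {Y F : Type} [NormedAddCommGroup Y] [NormedSpace ℝ Y] [FiniteDimensional ℝ Y]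
    [NormedAddCommGroup F] [NormedSpace ℝ F] {g : Y × Y → F} (hg : ContDiff ℝ 2 g) (s : ℝ) :
    ∃ C : ℝ, 0 ≤ C ∧ ∀ c c' b b' : Y, ‖c‖ ≤ s → ‖c'‖ ≤ s → ‖b‖ ≤ s → ‖b'‖ ≤ s →
      ‖g (c, b) - g (c, b')‖ ≤ C * ‖b - b'‖ ∧ ‖g (c, b) - g (c', b)‖ ≤ C * ‖c - c'‖ ∧
      ‖g (c, b) - g (c', b) - (g (c, 0) - g (c', 0))‖ ≤ C * (‖c - c'‖ * ‖b‖) := by
  obtain ⟨C₁, h₁0, h₁⟩ := lip_ball (hg.of_le (by norm_num)) s
  have hd : ContDiff ℝ 1 fun z => (fderiv ℝ g z).comp (ContinuousLinearMap.inr ℝ Y Y) :=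
    (hg.fderiv_right (m := 1) (by norm_num)).clm_comp contDiff_const
  obtain ⟨C₂, h₂0, h₂⟩ := lip_ball hd s
  have np : ∀ c b : Y, ‖c‖ ≤ s → ‖b‖ ≤ s → ‖(c, b)‖ ≤ s := fun c b hc hb => max_le hc hb
  refine ⟨C₁ + C₂, by positivity, fun c c' b b' hc hc' hb hb' => ⟨?_, ?_, ?_⟩⟩
  · have := h₁ _ _ (np c b hc hb) (np c b' hc hb')
    simp only [Prod.mk_sub_mk, sub_self, Prod.norm_mk, norm_zero, norm_nonneg,
      max_eq_right] at this
    nlinarith [norm_nonneg (b - b')]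
  · have := h₁ _ _ (np c b hc hb) (np c' b hc' hb)
    simp only [Prod.mk_sub_mk, sub_self, Prod.norm_mk, norm_zero, norm_nonneg,
      max_eq_left] at this
    nlinarith [norm_nonneg (c - c')]
  · have hD := hg.differentiable (by norm_num)
    have := mv_ball (s := s) (C := C₂ * ‖c - c'‖)
      (fun z => (hasFDerivAt_snd_slice hD c z).sub (hasFDerivAt_snd_slice hD c' z))
      (fun z hz => by
        have := h₂ _ _ (np c z hc hz) (np c' z hc' hz)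
        simpa only [Prod.mk_sub_mk, sub_self, Prod.norm_mk, norm_zero, norm_nonneg,
          max_eq_left] using this) hb (y := 0) (by simpa using (norm_nonneg b).trans hb)
    simp only [Pi.sub_apply, sub_zero] at this
    nlinarith [mul_nonneg (norm_nonneg (c - c')) (norm_nonneg b)]

theorem mixed2 {Y F : Type} [NormedAddCommGroup Y] [NormedSpace ℝ Y] [FiniteDimensional ℝ Y]
    [NormedAddCommGroup F] [NormedSpace ℝ F] {g : Y × Y → F} (hg : ContDiff ℝ 3 g) (s : ℝ)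
    (h0 : ∀ c, g (c, 0) = 0) {D : Y → Y →L[ℝ] F}
    (hD : ∀ c, D c = (fderiv ℝ g (c, 0)).comp (ContinuousLinearMap.inr ℝ Y Y)) :
    ∃ C : ℝ, 0 ≤ C ∧ ∀ c c' b b' : Y, ‖c‖ ≤ s → ‖c'‖ ≤ s → ‖b‖ ≤ s → ‖b'‖ ≤ s →
      ‖D c - D c'‖ ≤ C * ‖c - c'‖ ∧ ‖g (c', b') - D c' b' - (g (c, b) - D c b)‖ ≤
        C * (‖c - c'‖ * ‖b‖ ^ 2 + (‖b‖ + ‖b'‖) * ‖b - b'‖) := by
  have hd : ContDiff ℝ 2 fun z => (fderiv ℝ g z).comp (ContinuousLinearMap.inr ℝ Y Y) :=
    (hg.fderiv_right (m := 2) (by norm_num)).clm_comp contDiff_const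
  obtain ⟨C, hC0, hC⟩ := mixed hd s
  have hdf := hg.differentiable (by norm_num)
  refine ⟨C, hC0, fun c c' b b' hc hc' hb hb' => ?_⟩
  have hs : ‖(0 : Y)‖ ≤ s := by simpa using (norm_nonneg b).trans hb
  refine ⟨by rw [hD, hD]; exact (hC c c' 0 0 hc hc' hs hs).2.1, ?_⟩
  have hH : ∀ c z : Y, HasFDerivAt (fun b => g (c, b) - D c b)
      ((fderiv ℝ g (c, z)).comp (ContinuousLinearMap.inr ℝ Y Y) - D c) z := fun c z =>
    (hasFDerivAt_snd_slice hdf c z).sub (D c).hasFDerivAt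
  have e1 := mv_ball (s := max ‖b‖ ‖b'‖) (C := C * (‖b‖ + ‖b'‖)) (hH c') (fun z hz => by
    have h1 := (hC c' c' z 0 hc' hc' (hz.trans (max_le hb hb')) hs).1
    rw [sub_zero, ← hD] at h1
    refine h1.trans (mul_le_mul_of_nonneg_left (hz.trans (max_le ?_ ?_)) hC0)
    · linarith [norm_nonneg b']
    · linarith [norm_nonneg b]) (le_max_right _ _) (le_max_left _ _)
  have e2 := mv_ball (s := ‖b‖) (C := C * (‖c - c'‖ * ‖b‖))
    (fun z => (hH c' z).sub (hH c z)) (fun z hz => by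
      have h1 := (hC c' c z 0 hc' hc (hz.trans hb) hs).2.2
      rw [← hD, ← hD, norm_sub_rev c' c, sub_sub_sub_comm] at h1
      refine h1.trans ?_
      gcongr) le_rfl (y := 0) (by simp)
  simp only [Pi.sub_apply, sub_zero, h0, map_zero, sub_self] at e1 e2
  rw [norm_sub_rev b' b] at e1
  calc _ ≤ _ := norm_sub_le_norm_sub_add_norm_sub _ (g (c', b) - D c' b) _
    _ ≤ _ := add_le_add e1 e2
    _ = _ := by ring

theorem Chart.est (hs : ContDiff ℝ ∞ ρ) (h : Chart ρ p₀ P pr r R₀ ϱ) :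
    ∃ (C : ℝ) (lam : Ys m → Ys m →L[ℝ] ℝ), 1 ≤ C ∧ (∀ c, ‖c‖ ≤ r / 4 → ‖lam c‖ ≤ C) ∧
      (∀ c c', ‖c‖ ≤ r / 4 → ‖c'‖ ≤ r / 4 → ‖lam c - lam c'‖ ≤ C * ‖c - c'‖) ∧
      (∀ c, ‖c‖ ≤ r / 4 → ‖P c - p₀‖ ≤ R₀ → 1 / 2 ≤ lam c (0, 1)) ∧
      ∀ c c' b b', ‖c‖ ≤ r / 4 → ‖c'‖ ≤ r / 4 → ‖b‖ ≤ r / 4 → ‖b'‖ ≤ r / 4 →
        ‖(co1 ρ (P (c' - b')) (P c')).1 - (co1 ρ (P (c - b)) (P c)).1‖ ≤
          C * (‖c - c'‖ * ‖b‖ + ‖b - b'‖) ∧
        ‖(co1 ρ (P (c' - b')) (P c')).2 - lam c' b' -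
            ((co1 ρ (P (c - b)) (P c)).2 - lam c b)‖ ≤
          C * (‖c - c'‖ * ‖b‖ ^ 2 + (‖b‖ + ‖b'‖) * ‖b - b'‖) := by
  have hr : 0 < r := by linarith [h.ϱ_pos, h.ϱ_le]
  set G : Ys m × Ys m → Xs n := fun z => co1 ρ (P (z.1 - z.2)) (P z.1) with hG
  have hGs : ContDiff ℝ ∞ G := (contDiff_co1 hs).comp
    ((h.smooth.comp (contDiff_fst.sub contDiff_snd)).prodMk (h.smooth.comp contDiff_fst))
  have hG0 : ∀ c, G (c, 0) = 0 := fun c => by simp [hG, co1, ip_zero_left]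
  have hG2 : ContDiff ℝ ∞ fun z => (G z).2 := hGs.snd
  obtain ⟨C₁, h₁0, h₁⟩ := mixed (g := fun z => (G z).1) (hGs.fst.of_le (by norm_cast)) (r / 4)
  set D : Ys m → Ys m →L[ℝ] ℂ := fun c =>
    (fderiv ℝ (fun z => (G z).2) (c, 0)).comp (ContinuousLinearMap.inr ℝ _ _) with hD
  obtain ⟨C₂, h₂0, h₂⟩ := mixed2 (g := fun z => (G z).2) (hG2.of_le (by norm_cast)) (r / 4)
    (fun c => by rw [hG0]; rfl) (D := D) fun _ => rfl
  have hDd : ∀ c, HasFDerivAt (fun b => (G (c, b)).2) (D c) 0 := fun c =>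
    hasFDerivAt_snd_slice (g := fun z => (G z).2) (hG2.differentiable (by simp)) c 0
  have hPd := h.smooth.differentiable (by simp)
  have hneg : ∀ c : Ys m, HasFDerivAt (fun b : Ys m => c - b)
      (-ContinuousLinearMap.id ℝ (Ys m)) 0 := fun c => (hasFDerivAt_id _).const_sub c
  have hre : ∀ b : Ys m →L[ℝ] ℂ, ‖reCLM.comp b‖ ≤ ‖b‖ := fun b =>
    ContinuousLinearMap.opNorm_le_bound _ (norm_nonneg _) fun z =>
      (abs_re_le_norm _).trans (b.le_opNorm z)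
  have him : ∀ c b, ‖c‖ ≤ r / 4 → (D c b).im = 0 := by
    intro c b hc
    have a1 : HasFDerivAt (fun b => (G (c, b)).2.im) (imCLM.comp (D c)) 0 :=
      imCLM.hasFDerivAt.comp 0 (hDd c)
    have e : (fun b => (G (c, b)).2.im) =
        fun b => -fderiv ℝ ρ (P (c - b)) (P c - P (c - b)) := by
      ext b
      simp [hG, co1, fderiv_eq_gr]
    have hP' : HasFDerivAt (fun b => P (c - b))
        ((fderiv ℝ P c).comp (-ContinuousLinearMap.id ℝ (Ys m))) 0 :=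
      HasFDerivAt.comp (0 : Ys m) (by rw [sub_zero]; exact (hPd c).hasFDerivAt) (hneg c)
    have hA : DifferentiableAt ℝ (fun b => fderiv ℝ ρ (P (c - b))) 0 :=
      (((hs.fderiv_right (m := 1) (by norm_cast)).differentiable one_ne_zero) _).comp 0
        hP'.differentiableAt
    have a2 := (hA.hasFDerivAt.clm_apply (hP'.const_sub (P c))).neg
    rw [e] at a1
    have a3 := congrArg (fun L => L b) (a1.unique a2)
    have a4 : HasFDerivAt (fun b => ρ (P b)) ((fderiv ℝ ρ (P c)).comp (fderiv ℝ P c)) c :=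
      (hs.differentiable (by simp) _).hasFDerivAt.comp c (hPd c).hasFDerivAt
    have a5 : HasFDerivAt (fun b => ρ (P b)) (0 : Ys m →L[ℝ] ℝ) c := by
      refine (hasFDerivAt_const (0 : ℝ) c).congr_of_eventuallyEq ?_
      filter_upwards [isOpen_ball.mem_nhds (mem_ball_zero_iff.2 (show ‖c‖ < r by linarith))]
        with z hz using (h.mem z (mem_ball_zero_iff.1 hz).le).1
    have a6 := congrArg (fun L => L b) (a4.unique a5)
    simp at a3 a6
    rw [a3, a6, neg_zero]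
  have z0 : ‖(0 : Ys m)‖ ≤ r / 4 := by rw [norm_zero]; positivity
  have hr4 : 0 ≤ C₂ * (r / 4) := by positivity
  refine ⟨1 + C₁ + C₂ + (‖D 0‖ + C₂ * (r / 4)), fun c => reCLM.comp (D c),
    by linarith [norm_nonneg (D 0)], fun c hc => ?_, fun c c' hc hc' => ?_, fun c hc hc' => ?_,
    fun c c' b b' hc hc' hb hb' => ⟨?_, ?_⟩⟩
  · have h1 := (h₂ c 0 0 0 hc z0 z0 z0).1
    rw [sub_zero] at h1
    have h2 := norm_le_norm_add_norm_sub' (D c) (D 0)
    have h3 : C₂ * ‖c‖ ≤ C₂ * (r / 4) := by gcongr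
    linarith [hre (D c)]
  · rw [← ContinuousLinearMap.comp_sub]
    refine (hre _).trans ((h₂ c c' 0 0 hc hc' z0 z0).1.trans ?_)
    gcongr
    linarith [norm_nonneg (D 0)]
  · have a1 : HasFDerivAt (fun b => (G (c, b)).2.re) (reCLM.comp (D c)) 0 :=
      reCLM.hasFDerivAt.comp 0 (hDd c)
    have a2 : DifferentiableAt ℝ (fun b' => (co1 ρ (P b') (P c)).2.re) c :=
      (reCLM.contDiff.comp ((contDiff_co1 hs).comp
        (h.smooth.prodMk contDiff_const)).snd).differentiable (by simp) c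
    have a3 : HasFDerivAt (fun b => (G (c, b)).2.re)
        ((fderiv ℝ (fun b' => (co1 ρ (P b') (P c)).2.re) c).comp
          (-ContinuousLinearMap.id ℝ (Ys m))) 0 :=
      HasFDerivAt.comp (g := fun b' => (co1 ρ (P b') (P c)).2.re) (0 : Ys m)
        (by rw [sub_zero]; exact a2.hasFDerivAt) (hneg c)
    have a4 := h.slope c (P c) (by linarith) hc'
    beta_reduce
    rw [a1.unique a3]
    simp only [ContinuousLinearMap.comp_apply, neg_apply,
      ContinuousLinearMap.id_apply, map_neg]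
    linarith
  · have h1 := (h₁ c' c b' b hc' hc hb' hb).1
    have h2 := (h₁ c' c b b hc' hc hb hb).2.2
    simp only [hG0, Prod.fst_zero, sub_zero] at h2
    rw [norm_sub_rev b' b] at h1
    rw [norm_sub_rev c' c] at h2
    refine (norm_sub_le_norm_sub_add_norm_sub _ (G (c', b)).1 _).trans
      ((add_le_add h1 h2).trans ?_)
    rw [← mul_add, add_comm]
    gcongr
    linarith [norm_nonneg (D 0)]
  · have e : ∀ c b, ‖c‖ ≤ r / 4 → ((reCLM.comp (D c) b : ℝ) : ℂ) = D c b := fun c b hc =>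
      Complex.ext (by simp) (by simp [him c b hc])
    rw [e c b hc, e c' b' hc']
    refine (h₂ c c' b b' hc hc' hb hb').2.trans ?_
    gcongr
    linarith [norm_nonneg (D 0)]

end Pool.Agent.Lib.MP_601e9e_an.Cv
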