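import Pool.Agent.Lib.MP_601e9e_an.Cv.PNb

/-!
Boundary points with given free coordinates; jets of the boundary.
-/

set_option autoImplicit false

open Complex Metric Set ComplexConjugate
open scoped ContDiff

namespace Pool.Agent.Lib.MP_601e9e_an.Cv

variable {n m : ℕ} {ρ : Vs n → ℝ} {R K σ : ℝ}

theorem realPt_ch_dil (p : Vs n) (ξ : Xs n) : ch ρ σ p ξ = ch ρ 1 p (dil σ ξ) := by
  simp only [ch, dil, pj_smul, ofReal_one, one_smul, one_pow, one_mul]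
  congr 2
  ring

theorem realPt_ip (hσ : σ ≠ 0) {p : Vs n} (hg : nsq (gr ρ p) ≠ 0) (ξ : Xs n) :
    (ip (ch ρ σ p ξ - p) (gr ρ p)).re = -(σ ^ 2 * ξ.2.im) := by
  have h : (σ : ℂ) ≠ 0 := ofReal_ne_zero.2 hσ
  have h1 := co_snd (ρ := ρ) (σ := σ) p (ch ρ σ p ξ)
  rw [co_ch hσ hg] at h1
  have h2 : ip (ch ρ σ p ξ - p) (gr ρ p) = ((σ ^ 2 : ℝ) : ℂ) * (I * ξ.2) := by
    simp only at h1
    rw [h1]
    push_cast
    field_simp
    linear_combination (ip (ch ρ σ p ξ - p) (gr ρ p)) * I_mul_I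
  rw [h2, re_ofReal_mul]
  simp

theorem Geo.real_pt (h : Geo ρ R K) : ∃ C : ℝ, 1 ≤ C ∧ ∀ r : ℝ, 1 ≤ r → ∃ σ₀ : ℝ, 0 < σ₀ ∧
    ∀ (σ : ℝ) (p : Vs n) (Y : Xs n), 0 < σ → σ ≤ σ₀ → ρ p = 0 → ‖Y‖ ≤ r →
      ∃ x, ρ x = 0 ∧ fr (gr ρ p) (co ρ σ p x) = fr (gr ρ p) Y ∧ ‖co ρ σ p x‖ ≤ C * r ^ 2 := by
  have hK := h.K_ge
  have hK3 : K ≤ K ^ 3 := le_self_pow₀ hK (by norm_num)
  refine ⟨1 + K ^ 3, by linarith, fun r hr => ⟨1 / (r + K ^ 3 * r ^ 2), by positivity, ?_⟩⟩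
  intro σ p Y hσ hσ₀ hp hY
  have hr2 : r ≤ r ^ 2 := le_self_pow₀ hr (by norm_num)
  have hT0 : 0 ≤ K ^ 3 * r ^ 2 := by positivity
  have hs : σ * (r + K ^ 3 * r ^ 2) ≤ 1 := (le_div_iff₀ (by positivity)).1 hσ₀
  have hg := h.nsq_ne hp
  let ξ : ℝ → Xs n := fun t => (Y.1, (Y.2.re : ℂ) + I * t)
  have hξ2 : ∀ t ∈ Icc (0 : ℝ) (K ^ 3 * r ^ 2), ‖(ξ t).2‖ ≤ r + K ^ 3 * r ^ 2 := fun t ht => by
    refine (norm_add_le _ _).trans (add_le_add ?_ ?_)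
    · rw [norm_real]
      exact (abs_re_le_norm _).trans ((norm_snd_le Y).trans hY)
    · rw [norm_mul, norm_I, one_mul, norm_real, Real.norm_of_nonneg ht.1]
      exact ht.2
  have hd : ∀ t ∈ Icc (0 : ℝ) (K ^ 3 * r ^ 2), ‖ch ρ σ p (ξ t) - p‖ ≤ K * (σ * r) :=
    fun t ht => by
      have h1 := h.chle 1 p (dil σ (ξ t)) one_pos le_rfl hp
      rw [← realPt_ch_dil, mul_one] at h1
      refine h1.trans (mul_le_mul_of_nonneg_left (max_le ?_ ?_) (by linarith))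
      · show ‖(σ : ℂ) • Y.1‖ ≤ _
        rw [norm_smul, norm_real, Real.norm_of_nonneg hσ.le]
        exact mul_le_mul_of_nonneg_left ((norm_fst_le Y).trans hY) hσ.le
      · show ‖(σ : ℂ) ^ 2 * (ξ t).2‖ ≤ _
        rw [norm_mul, norm_pow, norm_real, Real.norm_of_nonneg hσ.le]
        have h2 := mul_le_mul_of_nonneg_left (hξ2 t ht) hσ.le
        nlinarith
  have hR : ∀ t ∈ Icc (0 : ℝ) (K ^ 3 * r ^ 2), ‖ch ρ σ p (ξ t)‖ ≤ R := fun t ht => by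
    have h1 := hd t ht
    have h2 := h.bdd p hp.le
    have h3 := norm_le_norm_add_norm_sub' (ch ρ σ p (ξ t)) p
    have h4 : K * r ≤ K ^ 3 * r ^ 2 := mul_le_mul hK3 hr2 (by linarith) (by positivity)
    nlinarith
  have him : ∀ t : ℝ, (ξ t).2.im = t := fun t => by simp [ξ]
  have h0 : 0 ≤ ρ (ch ρ σ p (ξ 0)) := by
    have h1 := h.low p _ (h.norm_le hp.le) (hR 0 ⟨le_rfl, hT0⟩)
    rw [realPt_ip hσ.ne' hg, him, hp] at h1
    have h2 : 0 ≤ ‖ch ρ σ p (ξ 0) - p‖ ^ 2 / K := by positivity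
    linarith
  have h1 : ρ (ch ρ σ p (ξ (K ^ 3 * r ^ 2))) ≤ 0 := by
    have h1 := h.up p _ (h.norm_le hp.le) (hR _ ⟨hT0, le_rfl⟩)
    rw [realPt_ip hσ.ne' hg, him, hp] at h1
    have h2 : K * ‖ch ρ σ p (ξ (K ^ 3 * r ^ 2)) - p‖ ^ 2 ≤ K * (K * (σ * r)) ^ 2 := by
      have := hd _ ⟨hT0, le_rfl⟩
      gcongr
    linarith
  have hc : Continuous fun t => ρ (ch ρ σ p (ξ t)) :=
    h.smooth.continuous.comp ((differentiable_ch p).continuous.comp (by fun_prop))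
  obtain ⟨t, ht, hx⟩ := intermediate_value_Icc' hT0 hc.continuousOn ⟨h1, h0⟩
  refine ⟨_, hx, ?_, max_le ?_ ?_⟩
  · rw [co_ch hσ.ne' hg]
    simp only [fr, pj_add, pj_pj hg, pj_smul, pj_self hg, smul_zero, add_zero]
    simp [ξ]
  · rw [norm_co_fst hσ, div_le_iff₀ hσ]
    have h2 := hd t ht
    have h4 : K * r ≤ K ^ 3 * r ^ 2 := mul_le_mul hK3 hr2 (by linarith) (by positivity)
    have h5 : 0 ≤ r ^ 2 * σ := by positivity
    nlinarith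
  · rw [co_ch hσ.ne' hg]
    have h2 := hξ2 t ht
    simp only
    linarith

theorem Geo.im_jet (h : Geo ρ R K) {M : ℕ} (hM : 1 ≤ M) : ∃ D : ℝ, 1 ≤ D ∧
    ∀ (σ : ℝ) (p : Vs n), 0 < σ → σ ≤ 1 → ρ p = 0 → ∃ Rr : ℕ → Xs n → ℂ,
      (∀ i, 2 ≤ i → i ≤ M → PN i D (Rr i)) ∧ ∀ x, ρ x = 0 →
        ‖((co ρ σ p x).2.im : ℂ) - ∑ i ∈ Finset.Icc 2 M, Rr i (co ρ σ p x)‖ ≤
          D * ‖co ρ σ p x‖ ^ (M + 1) := by
  obtain ⟨C, hC, hT⟩ := taylor_PN h.smooth M R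
  refine ⟨C + 1, by linarith, fun σ p hσ hσ1 hp => ?_⟩
  obtain ⟨P, h1, h2, h3, h4⟩ := hT p (h.norm_le hp.le)
  let T : Xs n →L[ℝ] Vs n := σ • ContinuousLinearMap.fst ℝ (Vs n) ℂ
  have hTa : ∀ X, T X = σ • X.1 := fun X => rfl
  have hTn : ‖T‖ ≤ σ := ContinuousLinearMap.opNorm_le_bound _ hσ.le fun X => by
    rw [hTa, norm_smul, Real.norm_of_nonneg hσ.le]
    exact mul_le_mul_of_nonneg_left (norm_fst_le X) hσ.le
  have hn : ‖(((σ ^ 2)⁻¹ : ℝ) : ℂ)‖ = (σ ^ 2)⁻¹ := by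
    rw [norm_real, Real.norm_of_nonneg (by positivity)]
  have hpow : ∀ i, 2 ≤ i → (σ ^ 2)⁻¹ * σ ^ i ≤ 1 := fun i hi => by
    rw [inv_mul_le_iff₀ (by positivity), mul_one]
    exact pow_le_pow_of_le_one hσ.le hσ1 hi
  refine ⟨fun i X => (((σ ^ 2)⁻¹ : ℝ) : ℂ) * P i (T X), fun i hi hiM => ?_, fun x hx => ?_⟩
  · refine (((h1 i hiM).comp T).smul _).mono ?_
    rw [hn]
    calc (σ ^ 2)⁻¹ * (C * ‖T‖ ^ i) ≤ (σ ^ 2)⁻¹ * (C * σ ^ i) := by gcongr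
      _ = C * ((σ ^ 2)⁻¹ * σ ^ i) := by ring
      _ ≤ C * 1 := mul_le_mul_of_nonneg_left (hpow i hi) hC
      _ ≤ _ := by linarith
  · have hv : T (co ρ σ p x) = x - p := by
      rw [hTa, co_fst, coe_smul, smul_smul, mul_inv_cancel₀ hσ.ne', one_smul]
    have hx2 : ‖x - p‖ ≤ 2 * R := by
      have := norm_sub_le x p
      linarith [h.norm_le hx.le, h.norm_le hp.le]
    have h5 := h4 (x - p) hx2
    have h6 : ∑ i ∈ Finset.range (M + 1), P i (x - p) =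
        P 0 (x - p) + P 1 (x - p) + ∑ i ∈ Finset.Icc 2 M, P i (x - p) := by
      rw [Finset.range_eq_Ico, Finset.sum_eq_sum_Ico_succ_bot (by omega),
        Finset.sum_eq_sum_Ico_succ_bot (by omega), ← add_assoc (P 0 (x - p))]
      rfl
    rw [h6, h2, h3, add_sub_cancel, hx, hp, fderiv_eq_gr] at h5
    have h7 : (co ρ σ p x).2.im = -((σ ^ 2)⁻¹ * (ip (x - p) (gr ρ p)).re) := by
      rw [co_snd, ← ofReal_pow, im_ofReal_mul, inv_pow]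
      simp
    have h8 : ((co ρ σ p x).2.im : ℂ) -
        ∑ i ∈ Finset.Icc 2 M, (((σ ^ 2)⁻¹ : ℝ) : ℂ) * P i (T (co ρ σ p x)) =
        (((σ ^ 2)⁻¹ : ℝ) : ℂ) * (((0 : ℝ) : ℂ) - (((0 : ℝ) : ℂ) +
          ((ip (x - p) (gr ρ p)).re : ℂ) + ∑ i ∈ Finset.Icc 2 M, P i (x - p))) := by
      rw [hv, h7, ← Finset.mul_sum]
      push_cast
      ring
    have h9 : ‖x - p‖ ≤ σ * ‖co ρ σ p x‖ := by
      have := norm_fst_le (co ρ σ p x)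
      rwa [norm_co_fst hσ, div_le_iff₀' hσ] at this
    rw [h8, norm_mul, hn]
    calc _ ≤ (σ ^ 2)⁻¹ * (C * (σ * ‖co ρ σ p x‖) ^ (M + 1)) := by
          gcongr
          exact h5.trans (by gcongr)
      _ = C * ((σ ^ 2)⁻¹ * σ ^ (M + 1)) * ‖co ρ σ p x‖ ^ (M + 1) := by ring
      _ ≤ C * 1 * ‖co ρ σ p x‖ ^ (M + 1) := by
          gcongr
          exact hpow _ (by omega)
      _ ≤ _ := by
          gcongr
          linarith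

end Pool.Agent.Lib.MP_601e9e_an.Cv
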