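import Pool.Agent.Lib.MP_601e9e_an.Cv.Elim
import Pool.Agent.Lib.MP_601e9e_an.Cv.RealPt

/-!
Small coefficients at the next scale.
-/

set_option autoImplicit false

open Complex Metric Set ComplexConjugate
open scoped ContDiff

namespace Pool.Agent.Lib.MP_601e9e_an.Cv

variable {n m : ℕ} {ρ : Vs n → ℝ} {R K σ : ℝ}

/-- the map that forgets the imaginary part of the last coordinate -/
noncomputable def frL (g : Vs n) (c : ℂ) : Xs n →L[ℝ] Xs n :=
  LinearMap.toContinuousLinearMap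
    { toFun := fun X => (pj g X.1 + (c * X.2.re) • g, (X.2.re : ℂ))
      map_add' := fun X Y => by
        refine Prod.ext ?_ (by simp)
        simp only [Prod.fst_add, Prod.snd_add, pj_add, add_re, ofReal_add, mul_add, add_smul]
        abel
      map_smul' := fun t X => by
        refine Prod.ext ?_ (by simp)
        have e : t • X.1 = (t : ℂ) • X.1 := rfl
        simp only [Prod.smul_fst, Prod.smul_snd, RingHom.id_apply, e, pj_smul, smul_add,
          real_smul, re_ofReal_mul, ofReal_mul]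
        congr 1
        rw [mul_left_comm, mul_smul]
        rfl }

theorem frL_apply (g : Vs n) (c : ℂ) (X : Xs n) :
    frL g c X = (pj g X.1 + (c * X.2.re) • g, (X.2.re : ℂ)) := rfl

/-- the dilation as a real linear map -/
noncomputable def dilL (t : ℝ) : Xs n →L[ℝ] Xs n :=
  LinearMap.toContinuousLinearMap
    { toFun := dil t
      map_add' := fun X Y => Prod.ext (by simp [dil]) (by simp [dil, mul_add])
      map_smul' := fun s X => Prod.ext (by ext i; simp [dil, mul_left_comm])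
        (by simp [dil, mul_left_comm]) }

theorem frL_dil {g : Vs n} (c : ℂ) (t : ℝ) {X Y : Xs n} (h : fr g X = fr g Y) :
    frL g c (dil t X) = frL g c (dil t Y) := by
  have h1 : pj g X.1 = pj g Y.1 := congrArg Prod.fst h
  have h2 : X.2.re = Y.2.re := ofReal_injective (congrArg Prod.snd h)
  simp only [frL_apply, dil, pj_smul, h1, ← ofReal_pow, re_ofReal_mul, h2]

theorem Geo.free (h : Geo ρ R K) {M : ℕ} (hM : 1 ≤ M) : ∃ C : ℝ, 1 ≤ C ∧ ∀ r : ℝ, 1 ≤ r →
    ∃ σ₀ : ℝ, 0 < σ₀ ∧ ∀ (σ T B Λ : ℝ) (e : Vs n → ℝ), 0 < σ → σ ≤ σ₀ → 1 ≤ T → 0 ≤ B →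
      JE ρ M σ e B B → (∀ x y, ρ x = 0 → ρ y = 0 → |e x - e y| ≤ Λ) →
      C * B * (C * r ^ 2 / T) ^ (M + 1) ≤ 1 →
      JE ρ M (σ / T) e (C * (Λ + 1) / r) (C * B / T ^ (M + 1)) := by
  have hK := h.K_ge
  have hKK : 1 ≤ K * K := one_le_mul_of_one_le_of_one_le hK hK
  obtain ⟨C₁, hC₁, hreal⟩ := h.real_pt
  obtain ⟨D, hD, him⟩ := h.im_jet hM
  obtain ⟨Ce, hCe, hel⟩ := elim n M (D := D + K * K) (by linarith)
  obtain ⟨Cc, hCc, hco⟩ := WD.comp n M (K + K * K)
  obtain ⟨Cd, -, hcd⟩ := WD.comp n M 1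
  obtain ⟨Cb, hCb, hcb⟩ := coef_bound n M
  have hce : 0 ≤ Cc * Ce := by positivity
  obtain ⟨C₂, hC₂⟩ : ∃ C₂, C₂ = 2 + Ce + Cc * Ce := ⟨_, rfl⟩
  obtain ⟨C, hC⟩ : ∃ C, C = C₁ + Cb + C₂ := ⟨_, rfl⟩
  have hC₂0 : 0 ≤ C₂ := by linarith
  have hC0 : 0 ≤ C := by linarith
  refine ⟨C, by linarith, fun r hr => ?_⟩
  obtain ⟨σ₁, hσ₁, hreal⟩ := hreal r hr
  refine ⟨min σ₁ 1, lt_min hσ₁ one_pos, fun σ T B Λ e hσ hσ0 hT hB hJ hΛ hs p hp => ?_⟩
  have hσ1 : σ ≤ 1 := hσ0.trans (min_le_right _ _)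
  have hT0 : 0 < T := by linarith
  have hTi : 0 < T⁻¹ := inv_pos.2 hT0
  have hTi1 : T⁻¹ ≤ 1 := inv_le_one_of_one_le₀ hT
  obtain ⟨v, hv1, hv2⟩ := hJ p hp
  obtain ⟨Rr, hR1, hR2⟩ := him σ p hσ hσ1 hp
  have hg0 := h.nsq_ne hp
  obtain ⟨g, hg⟩ : ∃ g, g = gr ρ p := ⟨_, rfl⟩
  obtain ⟨c, hc⟩ : ∃ c : ℂ, c = (σ : ℂ) * I / (nsq g : ℂ) := ⟨_, rfl⟩
  have hcg : ‖c‖ * ‖g‖ ≤ K * K := by
    have h1 := h.glow p hp
    have h2 := h.gup p (h.norm_le hp.le)
    have h3 := h.K_pos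
    have h4 : 0 < nsq g := by rw [hg]; exact (one_div_pos.2 h3).trans_le h1
    rw [← hg] at h1 h2
    have h5 : ‖c‖ ≤ K := by
      rw [hc, norm_div, norm_mul, norm_I, norm_real, norm_real, Real.norm_of_nonneg hσ.le,
        Real.norm_of_nonneg h4.le, div_le_iff₀ h4]
      rw [div_le_iff₀ h3] at h1
      linarith
    gcongr
  have hf : WD M B (Cv.hp v) := ⟨v, hv1, fun _ => rfl⟩
  obtain ⟨f', hf1, hf2⟩ := hel {X | ‖X‖ ≤ 1 ∧ ∃ x, ρ x = 0 ∧ X = co ρ σ p x} ((c * I) • g, I) Rr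
    (by
      rw [Prod.norm_def, norm_smul, norm_mul, norm_I, mul_one]
      exact max_le (by linarith) (by linarith))
    (fun X hX => hX.1) (fun i h2 hi => (hR1 i h2 hi).mono (by linarith))
    (by
      rintro X ⟨-, x, hx, rfl⟩
      exact (hR2 x hx).trans (by gcongr; linarith)) B _ hf
  have hf3 : WD M (Cc * (Ce * B)) fun X => f' (frL g c X) := hco _ _ _ (fun X => by
    have h1 := h.pjle p X.1 hp
    have h2 : |X.2.re| ≤ ‖X‖ := (abs_re_le_norm _).trans (norm_snd_le X)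
    have h3 : K * ‖X.1‖ ≤ K * ‖X‖ := by gcongr; exact norm_fst_le X
    have h4 : ‖(c * X.2.re) • g‖ ≤ K * K * ‖X‖ := by
      rw [norm_smul, norm_mul, norm_real, Real.norm_eq_abs, mul_right_comm]
      gcongr
    rw [← hg] at h1
    rw [frL_apply, Prod.norm_def]
    refine max_le ((norm_add_le _ _).trans (by linarith)) ?_
    rw [norm_real, Real.norm_eq_abs]
    nlinarith [norm_nonneg X]) hf1
  have hA : ∀ x, ρ x = 0 → ‖(e x : ℂ) - e p - f' (frL g c (co ρ σ p x))‖ ≤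
      C₂ * B * ‖co ρ σ p x‖ ^ (M + 1) := fun x hx => by
    have h1 := hv2 x hx
    have h0 : 0 ≤ B * ‖co ρ σ p x‖ ^ (M + 1) := by positivity
    have h2 := norm_add_le ((e x : ℂ) - e p - Cv.hp v (co ρ σ p x))
      (Cv.hp v (co ρ σ p x) - f' (frL g c (co ρ σ p x)))
    rw [sub_add_sub_cancel] at h2
    rw [hC₂]
    rcases le_total ‖co ρ σ p x‖ 1 with h3 | h3
    · have h4 := hf2 _ ⟨h3, x, hx, rfl⟩
      have e1 : co ρ σ p x - (co ρ σ p x).2.im • ((c * I) • g, I) = frL g c (co ρ σ p x) := by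
        have e2 := co_ch hσ.ne' hg0 (co ρ σ p x)
        rw [ch_co hσ.ne', ← hg] at e2
        generalize co ρ σ p x = X at e2
        have e3 : X.1 = pj g X.1 + ((σ : ℂ) * I * X.2 / (nsq g : ℂ)) • g := congrArg Prod.fst e2
        have e4 := re_add_im X.2
        refine Prod.ext ?_ ?_
        · have e5 : X.2.im • (c * I) • g = ((X.2.im : ℂ) * (c * I)) • g := by
            rw [mul_smul (X.2.im : ℂ)]
            rfl
          simp only [frL_apply, Prod.fst_sub, Prod.smul_fst, e5]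
          conv_lhs => rw [e3]
          rw [add_sub_assoc, ← sub_smul]
          congr 2
          rw [mul_div_right_comm, ← hc]
          linear_combination (-c) * e4
        · simp only [frL_apply, Prod.snd_sub, Prod.smul_snd, real_smul]
          linear_combination -e4
      rw [e1] at h4
      nlinarith [mul_nonneg hce h0]
    · have h4 := hf.norm_le h3
      have h5 := hf3.norm_le h3
      have h6 := norm_sub_le (Cv.hp v (co ρ σ p x)) (f' (frL g c (co ρ σ p x)))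
      nlinarith [mul_nonneg (zero_le_one.trans hCe) h0]
  have hdn : ∀ x, ‖co ρ σ p x‖ ≤ ‖co ρ (σ / T) p x‖ / T := fun x => by
    rw [co_dil hT0.ne']
    exact (jet_norm_dil hTi hTi1 _).trans_eq (div_eq_inv_mul _ _).symm
  have hΛ0 : 0 ≤ Λ := (abs_nonneg _).trans (hΛ p p hp hp)
  obtain ⟨v', hv3, hv4⟩ := hcb _ (Λ + 1) r (fun Y => f' (frL g c (dilL T⁻¹ Y))) hr
    (hcd _ _ (dilL T⁻¹) (fun X => (jet_norm_dil hTi hTi1 X).trans (by gcongr)) hf3) fun Y hY => by
      obtain ⟨x, hx, h1, h2⟩ := hreal (σ / T) p Y (by positivity)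
        ((div_le_self hσ.le hT).trans (hσ0.trans (min_le_left _ _))) hp hY
      rw [← hg] at h1
      have e1 : frL g c (dilL T⁻¹ Y) = frL g c (co ρ σ p x) := by
        rw [co_dil hT0.ne']
        exact (frL_dil c _ h1).symm
      have h3 := hA x hx
      have h4 : ‖co ρ σ p x‖ ≤ C * r ^ 2 / T := by
        refine (hdn x).trans (div_le_div_of_nonneg_right (h2.trans ?_) hT0.le)
        gcongr
        linarith
      have h5 : C₂ * B * ‖co ρ σ p x‖ ^ (M + 1) ≤ 1 := by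
        refine le_trans ?_ hs
        gcongr
        linarith
      have h6 := norm_sub_le ((e x : ℂ) - e p) ((e x : ℂ) - e p - f' (frL g c (co ρ σ p x)))
      rw [sub_sub_cancel, ← ofReal_sub, norm_real, Real.norm_eq_abs, ofReal_sub] at h6
      rw [e1]
      linarith [hΛ x p hx hp]
  refine ⟨v', hv3.trans (by gcongr; linarith), fun x hx => ?_⟩
  have e1 : Cv.hp v' (co ρ (σ / T) p x) = f' (frL g c (co ρ σ p x)) := by
    rw [← hv4, co_dil (σ := σ) hT0.ne']
    rfl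
  rw [e1]
  refine (hA x hx).trans ?_
  calc C₂ * B * ‖co ρ σ p x‖ ^ (M + 1)
      ≤ C * B * (‖co ρ (σ / T) p x‖ / T) ^ (M + 1) := by
        gcongr
        · linarith
        · exact hdn x
    _ = _ := by rw [div_pow]; ring

end Pool.Agent.Lib.MP_601e9e_an.Cv
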