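import Pool.Agent.Lib.MP_601e9e_an.Cv.Wd

/-!
Operations on jets.
-/

set_option autoImplicit false

open Complex Metric Set ComplexConjugate
open scoped ContDiff

namespace Pool.Agent.Lib.MP_601e9e_an.Cv

variable {n m : ℕ} {ρ : Vs n → ℝ} {R K σ : ℝ}

section
variable {κ : Type} [Fintype κ] {k : ℕ} {F G : Vs n → κ → ℂ} {β β' : ℝ}

theorem JF.zero (ρ : Vs n → ℝ) (R : ℝ) (k : ℕ) (σ : ℝ) :
    JF ρ R k σ (fun _ => (0 : κ → ℂ)) 0 := by
  intro p _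
  refine ⟨fun _ => 0, fun X _ => ?_⟩
  simp

theorem JF.add (hF : JF ρ R k σ F β) (hG : JF ρ R k σ G β') :
    JF ρ R k σ (fun X => F X + G X) (β + β') := by
  intro p hp
  obtain ⟨v, hv⟩ := hF p hp
  obtain ⟨w, hw⟩ := hG p hp
  refine ⟨fun a => v a + w a, fun X hX => ?_⟩
  have e : F X + G X - (v none + w none) -
      ∑ a, mon cx (wd a) (co ρ σ p X) • (v (some a) + w (some a)) =
      (F X - v none - ∑ a, mon cx (wd a) (co ρ σ p X) • v (some a)) +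
        (G X - w none - ∑ a, mon cx (wd a) (co ρ σ p X) • w (some a)) := by
    simp only [smul_add, Finset.sum_add_distrib]
    abel
  rw [e, add_mul]
  exact (norm_add_le _ _).trans (add_le_add (hv X hX) (hw X hX))

theorem JF.smul (hF : JF ρ R k σ F β) {c : ℝ} (hc : 0 ≤ c) :
    JF ρ R k σ (fun X => (c : ℂ) • F X) (c * β) := by
  intro p hp
  obtain ⟨v, hv⟩ := hF p hp
  refine ⟨fun a => (c : ℂ) • v a, fun X hX => ?_⟩
  have e : (c : ℂ) • F X - (c : ℂ) • v none -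
      ∑ a, mon cx (wd a) (co ρ σ p X) • ((c : ℂ) • v (some a)) =
      (c : ℂ) • (F X - v none - ∑ a, mon cx (wd a) (co ρ σ p X) • v (some a)) := by
    rw [smul_sub, smul_sub, Finset.smul_sum]
    congr 1
    exact Finset.sum_congr rfl fun a _ => smul_comm _ _ _
  rw [e, norm_smul, norm_real, Real.norm_eq_abs, abs_of_nonneg hc, mul_assoc]
  exact mul_le_mul_of_nonneg_left (hv X hX) hc

theorem JF.mono (hF : JF ρ R k σ F β) (hβ : β ≤ β') : JF ρ R k σ F β' := by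
  intro p hp
  obtain ⟨v, hv⟩ := hF p hp
  exact ⟨v, fun X hX => (hv X hX).trans (mul_le_mul_of_nonneg_right hβ (by positivity))⟩

theorem JF.dil (hF : JF ρ R k σ F β) (hβ : 0 ≤ β) (hσ : 0 < σ) {T : ℝ} (hT : 1 ≤ T) :
    JF ρ R k (σ / T) F (β / T ^ (k + 1)) := by
  intro p hp
  obtain ⟨v, hv⟩ := hF p hp
  have hT0 : 0 < T := one_pos.trans_le hT
  refine ⟨fun a => a.elim (v none) fun b => ((wd b).map (jetWt T⁻¹)).prod • v (some b),
    fun X hX => ?_⟩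
  have h := hv X (Ob_mono (by positivity) (div_le_self hσ.le hT) hX)
  rw [co_dil hT0.ne'] at h
  simp only [jet_mon_dil, mul_smul] at h
  simp only [Option.elim_none, Option.elim_some]
  refine h.trans ?_
  rw [div_eq_mul_inv β, ← inv_pow, mul_assoc, ← mul_pow]
  exact mul_le_mul_of_nonneg_left (pow_le_pow_left₀ (norm_nonneg _)
    (jet_norm_dil (inv_pos.2 hT0) (inv_le_one_of_one_le₀ hT) _) _) hβ

end

theorem Geo.jf_of_bound (h : Geo ρ R K) (k : ℕ) : ∃ C : ℝ, 0 ≤ C ∧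
    ∀ (κ : Type) [Fintype κ] (g : Vs n → κ → ℂ) (B σ : ℝ), 0 < σ → σ ≤ 1 →
      DifferentiableOn ℂ g (Ob ρ R σ) → (∀ X ∈ Ob ρ R σ, ‖g X‖ ≤ B) → JF ρ R k σ g (C * B) := by
  obtain ⟨C, hC1, hC⟩ := taylor (Lt n) k
  have hK := h.K_pos
  refine ⟨C * K ^ (k + 1), by positivity, fun κ _ g B σ hσ hσ1 hg hB p hp => ?_⟩
  have hsub : ∀ ξ ∈ ball (0 : Xs n) (1 / K), ch ρ σ p ξ ∈ Ob ρ R σ := fun ξ hξ =>
    h.chmem σ p ξ hσ hσ1 hp (mem_ball_zero_iff.1 hξ)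
  obtain ⟨v, -, hv⟩ := hC (Xs n) (κ → ℂ) ex cx sum_cx norm_cx_le norm_ex_le cx_smul
    (fun ξ => g (ch ρ σ p ξ)) (1 / K) B (by positivity)
    (hg.comp (differentiable_ch p).differentiableOn hsub) (fun ξ hξ => hB _ (hsub ξ hξ))
  refine ⟨fun a => a.elim (g (ch ρ σ p 0)) v, fun X hX => ?_⟩
  simp only [Option.elim_none, Option.elim_some]
  have h1 := hv (co ρ σ p X) (by rw [ch_co hσ.ne']; exact hB X hX)
  rw [ch_co hσ.ne'] at h1
  refine h1.trans (le_of_eq ?_)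
  rw [div_div_eq_mul_div, div_one, mul_pow]
  ring

section
variable {M : ℕ} {e e' : Vs n → ℝ} {θ θ' β β' : ℝ}

theorem JE.mono (h : JE ρ M σ e θ β) (hθ : θ ≤ θ') (hβ : β ≤ β') : JE ρ M σ e θ' β' := by
  intro p hp
  obtain ⟨v, h1, h2⟩ := h p hp
  exact ⟨v, h1.trans hθ, fun x hx =>
    (h2 x hx).trans (mul_le_mul_of_nonneg_right hβ (by positivity))⟩

theorem JE.sub (h : JE ρ M σ e θ β) (h' : JE ρ M σ e' θ' β') :
    JE ρ M σ (fun x => e x - e' x) (θ + θ') (β + β') := by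
  intro p hp0
  obtain ⟨v, h1, h2⟩ := h p hp0
  obtain ⟨w, h3, h4⟩ := h' p hp0
  refine ⟨fun a => v a - w a, ?_, fun x hx => ?_⟩
  · refine (Finset.sum_le_sum fun a _ => norm_sub_le _ _).trans ?_
    rw [Finset.sum_add_distrib]
    exact add_le_add h1 h3
  · have e1 : ((e x - e' x : ℝ) : ℂ) - ((e p - e' p : ℝ) : ℂ) -
        hp (fun a => v a - w a) (co ρ σ p x) =
        ((e x : ℂ) - e p - hp v (co ρ σ p x)) - ((e' x : ℂ) - e' p - hp w (co ρ σ p x)) := by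
      simp only [hp, mul_sub, Finset.sum_sub_distrib]
      push_cast
      ring
    rw [e1, add_mul]
    exact (norm_sub_le _ _).trans (add_le_add (h2 x hx) (h4 x hx))

theorem JE.smul (h : JE ρ M σ e θ β) {c : ℝ} (hc : 0 ≤ c) :
    JE ρ M σ (fun x => c * e x) (c * θ) (c * β) := by
  intro p hp0
  obtain ⟨v, h1, h2⟩ := h p hp0
  refine ⟨fun a => (c : ℂ) * v a, ?_, fun x hx => ?_⟩
  · simp only [norm_mul, norm_real, Real.norm_of_nonneg hc, ← Finset.mul_sum]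
    exact mul_le_mul_of_nonneg_left h1 hc
  · have e1 : ((c * e x : ℝ) : ℂ) - ((c * e p : ℝ) : ℂ) -
        hp (fun a => (c : ℂ) * v a) (co ρ σ p x) =
        (c : ℂ) * ((e x : ℂ) - e p - hp v (co ρ σ p x)) := by
      simp only [hp, mul_sub, Finset.mul_sum, mul_left_comm (c : ℂ)]
      push_cast
      ring
    rw [e1, norm_mul, norm_real, Real.norm_of_nonneg hc, mul_assoc]
    exact mul_le_mul_of_nonneg_left (h2 x hx) hc

end

theorem Geo.je_of_pair (h : Geo ρ R K) (M : ℕ) : ∃ C : ℝ, 0 ≤ C ∧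
    ∀ (κ : Type) [Fintype κ] (F g : Vs n → κ → ℂ) (B σ : ℝ), 0 < σ → σ ≤ 1 →
      DifferentiableOn ℂ F (Ob ρ R σ) → DifferentiableOn ℂ g (Ob ρ R σ) →
      (∀ X ∈ Ob ρ R σ, nsq (g X) ≤ B) →
      (∀ X ∈ Ob ρ R σ, ∀ Ξ ∈ Ob ρ R σ,
        (∀ p, ρ p = 0 → ‖qq (co ρ σ p X)‖ ≤ 3 * ‖qq (co ρ σ p Ξ)‖) → ‖ip (F X) (g Ξ)‖ ≤ B) →
      JE ρ M σ (fun x => nsq (g x) + 2 * (ip (F x) (g x)).re) (C * B) (C * B) := by
  obtain ⟨C, hC1, hC⟩ := taylor (Lt n ⊕ Lt n) M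
  have hK := h.K_pos
  have hK1 := h.K_ge
  refine ⟨3 * C * K ^ (M + 1) * (Fintype.card (Idx (Lt n ⊕ Lt n) M) + 1), by positivity,
    fun κ _ F g B σ hσ hσ1 hF hg hB hFg p hp0 => ?_⟩
  have hB0 : 0 ≤ B := (nsq_nonneg _).trans (hB p (h.mem_Ob hσ hp0.le))
  have key : ∀ X ∈ Ob ρ R σ, ∀ Ξ ∈ Ob ρ R σ,
      (∀ p', ρ p' = 0 → ‖qq (co ρ σ p' X)‖ ≤ 3 * ‖qq (co ρ σ p' Ξ)‖) →
      (∀ p', ρ p' = 0 → ‖qq (co ρ σ p' Ξ)‖ ≤ 3 * ‖qq (co ρ σ p' X)‖) →
      ‖ip (g X) (g Ξ) + ip (F X) (g Ξ) + ip (g X) (F Ξ)‖ ≤ 3 * B := by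
    intro X hX Ξ hΞ h1 h2
    have a1 := norm_ip_le_one (g X) (g Ξ)
    have a2 := hFg X hX Ξ hΞ h1
    have a3 := hFg Ξ hΞ X hX h2
    rw [← conj_ip, RCLike.norm_conj] at a3
    have a4 := norm_add₃_le (a := ip (g X) (g Ξ)) (b := ip (F X) (g Ξ)) (c := ip (g X) (F Ξ))
    linarith [hB X hX, hB Ξ hΞ]
  have hq : ∀ ξ η : Xs n, ‖ξ‖ < 1 / K → ‖η‖ < 1 / K → ∀ p', ρ p' = 0 →
      ‖qq (co ρ σ p' (ch ρ σ p ξ))‖ ≤ 3 * ‖qq (co ρ σ p' (ch ρ σ p η))‖ := by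
    intro ξ η h1 h2 p' hp'
    have a1 := (norm_sub_norm_le _ _).trans (h.chq σ p p' ξ hσ hσ1 hp0 hp' h1)
    have a2 := h.chq σ p p' η hσ hσ1 hp0 hp' h2
    rw [norm_sub_rev] at a2
    have a3 := (norm_sub_norm_le _ _).trans a2
    linarith
  have hb : ∀ P ∈ ball (0 : Xs n × Xs n) (1 / K), ‖P.1‖ < 1 / K ∧ ‖star P.2‖ < 1 / K :=
    fun P hP => ⟨(norm_fst_le P).trans_lt (mem_ball_zero_iff.1 hP),
      (norm_star_Xs _).trans_lt ((norm_snd_le P).trans_lt (mem_ball_zero_iff.1 hP))⟩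
  have hd : ∀ F' G' : Vs n → κ → ℂ, DifferentiableOn ℂ F' (Ob ρ R σ) →
      DifferentiableOn ℂ G' (Ob ρ R σ) → DifferentiableOn ℂ
        (fun P : Xs n × Xs n => ip (F' (ch ρ σ p P.1)) (G' (ch ρ σ p (star P.2))))
        (ball 0 (1 / K)) := by
    intro F' G' h1 h2 P hP
    have b1 : DifferentiableAt ℂ (fun P : Xs n × Xs n => F' (ch ρ σ p P.1)) P :=
      ((h1.differentiableAt ((h.isOpen σ).mem_nhds
        (h.chmem σ p _ hσ hσ1 hp0 (hb P hP).1))).comp P.1 (differentiable_ch p _)).comp P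
        differentiableAt_fst
    have b2 : DifferentiableAt ℂ (star ∘ (fun ξ => G' (ch ρ σ p ξ)) ∘ star) P.2 := by
      have := ((h2.differentiableAt ((h.isOpen σ).mem_nhds
        (h.chmem σ p _ hσ hσ1 hp0 (hb P hP).2))).comp (star P.2)
          (differentiable_ch p _)).star_star
      rwa [star_star] at this
    have b3 := b2.comp P differentiableAt_snd
    refine DifferentiableAt.differentiableWithinAt ?_
    unfold ip
    refine DifferentiableAt.fun_sum fun j _ => ?_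
    exact (differentiableAt_pi.1 b1 j).mul (differentiableAt_pi.1 b3 j)
  have hval : ∀ x, ip (g x) (g x) + ip (F x) (g x) + ip (g x) (F x) =
      ((nsq (g x) + 2 * (ip (F x) (g x)).re : ℝ) : ℂ) := fun x => by
    rw [ip_self, ← conj_ip (F x) (g x), add_assoc, add_conj]
    push_cast
    ring
  obtain ⟨v, hv1, hv⟩ := hC (Xs n × Xs n) ℂ e2 c2 sum_c2 norm_c2_le norm_e2_le c2_smul
    (fun P => ip (g (ch ρ σ p P.1)) (g (ch ρ σ p (star P.2))) +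
      ip (F (ch ρ σ p P.1)) (g (ch ρ σ p (star P.2))) +
      ip (g (ch ρ σ p P.1)) (F (ch ρ σ p (star P.2)))) (1 / K) (3 * B) (by positivity)
    (((hd g g hg hg).add (hd F g hF hg)).add (hd g F hg hF)) fun P hP =>
      key _ (h.chmem σ p _ hσ hσ1 hp0 (hb P hP).1) _ (h.chmem σ p _ hσ hσ1 hp0 (hb P hP).2)
        (hq _ _ (hb P hP).1 (hb P hP).2) (hq _ _ (hb P hP).2 (hb P hP).1)
  refine ⟨v, ?_, fun x hx => ?_⟩
  · have h1 : ∀ a, ‖v a‖ ≤ 3 * C * K ^ (M + 1) * B := fun a => by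
      refine (hv1 a).trans ?_
      rw [one_div, inv_pow, div_inv_eq_mul]
      have := pow_le_pow_right₀ hK1 ((wd_length a).2.trans (Nat.le_succ M))
      calc C * (3 * B) * K ^ (wd a).length ≤ C * (3 * B) * K ^ (M + 1) := by gcongr
        _ = _ := by ring
    refine (Finset.sum_le_sum fun a _ => h1 a).trans ?_
    rw [Finset.sum_const, Finset.card_univ, nsmul_eq_mul]
    have : 0 ≤ 3 * C * K ^ (M + 1) * B := by positivity
    nlinarith
  · have hx' := h.mem_Ob hσ hx.le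
    have h0 : ∀ p', ρ p' = 0 → ‖qq (co ρ σ p' x)‖ ≤ 3 * ‖qq (co ρ σ p' x)‖ := fun p' _ => by
      linarith [norm_nonneg (qq (co ρ σ p' x))]
    have h1 := hv (co ρ σ p x, star (co ρ σ p x)) (by
      simp only [star_star, ch_co hσ.ne']
      exact key x hx' x hx' h0 h0)
    simp only [star_star, ch_co hσ.ne', Prod.fst_zero, Prod.snd_zero, star_zero, ch_zero, hval,
      smul_eq_mul, norm_pair] at h1
    refine h1.trans ?_
    rw [div_div_eq_mul_div, div_one, mul_pow]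
    have : 0 ≤ 3 * C * K ^ (M + 1) * B * ‖co ρ σ p x‖ ^ (M + 1) := by positivity
    nlinarith [mul_nonneg this (Nat.cast_nonneg (α := ℝ) (Fintype.card (Idx (Lt n ⊕ Lt n) M)))]

theorem Geo.je_of_smooth (h : Geo ρ R K) (M : ℕ) {e : Vs n → ℝ} (he : ContDiff ℝ ∞ e) :
    ∃ C : ℝ, 0 ≤ C ∧ ∀ σ : ℝ, 0 < σ → σ ≤ 1 → JE ρ M σ e (C * σ) (C * σ) := by
  obtain ⟨C, hC0, hC⟩ := taylor_PN he M R
  have hn : (1 : ℝ) ≤ 2 * (n + 1) := by linarith [Nat.cast_nonneg (α := ℝ) n]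
  refine ⟨C * (1 + M * (2 * (n + 1)) ^ M), by positivity, fun σ hσ hσ1 p hp0 => ?_⟩
  obtain ⟨P, h1, h2, -, h3⟩ := hC p (h.norm_le hp0.le)
  let T : Xs n →L[ℝ] Vs n := σ • ContinuousLinearMap.fst ℝ (Vs n) ℂ
  have hT : ‖T‖ ≤ σ := ContinuousLinearMap.opNorm_le_bound _ hσ.le fun X => by
    change ‖σ • X.1‖ ≤ _
    rw [norm_smul, Real.norm_of_nonneg hσ.le]
    exact mul_le_mul_of_nonneg_left (norm_fst_le X) hσ.le
  have hw : ∀ i ∈ Finset.range M, WD M ((2 * (n + 1)) ^ M * (C * σ)) fun X => P (i + 1) (T X) := by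
    intro i hi
    have hi' := Finset.mem_range.1 hi
    refine (((h1 (i + 1) hi').comp T).wd (by omega) hi').mono ?_
    have a1 := pow_le_pow_right₀ hn (show i + 1 ≤ M from hi')
    have a2 : ‖T‖ ^ (i + 1) ≤ σ := (pow_le_pow_left₀ (norm_nonneg _) hT _).trans
      (pow_le_of_le_one hσ.le hσ1 (by omega))
    gcongr
  obtain ⟨v, hv1, hv2⟩ := WD.sum _ hw
  refine ⟨v, hv1.trans ?_, fun x hx => ?_⟩
  · rw [Finset.sum_const, Finset.card_range, nsmul_eq_mul]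
    nlinarith [mul_nonneg hC0 hσ.le]
  · have e1 : T (co ρ σ p x) = x - p := by
      change σ • (((σ⁻¹ : ℝ) : ℂ) • (x - p)) = _
      rw [← Complex.coe_smul, smul_smul, ← ofReal_mul, mul_inv_cancel₀ hσ.ne', ofReal_one, one_smul]
    have h4 := h3 (x - p) ((norm_sub_le _ _).trans
      (by linarith [h.norm_le hx.le, h.norm_le hp0.le]))
    rw [add_sub_cancel, Finset.sum_range_succ', h2, add_comm, ← sub_sub] at h4
    rw [← hv2]
    simp only [e1]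
    refine h4.trans ?_
    have a1 : ‖x - p‖ ≤ σ * ‖co ρ σ p x‖ := e1 ▸ T.le_of_opNorm_le hT _
    have a2 : ‖x - p‖ ^ (M + 1) ≤ σ * ‖co ρ σ p x‖ ^ (M + 1) := by
      refine (pow_le_pow_left₀ (norm_nonneg _) a1 _).trans ?_
      rw [mul_pow]
      exact mul_le_mul_of_nonneg_right (pow_le_of_le_one hσ.le hσ1 (by omega)) (by positivity)
    have a3 : 0 ≤ C * (M * (2 * (n + 1)) ^ M) * σ * ‖co ρ σ p x‖ ^ (M + 1) := by positivity
    nlinarith [mul_le_mul_of_nonneg_left a2 hC0]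

end Pool.Agent.Lib.MP_601e9e_an.Cv
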