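import Pool.Agent.Lib.MP_601e9e_an.Cv.Est

/-!
The lattice of a chart: lower bound.
-/

set_option autoImplicit false

open Complex Metric Set ComplexConjugate
open scoped ContDiff

namespace Pool.Agent.Lib.MP_601e9e_an.Cv

variable {n m : ℕ} {ρ : Vs n → ℝ} {R K σ : ℝ}

variable {p₀ : Vs n} {P : Ys m → Vs n} {pr : Vs n →L[ℝ] Ys m} {r R₀ ϱ : ℝ}


/-- lattice points just above a real number -/
theorem netLow_near {t h : ℝ} (hh : 0 < h) {N j : ℕ} (hj : j < N) :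
    |t - h * ((⌊t / h⌋ + (j : ℤ) : ℤ) : ℝ)| ≤ h * N := by
  have h1 := mul_le_mul_of_nonneg_left (Int.floor_le (t / h)) hh.le
  have h2 := mul_lt_mul_of_pos_left (Int.lt_floor_add_one (t / h)) hh
  rw [mul_div_cancel₀ _ hh.ne'] at h1 h2
  have h3 : (j : ℝ) + 1 ≤ N := by exact_mod_cast hj
  have h4 : (0 : ℝ) ≤ j := Nat.cast_nonneg j
  push_cast
  rw [abs_le]
  constructor <;> nlinarith

theorem Chart.net_low (h : Chart ρ p₀ P pr r R₀ ϱ) (hs : ContDiff ℝ ∞ ρ) (hm : m + 2 = 2 * n) :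
    ∃ C σ₀ : ℝ, 1 ≤ C ∧ 0 < σ₀ ∧ ∀ (σ : ℝ) (l : ℕ) (x : Vs n), 0 < σ → σ ≤ σ₀ → 1 ≤ l →
      ρ x = 0 → ‖x - p₀‖ ≤ R₀ → ‖pr (x - p₀)‖ ≤ ϱ / 4 → ∃ s : Finset (Lg m σ l ϱ),
        (l : ℝ) ^ (2 * n) ≤ s.card ∧ ∀ γ ∈ s, 1 / 2 ≤ 1 - ‖lb σ l γ.1‖ / ϱ ∧
          ‖qq (co ρ σ (P (lb σ l γ)) x)‖ ≤ C := by
  obtain ⟨C, lam, hC, h1, -, h3, h4⟩ := Chart.est hs h
  have hϱ := h.ϱ_pos
  have hr := h.ϱ_le
  refine ⟨1 + C + 9 * C ^ 3, min 1 (ϱ / (12 * C)), by nlinarith [pow_pos (by linarith : 0 < C) 3],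
    by positivity, fun σ l x hσ hσ₀ hl hx hx1 hx2 => ?_⟩
  have σ1 : σ ≤ 1 := hσ₀.trans (min_le_left _ _)
  have σ2 : σ * (12 * C) ≤ ϱ := (le_div_iff₀ (by positivity)).1 (hσ₀.trans (min_le_right _ _))
  have hPc := (h.onto x hx hx1).2
  set c := pr (x - p₀) with hc
  have c1 : ‖c‖ ≤ r / 4 := by linarith
  have hμ := h3 c c1 (by rwa [hPc])
  set μ := lam c (0, 1) with hμ'
  have lp : (0 : ℝ) < l := by exact_mod_cast hl
  have hlam : ∀ b : Ys m, |lam c b| ≤ C * ‖b‖ := fun b =>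
    ((lam c).le_opNorm b).trans (mul_le_mul_of_nonneg_right (h1 c c1) (norm_nonneg _))
  have μ1 : μ ≤ C := by simpa using (le_abs_self _).trans (hlam (0, 1))
  let g1 : (Fin m → Fin l) → Fin m → ℤ := fun j i => ⌊c.1 i / (σ / l)⌋ + ((j i : ℕ) : ℤ)
  let b1 : (Fin m → Fin l) → Fin m → ℝ := fun j i => c.1 i - σ * g1 j i / l
  let g : (Fin m → Fin l) × Fin (l ^ 2) → Lz m := fun a =>
    (g1 a.1, ⌊(c.2 + lam c (b1 a.1, 0) / μ) / (σ ^ 2 / (l : ℝ) ^ 2)⌋ + ((a.2 : ℕ) : ℤ))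
  have ginj : Function.Injective g := by
    rintro ⟨j, k⟩ ⟨j', k'⟩ e
    obtain ⟨e1, e2⟩ := Prod.mk.inj e
    obtain rfl : j = j' := funext fun i => Fin.ext (by
      have := congrFun e1 i
      simp only [g1] at this
      omega)
    obtain rfl : k = k' := Fin.ext (by
      simp only at e2
      omega)
    rfl
  have hb1 : ∀ j, ‖b1 j‖ ≤ σ := fun j => (pi_norm_le_iff_of_nonneg hσ.le).2 fun i => by
    have := netLow_near (t := c.1 i) (h := σ / l) (by positivity) (j i).2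
    rwa [div_mul_cancel₀ _ lp.ne', div_mul_eq_mul_div] at this
  have key : ∀ a, ‖c - lb σ l (g a)‖ ≤ 3 * C * σ ∧ |lam c (c - lb σ l (g a))| ≤ C * σ ^ 2 := by
    intro a
    have k1 := netLow_near (t := c.2 + lam c (b1 a.1, 0) / μ) (h := σ ^ 2 / (l : ℝ) ^ 2)
      (by positivity) a.2.2
    rw [Nat.cast_pow, div_mul_cancel₀ _ (by positivity), div_mul_eq_mul_div] at k1
    set u := c.2 - σ ^ 2 * ((g a).2 : ℝ) / (l : ℝ) ^ 2 with hu
    have k2 : |u + lam c (b1 a.1, 0) / μ| ≤ σ ^ 2 := by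
      convert k1 using 2
      rw [hu]
      ring
    have e : c - lb σ l (g a) = (b1 a.1, u) := rfl
    have k3 : |lam c (b1 a.1, 0)| ≤ C * σ := (hlam _).trans
      (mul_le_mul_of_nonneg_left (by simpa using hb1 a.1) (by linarith))
    have k4 : |lam c (b1 a.1, 0) / μ| ≤ 2 * (C * σ) := by
      rw [abs_div, abs_of_pos (by linarith : 0 < μ), div_le_iff₀ (by linarith)]
      nlinarith [mul_pos (by linarith : 0 < C) hσ]
    have k5 : lam c (b1 a.1, u) = μ * (u + lam c (b1 a.1, 0) / μ) := by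
      rw [show ((b1 a.1, u) : Ys m) = (b1 a.1, 0) + u • ((0, 1) : Ys m) by simp, map_add, map_smul,
        smul_eq_mul, ← hμ']
      have : μ ≠ 0 := by linarith
      field_simp
      ring
    rw [e]
    refine ⟨norm_prod_le_iff.2 ⟨(hb1 _).trans (by nlinarith), ?_⟩, ?_⟩
    · have := abs_sub (u + lam c (b1 a.1, 0) / μ) (lam c (b1 a.1, 0) / μ)
      rw [add_sub_cancel_right] at this
      rw [Real.norm_eq_abs]
      nlinarith
    · rw [k5, abs_mul, abs_of_pos (by linarith : 0 < μ)]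
      exact mul_le_mul μ1 k2 (abs_nonneg _) (by linarith)
  have hl2 : ∀ a, ‖lb σ l (g a)‖ ≤ ϱ / 2 := fun a => by
    have := norm_sub_le c (c - lb σ l (g a))
    rw [sub_sub_cancel] at this
    linarith [(key a).1]
  refine ⟨Finset.univ.map ⟨fun a => ⟨g a, by linarith [hl2 a]⟩,
    fun a a' e => ginj (congrArg Subtype.val e)⟩, ?_, fun γ hγ => ?_⟩
  · rw [← hm]
    simp [pow_add]
  obtain ⟨a, -, rfl⟩ := Finset.mem_map.1 hγ
  refine ⟨?_, ?_⟩
  · have : ‖lb σ l (g a)‖ / ϱ ≤ 1 / 2 := by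
      rw [div_le_iff₀ hϱ]
      linarith [hl2 a]
    simp only [Function.Embedding.coeFn_mk]
    linarith
  obtain ⟨k1, k2⟩ := key a
  have k3 := (h4 c c (c - lb σ l (g a)) 0 c1 c1 (by linarith) (by simp; linarith)).2
  simp only [sub_zero, sub_self, norm_zero, zero_mul, add_zero, zero_add, map_zero, sub_sub_cancel,
    hPc, ofReal_zero] at k3
  rw [show (co1 ρ x x).2 = 0 by simp [co1, ip_zero_left], zero_sub, norm_neg] at k3
  have k4 : ‖(co1 ρ (P (lb σ l (g a))) x).2‖ ≤ (C + 9 * C ^ 3) * σ ^ 2 := by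
    have t1 := norm_add_le ((co1 ρ (P (lb σ l (g a))) x).2 - (lam c (c - lb σ l (g a)) : ℝ))
      ((lam c (c - lb σ l (g a)) : ℝ) : ℂ)
    rw [sub_add_cancel, norm_real, Real.norm_eq_abs] at t1
    have t2 : ‖c - lb σ l (g a)‖ * ‖c - lb σ l (g a)‖ ≤ (3 * C * σ) * (3 * C * σ) :=
      mul_self_le_mul_self (norm_nonneg _) k1
    nlinarith [mul_le_mul_of_nonneg_left t2 (by linarith : 0 ≤ C)]
  show ‖1 - I * (((σ⁻¹ : ℝ) : ℂ) ^ 2 * (co1 ρ (P (lb σ l (g a))) x).2)‖ ≤ _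
  refine (norm_sub_le _ _).trans ?_
  rw [norm_one, norm_mul, norm_I, one_mul, norm_mul, norm_pow, norm_real, norm_inv,
    Real.norm_of_nonneg hσ.le, add_assoc, inv_pow]
  exact add_le_add le_rfl ((inv_mul_le_iff₀ (by positivity)).2 (by linarith))

end Pool.Agent.Lib.MP_601e9e_an.Cv
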