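import Pool.Agent.Lib.MP_601e9e_an.Cv.Est

/-!
The lattice of a chart seen from two points.
-/

set_option autoImplicit false

open Complex Metric Set ComplexConjugate
open scoped ContDiff

namespace Pool.Agent.Lib.MP_601e9e_an.Cv

variable {n m : ℕ} {ρ : Vs n → ℝ} {R K σ : ℝ}

variable {p₀ : Vs n} {P : Ys m → Vs n} {pr : Vs n →L[ℝ] Ys m} {r R₀ ϱ : ℝ}

theorem netShift_lam (lam : Ys m →L[ℝ] ℝ) (b : Ys m) :
    lam b = lam (b.1, 0) + b.2 * lam (0, 1) := by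
  have : b = (b.1, 0) + b.2 • ((0, 1) : Ys m) := by ext <;> simp
  conv_lhs => rw [this]
  rw [map_add, map_smul, smul_eq_mul]

theorem netShift_round (z : ℝ) {s : ℝ} (hs : 0 < s) : |z - s * round (z / s)| ≤ s / 2 := by
  have h := abs_sub_round (z / s)
  have e : z - s * round (z / s) = s * (z / s - round (z / s)) := by field_simp
  rw [e, abs_mul, abs_of_pos hs]
  nlinarith

theorem netShift_norm (v : Fin m → ℝ) : ‖((v, 0) : Ys m)‖ = ‖v‖ := by simp [Prod.norm_def]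

theorem netShift_col {lam lam' : Ys m →L[ℝ] ℝ} {C δ s : ℝ} (hC : 1 ≤ C) (hδ : 0 ≤ δ)
    (h1 : ‖lam‖ ≤ C) (h2 : ‖lam'‖ ≤ C) (h3 : ‖lam - lam'‖ ≤ C * δ) (h4 : 1 / 2 ≤ lam (0, 1))
    (h5 : 1 / 2 ≤ lam' (0, 1)) (hs : 0 ≤ s) (hs1 : s ≤ 1) {b b' : Ys m}
    (h6 : ‖b.1 - b'.1‖ ≤ s / 2)
    (h7 : |b'.2 - b.2 + (lam' (b'.1, 0) - lam (b.1, 0) +
      -lam (b.1, 0) / lam (0, 1) * (lam' (0, 1) - lam (0, 1))) / lam' (0, 1)| ≤ s ^ 2 / 2) :
    ‖b - b'‖ ≤ 6 * C ^ 2 * (δ * ‖b‖ + s) ∧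
      |lam' b' - lam b| ≤ C * s ^ 2 + 2 * C * δ * |lam b| := by
  have n1 : ‖((0, 1) : Ys m)‖ = 1 := by simp [Prod.norm_def]
  have ha : |lam' (0, 1) - lam (0, 1)| ≤ C * δ := by
    have := (lam - lam').le_opNorm (0, 1)
    rw [n1, mul_one, sub_apply, Real.norm_eq_abs, abs_sub_comm] at this
    exact this.trans h3
  have ha' : lam' (0, 1) ≤ C := by
    have := lam'.le_opNorm (0, 1)
    rw [n1, mul_one] at this
    exact (le_abs_self _).trans (this.trans h2)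
  have hb : ‖b.1‖ ≤ ‖b‖ := norm_fst_le b
  have hb0 : 0 ≤ ‖b‖ := norm_nonneg b
  have e1 := netShift_lam lam b
  have e2 := netShift_lam lam' b'
  have hv : |lam (b.1, 0)| ≤ C * ‖b‖ := by
    have := lam.le_opNorm (b.1, 0)
    rw [netShift_norm] at this
    exact this.trans (by gcongr)
  have hw : |lam' (b'.1, 0) - lam (b.1, 0)| ≤ C * (s / 2) + C * δ * ‖b‖ := by
    have e : lam' (b'.1, 0) - lam (b.1, 0) =
        -lam' (b.1 - b'.1, 0) - (lam - lam') (b.1, 0) := by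
      have : ((b.1 - b'.1, 0) : Ys m) = (b.1, 0) - (b'.1, 0) := by ext <;> simp
      rw [this, map_sub, sub_apply]
      ring
    have g1 := lam'.le_opNorm (b.1 - b'.1, 0)
    have g2 := (lam - lam').le_opNorm (b.1, 0)
    rw [netShift_norm] at g1 g2
    rw [e]
    refine (abs_sub _ _).trans (add_le_add ?_ (g2.trans (by gcongr)))
    rw [abs_neg]
    exact g1.trans (by gcongr)
  generalize lam (0, 1) = a at *
  generalize lam' (0, 1) = a' at *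
  generalize lam (b.1, 0) = v at *
  generalize lam' (b'.1, 0) = v' at *
  have a0 : 0 < a := by linarith
  have a0' : 0 < a' := by linarith
  have hq : ∀ z : ℝ, |z / a| ≤ 2 * |z| := fun z => by
    rw [abs_div, abs_of_pos a0, div_le_iff₀ a0]
    nlinarith [abs_nonneg z]
  have hq' : ∀ z : ℝ, |z / a'| ≤ 2 * |z| := fun z => by
    rw [abs_div, abs_of_pos a0', div_le_iff₀ a0']
    nlinarith [abs_nonneg z]
  have hT : |v' - v + -v / a * (a' - a)| ≤ C * (s / 2) + C * δ * ‖b‖ + 2 * (C * ‖b‖) * (C * δ) := by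
    refine (abs_add_le _ _).trans (add_le_add hw ?_)
    rw [abs_mul]
    have := hq (-v)
    rw [abs_neg] at this
    gcongr
    linarith
  generalize hTd : v' - v + -v / a * (a' - a) = T at *
  have hx : 0 ≤ δ * ‖b‖ := by positivity
  have hC2 : C ≤ C ^ 2 := by nlinarith
  constructor
  · rw [Prod.norm_def]
    refine max_le ?_ ?_
    · refine h6.trans ?_
      nlinarith
    · have e : (b - b').2 = T / a' - (b'.2 - b.2 + T / a') := by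
        rw [Prod.snd_sub]
        ring
      rw [e, Real.norm_eq_abs]
      refine (abs_sub _ _).trans ?_
      have := hq' T
      have g1 : C * (δ * ‖b‖) ≤ C ^ 2 * (δ * ‖b‖) := by gcongr
      have g2 : C * s ≤ C ^ 2 * s := by gcongr
      have g3 : s ^ 2 ≤ C ^ 2 * s := by nlinarith
      have g4 : 0 ≤ C ^ 2 * s := by positivity
      nlinarith
  · have e : lam' b' - lam b = (b'.2 - b.2 + T / a') * a' + lam b / a * (a' - a) := by
      rw [e1, e2, ← hTd]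
      field_simp
      ring
    rw [e]
    refine (abs_add_le _ _).trans (add_le_add ?_ ?_)
    · rw [abs_mul, abs_of_pos a0']
      calc _ ≤ s ^ 2 / 2 * C := by gcongr
        _ ≤ _ := by nlinarith [sq_nonneg s]
    · rw [abs_mul]
      calc _ ≤ 2 * |lam b| * (C * δ) := by gcongr; exact hq _
        _ = _ := by ring

theorem netShift_map {lam lam' : Ys m →L[ℝ] ℝ} {C δ σ : ℝ} {l : ℕ} (hC : 1 ≤ C) (hδ : 0 ≤ δ)
    (h1 : ‖lam‖ ≤ C) (h2 : ‖lam'‖ ≤ C) (h3 : ‖lam - lam'‖ ≤ C * δ) (h4 : 1 / 2 ≤ lam (0, 1))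
    (h5 : 1 / 2 ≤ lam' (0, 1)) (hσ : 0 < σ) (hσ1 : σ ≤ 1) (hl : 1 ≤ l) (c c' : Ys m) :
    ∃ f : Lz m → Lz m, Function.Injective f ∧ ∀ γ,
      ‖c - lb σ l γ - (c' - lb σ l (f γ))‖ ≤ 6 * C ^ 2 * (δ * ‖c - lb σ l γ‖ + σ / l) ∧
      |lam' (c' - lb σ l (f γ)) - lam (c - lb σ l γ)| ≤
        C * (σ / l) ^ 2 + 2 * C * δ * |lam (c - lb σ l γ)| := by
  have hl' : (1 : ℝ) ≤ l := by exact_mod_cast hl
  have hs : 0 < σ / l := by positivity
  let k : Fin m → ℤ := fun i => round ((c'.1 i - c.1 i) / (σ / l))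
  let v : (Fin m → ℤ) → Fin m → ℝ := fun g => c.1 - (lb σ l (g, 0)).1
  let v' : (Fin m → ℤ) → Fin m → ℝ := fun g => c'.1 - (lb σ l (g + k, 0)).1
  let T : (Fin m → ℤ) → ℝ := fun g => (lam' (v' g, 0) - lam (v g, 0) +
      -lam (v g, 0) / lam (0, 1) * (lam' (0, 1) - lam (0, 1))) / lam' (0, 1)
  let sh : (Fin m → ℤ) → ℤ := fun g => round ((c'.2 - c.2 + T g) / (σ / l) ^ 2)
  refine ⟨fun γ => (γ.1 + k, γ.2 + sh γ.1), fun γ γ' h => ?_, fun γ => ?_⟩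
  · have g1 : γ.1 = γ'.1 := add_right_cancel (congrArg Prod.fst h)
    have g2 : γ.2 + sh γ.1 = γ'.2 + sh γ'.1 := congrArg Prod.snd h
    rw [g1] at g2
    exact Prod.ext g1 (add_right_cancel g2)
  · refine netShift_col hC hδ h1 h2 h3 h4 h5 hs.le ((div_le_one (by linarith)).2 (by linarith))
      ?_ ?_
    · refine (pi_norm_le_iff_of_nonneg (by positivity)).2 fun i => ?_
      have := netShift_round (c'.1 i - c.1 i) hs
      rw [abs_sub_comm] at this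
      convert this using 1
      rw [Real.norm_eq_abs]
      congr 1
      simp only [lb, Prod.fst_sub, Pi.sub_apply, Pi.add_apply, k]
      push_cast
      ring
    · have := netShift_round (c'.2 - c.2 + T γ.1) (pow_pos hs 2)
      convert this using 2
      change _ + T γ.1 = _ - _ * (sh γ.1 : ℝ)
      simp only [lb, Prod.snd_sub]
      push_cast
      ring

theorem netShift_arith {A M E C r : ℝ} (hA : 1 ≤ A) (hM : 1 ≤ M) (hE : 1 ≤ E) (hC : 1 ≤ C)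
    (hr : 0 ≤ r) : ∃ G : ℝ, 1 ≤ G ∧ ∀ σ t η q δ B B' D u : ℝ, 0 < σ → σ ≤ 1 → 0 ≤ t → t ≤ 1 →
      t ≤ η → 1 / 2 ≤ q → 0 ≤ δ → δ ≤ A * η → δ ≤ r → 0 ≤ B → B ≤ r → B ≤ M * σ * q →
      B ^ 2 ≤ M * σ ^ 2 * q → B' ≤ B + D → 0 ≤ D → D ≤ E * (δ * B + σ * t) →
      u ≤ 3 * σ ^ 2 * q + C * B ^ 2 →
      δ + D ≤ G * η ∧ C * (δ * B + D) ≤ σ * (G * η * q) ∧
        C * (δ * B ^ 2 + (B + B') * D) + (C * (σ * t) ^ 2 + 2 * C * δ * u) ≤
          σ ^ 2 * (G * η * q) := by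
  have hA0 : 0 ≤ A := by linarith
  have hM0 : 0 ≤ M := by linarith
  have hE0 : 0 ≤ E := by linarith
  have hC0 : 0 ≤ C := by linarith
  obtain ⟨G₁, e1⟩ : ∃ G, G = A + E * (A * r + 1) := ⟨_, rfl⟩
  obtain ⟨G₂, e2⟩ : ∃ G, G = C * (A * M + E * (A * M + 2)) := ⟨_, rfl⟩
  obtain ⟨G₃, e3⟩ : ∃ G, G = C * (A * M + (2 * (E * (A * M + M)) +
    E * (r * (E * (A * M + M)) + E * (A * M + 2)))) + (C * 2 + 2 * C * (A * (3 + C * M))) :=
    ⟨_, rfl⟩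
  have p1 : 0 ≤ G₁ := by rw [e1]; positivity
  have p2 : 0 ≤ G₂ := by rw [e2]; positivity
  have p3 : 0 ≤ G₃ := by rw [e3]; positivity
  refine ⟨1 + G₁ + G₂ + G₃, by linarith,
    fun σ t η q δ B B' D u s0 s1 t0 t1 tη hq δ0 δη δr B0 Br h1 h2 h3 D0 h4 h5 => ?_⟩
  have η0 : 0 ≤ η := t0.trans tη
  have q0 : 0 ≤ q := by linarith
  have g1 : δ * B ≤ A * M * (σ * η * q) := by
    calc _ ≤ A * η * (M * σ * q) := by gcongr
      _ = _ := by ring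
  have g2 : σ * t ≤ 2 * (σ * η * q) := by
    have : σ * t ≤ σ * η := by gcongr
    have : σ * η * (1 / 2) ≤ σ * η * q := by gcongr
    linarith
  have g3 : D ≤ E * (A * M + 2) * (σ * η * q) := by
    calc _ ≤ E * (A * M * (σ * η * q) + 2 * (σ * η * q)) := h4.trans (by gcongr)
      _ = _ := by ring
  have g4 : δ * B ^ 2 ≤ A * M * (σ ^ 2 * η * q) := by
    calc _ ≤ A * η * (M * σ ^ 2 * q) := by gcongr
      _ = _ := by ring
  have g5 : B * D ≤ E * (A * M + M) * (σ ^ 2 * η * q) := by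
    have : B * (σ * t) ≤ M * σ * q * (σ * η) := by gcongr
    calc _ ≤ B * (E * (δ * B + σ * t)) := by gcongr
      _ = E * (δ * B ^ 2 + B * (σ * t)) := by ring
      _ ≤ E * (A * M * (σ ^ 2 * η * q) + M * σ * q * (σ * η)) := by gcongr
      _ = _ := by ring
  have g6 : D * D ≤ E * (r * (E * (A * M + M)) + E * (A * M + 2)) * (σ ^ 2 * η * q) := by
    calc _ ≤ E * (r * B + σ * 1) * D := by
          gcongr
          exact h4.trans (by gcongr)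
      _ = E * (r * (B * D) + σ * D) := by ring
      _ ≤ E * (r * (E * (A * M + M) * (σ ^ 2 * η * q)) +
          σ * (E * (A * M + 2) * (σ * η * q))) := by gcongr
      _ = _ := by ring
  have g7 : (σ * t) ^ 2 ≤ 2 * (σ ^ 2 * η * q) := by
    calc _ = σ * t * (σ * t) := by ring
      _ ≤ σ * 1 * (2 * (σ * η * q)) := by gcongr
      _ = _ := by ring
  have g8 : δ * u ≤ A * (3 + C * M) * (σ ^ 2 * η * q) := by
    calc _ ≤ δ * (3 * σ ^ 2 * q + C * B ^ 2) := by gcongr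
      _ ≤ A * η * (3 * σ ^ 2 * q + C * (M * σ ^ 2 * q)) := by gcongr
      _ = _ := by ring
  refine ⟨?_, ?_, ?_⟩
  · calc _ ≤ A * η + E * (A * η * r + 1 * η) := add_le_add δη (h4.trans (by gcongr))
      _ = G₁ * η := by rw [e1]; ring
      _ ≤ _ := by gcongr; linarith
  · calc _ ≤ C * (A * M * (σ * η * q) + E * (A * M + 2) * (σ * η * q)) := by gcongr
      _ = σ * (G₂ * η * q) := by rw [e2]; ring
      _ ≤ _ := by gcongr; linarith
  · have g9 : (B + B') * D ≤ 2 * (B * D) + D * D := by nlinarith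
    calc _ ≤ C * (A * M * (σ ^ 2 * η * q) + (2 * (E * (A * M + M) * (σ ^ 2 * η * q)) +
          E * (r * (E * (A * M + M)) + E * (A * M + 2)) * (σ ^ 2 * η * q))) +
          (C * (2 * (σ ^ 2 * η * q)) + 2 * C * (A * (3 + C * M) * (σ ^ 2 * η * q))) := by
          rw [mul_assoc (2 * C)]
          gcongr
          linarith
      _ = σ ^ 2 * (G₃ * η * q) := by rw [e3]; ring
      _ ≤ _ := by gcongr; linarith

theorem netShift_co {σ z : ℝ} (hσ : 0 < σ) {p p' x y : Vs n}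
    (h1 : ‖(co1 ρ p' y).1 - (co1 ρ p x).1‖ ≤ σ * z)
    (h2 : ‖(co1 ρ p' y).2 - (co1 ρ p x).2‖ ≤ σ ^ 2 * z) : ‖co ρ σ p' y - co ρ σ p x‖ ≤ z := by
  rw [Prod.norm_def]
  refine max_le ?_ ?_
  · change ‖((σ⁻¹ : ℝ) : ℂ) • (co1 ρ p' y).1 - ((σ⁻¹ : ℝ) : ℂ) • (co1 ρ p x).1‖ ≤ z
    rw [← smul_sub, norm_smul, norm_real, norm_inv, Real.norm_of_nonneg hσ.le,
      inv_mul_le_iff₀ hσ]
    exact h1
  · change ‖((σ⁻¹ : ℝ) : ℂ) ^ 2 * (co1 ρ p' y).2 - ((σ⁻¹ : ℝ) : ℂ) ^ 2 * (co1 ρ p x).2‖ ≤ z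
    rw [← mul_sub, norm_mul, norm_pow, norm_real, norm_inv, Real.norm_of_nonneg hσ.le, inv_pow,
      inv_mul_le_iff₀ (by positivity)]
    exact h2

theorem netShift_snd {σ : ℝ} (hσ : 0 < σ) (p x : Vs n) :
    ‖(co1 ρ p x).2‖ ≤ σ ^ 2 * (‖qq (co ρ σ p x)‖ + 1) := by
  have h := norm_snd_le_qq (co ρ σ p x)
  change ‖((σ⁻¹ : ℝ) : ℂ) ^ 2 * (co1 ρ p x).2‖ ≤ _ at h
  rwa [norm_mul, norm_pow, norm_real, norm_inv, Real.norm_of_nonneg hσ.le, inv_pow,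
    inv_mul_le_iff₀ (by positivity)] at h

theorem Chart.net_shift (hG : Geo ρ R K) (h : Chart ρ p₀ P pr r R₀ ϱ) : ∃ C : ℝ, 1 ≤ C ∧
    ∀ (σ : ℝ) (l : ℕ) (x y : Vs n), 0 < σ → σ ≤ 1 → 1 ≤ l → ρ x = 0 → ρ y = 0 →
      ∃ (s : Set (Lg m σ l ϱ)) (b : Lg m σ l ϱ → Lg m σ l ϱ), InjOn b s ∧
        (∀ γ ∈ s, ‖co ρ σ (P (lb σ l (b γ))) y - co ρ σ (P (lb σ l γ)) x‖ ≤
            C * (1 / l + ‖x - y‖ + σ) * ‖qq (co ρ σ (P (lb σ l γ)) x)‖ ∧
          1 - ‖lb σ l γ.1‖ / ϱ ≤ 1 - ‖lb σ l (b γ).1‖ / ϱ + C * (1 / l + ‖x - y‖ + σ)) ∧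
        ∀ γ ∉ s, 1 - ‖lb σ l γ.1‖ / ϱ ≤
          C * (1 / l + ‖x - y‖ + σ) * ‖qq (co ρ σ (P (lb σ l γ)) x)‖ := by
  obtain ⟨C, lam, hC, l1, l2, l3, l4⟩ := h.est hG.smooth
  have hR := h.R_pos
  have hϱ := h.ϱ_pos
  have hr := h.ϱ_le
  have hK := hG.K_ge
  obtain ⟨A, hA⟩ : ∃ A, A = ‖pr‖ + 1 := ⟨_, rfl⟩
  have A1 : 1 ≤ A := by linarith [norm_nonneg pr]
  have hpr : ∀ v, ‖pr v‖ ≤ A * ‖v‖ := fun v => (pr.le_opNorm v).trans (by gcongr; linarith)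
  have A2 : A ≤ A ^ 2 := le_self_pow₀ A1 two_ne_zero
  obtain ⟨G, G1, hGa⟩ := netShift_arith (M := A ^ 2 * K) (E := 6 * C ^ 2) (r := r / 4) A1
    (one_le_mul_of_one_le_of_one_le (A1.trans A2) hK)
    (by linarith [one_le_pow₀ (n := 2) hC]) hC (by linarith)
  obtain ⟨H, hH⟩ : ∃ H, H = G + 2 * (G / ϱ) + 8 / R₀ + 2 * K / R₀ := ⟨_, rfl⟩
  have p1 : 0 < G / ϱ := by positivity
  have p2 : 0 < 8 / R₀ := by positivity
  have p3 : 0 < 2 * K / R₀ := by positivity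
  have H0 : 0 ≤ H := by linarith
  refine ⟨H, by linarith, fun σ l x y hσ hσ1 hl hx hy => ?_⟩
  have hl' : (1 : ℝ) ≤ l := by exact_mod_cast hl
  have t0 : (0 : ℝ) ≤ 1 / l := by positivity
  have t1 : (1 : ℝ) / l ≤ 1 := (div_le_one (by linarith)).2 hl'
  have hxy := norm_nonneg (x - y)
  obtain ⟨η, hη⟩ : ∃ η, η = 1 / l + ‖x - y‖ + σ := ⟨_, rfl⟩
  rw [← hη]
  have η0 : 0 ≤ η := by linarith
  have hxO : x ∈ Ob ρ R σ := hG.mem_Ob hσ hx.le
  have hm : ∀ γ : Lg m σ l ϱ, ρ (P (lb σ l γ)) = 0 ∧ pr (P (lb σ l γ) - p₀) = lb σ l γ :=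
    fun γ => h.mem _ (by linarith [γ.2])
  have hq : ∀ γ : Lg m σ l ϱ, 1 / 2 ≤ ‖qq (co ρ σ (P (lb σ l γ)) x)‖ := fun γ =>
    hG.half_le hσ (hm γ).1 hxO
  have hw : ∀ γ : Lg m σ l ϱ, 1 - ‖lb σ l γ.1‖ / ϱ ≤ 1 := fun γ => by
    have : 0 ≤ ‖lb σ l γ.1‖ / ϱ := by positivity
    linarith
  by_cases c1 : R₀ / 4 ≤ ‖x - y‖
  · refine ⟨∅, id, injOn_empty _, fun γ hγ => hγ.elim, fun γ _ => (hw γ).trans ?_⟩
    calc (1 : ℝ) = 8 / R₀ * (R₀ / 4) * (1 / 2) := by field_simp; norm_num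
      _ ≤ _ := by
        gcongr
        · linarith
        · linarith
        · exact hq γ
  by_cases c2 : 3 * R₀ / 4 ≤ ‖x - p₀‖
  · refine ⟨∅, id, injOn_empty _, fun γ hγ => hγ.elim, fun γ _ => (hw γ).trans ?_⟩
    have g1 := hG.dist_le hσ (hm γ).1 hxO
    have g2 := h.near _ γ.2.le
    have g3 := norm_sub_le_norm_sub_add_norm_sub x (P (lb σ l γ)) p₀
    calc (1 : ℝ) = 2 / R₀ * (R₀ / 2) := by field_simp
      _ ≤ 2 / R₀ * (K * σ * ‖qq (co ρ σ (P (lb σ l γ)) x)‖) := by gcongr; linarith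
      _ = 2 * K / R₀ * σ * ‖qq (co ρ σ (P (lb σ l γ)) x)‖ := by ring
      _ ≤ _ := by gcongr <;> linarith
  have x0 : ‖x - p₀‖ ≤ R₀ := by linarith
  have y0 : ‖y - p₀‖ ≤ R₀ := by
    have := norm_sub_le_norm_sub_add_norm_sub y x p₀
    rw [norm_sub_rev y x] at this
    linarith
  obtain ⟨c3, c4⟩ := h.onto x hx x0
  obtain ⟨c5, c6⟩ := h.onto y hy y0
  have hd : ‖pr (x - p₀) - pr (y - p₀)‖ ≤ A * η := by
    rw [← map_sub, sub_sub_sub_cancel_right]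
    exact (hpr _).trans (by gcongr; linarith)
  have hb : ∀ γ : Lg m σ l ϱ, ‖pr (x - p₀) - lb σ l γ‖ ≤ A * ‖x - P (lb σ l γ)‖ := fun γ => by
    have := hpr (x - p₀ - (P (lb σ l γ) - p₀))
    rwa [map_sub, (hm γ).2, sub_sub_sub_cancel_right] at this
  generalize pr (x - p₀) = c at *
  generalize pr (y - p₀) = c' at *
  have c7 : ‖c‖ ≤ r / 4 := by linarith
  have c8 : ‖c'‖ ≤ r / 4 := by linarith
  have hs : ∀ (z : Ys m) (γ : Lg m σ l ϱ), ‖z‖ ≤ r / 8 → ‖z - lb σ l γ‖ ≤ r / 4 :=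
    fun z γ hz => (norm_sub_le _ _).trans (by linarith [γ.2])
  obtain ⟨f, finj, hf⟩ := netShift_map hC (norm_nonneg (c - c')) (l1 c c7) (l1 c' c8)
    (l2 c c' c7 c8) (l3 c c7 (by rwa [c4])) (l3 c' c8 (by rwa [c6])) hσ hσ1 hl c c'
  have key : ∀ γ : Lg m σ l ϱ,
      ‖c - c'‖ + ‖c - lb σ l γ - (c' - lb σ l (f γ))‖ ≤ G * η ∧
      C * (‖c - c'‖ * ‖c - lb σ l γ‖ + ‖c - lb σ l γ - (c' - lb σ l (f γ))‖) ≤
        σ * (G * η * ‖qq (co ρ σ (P (lb σ l γ)) x)‖) ∧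
      C * (‖c - c'‖ * ‖c - lb σ l γ‖ ^ 2 + (‖c - lb σ l γ‖ + ‖c' - lb σ l (f γ)‖) *
        ‖c - lb σ l γ - (c' - lb σ l (f γ))‖) +
        (C * (σ * (1 / l)) ^ 2 + 2 * C * ‖c - c'‖ * |lam c (c - lb σ l γ)|) ≤
          σ ^ 2 * (G * η * ‖qq (co ρ σ (P (lb σ l γ)) x)‖) := fun γ => by
    have g1 := hG.dist_le hσ (hm γ).1 hxO
    have g2 := hG.sq_le hσ (hm γ).1 hxO
    have g3 := hq γ
    refine hGa σ (1 / l) η _ ‖c - c'‖ ‖c - lb σ l γ‖ ‖c' - lb σ l (f γ)‖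
      ‖c - lb σ l γ - (c' - lb σ l (f γ))‖ |lam c (c - lb σ l γ)| hσ hσ1 t0 t1 (by linarith) g3
      (norm_nonneg _) hd ((norm_sub_le c c').trans (by linarith)) (norm_nonneg _) (hs c γ c3)
      ?_ ?_ ?_ (norm_nonneg _) ?_ ?_
    · calc _ ≤ A * (K * σ * ‖qq (co ρ σ (P (lb σ l γ)) x)‖) := (hb γ).trans (by gcongr)
        _ = A * K * σ * ‖qq (co ρ σ (P (lb σ l γ)) x)‖ := by ring
        _ ≤ _ := by gcongr
    · calc _ ≤ (A * ‖x - P (lb σ l γ)‖) ^ 2 := by gcongr; exact hb γ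
        _ = A ^ 2 * ‖x - P (lb σ l γ)‖ ^ 2 := by ring
        _ ≤ A ^ 2 * (K * σ ^ 2 * ‖qq (co ρ σ (P (lb σ l γ)) x)‖) := by gcongr
        _ = _ := by ring
    · have := norm_sub_le (c - lb σ l γ) (c - lb σ l γ - (c' - lb σ l (f γ)))
      rwa [sub_sub_cancel] at this
    · rw [mul_one_div]
      exact (hf γ).1
    · have g0 : ‖(0 : Ys m)‖ ≤ r / 4 := by
        rw [norm_zero]
        exact (norm_nonneg c).trans c7
      have g4 := (l4 c c _ 0 c7 c7 (hs c γ c3) g0).2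
      have g5 : (co1 ρ x x).2 = 0 := by simp [co1, ip_zero_left]
      rw [sub_zero, sub_sub_cancel, c4, g5, map_zero, sub_self c, norm_zero, ofReal_zero,
        sub_zero, sub_zero, zero_sub, norm_neg] at g4
      have g6 := netShift_snd (ρ := ρ) hσ (P (lb σ l γ)) x
      have g7 := norm_sub_le (co1 ρ (P (lb σ l γ)) x).2
        ((co1 ρ (P (lb σ l γ)) x).2 - lam c (c - lb σ l γ))
      rw [sub_sub_cancel, norm_real, Real.norm_eq_abs] at g7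
      have g8 : σ ^ 2 * (1 / 2) ≤ σ ^ 2 * ‖qq (co ρ σ (P (lb σ l γ)) x)‖ := by gcongr
      linarith
  have hwt : ∀ γ : Lg m σ l ϱ, ‖lb σ l (f γ)‖ / ϱ ≤ ‖lb σ l γ.1‖ / ϱ + G / ϱ * η := fun γ => by
    have e : lb σ l (f γ) = lb σ l γ + (c - lb σ l γ - (c' - lb σ l (f γ)) - (c - c')) := by abel
    have g1 := norm_add_le (lb σ l γ.1) (c - lb σ l γ - (c' - lb σ l (f γ)) - (c - c'))
    have g2 := norm_sub_le (c - lb σ l γ - (c' - lb σ l (f γ))) (c - c')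
    rw [← e] at g1
    rw [div_mul_eq_mul_div, ← add_div]
    gcongr
    linarith [(key γ).1]
  classical
  refine ⟨{γ | ‖lb σ l (f γ)‖ < ϱ},
    fun γ => if hγ : ‖lb σ l (f γ)‖ < ϱ then ⟨f γ, hγ⟩ else γ, fun γ hγ γ' hγ' e => ?_,
    fun γ hγ => ?_, fun γ hγ => ?_⟩
  · rw [mem_ofPred_eq] at hγ hγ'
    simp only [dif_pos hγ, dif_pos hγ'] at e
    exact Subtype.ext (finj (congrArg Subtype.val e))
  · rw [mem_ofPred_eq] at hγ
    simp only [dif_pos hγ]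
    obtain ⟨g1, g2⟩ := l4 c c' _ _ c7 c8 (hs c γ c3) (hs c' ⟨f γ, hγ⟩ c5)
    rw [sub_sub_cancel, sub_sub_cancel, c4, c6] at g1 g2
    constructor
    · refine (netShift_co hσ (g1.trans (key γ).2.1) (le_trans ?_ (key γ).2.2)).trans
        (by gcongr; linarith)
      have g3 := (hf γ).2
      rw [← mul_one_div, ← Real.norm_eq_abs, ← norm_real, ofReal_sub] at g3
      refine le_trans (le_of_eq ?_) ((norm_add_le _ _).trans (add_le_add g2 g3))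
      congr 1
      ring
    · have : G / ϱ * η ≤ H * η := by gcongr; linarith
      linarith [hwt γ]
  · rw [mem_ofPred_eq, not_lt, ← one_le_div hϱ] at hγ
    calc _ ≤ 2 * (G / ϱ) * η * (1 / 2) := by linarith [hwt γ]
      _ ≤ _ := by
        gcongr
        · linarith
        · exact hq γ

end Pool.Agent.Lib.MP_601e9e_an.Cv
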