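import Pool.Agent.Lib.MP_601e9e_an.Cv.Defs

/-!
The lattice of a chart: upper bound and separation.
-/

set_option autoImplicit false

open Complex Metric Set ComplexConjugate
open scoped ContDiff

namespace Pool.Agent.Lib.MP_601e9e_an.Cv

variable {n m : ℕ} {ρ : Vs n → ℝ} {R K σ : ℝ}

variable {p₀ : Vs n} {P : Ys m → Vs n} {pr : Vs n →L[ℝ] Ys m} {r R₀ ϱ : ℝ}


theorem finite_Lg (hσ : 0 < σ) {l : ℕ} (hl : 1 ≤ l) (ϱ : ℝ) : Finite (Lg m σ l ϱ) := by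
  classical
  have hl0 : (0 : ℝ) < l := by exact_mod_cast hl
  obtain ⟨N, hN⟩ := exists_int_gt (|ϱ| * l / σ + |ϱ| * (l : ℝ) ^ 2 / σ ^ 2)
  have a1 : 0 ≤ |ϱ| * l / σ := by positivity
  have a2 : 0 ≤ |ϱ| * (l : ℝ) ^ 2 / σ ^ 2 := by positivity
  refine ((Set.finite_Icc ((fun _ => -N, -N) : Lz m) (fun _ => N, N)).subset
    (t := {γ : Lz m | ‖lb σ l γ‖ < ϱ}) fun γ hγ => ?_).to_subtype
  have hγ' : ‖lb σ l γ‖ ≤ |ϱ| := (le_of_lt hγ).trans (le_abs_self _)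
  have h1 : ∀ i, |γ.1 i| ≤ N := fun i => by
    have h : |σ * γ.1 i / l| ≤ |ϱ| :=
      ((norm_le_pi_norm (lb σ l γ).1 i).trans (norm_fst_le _)).trans hγ'
    rw [abs_div, abs_mul, abs_of_pos hσ, abs_of_pos hl0, div_le_iff₀ hl0, ← le_div_iff₀' hσ] at h
    have : ((|γ.1 i| : ℤ) : ℝ) ≤ N := by rw [Int.cast_abs]; linarith
    exact_mod_cast this
  have h2 : |γ.2| ≤ N := by
    have h : |σ ^ 2 * γ.2 / (l : ℝ) ^ 2| ≤ |ϱ| := (norm_snd_le (lb σ l γ)).trans hγ'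
    rw [abs_div, abs_mul, abs_of_pos (pow_pos hσ 2), abs_of_pos (pow_pos hl0 2),
      div_le_iff₀ (pow_pos hl0 2), ← le_div_iff₀' (pow_pos hσ 2)] at h
    have : ((|γ.2| : ℤ) : ℝ) ≤ N := by rw [Int.cast_abs]; linarith
    exact_mod_cast this
  exact ⟨⟨fun i => (abs_le.1 (h1 i)).1, (abs_le.1 h2).1⟩, fun i => (abs_le.1 (h1 i)).2,
    (abs_le.1 h2).2⟩

theorem netup_le (h : Chart ρ p₀ P pr r R₀ ϱ) {l : ℕ} (γ : Lg m σ l ϱ) : ‖lb σ l γ.1‖ ≤ r := by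
  linarith [γ.2, h.ϱ_pos, h.ϱ_le]

theorem netup_slope (hG : Geo ρ R K) (h : Chart ρ p₀ P pr r R₀ ϱ) {X : Vs n}
    (hX : ‖X - p₀‖ ≤ R₀) (c : Fin m → ℝ) {t t' : ℝ} (ht : ‖((c, t) : Ys m)‖ ≤ r)
    (ht' : ‖((c, t') : Ys m)‖ ≤ r) (htt : t ≤ t') :
    (co1 ρ (P (c, t')) X).2.re - (co1 ρ (P (c, t)) X).2.re ≤ -(1 / 2) * (t' - t) := by
  have hf : Differentiable ℝ fun b' : Ys m => (co1 ρ (P b') X).2.re :=
    (reCLM.contDiff.comp (contDiff_snd.comp ((contDiff_co1 hG.smooth).comp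
      (h.smooth.prodMk contDiff_const)))).differentiable (by simp)
  have hd : ∀ s : ℝ, HasDerivAt (fun s : ℝ => (co1 ρ (P (c, s)) X).2.re)
      (fderiv ℝ (fun b' : Ys m => (co1 ρ (P b') X).2.re) (c, s) (0, 1)) s := fun s =>
    (hf (c, s)).hasFDerivAt.comp_hasDerivAt s ((hasDerivAt_const s c).prodMk (hasDerivAt_id s))
  refine (convex_Icc t t').image_sub_le_mul_sub_of_deriv_le
    (f := fun s : ℝ => (co1 ρ (P (c, s)) X).2.re)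
    (fun s _ => (hd s).continuousAt.continuousWithinAt)
    (fun s _ => (hd s).differentiableAt.differentiableWithinAt) (fun s hs => ?_) t
    (left_mem_Icc.2 htt) t' (right_mem_Icc.2 htt) htt
  have hs' := interior_subset hs
  rw [(hd s).deriv]
  refine h.slope _ _ ?_ hX
  rw [Prod.norm_def, max_le_iff] at ht ht' ⊢
  refine ⟨ht.1, abs_le.2 ⟨?_, ?_⟩⟩
  · linarith [(abs_le.1 ht.2).1, hs'.1]
  · linarith [(abs_le.1 ht'.2).2, hs'.2]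

theorem netup_col {ι : Type} (S : Finset ι) (v : ι → ℝ) {L : ℝ} (hL : 1 ≤ L)
    (hv : ∀ a ∈ S, ∀ b ∈ S, a ≠ b → 1 / L ≤ |v a - v b|) :
    ∑ a ∈ S, 1 / (1 + v a ^ 2) ≤ 24 * L := by
  classical
  have hL0 : 0 < L := by linarith
  have hinj : InjOn (fun a => ⌊L * v a⌋) S := fun a ha b hb e => by
    by_contra hne
    have h1 := Int.abs_sub_lt_one_of_floor_eq_floor e
    have h2 := hv a ha b hb hne
    rw [← mul_sub, abs_mul, abs_of_pos hL0] at h1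
    rw [div_le_iff₀' hL0] at h2
    linarith
  have h1 := latup_one L hL 0 (S.image fun a => ⌊L * v a⌋)
  rw [Finset.sum_image hinj] at h1
  have h2 : ∀ a ∈ S, 1 / (1 + v a ^ 2) ≤ 3 * (1 / (1 + (0 + (⌊L * v a⌋ : ℝ) / L) ^ 2)) := by
    intro a _
    obtain ⟨k, hk⟩ : ∃ k : ℝ, k = (⌊L * v a⌋ : ℝ) / L := ⟨_, rfl⟩
    have a1 : k ≤ v a := by rw [hk, div_le_iff₀' hL0]; exact Int.floor_le _
    have a2 : v a - 1 ≤ k := by
      rw [hk, le_div_iff₀' hL0]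
      linarith [Int.lt_floor_add_one (L * v a)]
    rw [zero_add, ← hk, mul_one_div, div_le_div_iff₀ (by positivity) (by positivity)]
    nlinarith [sq_nonneg (v a - k), sq_nonneg (2 * v a - k)]
  refine (Finset.sum_le_sum h2).trans ?_
  rw [← Finset.mul_sum]
  linarith

theorem netup_int {L : ℕ} {a b : ℤ} (h : (a : ZMod (L + 1)) = b) (hne : a ≠ b) :
    (L : ℝ) + 1 ≤ |(a : ℝ) - b| := by
  have h1 := (ZMod.intCast_eq_intCast_iff_dvd_sub b a (L + 1)).1 h.symm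
  have h2 := Int.le_of_dvd (abs_pos.2 (sub_ne_zero.2 hne)) ((dvd_abs _ _).2 h1)
  exact_mod_cast h2

theorem Chart.colx (hG : Geo ρ R K) (h : Chart ρ p₀ P pr r R₀ ϱ) : ∃ C : ℝ, 1 ≤ C ∧
    ∀ (σ : ℝ) (l : ℕ) (γ : Lg m σ l ϱ) (i : Fin m), 0 < σ → 1 ≤ l → ∀ X ∈ Ob ρ R σ,
      1 + ((pr (X - p₀)).1 i / σ - (γ.1.1 i : ℝ) / l) ^ 2 ≤
        C * ‖qq (co ρ σ (P (lb σ l γ)) X)‖ := by
  have hK := hG.K_pos
  refine ⟨2 + ‖pr‖ ^ 2 * K, by linarith [show 0 ≤ ‖pr‖ ^ 2 * K by positivity],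
    fun σ l γ i hσ hl X hX => ?_⟩
  obtain ⟨h1, h2⟩ := h.mem _ (netup_le h γ)
  have e : (pr (X - p₀)).1 i / σ - (γ.1.1 i : ℝ) / l = (pr (X - P (lb σ l γ))).1 i / σ := by
    have : pr (X - P (lb σ l γ)) = pr (X - p₀) - lb σ l γ := by
      conv_rhs => rw [← h2, ← map_sub]
      congr 1
      abel
    rw [this]
    simp only [Prod.fst_sub, Pi.sub_apply, lb]
    field_simp
  have h3 : |(pr (X - P (lb σ l γ))).1 i| ≤ ‖pr‖ * ‖X - P (lb σ l γ)‖ :=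
    ((norm_le_pi_norm (pr (X - P (lb σ l γ))).1 i).trans (norm_fst_le _)).trans (pr.le_opNorm _)
  have h4 := pow_le_pow_left₀ (abs_nonneg _) h3 2
  have h5 := mul_le_mul_of_nonneg_left (hG.sq_le hσ h1 hX) (sq_nonneg ‖pr‖)
  have h6 := hG.half_le hσ h1 hX
  rw [sq_abs, mul_pow] at h4
  have h7 : ((pr (X - P (lb σ l γ))).1 i / σ) ^ 2 ≤
      ‖pr‖ ^ 2 * K * ‖qq (co ρ σ (P (lb σ l γ)) X)‖ := by
    rw [div_pow, div_le_iff₀ (by positivity)]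
    linarith
  rw [e]
  linarith

theorem Chart.colv (hG : Geo ρ R K) (h : Chart ρ p₀ P pr r R₀ ϱ) : ∃ C : ℝ, 1 ≤ C ∧
    ∀ (σ : ℝ) (l : ℕ), 0 < σ → 1 ≤ l → ∀ X ∈ Ob ρ R σ, ∃ v : Lg m σ l ϱ → ℝ,
      (∀ γ, |v γ| ≤ C * ‖qq (co ρ σ (P (lb σ l γ)) X)‖) ∧
      ∀ γ γ' : Lg m σ l ϱ, γ.1.1 = γ'.1.1 →
        |(γ.1.2 : ℝ) - γ'.1.2| / (2 * (l : ℝ) ^ 2) ≤ |v γ - v γ'| := by
  have hK := hG.K_pos
  have hR := h.R_pos
  have hϱ := h.ϱ_pos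
  have hc : 0 ≤ 2 * ϱ * K / R₀ ^ 2 := by positivity
  refine ⟨3 + 2 * ϱ * K / R₀ ^ 2, by linarith, fun σ l hσ hl X hX => ?_⟩
  have hl0 : (0 : ℝ) < l := by exact_mod_cast hl
  by_cases hX0 : ‖X - p₀‖ ≤ R₀
  · refine ⟨fun γ => (co ρ σ (P (lb σ l γ)) X).2.re, fun γ => ?_, fun γ γ' e => ?_⟩
    · have h1 := hG.half_le hσ (h.mem _ (netup_le h γ)).1 hX
      have h2 := (abs_re_le_norm _).trans (norm_snd_le_qq (co ρ σ (P (lb σ l γ)) X))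
      nlinarith
    · have e1 : ∀ p, (co ρ σ p X).2.re = (co1 ρ p X).2.re / σ ^ 2 := fun p => by
        have : (co ρ σ p X).2 = ((σ⁻¹ ^ 2 : ℝ) : ℂ) * (co1 ρ p X).2 := by
          rw [co_snd, ofReal_pow]; rfl
        rw [this, re_ofReal_mul]
        field_simp
      have key : ∀ a b : Lg m σ l ϱ, a.1.1 = b.1.1 → a.1.2 ≤ b.1.2 →
          ((b.1.2 : ℝ) - a.1.2) / (2 * (l : ℝ) ^ 2) ≤
            (co ρ σ (P (lb σ l a)) X).2.re - (co ρ σ (P (lb σ l b)) X).2.re := by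
        intro a b e hab
        have hab' : (a.1.2 : ℝ) ≤ b.1.2 := by exact_mod_cast hab
        have eb : lb σ l b.1 = ((lb σ l a.1).1, (lb σ l b.1).2) := by simp only [lb, e]
        have h1 := netup_slope hG h hX0 (lb σ l a.1).1 (t := (lb σ l a.1).2)
          (t' := (lb σ l b.1).2) (netup_le h a) (eb ▸ netup_le h b)
          (by simp only [lb]; gcongr)
        rw [← eb] at h1
        rw [e1, e1, ← sub_div, le_div_iff₀ (by positivity)]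
        refine le_trans (le_of_eq ?_) (show 1 / 2 * ((lb σ l b.1).2 - (lb σ l a.1).2) ≤ _ by
          linarith)
        simp only [lb]
        field_simp
      rcases le_total γ.1.2 γ'.1.2 with hab | hab
      · have hab' : (γ.1.2 : ℝ) ≤ γ'.1.2 := by exact_mod_cast hab
        rw [abs_sub_comm, abs_of_nonneg (sub_nonneg.2 hab')]
        exact (key γ γ' e hab).trans (le_abs_self _)
      · have hab' : (γ'.1.2 : ℝ) ≤ γ.1.2 := by exact_mod_cast hab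
        rw [abs_of_nonneg (sub_nonneg.2 hab'), abs_sub_comm]
        exact (key γ' γ e.symm hab).trans (le_abs_self _)
  · refine ⟨fun γ => (γ.1.2 : ℝ) / (l : ℝ) ^ 2, fun γ => ?_, fun γ γ' _ => ?_⟩
    · have h1 := hG.sq_le hσ (h.mem _ (netup_le h γ)).1 hX
      have h2 := h.near _ γ.2.le
      have h3 : 3 * R₀ / 4 ≤ ‖X - P (lb σ l γ)‖ := by
        linarith [norm_sub_le_norm_sub_add_norm_sub X (P (lb σ l γ)) p₀, not_le.1 hX0]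
      have h4 := (pow_le_pow_left₀ (by positivity) h3 2).trans h1
      have h5 : |σ ^ 2 * γ.1.2 / (l : ℝ) ^ 2| ≤ ϱ := (norm_snd_le (lb σ l γ.1)).trans γ.2.le
      rw [mul_div_assoc, abs_mul, abs_of_pos (pow_pos hσ 2)] at h5
      have h6 := norm_nonneg (qq (co ρ σ (P (lb σ l γ)) X))
      generalize ‖qq (co ρ σ (P (lb σ l γ)) X)‖ = q at h4 h6 ⊢
      have h7 : |(γ.1.2 : ℝ) / (l : ℝ) ^ 2| ≤ 2 * ϱ * K / R₀ ^ 2 * q := by
        rw [div_mul_eq_mul_div, le_div_iff₀ (by positivity)]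
        have h8 := abs_nonneg ((γ.1.2 : ℝ) / (l : ℝ) ^ 2)
        generalize |(γ.1.2 : ℝ) / (l : ℝ) ^ 2| = w at h5 h8 ⊢
        calc w * R₀ ^ 2 ≤ w * (2 * (K * σ ^ 2 * q)) := by gcongr; nlinarith
          _ = 2 * (σ ^ 2 * w) * K * q := by ring
          _ ≤ _ := by gcongr
      nlinarith
    · rw [← sub_div, abs_div, abs_of_pos (pow_pos hl0 2)]
      gcongr
      linarith [pow_pos hl0 2]

theorem Chart.net_up (hG : Geo ρ R K) (h : Chart ρ p₀ P pr r R₀ ϱ) (hm : m + 2 = 2 * n) :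
    ∃ C : ℝ, 1 ≤ C ∧ ∀ (σ : ℝ) (l : ℕ) [Fintype (Lg m σ l ϱ)], 0 < σ → 1 ≤ l →
      ∀ X ∈ Ob ρ R σ, ∑ γ : Lg m σ l ϱ, ker (2 * n) (co ρ σ (P (lb σ l γ)) X) ≤
        C * (l : ℝ) ^ (2 * n) := by
  classical
  obtain ⟨C₁, c1, H₁⟩ := h.colx hG
  obtain ⟨C₂, c2, H₂⟩ := h.colv hG
  have c3 : 1 ≤ C₁ ^ m := one_le_pow₀ c1
  have c4 : (1 : ℝ) ≤ 8 ^ m := one_le_pow₀ (by norm_num)
  have c5 : 1 ≤ C₁ ^ m * (4 + C₂ ^ 2) := by nlinarith [sq_nonneg C₂]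
  refine ⟨C₁ ^ m * (4 + C₂ ^ 2) * (48 * 8 ^ m), by nlinarith, fun σ l _ hσ hl X hX => ?_⟩
  have hl1 : (1 : ℝ) ≤ l := by exact_mod_cast hl
  obtain ⟨v, v1, v2⟩ := H₂ σ l hσ hl X hX
  obtain ⟨G, hGd⟩ : ∃ G : (Fin m → ℤ) → ℝ, G = fun c =>
      ∏ i, 1 / (1 + (-((pr (X - p₀)).1 i / σ) + (c i : ℝ) / l) ^ 2) := ⟨_, rfl⟩
  have G0 : ∀ c, 0 ≤ G c := fun c => by
    rw [hGd]; exact Finset.prod_nonneg fun _ _ => by positivity
  have h1 : ∀ γ : Lg m σ l ϱ, ker (2 * n) (co ρ σ (P (lb σ l γ)) X) ≤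
      C₁ ^ m * (4 + C₂ ^ 2) * (G γ.1.1 * (1 / (1 + v γ ^ 2))) := fun γ => by
    have a0 := hG.half_le hσ (h.mem _ (netup_le h γ)).1 hX
    have a1 := fun i => H₁ σ l γ i hσ hl X hX
    have a2 := pow_le_pow_left₀ (abs_nonneg _) (v1 γ) 2
    rw [ker, ← hm]
    generalize ‖qq (co ρ σ (P (lb σ l γ)) X)‖ = q at a0 a1 a2
    have q0 : 0 < q := by linarith
    have a3 : (q ^ m)⁻¹ ≤ C₁ ^ m * G γ.1.1 := by
      have := Finset.prod_le_prod (s := Finset.univ) (f := fun _ : Fin m => q⁻¹)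
        (g := fun i => C₁ * (1 / (1 + (-((pr (X - p₀)).1 i / σ) + (γ.1.1 i : ℝ) / l) ^ 2)))
        (fun _ _ => by positivity) fun i _ => by
          rw [mul_one_div, inv_eq_one_div, div_le_div_iff₀ q0 (by positivity)]
          have := a1 i
          nlinarith
      rw [Finset.prod_mul_distrib] at this
      rw [hGd]
      simpa using this
    have a4 : (q ^ 2)⁻¹ ≤ (4 + C₂ ^ 2) * (1 / (1 + v γ ^ 2)) := by
      rw [mul_one_div, inv_eq_one_div, div_le_div_iff₀ (by positivity) (by positivity)]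
      rw [sq_abs] at a2
      nlinarith
    have := G0 γ.1.1
    calc (q ^ (m + 2))⁻¹ = (q ^ m)⁻¹ * (q ^ 2)⁻¹ := by rw [pow_add, mul_inv]
      _ ≤ C₁ ^ m * G γ.1.1 * ((4 + C₂ ^ 2) * (1 / (1 + v γ ^ 2))) := by gcongr
      _ = _ := by ring
  obtain ⟨t, ht⟩ : ∃ t : Fin m → Finset ℤ, t = fun i =>
      Finset.univ.image fun γ : Lg m σ l ϱ => γ.1.1 i := ⟨_, rfl⟩
  have h2 : ∑ γ : Lg m σ l ϱ, G γ.1.1 * (1 / (1 + v γ ^ 2)) ≤
      (8 * l) ^ m * (48 * (l : ℝ) ^ 2) := by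
    rw [← Finset.sum_fiberwise_of_maps_to (s := Finset.univ) (t := Fintype.piFinset t)
      (g := fun γ : Lg m σ l ϱ => γ.1.1) fun γ _ => by
        rw [ht]
        exact Fintype.mem_piFinset.2 fun i => Finset.mem_image_of_mem _ (Finset.mem_univ γ)]
    have a1 : ∀ c ∈ Fintype.piFinset t,
        ∑ γ ∈ Finset.univ.filter fun γ : Lg m σ l ϱ => γ.1.1 = c,
          G γ.1.1 * (1 / (1 + v γ ^ 2)) ≤ G c * (48 * (l : ℝ) ^ 2) := fun c _ => by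
      rw [Finset.sum_congr rfl (g := fun γ => G c * (1 / (1 + v γ ^ 2)))
        (fun γ hγ => by rw [(Finset.mem_filter.1 hγ).2]), ← Finset.mul_sum]
      refine mul_le_mul_of_nonneg_left ((netup_col _ v (L := 2 * (l : ℝ) ^ 2) (by nlinarith)
        fun a ha b hb hne => ?_).trans (by linarith)) (G0 c)
      have e : a.1.1 = b.1.1 := (Finset.mem_filter.1 ha).2.trans (Finset.mem_filter.1 hb).2.symm
      refine le_trans ?_ (v2 a b e)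
      have : (1 : ℤ) ≤ |a.1.2 - b.1.2| := Int.one_le_abs (sub_ne_zero.2 fun e' =>
        hne (Subtype.ext (Prod.ext e e')))
      have : (1 : ℝ) ≤ |(a.1.2 : ℝ) - b.1.2| := by exact_mod_cast this
      gcongr
    refine (Finset.sum_le_sum a1).trans ?_
    rw [← Finset.sum_mul, hGd]
    exact mul_le_mul_of_nonneg_right (latup_pi l hl1 _ t) (by positivity)
  refine (Finset.sum_le_sum fun γ _ => h1 γ).trans ?_
  rw [← Finset.mul_sum, ← hm]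
  calc _ ≤ C₁ ^ m * (4 + C₂ ^ 2) * ((8 * l) ^ m * (48 * (l : ℝ) ^ 2)) := by gcongr
    _ = _ := by rw [mul_pow]; ring

theorem Chart.net_sep (hG : Geo ρ R K) (h : Chart ρ p₀ P pr r R₀ ϱ) : ∃ C : ℝ, 1 ≤ C ∧
    ∀ (σ : ℝ) (l L : ℕ) (γ γ' : Lg m σ l ϱ), 0 < σ → 1 ≤ l → γ ≠ γ' → cl L γ.1 = cl L γ'.1 →
      ∀ X ∈ Ob ρ R σ, ((L : ℝ) + 1) / (C * (l : ℝ) ^ 2) ≤ ‖qq (co ρ σ (P (lb σ l γ)) X)‖ ∨
        ((L : ℝ) + 1) / (C * (l : ℝ) ^ 2) ≤ ‖qq (co ρ σ (P (lb σ l γ')) X)‖ := by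
  obtain ⟨C₁, c1, H₁⟩ := h.colx hG
  obtain ⟨C₂, c2, H₂⟩ := h.colv hG
  refine ⟨4 * (C₁ + C₂), by linarith, fun σ l L γ γ' hσ hl hne hc X hX => ?_⟩
  have hl1 : (1 : ℝ) ≤ l := by exact_mod_cast hl
  have q1 := norm_nonneg (qq (co ρ σ (P (lb σ l γ)) X))
  have q2 := norm_nonneg (qq (co ρ σ (P (lb σ l γ')) X))
  have key : ((L : ℝ) + 1) / (l : ℝ) ^ 2 ≤ 2 * (C₁ + C₂) *
      (‖qq (co ρ σ (P (lb σ l γ)) X)‖ + ‖qq (co ρ σ (P (lb σ l γ')) X)‖) := by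
    by_cases e : γ.1.1 = γ'.1.1
    · obtain ⟨v, v1, v2⟩ := H₂ σ l hσ hl X hX
      have a1 := netup_int (congrArg Prod.snd hc) fun e' => hne (Subtype.ext (Prod.ext e e'))
      have a2 : ((L : ℝ) + 1) / (2 * (l : ℝ) ^ 2) ≤ |v γ - v γ'| :=
        le_trans (by gcongr) (v2 γ γ' e)
      have a3 := abs_sub (v γ) (v γ')
      have a4 : ((L : ℝ) + 1) / (l : ℝ) ^ 2 = 2 * (((L : ℝ) + 1) / (2 * (l : ℝ) ^ 2)) := by
        field_simp
      nlinarith [v1 γ, v1 γ']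
    · obtain ⟨i, hi⟩ := Function.ne_iff.1 e
      have a1 := netup_int (congrFun (congrArg Prod.fst hc) i) hi
      have a2 := H₁ σ l γ i hσ hl X hX
      have a3 := H₁ σ l γ' i hσ hl X hX
      generalize (pr (X - p₀)).1 i / σ = x at a2 a3
      have a4 : ((L : ℝ) + 1) / (l : ℝ) ^ 2 ≤ |(x - (γ'.1.1 i : ℝ) / l) - (x - (γ.1.1 i : ℝ) / l)| := by
        rw [sub_sub_sub_cancel_left, ← sub_div, abs_div, abs_of_pos (show (0 : ℝ) < l by linarith)]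
        gcongr
        nlinarith
      have a5 := abs_sub (x - (γ'.1.1 i : ℝ) / l) (x - (γ.1.1 i : ℝ) / l)
      have a6 : ∀ y : ℝ, |y| ≤ 1 + y ^ 2 := fun y => by nlinarith [sq_abs y, sq_nonneg (|y| - 1)]
      nlinarith [a6 (x - (γ'.1.1 i : ℝ) / l), a6 (x - (γ.1.1 i : ℝ) / l)]
  have e : ((L : ℝ) + 1) / (l : ℝ) ^ 2 =
      4 * (C₁ + C₂) * (((L : ℝ) + 1) / (4 * (C₁ + C₂) * (l : ℝ) ^ 2)) := by
    have : C₁ + C₂ ≠ 0 := by linarith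
    field_simp
  by_contra hn
  rw [not_or, not_le, not_le] at hn
  nlinarith [hn.1, hn.2]

end Pool.Agent.Lib.MP_601e9e_an.Cv
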