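import Pool.Agent.Lib.MP_601e9e_an.Cv.ChartEx
import Pool.Agent.Lib.MP_601e9e_an.Cv.NetUp
import Pool.Agent.Lib.MP_601e9e_an.Cv.NetLow
import Pool.Agent.Lib.MP_601e9e_an.Cv.NetShift

/-!
Existence of nets.
-/

set_option autoImplicit false

open Complex Metric Set ComplexConjugate
open scoped ContDiff

namespace Pool.Agent.Lib.MP_601e9e_an.Cv

variable {n m : ℕ} {ρ : Vs n → ℝ} {R K σ : ℝ}

theorem IsNet.mono {C C' : ℝ} {l L : ℕ} {Γ Co : Type} [Fintype Γ] {pt : Γ → Vs n} {wt : Γ → ℝ}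
    {col : Γ → Co} {A : Set (Vs n)} (h : IsNet ρ R C σ l L pt wt col A) (hσ : 0 < σ)
    (hl : 1 ≤ l) (hC : 0 < C) (hCC : C ≤ C') : IsNet ρ R C' σ l L pt wt col A := by
  have hl' : (0 : ℝ) < l := by exact_mod_cast hl
  have e : ((L : ℝ) + 1) / (C' * (l : ℝ) ^ 2) ≤ ((L : ℝ) + 1) / (C * (l : ℝ) ^ 2) := by gcongr
  refine ⟨h.mem, h.wt0, h.wt1, fun X hX => (h.up X hX).trans (by gcongr),
    fun γ γ' h1 h2 X hX => (h.sep γ γ' h1 h2 X hX).imp e.trans e.trans, fun x hx => ?_,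
    fun x y hx hy => ?_⟩
  · obtain ⟨s, h1, h2⟩ := h.low x hx
    exact ⟨s, h1, fun γ hγ => ⟨(h2 γ hγ).1, (h2 γ hγ).2.trans hCC⟩⟩
  · obtain ⟨s, b, h1, h2, h3⟩ := h.shift x y hx hy
    exact ⟨s, b, h1, fun γ hγ => ⟨(h2 γ hγ).1.trans (by gcongr), (h2 γ hγ).2.trans (by gcongr)⟩,
      fun γ hγ => (h3 γ hγ).trans (by gcongr)⟩

theorem IsNet.sigma {C : ℝ} {l L : ℕ} {ι Co : Type} [Fintype ι] {Γ : ι → Type}
    [∀ i, Fintype (Γ i)] {pt : ∀ i, Γ i → Vs n} {wt : ∀ i, Γ i → ℝ} {col : ∀ i, Γ i → Co}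
    {A : ι → Set (Vs n)} (h : ∀ i, IsNet ρ R C σ l L (pt i) (wt i) (col i) (A i)) (hσ : 0 < σ)
    (hl : 1 ≤ l) (hC : 0 < C) {B : Set (Vs n)} (hB : B ⊆ ⋃ i, A i) :
    IsNet ρ R ((Fintype.card ι + 1) * C) σ l L (fun γ : Σ i, Γ i => pt γ.1 γ.2)
      (fun γ => wt γ.1 γ.2) (fun γ => (γ.1, col γ.1 γ.2)) B := by
  have hCC : C ≤ (Fintype.card ι + 1) * C := by
    have : (0 : ℝ) ≤ Fintype.card ι * C := by positivity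
    linarith
  have h' := fun i => (h i).mono hσ hl hC hCC
  refine ⟨fun γ => (h _).mem _, fun γ => (h _).wt0 _, fun γ => (h _).wt1 _, fun X hX => ?_, ?_,
    fun x hx => ?_, fun x y hx hy => ?_⟩
  · rw [Fintype.sum_sigma]
    refine (Finset.sum_le_sum fun i _ => (h i).up X hX).trans ?_
    rw [Finset.sum_const, nsmul_eq_mul, Finset.card_univ, ← mul_assoc]
    gcongr
    linarith
  · rintro ⟨i, γ⟩ ⟨j, γ'⟩ h1 h2 X hX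
    obtain rfl : i = j := congrArg Prod.fst h2
    exact (h' i).sep γ γ' (fun e => h1 (by rw [e])) (congrArg Prod.snd h2) X hX
  · obtain ⟨i, hi⟩ := mem_iUnion.1 (hB hx)
    obtain ⟨s, h1, h2⟩ := (h' i).low x hi
    refine ⟨s.map ⟨Sigma.mk i, sigma_mk_injective⟩, by rwa [Finset.card_map], fun γ hγ => ?_⟩
    obtain ⟨a, ha, rfl⟩ := Finset.mem_map.1 hγ
    exact h2 a ha
  · choose s b h1 h2 h3 using fun i => (h' i).shift x y hx hy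
    refine ⟨{γ | γ.2 ∈ s γ.1}, fun γ => ⟨γ.1, b γ.1 γ.2⟩, ?_, fun γ hγ => h2 _ _ hγ,
      fun γ hγ => h3 _ _ hγ⟩
    rintro ⟨i, γ⟩ hγ ⟨j, γ'⟩ hγ' e
    obtain rfl : i = j := congrArg Sigma.fst e
    exact congrArg (Sigma.mk i) (h1 i hγ hγ' (sigma_mk_injective e))

theorem Chart.isNet {p₀ : Vs n} {P : Ys m → Vs n} {pr : Vs n →L[ℝ] Ys m} {r R₀ ϱ : ℝ}
    (hG : Geo ρ R K) (h : Chart ρ p₀ P pr r R₀ ϱ) (hm : m + 2 = 2 * n) :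
    ∃ C σ₀ : ℝ, 1 ≤ C ∧ 0 < σ₀ ∧ ∀ (L l : ℕ) (σ : ℝ) [Fintype (Lg m σ l ϱ)], 1 ≤ l → 0 < σ →
      σ ≤ σ₀ → IsNet ρ R C σ l L (fun γ : Lg m σ l ϱ => P (lb σ l γ))
        (fun γ => 1 - ‖lb σ l γ.1‖ / ϱ) (fun γ => cl L γ.1)
        {x | ρ x = 0 ∧ ‖x - p₀‖ < R₀ ∧ ‖pr (x - p₀)‖ < ϱ / 4} := by
  obtain ⟨C₁, a₁, h₁⟩ := h.net_up hG hm
  obtain ⟨C₂, a₂, h₂⟩ := h.net_sep hG
  obtain ⟨C₃, σ₀, a₃, hσ₀, h₃⟩ := h.net_low hG.smooth hm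
  obtain ⟨C₄, a₄, h₄⟩ := h.net_shift hG
  have hϱ := h.ϱ_pos
  refine ⟨C₁ + C₂ + C₃ + C₄, min σ₀ 1, by linarith, lt_min hσ₀ one_pos,
    fun L l σ _ hl hσ hσ' => ?_⟩
  have hl' : (0 : ℝ) < l := by exact_mod_cast hl
  have e : ((L : ℝ) + 1) / ((C₁ + C₂ + C₃ + C₄) * (l : ℝ) ^ 2) ≤
      ((L : ℝ) + 1) / (C₂ * (l : ℝ) ^ 2) := by
    gcongr
    linarith
  refine ⟨fun γ => (h.mem _ (by linarith [γ.2, h.ϱ_le])).1,
    fun γ => sub_nonneg.2 ((div_le_one hϱ).2 γ.2.le), fun γ => sub_le_self _ (by positivity),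
    fun X hX => (h₁ σ l hσ hl X hX).trans (by gcongr; linarith),
    fun γ γ' h1 h2 X hX => (h₂ σ l L γ γ' hσ hl h1 h2 X hX).imp e.trans e.trans,
    fun x hx => ?_, fun x y hx hy => ?_⟩
  · obtain ⟨s, h1, h2⟩ := h₃ σ l x hσ (hσ'.trans (min_le_left _ _)) hl hx.1 hx.2.1.le hx.2.2.le
    exact ⟨s, h1, fun γ hγ => ⟨(h2 γ hγ).1, (h2 γ hγ).2.trans (by linarith)⟩⟩
  · obtain ⟨s, b, h1, h2, h3⟩ := h₄ σ l x y hσ (hσ'.trans (min_le_right _ _)) hl hx hy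
    have hC : C₄ ≤ C₁ + C₂ + C₃ + C₄ := by linarith
    exact ⟨s, b, h1, fun γ hγ => ⟨(h2 γ hγ).1.trans (by gcongr), (h2 γ hγ).2.trans (by gcongr)⟩,
      fun γ hγ => (h3 γ hγ).trans (by gcongr)⟩

theorem Geo.exists_net (h : Geo ρ R K) (hn : 1 ≤ n) : ∃ C σ₀ : ℝ, 1 ≤ C ∧ 0 < σ₀ ∧
    ∀ L : ℕ, ∃ (Co : Type) (_ : Fintype Co), ∀ (l : ℕ) (σ : ℝ), 1 ≤ l → 0 < σ → σ ≤ σ₀ →
      ∃ (Γ : Type) (_ : Fintype Γ) (pt : Γ → Vs n) (wt : Γ → ℝ) (col : Γ → Co),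
        IsNet ρ R C σ l L pt wt col {x | ρ x = 0} := by
  obtain ⟨m, hm⟩ : ∃ m, m + 2 = 2 * n := ⟨2 * n - 2, by omega⟩
  choose P pr r R₀ ϱ hc using fun p : {x | ρ x = 0} => h.toCvx.exists_chart hm p.2
  choose C σ₀ hC hσ₀ hN using fun p => (hc p).isNet h hm
  obtain ⟨t, ht⟩ := h.toCvx.isCompact.elim_finite_subcover
    (fun p : {x | ρ x = 0} => {x | ‖x - p.1‖ < R₀ p ∧ ‖pr p (x - p.1)‖ < ϱ p / 4})
    (fun p => (isOpen_lt (f := fun x => ‖x - p.1‖) (by fun_prop) continuous_const).inter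
      (isOpen_lt (f := fun x => ‖pr p (x - p.1)‖) (by fun_prop) continuous_const))
    fun x hx => mem_iUnion.2 ⟨⟨x, hx⟩, by
      have := (hc ⟨x, hx⟩).ϱ_pos
      simpa using ⟨(hc ⟨x, hx⟩).R_pos, this⟩⟩
  obtain ⟨C', hC'⟩ := (Set.finite_range fun p : t => C p).bddAbove
  obtain ⟨s, hs0, hs⟩ : ∃ s : ℝ, 0 < s ∧ ∀ p : t, s ≤ σ₀ p := by
    obtain ⟨u, hu⟩ := (Set.finite_range fun p : t => (σ₀ p)⁻¹).bddAbove
    refine ⟨(max u 1)⁻¹, by positivity, fun p => ?_⟩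
    rw [inv_le_comm₀ (by positivity) (hσ₀ p)]
    exact (hu ⟨p, rfl⟩).trans (le_max_left _ _)
  have h1 : 1 ≤ max C' 1 := le_max_right _ _
  refine ⟨(Fintype.card t + 1) * max C' 1, s, ?_, hs0,
    fun L => ⟨t × Cl m L, inferInstance, fun l σ hl hσ hσ' => ?_⟩⟩
  · have : (0 : ℝ) ≤ Fintype.card t * max C' 1 := by positivity
    linarith
  have := fun p : t => finite_Lg (m := m) hσ hl (ϱ p)
  let := fun p : t => Fintype.ofFinite (Lg m σ l (ϱ p))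
  refine ⟨Σ p : t, Lg m σ l (ϱ p), inferInstance, _, _, _, IsNet.sigma
    (fun p : t => (hN p L l σ hl hσ (hσ'.trans (hs p))).mono hσ hl (by linarith [hC p])
      ((hC' ⟨p, rfl⟩).trans (le_max_left _ 1))) hσ hl (by linarith) fun x hx => ?_⟩
  obtain ⟨p, hp, hx'⟩ := mem_iUnion₂.1 (ht hx)
  exact mem_iUnion.2 ⟨⟨p, hp⟩, hx, hx'⟩

end Pool.Agent.Lib.MP_601e9e_an.Cv
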