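import Pool.Agent.Lib.MP_601e9e_an.Cv.Step2
import Pool.Agent.Lib.MP_601e9e_an.Cv.Free
import Pool.Agent.Lib.MP_601e9e_an.Cv.Jets
import Pool.Agent.Lib.MP_601e9e_an.Cv.NetAll

/-!
One step with all parameters chosen.
-/

set_option autoImplicit false

open Complex Metric Set ComplexConjugate
open scoped ContDiff

namespace Pool.Agent.Lib.MP_601e9e_an.Cv

variable {n m : ℕ} {ρ : Vs n → ℝ} {R K σ : ℝ}

/-- the invariant of the iteration -/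
structure St {κ : Type} [Fintype κ] (ρ : Vs n → ℝ) (R Λ : ℝ) (k M : ℕ) (β θ β' σ : ℝ)
    (F : Vs n → κ → ℂ) (e : Vs n → ℝ) : Prop where
  diff : DifferentiableOn ℂ F (Ob ρ R σ)
  jf : JF ρ R k σ F β
  bd : ∀ x, ρ x = 0 → 1 / 2 ≤ e x ∧ e x ≤ Λ
  je : JE ρ M σ e θ β'

theorem Full_ratio (a : ℕ) {x : ℝ} (hx : 0 < x) : x ^ a / (x ^ (a + 1) + 1) ≤ 1 / x := by
  rw [div_le_div_iff₀ (by positivity) hx, ← pow_succ]
  linarith

theorem Geo.full_step (h : Geo ρ R K) (hn : 1 ≤ n) {Λ : ℝ} (hΛ : 3 / 2 ≤ Λ) {s : ℕ} (hs : 1 ≤ s) :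
    ∃ (κ : Type) (_ : Fintype κ) (k M : ℕ) (T β θ β' B σ₀ : ℝ), 2 ≤ T ∧ 0 ≤ β ∧ 0 < θ ∧ 0 < β' ∧
      0 ≤ B ∧ 0 < σ₀ ∧ σ₀ ≤ 1 ∧ ∀ (σ : ℝ) (F : Vs n → κ → ℂ) (e : Vs n → ℝ), 0 < σ → σ ≤ σ₀ →
        St ρ R Λ k M β θ β' σ F e → ∃ g : Vs n → κ → ℂ, DifferentiableOn ℂ g (Ob ρ R σ) ∧
          (∀ X ∈ Ob ρ R σ, ‖g X‖ ≤ B) ∧
          St ρ R Λ k M β θ β' (σ / T) (fun X => ((T ^ (2 * s) : ℝ) : ℂ) • (F X + g X))
            fun x => T ^ (4 * s) * (e x - (nsq (g x) + 2 * (ip (F x) (g x)).re)) := by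
  obtain ⟨a, ha⟩ : ∃ a : ℕ, a = 4 * s + 1 := ⟨_, rfl⟩
  obtain ⟨M, hM⟩ : ∃ M : ℕ, M = 8 * s + 1 := ⟨_, rfl⟩
  obtain ⟨k, hk⟩ : ∃ k : ℕ, k = 2 * s + a * (n + 1) := ⟨_, rfl⟩
  obtain ⟨Cn, σn, hCn, hσn, hnet⟩ := h.exists_net hn
  obtain ⟨C, hC, hstep⟩ := h.step hCn Λ M k
  obtain ⟨CJ, hCJ, hjf⟩ := h.jf_of_bound k
  obtain ⟨CP, hCP, hje⟩ := h.je_of_pair M
  obtain ⟨CF, hCF, hfree⟩ := h.free (M := M) (by omega)
  obtain ⟨r, hr⟩ : ∃ r : ℝ, r = 2 * CF * C := ⟨_, rfl⟩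
  have hC0 : 0 < C := by linarith
  have hCF0 : 0 < CF := by linarith
  have hr1 : 1 ≤ r := by rw [hr]; nlinarith
  obtain ⟨σF, hσF, hfr⟩ := hfree r hr1
  obtain ⟨U, hU⟩ : ∃ U : ℝ, U = C * (2 * (CJ * (2 * C))) := ⟨_, rfl⟩
  have hU0 : 0 ≤ U := by rw [hU]; positivity
  obtain ⟨D, hD⟩ : ∃ D : ℝ, D = 1 + CP * (2 * C + U) := ⟨_, rfl⟩
  have hD1 : 1 ≤ D := by
    have : 0 ≤ CP * (2 * C + U) := by positivity
    rw [hD]; linarith
  obtain ⟨Q, hQ⟩ : ∃ Q : ℝ, Q = (CF * r ^ 2) ^ (M + 1) := ⟨_, rfl⟩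
  have hQ1 : 1 ≤ Q := by
    rw [hQ]
    exact one_le_pow₀ (one_le_mul_of_one_le_of_one_le hCF (one_le_pow₀ hr1))
  obtain ⟨N, hN⟩ := exists_nat_ge (8 * C + 4 * U + CF * D * Q)
  obtain ⟨T, hT⟩ : ∃ T : ℝ, T = N := ⟨_, rfl⟩
  rw [← hT] at hN
  have hCD : 0 ≤ CF * D := by positivity
  have hCDQ : CF * D ≤ CF * D * Q := le_mul_of_one_le_right hCD hQ1
  have hT2 : 2 ≤ T := by linarith
  have hT1 : 1 ≤ T := by linarith
  have hT0 : 0 < T := by linarith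
  have hl : ((N ^ a : ℕ) : ℝ) = T ^ a := by rw [hT]; push_cast; rfl
  have hL : (((N ^ a) ^ (2 * n + 3) : ℕ) : ℝ) = (T ^ a) ^ (2 * n + 2 + 1) := by
    rw [hT]; push_cast; rfl
  have hTa : T ≤ T ^ a := le_self_pow₀ hT1 (by omega)
  have hTa0 : 0 < T ^ a := by positivity
  have hl1 : 1 ≤ N ^ a := by
    have : (1 : ℝ) ≤ ((N ^ a : ℕ) : ℝ) := by rw [hl]; linarith
    exact_mod_cast this
  have hia : 1 / T ^ a ≤ 1 := by rw [div_le_one hTa0]; linarith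
  have hia0 : 0 < 1 / T ^ a := by positivity
  have hT4 : 0 < T ^ (4 * s) := by positivity
  have hTae : T ^ a = T ^ (4 * s) * T := by rw [ha, pow_succ]
  have hTM : T ^ (M + 1) = T ^ (4 * s) * T ^ a * T := by
    rw [hM, ha, ← pow_add, ← pow_succ]; congr 1; ring
  have hTk : T ^ (k + 1) = T ^ (2 * s) * (T ^ a) ^ n * T ^ a * T := by
    rw [hk, ← pow_mul, ← pow_add, ← pow_add, ← pow_succ]; congr 1; ring
  obtain ⟨β, hβ⟩ : ∃ β : ℝ, β = 2 * (CJ * (2 * C)) * (T ^ (2 * s) / T ^ (k + 1)) := ⟨_, rfl⟩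
  have hβ0 : 0 ≤ β := by rw [hβ]; positivity
  obtain ⟨Co, iCo, hCo⟩ := hnet ((N ^ a) ^ (2 * n + 3))
  refine ⟨Co × Bl n M k, inferInstance, k, M, T, β, 1 / C, 1 / T ^ a, 2 * C,
    min (min σn σF) (1 / T ^ a), hT2, hβ0, by positivity, hia0, by linarith,
    lt_min (lt_min hσn hσF) hia0, (min_le_right _ _).trans hia, fun σ F e hσ hσ0 hS => ?_⟩
  have hσa : σ ≤ 1 / T ^ a := hσ0.trans (min_le_right _ _)
  have hσ1 : σ ≤ 1 := hσa.trans hia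
  obtain ⟨Γ, iΓ, pt, wt, col, hnt⟩ := hCo (N ^ a) σ hl1 hσ
    (hσ0.trans ((min_le_left _ _).trans (min_le_left _ _)))
  have hτ : ((T ^ (2 * s))⁻¹) ^ 2 = (T ^ (4 * s))⁻¹ := by
    rw [inv_pow, ← pow_mul]; congr 2; ring
  have h16 : 16 ≤ T ^ (4 * s) := by
    calc (16 : ℝ) = 2 ^ 4 := by norm_num
      _ ≤ T ^ 4 := pow_le_pow_left₀ (by norm_num) hT2 4
      _ ≤ T ^ (4 * s) := pow_le_pow_right₀ hT1 (by omega)
  have hτ8 : (T ^ (4 * s))⁻¹ ≤ 1 / 8 := by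
    rw [inv_le_comm₀ hT4 (by norm_num)]; linarith
  obtain ⟨g, hg, hg1, hg2, hg3⟩ := hstep σ (N ^ a) ((N ^ a) ^ (2 * n + 3)) Γ Co pt wt col
    (T ^ (2 * s))⁻¹ β (1 / T ^ a) F e hnt hσ hσ1 hl1 hβ0 hia0.le (by rw [hτ]; exact hτ8)
    hS.bd hS.je hS.jf
  rw [hl, hL] at hg1 hg3
  rw [hl] at hg2
  rw [hτ] at hg3
  have hrat := Full_ratio (2 * n + 2) hTa0
  have hns : ∀ X ∈ Ob ρ R σ, nsq (g X) ≤ 2 * C := fun X hX =>
    (hg1 X hX).trans (by nlinarith)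
  have hB : ∀ X ∈ Ob ρ R σ, ‖g X‖ ≤ 2 * C := fun X hX =>
    norm_le_of_nsq_le (by linarith) ((hns X hX).trans (by nlinarith))
  have hu : C * β * (T ^ a) ^ n ≤ U * (1 / T ^ a) := by
    have e2 : C * β * (T ^ a) ^ n = U * (1 / T ^ a) / T := by
      rw [hβ, hTk, hU]; field_simp
    rw [e2]
    exact div_le_self (by positivity) hT1
  have hU1 : U * (1 / T ^ a) ≤ U := mul_le_of_le_one_right hU0 hia
  have hsub : Ob ρ R (σ / T) ⊆ Ob ρ R σ := Ob_mono (by positivity) (div_le_self hσ.le hT1)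
  -- the new error function is close to one
  have hbd : ∀ x, ρ x = 0 →
      |T ^ (4 * s) * (e x - (nsq (g x) + 2 * (ip (F x) (g x)).re)) - 1| ≤ 1 / 2 := by
    intro x hx
    have hxO : x ∈ Ob ρ R σ := h.toCvx.mem_Ob hσ hx.le
    have k1 := (hg2 x hxO x hxO fun p _ => by linarith [norm_nonneg (qq (co ρ σ p x))]).trans hu
    have k2 := (abs_re_le_norm (ip (F x) (g x))).trans k1
    have k3 : |e x - nsq (g x) - (T ^ (4 * s))⁻¹| ≤ C * (4 * (1 / T ^ a)) :=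
      (hg3 x hx).trans (mul_le_mul_of_nonneg_left (by linarith) hC0.le)
    have e1 : T ^ (4 * s) * (e x - (nsq (g x) + 2 * (ip (F x) (g x)).re)) - 1 =
        T ^ (4 * s) * ((e x - nsq (g x) - (T ^ (4 * s))⁻¹) - 2 * (ip (F x) (g x)).re) := by
      field_simp
      ring
    have k4 : |(e x - nsq (g x) - (T ^ (4 * s))⁻¹) - 2 * (ip (F x) (g x)).re| ≤
        (4 * C + 2 * U) * (1 / T ^ a) := by
      rw [abs_le] at k2 k3 ⊢
      constructor <;> linarith [k2.1, k2.2, k3.1, k3.2]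
    rw [e1, abs_mul, abs_of_pos hT4]
    refine (mul_le_mul_of_nonneg_left k4 hT4.le).trans ?_
    have e2 : T ^ (4 * s) * ((4 * C + 2 * U) * (1 / T ^ a)) = (4 * C + 2 * U) / T := by
      rw [hTae]; field_simp
    rw [e2, div_le_iff₀ hT0]
    linarith
  refine ⟨g, hg, hB, ⟨?_, ?_, fun x hx => ?_, ?_⟩⟩
  · exact ((hS.diff.add hg).const_smul ((T ^ (2 * s) : ℝ) : ℂ)).mono hsub
  · have hJ := hS.jf.add (hjf _ g _ σ hσ hσ1 hg hB)
    refine ((hJ.dil (by positivity) hσ hT1).smul (c := T ^ (2 * s)) (by positivity)).mono ?_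
    have e1 : T ^ (2 * s) / T ^ (k + 1) ≤ 1 / 2 := by
      rw [div_le_div_iff₀ (by positivity) (by norm_num), pow_succ]
      have k1 : T ^ (2 * s) ≤ T ^ k := pow_le_pow_right₀ hT1 (by omega)
      have k2 : 0 < T ^ k := by positivity
      nlinarith
    have e2 : T ^ (2 * s) * ((β + CJ * (2 * C)) / T ^ (k + 1)) =
        β * (T ^ (2 * s) / T ^ (k + 1)) + β / 2 := by
      conv_rhs => rw [hβ]
      conv_lhs => rw [hβ]
      ring
    rw [e2]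
    linarith [mul_le_mul_of_nonneg_left e1 hβ0]
  · have := abs_le.1 (hbd x hx)
    constructor <;> linarith [this.1, this.2]
  · have j1 := hje _ F g (2 * C + U) σ hσ hσ1 hS.diff hg
      (fun X hX => (hns X hX).trans (by linarith))
      (fun X hX Ξ hΞ hq => ((hg2 X hX Ξ hΞ hq).trans hu).trans (by linarith))
    have hθ : 1 / C ≤ 1 := by rw [div_le_one hC0]; exact hC
    have j2 := ((hS.je.sub j1).mono (θ' := D) (β' := D) (by rw [hD]; linarith)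
      (by rw [hD]; linarith)).smul (c := T ^ (4 * s)) hT4.le
    have j3 := hfr σ T (T ^ (4 * s) * D) 1 _ hσ
      (hσ0.trans ((min_le_left _ _).trans (min_le_right _ _))) hT1 (by positivity) j2
      (fun x y hx hy => by
        have k1 := abs_le.1 (hbd x hx)
        have k2 := abs_le.1 (hbd y hy)
        rw [abs_le]
        constructor <;> linarith [k1.1, k1.2, k2.1, k2.2])
      (by
        have e1 : CF * (T ^ (4 * s) * D) * (CF * r ^ 2 / T) ^ (M + 1) =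
            CF * D * Q / T * (1 / T ^ a) := by
          rw [div_pow, ← hQ, hTM]; field_simp
        rw [e1]
        refine mul_le_one₀ ?_ hia0.le hia
        rw [div_le_one hT0]
        linarith)
    refine j3.mono (le_of_eq ?_) ?_
    · rw [hr]; field_simp; norm_num
    · have e1 : CF * (T ^ (4 * s) * D) / T ^ (M + 1) = CF * D / T * (1 / T ^ a) := by
        rw [hTM]; field_simp
      rw [e1]
      refine mul_le_of_le_one_left hia0.le ?_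
      rw [div_le_one hT0]
      linarith

end Pool.Agent.Lib.MP_601e9e_an.Cv
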