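import Pool.Agent.Lib.MP_601e9e_an.Cv.Defs

/-!
Constants for a strongly convex defining function.
-/

set_option autoImplicit false

open Complex Metric Set ComplexConjugate
open scoped ContDiff

namespace Pool.Agent.Lib.MP_601e9e_an.Cv

variable {n m : ℕ} {ρ : Vs n → ℝ} {R K σ : ℝ}

theorem Geo0_mono {g g' : ℝ → ℝ} (hg : ∀ t, HasDerivAt g (g' t) t)
    (h : ∀ t ∈ Icc (0 : ℝ) 1, 0 ≤ g' t) {t : ℝ} (ht : t ∈ Icc (0 : ℝ) 1) : g 0 ≤ g t := by
  have hm : MonotoneOn g (Icc (0 : ℝ) 1) :=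
    monotoneOn_of_deriv_nonneg (convex_Icc 0 1)
      (fun s _ => (hg s).continuousAt.continuousWithinAt)
      (fun s _ => (hg s).differentiableAt.differentiableWithinAt)
      (fun s hs => by rw [(hg s).deriv]; exact h s (interior_subset hs))
  exact hm ⟨le_rfl, zero_le_one⟩ ht ht.1

theorem Geo0_taylor {h h' h'' : ℝ → ℝ} (h1 : ∀ t, HasDerivAt h (h' t) t)
    (h2 : ∀ t, HasDerivAt h' (h'' t) t) {a : ℝ} (ha : ∀ t ∈ Icc (0 : ℝ) 1, a ≤ h'' t) :
    a / 2 ≤ h 1 - h 0 - h' 0 := by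
  have e1 : ∀ t ∈ Icc (0 : ℝ) 1, 0 ≤ h' t - h' 0 - a * t := by
    intro t ht
    have := Geo0_mono (g := fun t => h' t - a * t) (g' := fun t => h'' t - a)
      (fun t => ((h2 t).sub ((hasDerivAt_id t).const_mul a)).congr_deriv (by rw [mul_one]))
      (fun t ht => sub_nonneg.2 (ha t ht)) ht
    simp only [mul_zero, sub_zero] at this
    linarith
  have := Geo0_mono (g := fun t => h t - h' 0 * t - a / 2 * (t * t))
    (g' := fun t => h' t - h' 0 - a * t)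
    (fun t => by
      have := ((h1 t).sub ((hasDerivAt_id t).const_mul (h' 0))).sub
        (((hasDerivAt_id t).mul (hasDerivAt_id t)).const_mul (a / 2))
      refine this.congr_deriv ?_
      simp only [id]
      ring) e1 ⟨zero_le_one, le_rfl⟩
  simp only [mul_zero, sub_zero, mul_one] at this
  linarith

theorem Geo0_seg (hs : ContDiff ℝ ∞ ρ) (p v : Vs n) :
    (∀ t : ℝ, HasDerivAt (fun t : ℝ => ρ (p + t • v)) (fderiv ℝ ρ (p + t • v) v) t) ∧
    ∀ t : ℝ, HasDerivAt (fun t : ℝ => fderiv ℝ ρ (p + t • v) v)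
      (fderiv ℝ (fderiv ℝ ρ) (p + t • v) v v) t := by
  have hl : ∀ t : ℝ, HasDerivAt (fun t : ℝ => p + t • v) v t := fun t => by
    simpa using ((hasDerivAt_id t).smul_const v).const_add p
  have h1 : ContDiff ℝ ∞ (fderiv ℝ ρ) := hs.fderiv_right (m := ∞) (by simp)
  refine ⟨fun t => ?_, fun t => ?_⟩
  · exact ((hs.differentiable (by simp)) (p + t • v)).hasFDerivAt.comp_hasDerivAt t (hl t)
  · have h2 := ((h1.differentiable (by simp)) (p + t • v)).hasFDerivAt.comp_hasDerivAt t (hl t)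
    exact (ContinuousLinearMap.apply ℝ ℝ v).hasFDerivAt.comp_hasDerivAt t h2

theorem Geo0_mem {p X : Vs n} (hp : ‖p‖ ≤ R) (hX : ‖X‖ ≤ R) {t : ℝ} (ht : t ∈ Icc (0 : ℝ) 1) :
    p + t • (X - p) ∈ closedBall (0 : Vs n) R :=
  (convex_closedBall (0 : Vs n) R).add_smul_sub_mem (mem_closedBall_zero_iff.2 hp)
    (mem_closedBall_zero_iff.2 hX) ht

theorem Geo0_low (hs : ContDiff ℝ ∞ ρ)
    (hc : ∀ x v, v ≠ 0 → 0 < fderiv ℝ (fderiv ℝ ρ) x v v) (R : ℝ) :
    ∃ a, 0 < a ∧ ∀ p X, ‖p‖ ≤ R → ‖X‖ ≤ R →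
      a * ‖X - p‖ ^ 2 ≤ ρ X - ρ p - (ip (X - p) (gr ρ p)).re := by
  have h1 : ContDiff ℝ ∞ (fderiv ℝ ρ) := hs.fderiv_right (m := ∞) (by simp)
  have h2 : Continuous (fderiv ℝ (fderiv ℝ ρ)) := h1.continuous_fderiv (by simp)
  have h3 : Continuous fun q : Vs n × Vs n => fderiv ℝ (fderiv ℝ ρ) q.1 q.2 q.2 :=
    ((h2.comp continuous_fst).clm_apply continuous_snd).clm_apply continuous_snd
  obtain ⟨a, ha, hle⟩ := ((isCompact_closedBall (0 : Vs n) R).prod
    (isCompact_sphere (0 : Vs n) 1)).exists_forall_le' h3.continuousOn (a := 0)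
    (fun q hq => hc q.1 q.2 (by
      intro h0
      have := mem_sphere_zero_iff_norm.1 hq.2
      rw [h0, norm_zero] at this
      exact zero_ne_one this))
  have key : ∀ x ∈ closedBall (0 : Vs n) R, ∀ v : Vs n,
      a * ‖v‖ ^ 2 ≤ fderiv ℝ (fderiv ℝ ρ) x v v := by
    intro x hx v
    by_cases hv : v = 0
    · simp [hv]
    · have hn : 0 < ‖v‖ := norm_pos_iff.2 hv
      have hu : ‖(‖v‖⁻¹ • v : Vs n)‖ = 1 := by
        rw [norm_smul, norm_inv, norm_norm, inv_mul_cancel₀ hn.ne']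
      have h4 := hle (x, ‖v‖⁻¹ • v) ⟨hx, mem_sphere_zero_iff_norm.2 hu⟩
      simp only [map_smul, smul_apply, smul_eq_mul] at h4
      have h5 := mul_le_mul_of_nonneg_right h4 (sq_nonneg ‖v‖)
      refine h5.trans (le_of_eq ?_)
      field_simp
  refine ⟨a / 2, half_pos ha, fun p X hp hX => ?_⟩
  obtain ⟨d1, d2⟩ := Geo0_seg hs p (X - p)
  have := Geo0_taylor d1 d2 (a := a * ‖X - p‖ ^ 2) fun t ht => key _ (Geo0_mem hp hX ht) _
  simp only [one_smul, zero_smul, add_zero, add_sub_cancel] at this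
  rw [← fderiv_eq_gr]
  linarith

theorem Geo0_up (hs : ContDiff ℝ ∞ ρ) (R : ℝ) :
    ∃ M, 0 ≤ M ∧ ∀ p X, ‖p‖ ≤ R → ‖X‖ ≤ R →
      ρ X - ρ p - (ip (X - p) (gr ρ p)).re ≤ M * ‖X - p‖ ^ 2 := by
  have h1 : ContDiff ℝ ∞ (fderiv ℝ ρ) := hs.fderiv_right (m := ∞) (by simp)
  have h2 : Continuous (fderiv ℝ (fderiv ℝ ρ)) := h1.continuous_fderiv (by simp)
  obtain ⟨M, hM⟩ := (isCompact_closedBall (0 : Vs n) R).exists_bound_of_continuousOn
    (f := fderiv ℝ (fderiv ℝ ρ)) h2.continuousOn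
  refine ⟨|M|, abs_nonneg _, fun p X hp hX => ?_⟩
  obtain ⟨d1, d2⟩ := Geo0_seg hs p (X - p)
  have := Geo0_taylor (fun t => (d1 t).neg) (fun t => (d2 t).neg)
    (a := -(|M| * ‖X - p‖ ^ 2)) fun t ht => by
      have e1 := (fderiv ℝ (fderiv ℝ ρ) (p + t • (X - p))).le_opNorm₂ (X - p) (X - p)
      have e2 := (hM _ (Geo0_mem hp hX ht)).trans (le_abs_self M)
      have e3 := mul_le_mul_of_nonneg_right e2 (sq_nonneg ‖X - p‖)
      have e4 := le_abs_self (fderiv ℝ (fderiv ℝ ρ) (p + t • (X - p)) (X - p) (X - p))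
      rw [Real.norm_eq_abs] at e1
      nlinarith
  simp only [Pi.neg_apply, one_smul, zero_smul, add_zero, add_sub_cancel] at this
  rw [← fderiv_eq_gr]
  have h0 : 0 ≤ |M| * ‖X - p‖ ^ 2 := by positivity
  linarith

theorem Geo0_lip (hs : ContDiff ℝ ∞ ρ) (R : ℝ) :
    ∃ M, 0 ≤ M ∧ ∀ p p', ‖p‖ ≤ R → ‖p'‖ ≤ R → ‖gr ρ p - gr ρ p'‖ ≤ M * ‖p - p'‖ := by
  have h1 := contDiff_gr hs
  obtain ⟨M, hM⟩ := (isCompact_closedBall (0 : Vs n) R).exists_bound_of_continuousOn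
    (h1.continuous_fderiv (by simp)).continuousOn
  refine ⟨|M|, abs_nonneg _, fun p p' hp hp' => ?_⟩
  exact (convex_closedBall (0 : Vs n) R).norm_image_sub_le_of_norm_fderiv_le (𝕜 := ℝ)
    (fun x _ => h1.differentiable (by simp) x) (fun x hx => (hM x hx).trans (le_abs_self M))
    (mem_closedBall_zero_iff.2 hp') (mem_closedBall_zero_iff.2 hp)

theorem exists_Cvx (hs : ContDiff ℝ ∞ ρ)
    (hc : ∀ x v, v ≠ 0 → 0 < fderiv ℝ (fderiv ℝ ρ) x v v)
    (hb : Bornology.IsBounded {x | ρ x ≤ 0}) (hne : ∃ x, ρ x < 0) : ∃ R K, Cvx ρ R K := by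
  obtain ⟨R₀, hR₀⟩ := hb.exists_norm_le
  obtain ⟨x₀, hx₀⟩ := hne
  obtain ⟨a, ha, hlow⟩ := Geo0_low hs hc (R₀ + 1)
  obtain ⟨M₁, hM₁, hup⟩ := Geo0_up hs (R₀ + 1)
  obtain ⟨M₂, hM₂, hlip⟩ := Geo0_lip hs (R₀ + 1)
  obtain ⟨M₃, hM₃⟩ := (isCompact_closedBall (0 : Vs n) (R₀ + 1)).exists_bound_of_continuousOn
    (contDiff_gr hs).continuous.continuousOn
  have hK : IsCompact {x | ρ x = 0} :=
    Metric.isCompact_of_isClosed_isBounded (isClosed_eq hs.continuous continuous_const)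
      (hb.subset fun x hx => le_of_eq hx)
  obtain ⟨b, hb0, hglow⟩ := hK.exists_forall_le'
    (continuous_nsq.comp (contDiff_gr hs).continuous).continuousOn (a := 0) (fun p hp => by
      have hp0 : ρ p = 0 := hp
      refine lt_of_le_of_ne (nsq_nonneg _) fun h0 => ?_
      have h1 : gr ρ p = 0 :=
        norm_le_zero_iff.1 (norm_le_of_nsq_le le_rfl (le_of_eq (h0.symm.trans (by simp))))
      have h2 := hlow p x₀ ((hR₀ p hp0.le).trans (by linarith))
        ((hR₀ x₀ hx₀.le).trans (by linarith))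
      rw [h1, ip_zero_right, hp0] at h2
      have h3 : 0 ≤ a * ‖x₀ - p‖ ^ 2 := by positivity
      simp only [Complex.zero_re, sub_zero] at h2
      linarith)
  have ia : 0 < 1 / a := by positivity
  have ib : 0 < 1 / b := by positivity
  have i3 := abs_nonneg M₃
  have hKpos : 0 < 1 + 1 / a + M₁ + M₂ + |M₃| + 1 / b := by positivity
  refine ⟨R₀ + 1, 1 + 1 / a + M₁ + M₂ + |M₃| + 1 / b, hs, by linarith,
    fun X hX => (hR₀ X hX).trans (by linarith), fun p X hp hX => le_trans ?_ (hlow p X hp hX),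
    fun p X hp hX => (hup p X hp hX).trans ?_, fun p p' hp hp' => (hlip p p' hp hp').trans ?_,
    fun p hp => ((hM₃ p (mem_closedBall_zero_iff.2 hp)).trans (le_abs_self _)).trans
      (by linarith), fun p hp => le_trans ?_ (hglow p hp)⟩
  · have h1 : 1 / (1 + 1 / a + M₁ + M₂ + |M₃| + 1 / b) ≤ a :=
      (one_div_le hKpos ha).2 (by linarith)
    rw [div_eq_mul_one_div, mul_comm]
    exact mul_le_mul_of_nonneg_right h1 (sq_nonneg _)
  · exact mul_le_mul_of_nonneg_right (by linarith) (sq_nonneg _)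
  · exact mul_le_mul_of_nonneg_right (by linarith) (norm_nonneg _)
  · exact (one_div_le hKpos hb0).2 (by linarith)

end Pool.Agent.Lib.MP_601e9e_an.Cv
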