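import Pool.Agent.Lib.MP_601e9e_an.Cv.Defs

/-!
The estimates for the denominators.
-/

set_option autoImplicit false

open Complex Metric Set ComplexConjugate
open scoped ContDiff

namespace Pool.Agent.Lib.MP_601e9e_an.Cv

variable {n m : ℕ} {ρ : Vs n → ℝ} {R K σ : ℝ}

theorem Geo1_mono (h : Cvx ρ R K) {K' : ℝ} (hK : K ≤ K') : Cvx ρ R K' := by
  have k0 := h.K_pos
  refine ⟨h.smooth, h.K_ge.trans hK, h.bdd, fun p X hp hX => le_trans ?_ (h.low p X hp hX),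
    fun p X hp hX => (h.up p X hp hX).trans ?_, fun p p' hp hp' => (h.lip p p' hp hp').trans ?_,
    fun p hp => (h.gup p hp).trans hK, fun p hp => le_trans ?_ (h.glow p hp)⟩ <;> gcongr

theorem Geo1_qlow (h : Cvx ρ R K) (hσ : 0 < σ) {p X : Vs n} (hp : ρ p = 0) (hX : X ∈ Ob ρ R σ) :
    1 / 2 + ‖X - p‖ ^ 2 / (K * σ ^ 2) ≤ ‖qq (co ρ σ p X)‖ := by
  refine le_trans ?_ (re_le_norm _)
  have h1 := h.low p X (h.norm_le hp.le) hX.2.le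
  have h2 : ρ X < σ ^ 2 / 2 := hX.1
  have s0 : 0 < σ ^ 2 := by positivity
  rw [qq_co, ← ofReal_pow, sub_re, one_re, re_ofReal_mul, ← div_div, inv_pow, inv_mul_eq_div]
  have h3 : ‖X - p‖ ^ 2 / K + (ip (X - p) (gr ρ p)).re ≤ 1 / 2 * σ ^ 2 := by linarith
  rw [← div_le_iff₀ s0, add_div] at h3
  linarith

theorem Geo1_dist (h : Cvx ρ R K) (hσ : 0 < σ) {p X : Vs n} (hp : ρ p = 0) (hX : X ∈ Ob ρ R σ) :
    ‖X - p‖ / σ ≤ K * ‖qq (co ρ σ p X)‖ ∧ 1 / 2 ≤ ‖qq (co ρ σ p X)‖ := by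
  have h1 := Geo1_qlow h hσ hp hX
  have k0 := h.K_pos
  have k1 := h.K_ge
  have h2 : 0 ≤ ‖X - p‖ ^ 2 / (K * σ ^ 2) := by positivity
  refine ⟨?_, by linarith⟩
  have h3 : ‖X - p‖ ^ 2 / (K * σ ^ 2) * K = (‖X - p‖ / σ) ^ 2 := by field_simp
  have h4 := mul_le_mul_of_nonneg_right h1 k0.le
  rw [add_mul, h3] at h4
  nlinarith [sq_nonneg (‖X - p‖ / σ - 1 / 2)]

theorem Geo1_div (h : Cvx ρ R K) {p : Vs n} (hp : ρ p = 0) (c : ℂ) :
    ‖(c / (nsq (gr ρ p) : ℂ)) • gr ρ p‖ ≤ K ^ 2 * ‖c‖ := by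
  have k0 := h.K_pos
  have h1 := h.glow p hp
  have h2 := h.gup p (h.norm_le hp.le)
  rw [norm_smul, norm_div, norm_real, Real.norm_of_nonneg (nsq_nonneg _)]
  calc _ ≤ ‖c‖ / (1 / K) * K := by gcongr
    _ = _ := by field_simp

theorem Geo1_pj (h : Cvx ρ R K) {p : Vs n} (hp : ρ p = 0) (v : Vs n) :
    ‖pj (gr ρ p) v‖ ≤ (1 + n * K ^ 3) * ‖v‖ := by
  have k0 := h.K_pos
  have h1 := Geo1_div h hp (ip v (gr ρ p))
  have h2 := h.gup p (h.norm_le hp.le)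
  have h3 : ‖ip v (gr ρ p)‖ ≤ n * (‖v‖ * K) := (dn_norm_ip_le_card _ _).trans (by gcongr)
  have h4 := mul_le_mul_of_nonneg_left h3 (sq_nonneg K)
  refine (norm_sub_le _ _).trans ?_
  linarith

theorem Geo1_ch (h : Cvx ρ R K) (hσ : 0 < σ) (h1 : σ ≤ 1) {p : Vs n} (hp : ρ p = 0) (ξ : Xs n) :
    ‖ch ρ σ p ξ - p‖ ≤ (1 + n * K ^ 3 + K ^ 2) * σ * ‖ξ‖ := by
  have k0 := h.K_pos
  have e : ch ρ σ p ξ - p = (σ : ℂ) • pj (gr ρ p) ξ.1 +
      ((σ : ℂ) ^ 2 * I * ξ.2 / (nsq (gr ρ p) : ℂ)) • gr ρ p := by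
    rw [ch]
    abel
  have h2 : ‖(σ : ℂ) • pj (gr ρ p) ξ.1‖ ≤ σ * ((1 + n * K ^ 3) * ‖ξ‖) := by
    rw [norm_smul, norm_real, Real.norm_of_nonneg hσ.le]
    gcongr
    exact (Geo1_pj h hp _).trans (by gcongr; exact norm_fst_le ξ)
  have h3 : ‖(σ : ℂ) ^ 2 * I * ξ.2‖ ≤ σ * ‖ξ‖ := by
    rw [norm_mul, norm_mul, norm_pow, norm_I, norm_real, Real.norm_of_nonneg hσ.le, mul_one]
    exact mul_le_mul (by nlinarith) (norm_snd_le ξ) (norm_nonneg _) hσ.le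
  have h4 := (Geo1_div h hp _).trans (mul_le_mul_of_nonneg_left h3 (sq_nonneg K))
  rw [e]
  refine (norm_add_le _ _).trans ?_
  linarith

theorem Geo1_ip (h : Cvx ρ R K) (hσ : 0 < σ) {p : Vs n} (hp : ρ p = 0) (ξ : Xs n) :
    ‖ip (ch ρ σ p ξ - p) (gr ρ p)‖ ≤ σ ^ 2 * ‖ξ‖ := by
  have h2 := co_snd (ρ := ρ) (σ := σ) p (ch ρ σ p ξ)
  rw [co_ch hσ.ne' (h.nsq_ne hp)] at h2
  have h3 := congrArg norm h2
  simp only [norm_mul, norm_pow, norm_neg, norm_I, one_mul, norm_real, norm_inv,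
    Real.norm_of_nonneg hσ.le, inv_pow] at h3
  rw [← inv_mul_le_iff₀ (by positivity), ← h3]
  exact norm_snd_le ξ

theorem Cvx.geo (h : Cvx ρ R K) : ∃ K', Geo ρ R K' := by
  have k0 := h.K_pos
  have k1 := h.K_ge
  have n0 : (0 : ℝ) ≤ n := n.cast_nonneg
  obtain ⟨B, hB⟩ : ∃ B : ℝ, B = 1 + n * K ^ 3 + K ^ 2 := ⟨_, rfl⟩
  have a0 : 0 ≤ (n : ℝ) * K ^ 3 := by positivity
  have b1 : 1 ≤ B := by nlinarith
  have kb : 1 ≤ K * B := one_le_mul_of_one_le_of_one_le k1 b1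
  obtain ⟨K', hK'⟩ : ∃ K' : ℝ, K' = 4 + 4 * K + 2 * B + 2 * (K * B) + 2 * (n * B * K ^ 2) +
    2 * (n * K) := ⟨_, rfl⟩
  have a1 : 0 ≤ (n : ℝ) * B * K ^ 2 := by positivity
  have a2 : 0 ≤ (n : ℝ) * K := by positivity
  have K0 : 0 < K' := by linarith
  have sm : ∀ {c t : ℝ}, 0 ≤ t → t < 1 / K' → 2 * c ≤ K' → c * t < 1 / 2 ∨ c * t ≤ 0 :=
    fun {c t} t0 ht hc => by
      rw [lt_div_iff₀ K0] at ht
      left
      nlinarith
  have sm' : ∀ {c t : ℝ}, 0 ≤ t → t < 1 / K' → 2 * c ≤ K' → c * t < 1 / 2 :=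
    fun t0 ht hc => (sm t0 ht hc).elim id fun h => by linarith
  refine ⟨K', Geo1_mono h (by linarith), fun σ p X hσ hp hX => ?_, fun σ p X hσ hp hX => ?_,
    fun p v hp => ?_, fun σ p ξ hσ h1 hp => ?_, fun σ p ξ hσ h1 hp hξ => ?_,
    fun σ p p' ξ hσ h1 hp hp' hξ => ?_, fun σ x hσ h1 hx y hy => ?_⟩
  · exact Geo1_qlow (Geo1_mono h (by linarith)) hσ hp hX
  · obtain ⟨h1, h2⟩ := Geo1_dist h hσ hp hX
    have h3 := norm_snd_le_qq (co ρ σ p X)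
    rw [Prod.norm_def, norm_co_fst hσ]
    refine max_le (h1.trans (by gcongr; linarith)) ?_
    exact le_trans (b := 3 * ‖qq (co ρ σ p X)‖) (by linarith) (by gcongr; linarith)
  · exact (Geo1_pj h hp v).trans (by gcongr; nlinarith)
  · exact (Geo1_ch h hσ h1 hp ξ).trans (by gcongr; linarith)
  · have h2 := Geo1_ch h hσ h1 hp ξ
    rw [← hB] at h2
    have x0 := norm_nonneg ξ
    have h3 := sm' (c := B) x0 hξ (by linarith)
    have h4 := sm' (c := K * B) x0 hξ (by linarith)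
    have h5 := sm' (c := 2) x0 hξ (by linarith)
    have bx : 0 ≤ B * ‖ξ‖ := by positivity
    have h6 : ‖ch ρ σ p ξ‖ < R := by
      have := norm_sub_norm_le (ch ρ σ p ξ) p
      have := h.bdd p hp.le
      nlinarith
    refine ⟨?_, h6⟩
    have h7 := h.up p _ (h.norm_le hp.le) h6.le
    have h8 := (re_le_norm _).trans (Geo1_ip h hσ hp ξ)
    have h9 : K * ‖ch ρ σ p ξ - p‖ ^ 2 ≤ σ ^ 2 * (K * B * ‖ξ‖ * (B * ‖ξ‖)) :=
      le_trans (b := K * (B * σ * ‖ξ‖) ^ 2) (by gcongr) (le_of_eq (by ring))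
    have h10 : K * B * ‖ξ‖ * (B * ‖ξ‖) ≤ 1 / 2 * (1 / 2) :=
      mul_le_mul h4.le h3.le bx (by norm_num)
    have s0 : 0 < σ ^ 2 := by positivity
    nlinarith
  · obtain ⟨h2, h3⟩ := Geo1_dist h hσ hp' (h.mem_Ob hσ hp.le)
    have h4 := Geo1_ch h hσ h1 hp ξ
    rw [← hB] at h4
    have x0 := norm_nonneg ξ
    have h5 := sm' (c := 2 + n * B * K ^ 2) x0 hξ (by linarith)
    have e : qq (co ρ σ p' (ch ρ σ p ξ)) - qq (co ρ σ p' p) = ((σ⁻¹ : ℝ) : ℂ) ^ 2 *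
        (ip (ch ρ σ p ξ - p) (gr ρ p - gr ρ p') - ip (ch ρ σ p ξ - p) (gr ρ p)) := by
      rw [qq_co, qq_co, sub_eq_add_neg (gr ρ p), ip_add_right, ip_neg_right]
      simp only [ip_sub_left]
      ring
    set q := ‖qq (co ρ σ p' p)‖
    have h6 : ‖gr ρ p - gr ρ p'‖ ≤ K * (K * q * σ) :=
      (h.lip p p' (h.norm_le hp.le) (h.norm_le hp'.le)).trans
        (by gcongr; exact (div_le_iff₀ hσ).1 h2)
    have h7 : ‖ip (ch ρ σ p ξ - p) (gr ρ p - gr ρ p')‖ ≤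
        n * (B * σ * ‖ξ‖ * (K * (K * q * σ))) := (dn_norm_ip_le_card _ _).trans (by gcongr)
    have h8 := Geo1_ip h hσ hp ξ
    rw [e, norm_mul, norm_pow, norm_real, norm_inv, Real.norm_of_nonneg hσ.le, inv_pow,
      inv_mul_le_iff₀ (by positivity)]
    refine (norm_sub_le _ _).trans ((add_le_add h7 h8).trans ?_)
    have h9 : n * B * K ^ 2 * ‖ξ‖ * q + ‖ξ‖ ≤ q / 2 := by nlinarith
    calc _ = σ ^ 2 * (n * B * K ^ 2 * ‖ξ‖ * q + ‖ξ‖) := by ring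
      _ ≤ _ := by gcongr
  · rw [mem_ball, dist_eq_norm] at hy
    have s0 : 0 < σ ^ 2 := by positivity
    have s1 : σ ^ 2 ≤ 1 := by nlinarith
    have d0 := norm_nonneg (y - x)
    have h2 : ‖y - x‖ / σ ^ 2 < 1 / K' := by
      rw [div_lt_iff₀ s0]
      rwa [div_eq_mul_one_div, mul_comm] at hy
    have t0 : 0 ≤ ‖y - x‖ / σ ^ 2 := by positivity
    have h3 := sm' (c := n * K + K) t0 h2 (by linarith)
    have h4 := sm' (c := 1) t0 h2 (by linarith)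
    rw [← mul_div_assoc, div_lt_iff₀ s0] at h3 h4
    have h5 : ‖y‖ < R := by
      have := norm_sub_norm_le y x
      have := h.bdd x hx
      linarith
    refine ⟨?_, h5⟩
    have h6 := h.up x y (h.norm_le hx) h5.le
    have h7 : ‖ip (y - x) (gr ρ x)‖ ≤ n * (‖y - x‖ * K) :=
      (dn_norm_ip_le_card _ _).trans (by gcongr; exact h.gup x (h.norm_le hx))
    have h8 := re_le_norm (ip (y - x) (gr ρ x))
    have h9 : K * ‖y - x‖ ^ 2 ≤ K * ‖y - x‖ := by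
      gcongr
      nlinarith
    linarith

end Pool.Agent.Lib.MP_601e9e_an.Cv
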