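import Pool.Agent.Lib.MP_601e9e_an.Cv.Defs

/-!
Regularity up to the boundary of a series of holomorphic maps.
-/

set_option autoImplicit false

open Complex Metric Set ComplexConjugate
open scoped ContDiff

namespace Pool.Agent.Lib.MP_601e9e_an.Cv

variable {n m : ℕ} {ρ : Vs n → ℝ} {R K σ : ℝ}

theorem reg2_est {E W : Type} [NormedAddCommGroup E] [NormedSpace ℂ E] [NormedAddCommGroup W]
    [NormedSpace ℂ W] {g : E → W} {δ b : ℝ} {x y : E} (hδ : 0 < δ)
    (hg : DifferentiableOn ℂ g (ball x δ)) (hb : ∀ z ∈ ball x δ, ‖g z‖ ≤ b) (hy : ‖g y‖ ≤ b) :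
    ‖g y - g x - fderiv ℂ g x (y - x)‖ ≤ 4 * (b / δ ^ 2) * ‖y - x‖ ^ 2 := by
  have e : 4 * (b / δ ^ 2) * ‖y - x‖ ^ 2 = 4 * b * (‖y - x‖ / δ) ^ 2 := by
    field_simp
  rw [e]
  by_cases h : y ∈ ball x δ
  · exact MP_08f711_an.second_order_bound hδ hg hb h
  · have hx := hb x (mem_ball_self hδ)
    have hb0 : 0 ≤ b := (norm_nonneg _).trans hx
    have h1 : 1 ≤ ‖y - x‖ / δ := by
      rw [mem_ball, dist_eq_norm, not_lt] at h
      rwa [le_div_iff₀ hδ, one_mul]
    have h2 : ‖fderiv ℂ g x (y - x)‖ ≤ 2 * b * (‖y - x‖ / δ) := by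
      refine ((fderiv ℂ g x).le_opNorm _).trans ((mul_le_mul_of_nonneg_right
        (MP_08f711_an.norm_fderiv_le_of_bound hδ hg hb) (norm_nonneg _)).trans_eq ?_)
      field_simp
    have h3 := (norm_sub_le (g y - g x) (fderiv ℂ g x (y - x))).trans
      (add_le_add (norm_sub_le _ _) h2)
    set t := ‖y - x‖ / δ
    have h4 : t ≤ t ^ 2 := by nlinarith
    have h5 := mul_le_mul_of_nonneg_left h4 hb0
    have h6 := mul_le_mul_of_nonneg_left (h1.trans h4) hb0
    linarith

theorem reg2_mono {δ b : ℕ → ℝ} (h0 : ∀ j, 0 < δ j) (h1 : ∀ j, δ j ≤ 1) (hb : ∀ j, 0 ≤ b j)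
    {i k : ℕ} (hik : i ≤ k) (hs : Summable (fun j => b j / δ j ^ k)) :
    Summable (fun j => b j / δ j ^ i) :=
  Summable.of_nonneg_of_le (fun j => div_nonneg (hb j) (pow_pos (h0 j) i).le)
    (fun j => div_le_div_of_nonneg_left (hb j) (pow_pos (h0 j) k)
      (pow_le_pow_of_le_one (h0 j).le (h1 j) hik)) hs

theorem reg2 {E : Type} [NormedAddCommGroup E] [NormedSpace ℂ E] [FiniteDimensional ℂ E]
    (S : Set E) (k : ℕ) : ∀ (W : Type) [NormedAddCommGroup W] [NormedSpace ℂ W] [CompleteSpace W]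
      (g : ℕ → E → W) (δ b : ℕ → ℝ), (∀ j, 0 < δ j) → (∀ j, δ j ≤ 1) → (∀ j, 0 ≤ b j) →
      (∀ j, ∀ x ∈ S, DifferentiableOn ℂ (g j) (ball x (δ j))) →
      (∀ j, ∀ x ∈ S, ∀ y ∈ ball x (δ j), ‖g j y‖ ≤ b j) →
      Summable (fun j => b j / δ j ^ (k + 1)) → ContDiffOn ℝ k (fun x => ∑' j, g j x) S := by
  induction k with
  | zero =>
    intro W _ _ _ g δ b h0 h1 hb hg hM hs
    have s0 : Summable b := by simpa using reg2_mono h0 h1 hb (Nat.zero_le _) hs
    have := continuousOn_tsum (s := S) (f := g) (fun j x hx => ((hg j x hx).differentiableAt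
      (ball_mem_nhds x (h0 j))).continuousAt.continuousWithinAt) s0
      (fun j x hx => hM j x hx x (mem_ball_self (h0 j)))
    simpa using this
  | succ k ih =>
    intro W _ _ _ g δ b h0 h1 hb hg hM hs
    have s0 : Summable b := by simpa using reg2_mono h0 h1 hb (Nat.zero_le _) hs
    have s1 : Summable (fun j => 2 * b j / δ j) := by
      simpa [mul_div_assoc] using (reg2_mono h0 h1 hb (show 1 ≤ k + 1 + 1 by omega) hs).mul_left 2
    have s2 := reg2_mono h0 h1 hb (show 2 ≤ k + 1 + 1 by omega) hs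
    have sg : ∀ x ∈ S, Summable (fun j => g j x) := fun x hx =>
      Summable.of_norm_bounded s0 fun j => hM j x hx x (mem_ball_self (h0 j))
    have sD : ∀ x ∈ S, ∀ v, HasSum (fun j => fderiv ℂ (g j) x v) ((∑' j, fderiv ℂ (g j) x) v) :=
      fun x hx v => (Summable.of_norm_bounded s1 fun j => MP_08f711_an.norm_fderiv_le_of_bound
        (h0 j) (hg j x hx) (hM j x hx)).hasSum.mapL (ContinuousLinearMap.apply ℂ W v)
    rw [Nat.cast_succ, contDiffOn_succ_iff_hasFDerivWithinAt (by simp)]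
    intro x0 hx0
    refine ⟨S, by rw [insert_eq_of_mem hx0]; exact self_mem_nhdsWithin, by simp,
      fun x => (∑' j, fderiv ℂ (g j) x).restrictScalars ℝ, fun x hx => ?_, ?_⟩
    · refine HasFDerivWithinAt.restrictScalars ℝ ?_
      rw [hasFDerivWithinAt_iff_isLittleO]
      have hO : (fun y => ∑' j, g j y - ∑' j, g j x - (∑' j, fderiv ℂ (g j) x) (y - x))
          =O[nhdsWithin x S] (fun y => ‖y - x‖ ^ 2) := by
        refine Asymptotics.IsBigO.of_bound (4 * ∑' j, b j / δ j ^ 2) ?_
        filter_upwards [self_mem_nhdsWithin] with y hy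
        have hsum := ((sg y hy).hasSum.sub (sg x hx).hasSum).sub (sD x hx (y - x))
        rw [Real.norm_of_nonneg (by positivity : 0 ≤ ‖y - x‖ ^ 2), ← hsum.tsum_eq]
        exact tsum_of_norm_bounded ((s2.hasSum.mul_left 4).mul_right (‖y - x‖ ^ 2)) fun j =>
          reg2_est (h0 j) (hg j x hx) (hM j x hx) (hM j y hy y (mem_ball_self (h0 j)))
      exact hO.trans_isLittleO
        ((Asymptotics.isLittleO_pow_sub_sub x one_lt_two).mono nhdsWithin_le_nhds)
    · refine contDiffOn_clm_apply.2 fun v => ?_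
      refine (ih W (fun j x => fderiv ℂ (g j) x v) (fun j => δ j / 2)
        (fun j => 4 * b j / δ j * ‖v‖) (fun j => half_pos (h0 j))
        (fun j => (half_le_self (h0 j).le).trans (h1 j))
        (fun j => by have := h0 j; have := hb j; positivity) (fun j x hx => ?_)
        (fun j x hx y hy => ?_) ?_).congr fun x hx => (sD x hx v).tsum_eq.symm
      · exact (MP_08f711_an.differentiableOn_fderiv_apply isOpen_ball (hg j x hx) v).mono
          (ball_subset_ball (half_le_self (h0 j).le))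
      · have hsub : ball y (δ j / 2) ⊆ ball x (δ j) := by
          intro z hz
          rw [mem_ball] at *
          have := dist_triangle z y x
          linarith
        have := MP_08f711_an.norm_fderiv_le_of_bound (half_pos (h0 j))
          ((hg j x hx).mono hsub) (fun z hz => hM j x hx z (hsub hz))
        refine ((fderiv ℂ (g j) y).le_opNorm v).trans
          (mul_le_mul_of_nonneg_right (this.trans_eq ?_) (norm_nonneg v))
        have := (h0 j).ne'
        field_simp
        ring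
      · refine (hs.mul_left (4 * 2 ^ (k + 1) * ‖v‖)).congr fun j => ?_
        have := (h0 j).ne'
        rw [div_pow]
        field_simp
        ring

end Pool.Agent.Lib.MP_601e9e_an.Cv
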