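import Pool.Agent.Lib.MP_601e9e_an.Cv.Full
import Pool.Agent.Lib.MP_601e9e_an.Cv.Reg2

/-!
The iteration and its limit.
-/

set_option autoImplicit false

open Complex Metric Set ComplexConjugate
open scoped ContDiff

namespace Pool.Agent.Lib.MP_601e9e_an.Cv

variable {n m : ℕ} {ρ : Vs n → ℝ} {R K σ : ℝ}

theorem Geo.iterate (h : Geo ρ R K) (hn : 1 ≤ n) {s : ℕ} (hs : 1 ≤ s) {e : Vs n → ℝ}
    (he : ContDiff ℝ ∞ e) (h0 : ∀ x, ρ x = 0 → 1 / 2 ≤ e x) :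
    ∃ (κ : Type) (_ : Fintype κ) (T B Λ σ₁ : ℝ) (g : ℕ → Vs n → κ → ℂ), 2 ≤ T ∧ 0 ≤ B ∧ 0 < σ₁ ∧
      σ₁ ≤ 1 ∧ (∀ j, DifferentiableOn ℂ (g j) (Ob ρ R (σ₁ / T ^ j))) ∧
      (∀ j, ∀ X ∈ Ob ρ R (σ₁ / T ^ j), ‖g j X‖ ≤ B) ∧
      ∀ x, ρ x = 0 → ∀ k : ℕ, |e x - nsq (∑ j ∈ Finset.range k,
        ((((T ^ (2 * s))⁻¹) ^ j : ℝ) : ℂ) • g j x)| ≤ Λ * ((T ^ (4 * s))⁻¹) ^ k := by
  obtain ⟨Λ₀, hΛ₀⟩ := h.isCompact.bddAbove_image he.continuous.continuousOn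
  obtain ⟨κ, hκ, k, M, T, β, θ, β', B, σ₀, hT, hβ, hθ, hβ', hB, hσ₀, hσ₀1, H⟩ :=
    h.full_step hn (le_max_left (3 / 2) Λ₀) hs
  obtain ⟨C, hC, hje⟩ := h.je_of_smooth M he
  obtain ⟨σ₁, p1, p2, p3⟩ : ∃ σ₁ : ℝ, 0 < σ₁ ∧ σ₁ ≤ σ₀ ∧ C * σ₁ ≤ min θ β' := by
    have h1 : 0 < min θ β' := lt_min hθ hβ'
    refine ⟨min σ₀ (min θ β' / (C + 1)), lt_min hσ₀ (by positivity), min_le_left _ _, ?_⟩
    have h2 := (le_div_iff₀ (by positivity)).1 (min_le_right σ₀ (min θ β' / (C + 1)))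
    have h3 : 0 < min σ₀ (min θ β' / (C + 1)) := lt_min hσ₀ (by positivity)
    nlinarith
  have hT0 : 0 < T := by linarith
  have hp : ∀ j : ℕ, σ₁ / T ^ j ≤ σ₀ := fun j =>
    (div_le_self p1.le (one_le_pow₀ (by linarith))).trans p2
  let S := fun j : ℕ => {x : (Vs n → κ → ℂ) × (Vs n → ℝ) //
    St ρ R (max (3 / 2) Λ₀) k M β θ β' (σ₁ / T ^ j) x.1 x.2}
  choose G hG1 hG2 hG3 using fun (j : ℕ) (x : S j) =>
    H _ x.1.1 x.1.2 (by positivity) (hp j) x.2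
  let nx : ∀ j, S j → S (j + 1) := fun j x =>
    ⟨(fun X => ((T ^ (2 * s) : ℝ) : ℂ) • (x.1.1 X + G j x X), fun y => T ^ (4 * s) *
      (x.1.2 y - (nsq (G j x y) + 2 * (ip (x.1.1 y) (G j x y)).re))), by
        rw [pow_succ T j, ← div_div]
        exact hG3 j x⟩
  let x0 : S 0 := ⟨(fun _ => 0, e), differentiableOn_const 0, (JF.zero ρ R k _).mono hβ,
    fun y hy => ⟨h0 y hy, (hΛ₀ ⟨y, hy, rfl⟩).trans (le_max_right _ _)⟩, by
      rw [pow_zero, div_one]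
      exact (hje σ₁ p1 (p2.trans hσ₀1)).mono (p3.trans (min_le_left _ _))
        (p3.trans (min_le_right _ _))⟩
  let x : ∀ j, S j := fun j => Nat.rec x0 nx j
  have hx : ∀ j, x (j + 1) = nx j (x j) := fun _ => rfl
  have h2 : (T ^ (2 * s)) ^ 2 = T ^ (4 * s) := by rw [← pow_mul]; congr 1; ring
  have hS : ∀ (i : ℕ) (X : Vs n), ∑ j ∈ Finset.range i,
      ((((T ^ (2 * s))⁻¹) ^ j : ℝ) : ℂ) • G j (x j) X =
        ((((T ^ (2 * s))⁻¹) ^ i : ℝ) : ℂ) • (x i).1.1 X := by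
    intro i X
    induction i with
    | zero => exact (smul_zero _).symm
    | succ i ih =>
      rw [Finset.sum_range_succ, ih, hx]
      simp only [nx, smul_smul, ← ofReal_mul]
      rw [pow_succ (T ^ (2 * s))⁻¹, inv_mul_cancel_right₀ (pow_pos hT0 _).ne', smul_add]
  have hQ : ∀ (i : ℕ) (y : Vs n), ((T ^ (4 * s))⁻¹) ^ i *
      ((x i).1.2 y + nsq ((x i).1.1 y)) = e y := by
    intro i y
    induction i with
    | zero =>
      change _ * (e y + nsq 0) = _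
      simp [nsq]
    | succ i ih =>
      rw [hx]
      simp only [nx, nsq_smul, norm_real, Real.norm_eq_abs, sq_abs, h2, nsq_add]
      rw [← mul_add, pow_succ (T ^ (4 * s))⁻¹, mul_assoc,
        inv_mul_cancel_left₀ (pow_pos hT0 _).ne', ← ih]
      ring
  refine ⟨κ, hκ, T, B, max (3 / 2) Λ₀, σ₁, fun j => G j (x j), hT, hB, p1, p2.trans hσ₀1,
    fun j => hG1 _ _, fun j => hG2 _ _, fun y hy i => ?_⟩
  have h3 : (((T ^ (2 * s))⁻¹) ^ i) ^ 2 = ((T ^ (4 * s))⁻¹) ^ i := by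
    rw [← h2, ← inv_pow (T ^ (2 * s)) 2, ← pow_mul, ← pow_mul, mul_comm i 2]
  have h4 : 0 ≤ ((T ^ (4 * s))⁻¹) ^ i := by positivity
  have h5 := (x i).2.bd y hy
  rw [hS, nsq_smul, norm_real, Real.norm_eq_abs, sq_abs, h3, ← hQ i y, mul_add,
    add_sub_cancel_right, abs_mul, abs_of_nonneg h4, mul_comm,
    abs_of_nonneg (by linarith [h5.1])]
  exact mul_le_mul_of_nonneg_right h5.2 h4

theorem Geo.solve (h : Geo ρ R K) (hn : 1 ≤ n) (k : ℕ) {e : Vs n → ℝ} (he : ContDiff ℝ ∞ e)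
    (h0 : ∀ x, ρ x = 0 → 0 < e x) : ∃ (κ : Type) (_ : Fintype κ) (g : Vs n → κ → ℂ),
      DifferentiableOn ℂ g {x | ρ x < 0} ∧ ContDiffOn ℝ k g {x | ρ x ≤ 0} ∧
        ∀ x, ρ x = 0 → nsq (g x) = e x := by
  obtain ⟨a, ha, ha'⟩ := h.isCompact.exists_forall_le' he.continuous.continuousOn h0
  obtain ⟨κ, hκ, T, B, Λ, σ₁, g, hT, hB, p1, p2, g1, g2, g3⟩ :=
    h.iterate hn (s := k + 2) (by omega) (e := fun x => e x / a) (he.div_const a) fun x hx => by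
      rw [le_div_iff₀ ha]
      linarith [ha' x hx]
  have hK := h.K_ge
  have hT0 : 0 < T := by linarith
  have lt : ∀ i : ℕ, i ≠ 0 → (T ^ i)⁻¹ < 1 := fun i hi =>
    inv_lt_one_of_one_lt₀ (one_lt_pow₀ (by linarith) hi)
  have q1 : ∀ j : ℕ, σ₁ / T ^ j ≤ 1 := fun j =>
    (div_le_self p1.le (one_le_pow₀ (by linarith))).trans p2
  set c : ℝ := (T ^ (2 * (k + 2)))⁻¹ with hc
  have c0 : 0 ≤ c := by positivity
  have nb : ∀ j, ∀ X ∈ Ob ρ R (σ₁ / T ^ j), ‖((c ^ j : ℝ) : ℂ) • g j X‖ ≤ c ^ j * B :=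
    fun j X hX => by
      rw [norm_smul, norm_real, Real.norm_of_nonneg (by positivity)]
      exact mul_le_mul_of_nonneg_left (g2 j X hX) (by positivity)
  have nd : ∀ j, DifferentiableOn ℂ (fun X => ((c ^ j : ℝ) : ℂ) • g j X) (Ob ρ R (σ₁ / T ^ j)) :=
    fun j => (g1 j).const_smul ((c ^ j : ℝ) : ℂ)
  have su : Summable fun j : ℕ => c ^ j * B :=
    (summable_geometric_of_lt_one c0 (lt _ (by omega))).mul_right B
  have mem : ∀ (j : ℕ) x, ρ x ≤ 0 → x ∈ Ob ρ R (σ₁ / T ^ j) := fun j x hx =>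
    h.mem_Ob (by positivity) hx
  refine ⟨κ, hκ, fun x => ((√a : ℝ) : ℂ) • ∑' j, ((c ^ j : ℝ) : ℂ) • g j x, fun x hx => ?_, ?_,
    fun x hx => ?_⟩
  · obtain ⟨r, r0, hr⟩ := Metric.isOpen_iff.1
      (isOpen_lt h.smooth.continuous continuous_const) x hx
    exact ((differentiableAt_tsum _ _ su r0
      (fun j => (nd j).mono fun y hy => mem j y (le_of_lt (hr hy)))
      fun j y hy => nb j y (mem j y (le_of_lt (hr hy)))).const_smul
        ((√a : ℝ) : ℂ)).differentiableWithinAt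
  · refine ContDiffOn.const_smul ((√a : ℝ) : ℂ) (reg2 _ k _ _
      (fun j => (σ₁ / T ^ j) ^ 2 / K) (fun j => c ^ j * B) (fun j => by positivity)
      (fun j => (div_le_self (by positivity) hK).trans (pow_le_one₀ (by positivity) (q1 j)))
      (fun j => by positivity)
      (fun j x hx => (nd j).mono (h.thick _ x (by positivity) (q1 j) hx))
      (fun j x hx y hy => nb j y (h.thick _ x (by positivity) (q1 j) hx hy)) ?_)
    refine ((summable_geometric_of_lt_one (by positivity) (lt 2 two_ne_zero)).mul_right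
      (B * (K / σ₁ ^ 2) ^ (k + 1))).congr fun j => ?_
    have e1 : c ^ j = ((T ^ 2)⁻¹) ^ j / ((T ^ j) ^ 2) ^ (k + 1) := by
      rw [hc, inv_pow, inv_pow, ← pow_mul, ← pow_mul, ← pow_mul, ← pow_mul, div_eq_mul_inv,
        ← mul_inv, ← pow_add]
      congr 2
      ring
    rw [e1]
    simp only [div_pow]
    field_simp
  · have h1 : HasSum (fun j => ((c ^ j : ℝ) : ℂ) • g j x) (∑' j, ((c ^ j : ℝ) : ℂ) • g j x) :=
      (Summable.of_norm_bounded su fun j => nb j x (mem j x hx.le)).hasSum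
    have h2 := (continuous_nsq.tendsto _).comp h1.tendsto_sum_nat
    have h3 : Filter.Tendsto (fun i : ℕ => Λ * ((T ^ (4 * (k + 2)))⁻¹) ^ i) Filter.atTop
        (nhds 0) := by
      simpa using (tendsto_pow_atTop_nhds_zero_of_lt_one (by positivity)
        (lt (4 * (k + 2)) (by omega))).const_mul Λ
    have h4 := le_of_tendsto_of_tendsto' (h2.const_sub (e x / a)).abs h3 fun i => g3 x hx i
    rw [abs_nonpos_iff, sub_eq_zero] at h4
    rw [nsq_smul, norm_real, Real.norm_eq_abs, sq_abs, Real.sq_sqrt ha.le, ← h4,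
      mul_div_cancel₀ _ ha.ne']

end Pool.Agent.Lib.MP_601e9e_an.Cv
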