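import Pool.Agent.Lib.MP_601e9e_an.Trans

/-!
Generic submanifolds are sets of uniqueness.
-/

set_option autoImplicit false

open Complex Metric Set Filter Topology
open scoped ContDiff

namespace Pool.Agent.Lib.MP_601e9e_an.Cv

variable {n d : ℕ} {ρ : Vs n → Fin d → ℝ}

theorem cxlin {E F : Type} [NormedAddCommGroup E] [NormedSpace ℂ E] [NormedSpace ℝ E]
    [IsScalarTower ℝ ℂ E] [NormedAddCommGroup F] [NormedSpace ℂ F] [NormedSpace ℝ F]
    [IsScalarTower ℝ ℂ F] (A : E →L[ℝ] F) (h : ∀ v, A (I • v) = I • A v) :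
    ∃ A' : E →L[ℂ] F, A'.restrictScalars ℝ = A := by
  have e : ∀ (G : Type) [AddCommGroup G] [Module ℂ G] [Module ℝ G] [IsScalarTower ℝ ℂ G]
      (c : ℂ) (v : G), c • v = c.re • v + c.im • I • v := by
    intro G _ _ _ _ c v
    conv_lhs => rw [← re_add_im c]
    rw [add_smul, mul_smul, ← smul_one_smul ℂ c.re v, ← smul_one_smul ℂ c.im (I • v)]
    simp
  refine ⟨⟨⟨⟨A, A.map_add⟩, fun c v => ?_⟩, A.continuous⟩, rfl⟩
  change A (c • v) = c • A v
  rw [e E, e F, map_add, map_smul, map_smul, h]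

/-- the differentials of the components of `ρ` are independent over the complex numbers -/
def Gen (ρ : Vs n → Fin d → ℝ) (x : Vs n) : Prop :=
  Function.Surjective fun v : Vs n => (fderiv ℝ ρ x v, fderiv ℝ ρ x (I • v))

theorem Gen.eventually (hρ : ContDiff ℝ ∞ ρ) {p : Vs n} (h : Gen ρ p) : ∀ᶠ x in 𝓝 p, Gen ρ x := by
  let J : Vs n →L[ℝ] Vs n := (I • ContinuousLinearMap.id ℂ (Vs n)).restrictScalars ℝ
  let A : Vs n → Vs n →L[ℝ] (Fin d → ℝ) × (Fin d → ℝ) := fun x =>
    (fderiv ℝ ρ x).prod ((fderiv ℝ ρ x).comp J)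
  have hc : Continuous (fderiv ℝ ρ) := hρ.continuous_fderiv (by simp)
  obtain ⟨s, hs⟩ := (A p).toLinearMap.exists_rightInverse_of_surjective
    (LinearMap.range_eq_top.2 h)
  have hA : Continuous fun x => (A x).comp (LinearMap.toContinuousLinearMap s) := by
    refine continuous_clm_apply.2 fun v => ?_
    exact (hc.clm_apply continuous_const).prodMk (hc.clm_apply continuous_const)
  have h1 : (A p).comp (LinearMap.toContinuousLinearMap s) = 1 :=
    ContinuousLinearMap.ext fun v => LinearMap.congr_fun hs v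
  have h2 := hA.continuousAt (x := p) |>.eventually_mem
    (Units.isOpen.mem_nhds (show _ ∈ {x | IsUnit x} by rw [h1]; exact isUnit_one))
  filter_upwards [h2] with x hx
  exact Function.Surjective.of_comp (g := s)
    (ContinuousLinearMap.isUnit_iff_bijective.1 hx).surjective

theorem Gen.fderiv_zero (hρ : ContDiff ℝ ∞ ρ) {x : Vs n} (h : Gen ρ x) (h0 : ρ x = 0)
    {Φ : Vs n → ℂ} (hΦ : DifferentiableAt ℂ Φ x) (hz : ∀ᶠ y in 𝓝 x, ρ y = 0 → Φ y = 0)
    (v : Vs n) : fderiv ℂ Φ x v = 0 := by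
  have hf : HasStrictFDerivAt ρ (fderiv ℝ ρ x) x := hρ.contDiffAt.hasStrictFDerivAt (by simp)
  have hr : (fderiv ℝ ρ x).range = ⊤ := LinearMap.range_eq_top.2 fun y => by
    obtain ⟨u, hu⟩ := h (y, 0)
    exact ⟨u, congrArg Prod.fst hu⟩
  have h1 := (hf.to_implicitFunction hr).hasFDerivAt
  have h2 := hf.implicitFunction_apply_image hr
  have h3 : ∀ᶠ u in 𝓝 (0 : (fderiv ℝ ρ x).ker),
      Φ (hf.implicitFunction ρ _ hr (ρ x) u) = 0 := by
    have a := ((continuous_const (y := ρ x)).prodMk continuous_id).continuousAt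
      (x := (0 : (fderiv ℝ ρ x).ker)) |>.eventually (hf.map_implicitFunction_eq hr)
    have b := (hf.tendsto_implicitFunction hr (tendsto_const_nhds (x := ρ x))
      tendsto_id).eventually hz
    filter_upwards [a, b] with u hu hu' using hu' (hu.trans h0)
  have h4 := HasFDerivAt.comp (0 : (fderiv ℝ ρ x).ker)
    (by rw [h2]; exact hΦ.hasFDerivAt.restrictScalars ℝ) h1
  have h5 := h4.unique ((hasFDerivAt_const (0 : ℂ) _).congr_of_eventuallyEq h3)
  have h6 : ∀ u, fderiv ℝ ρ x u = 0 → fderiv ℂ Φ x u = 0 := fun u hu =>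
    congrArg (fun L => L ⟨u, hu⟩) h5
  obtain ⟨a, ha⟩ := h (0, fderiv ℝ ρ x (I • v))
  have a1 := h6 a (congrArg Prod.fst ha)
  have a2 := h6 (I • v - I • a) (by rw [map_sub]; exact sub_eq_zero.2 (congrArg Prod.snd ha).symm)
  rw [map_sub, map_smul, map_smul, a1] at a2
  simpa using a2

theorem gen_entire (hρ : ContDiff ℝ ∞ ρ) {V : Set (Vs n)} (hV : IsOpen V)
    (hg : ∀ x ∈ V, Gen ρ x) {x : Vs n} (hx : x ∈ V) (h0 : ρ x = 0) {Φ : Vs n → ℂ}
    (hΦ : Differentiable ℂ Φ) (hz : ∀ y ∈ V, ρ y = 0 → Φ y = 0) (X : Vs n) : Φ X = 0 := by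
  have hl : ∀ t : ℂ, HasDerivAt (fun t : ℂ => x + t • (X - x)) (X - x) t := fun t => by
    simpa using ((hasDerivAt_id t).smul_const (X - x)).const_add x
  have key : ∀ (m : ℕ) (Φ : Vs n → ℂ), Differentiable ℂ Φ → (∀ y ∈ V, ρ y = 0 → Φ y = 0) →
      iteratedDeriv m (fun t : ℂ => Φ (x + t • (X - x))) 0 = 0 := by
    intro m
    induction m with
    | zero => exact fun Φ _ hz => by simpa using hz x hx h0
    | succ m ih =>
      intro Φ hΦ hz
      have e : deriv (fun t : ℂ => Φ (x + t • (X - x))) =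
          fun t => fderiv ℂ Φ (x + t • (X - x)) (X - x) :=
        funext fun t => ((hΦ _).hasFDerivAt.comp_hasDerivAt t (hl t)).deriv
      rw [iteratedDeriv_succ', e]
      exact ih (fun y => fderiv ℂ Φ y (X - x)) (differentiableOn_univ.1
        (MP_08f711_an.differentiableOn_fderiv_apply isOpen_univ hΦ.differentiableOn _))
        fun y hy hy0 => (hg y hy).fderiv_zero hρ hy0 (hΦ y)
          (Filter.mem_of_superset (hV.mem_nhds hy) hz) _
  have := hasSum_taylorSeries_of_entire (f := fun t : ℂ => Φ (x + t • (X - x)))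
    (hΦ.comp fun t => (hl t).differentiableAt) 0 1
  simp only [key _ Φ hΦ hz, smul_zero, one_smul, add_sub_cancel] at this
  exact this.unique hasSum_zero

theorem exp_transc (j : Fin n) {c : ℂ} (hc : c ≠ 0) (P : MvPolynomial (Option (Fin n)) ℂ)
    (hΦ : ∀ x : Vs n, MvPolynomial.eval (fun o => o.elim (c * cexp (x j)) fun i => x i) P = 0) :
    P = 0 := by
  refine MvPolynomial.funext_set (fun _ => ({0} : Set ℂ)ᶜ)
    (fun _ => (Set.toFinite _).infinite_compl) fun x hx => ?_
  have hx0 : x none ≠ 0 := fun e => hx none (mem_univ _) e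
  have hc0 : x none / c ≠ 0 := div_ne_zero hx0 hc
  let g : Option (Fin n) → Polynomial ℂ := fun o =>
    o.elim (Polynomial.C (x none)) fun i =>
      if i = j then Polynomial.X else Polynomial.C (x (some i))
  have hR : MvPolynomial.aeval g P = 0 := by
    refine Polynomial.eq_zero_of_infinite_isRoot _ (Set.infinite_of_injective_forall_mem
      (f := fun m : ℕ => log (x none / c) + m * (2 * Real.pi * I)) (fun m m' e => ?_) fun m => ?_)
    · exact_mod_cast mul_right_cancel₀ two_pi_I_ne_zero (add_left_cancel e)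
    · have := hΦ fun i => if i = j then log (x none / c) + m * (2 * Real.pi * I) else x (some i)
      rw [mem_ofPred_eq, Polynomial.IsRoot.def, trans_eval, ← this]
      congr 2
      funext o
      rcases o with _ | i
      · simp only [g, Option.elim, if_true, exp_add, exp_log hc0, exp_nat_mul_two_pi_mul_I,
          Polynomial.eval_C, mul_one]
        rw [mul_div_cancel₀ _ hc]
      · simp only [g, Option.elim]
        split_ifs <;> simp
  have := trans_eval g P (x (some j))
  rw [hR, Polynomial.eval_zero] at this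
  rw [map_zero, this]
  congr 2
  funext o
  rcases o with _ | i
  · simp only [g, Option.elim, Polynomial.eval_C]
  · simp only [g, Option.elim]
    split_ifs with hi
    · simp [hi]
    · simp

theorem gen_transc (hρ : ContDiff ℝ ∞ ρ) {V : Set (Vs n)} (hV : IsOpen V)
    (hg : ∀ x ∈ V, Gen ρ x) {x : Vs n} (hx : x ∈ V) (h0 : ρ x = 0) (j : Fin n) {c : ℂ}
    (hc : c ≠ 0) (P : MvPolynomial (Option (Fin n)) ℂ) (hz : ∀ y ∈ V, ρ y = 0 →
      MvPolynomial.eval (fun o => o.elim (c * cexp (y j)) fun i => y i) P = 0) : P = 0 :=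
  exp_transc j hc P (gen_entire hρ hV hg hx h0 (trans_diff
    (fun (o : Option (Fin n)) (Z : Vs n) => o.elim (c * cexp (Z j)) fun i => Z i) (by
      rintro (_ | i)
      · exact (differentiable_apply j).cexp.const_mul c
      · exact differentiable_apply i) P) hz)

/-- holomorphic inside and `C¹` up to the boundary: complex differentiable within the closure -/
theorem diffOn_closure {E F : Type} [NormedAddCommGroup E] [NormedSpace ℂ E] [NormedSpace ℝ E]
    [IsScalarTower ℝ ℂ E] [NormedAddCommGroup F] [NormedSpace ℂ F] [NormedSpace ℝ F]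
    [IsScalarTower ℝ ℂ F] {g : E → F} {D S : Set E} (hD : IsOpen D) (hDS : D ⊆ S)
    (hg : DifferentiableOn ℂ g D) (h1 : ContDiffOn ℝ 1 g S) {x : E} (hx : x ∈ S)
    (hc : x ∈ closure D) : DifferentiableWithinAt ℂ g S x := by
  obtain ⟨u, hu, -, -, f', h2, h3⟩ :=
    (contDiffWithinAt_succ_iff_hasFDerivWithinAt' (n := 0) (by simp)).1 (by simpa using h1 x hx)
  rw [insert_eq_of_mem hx] at hu
  have := mem_closure_iff_nhdsWithin_neBot.1 hc
  have h4 : Tendsto f' (𝓝[D] x) (𝓝 (f' x)) :=
    h3.continuousWithinAt.tendsto.mono_left (nhdsWithin_mono x hDS)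
  obtain ⟨A, hA⟩ := cxlin (f' x) fun v => by
    refine tendsto_nhds_unique_of_eventuallyEq (l := 𝓝[D] x)
      (((ContinuousLinearMap.apply ℝ F (I • v)).continuous.tendsto _).comp h4)
      ((((ContinuousLinearMap.apply ℝ F v).continuous.tendsto _).comp h4).const_smul I) ?_
    filter_upwards [nhdsWithin_mono x hDS hu, self_mem_nhdsWithin] with y hy hyD
    have e := ((h2 y hy).hasFDerivAt (mem_of_superset (hD.mem_nhds hyD) hDS)).unique
      ((hg.differentiableAt (hD.mem_nhds hyD)).hasFDerivAt.restrictScalars ℝ)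
    simp [e]
  exact ((h2 x (mem_of_mem_nhdsWithin hx hu)).of_restrictScalars ℝ hA).differentiableWithinAt

end Pool.Agent.Lib.MP_601e9e_an.Cv
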