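import Pool.Agent.Lib.MP_601e9e_an.Cv.Est

/-!
Second derivatives; a strongly convex germ extends to a strongly convex function.
-/

set_option autoImplicit false

open Metric Set Filter Topology
open scoped ContDiff

namespace Pool.Agent.Lib.MP_601e9e_an.Cv

variable {E F G : Type} [NormedAddCommGroup E] [NormedSpace ℝ E] [NormedAddCommGroup F]
  [NormedSpace ℝ F] [NormedAddCommGroup G] [NormedSpace ℝ G]

theorem snd_comp {f : F → G} {g : E → F} (hf : ContDiff ℝ ∞ f) (hg : ContDiff ℝ ∞ g) (x v w : E) :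
    fderiv ℝ (fderiv ℝ fun y => f (g y)) x v w =
      fderiv ℝ (fderiv ℝ f) (g x) (fderiv ℝ g x v) (fderiv ℝ g x w) +
        fderiv ℝ f (g x) (fderiv ℝ (fderiv ℝ g) x v w) := by
  have hf1 := hf.differentiable (by simp)
  have hg1 := hg.differentiable (by simp)
  have hf2 := (hf.fderiv_right (m := 1) (by norm_cast)).differentiable one_ne_zero
  have hg2 := (hg.fderiv_right (m := 1) (by norm_cast)).differentiable one_ne_zero
  have e : (fderiv ℝ fun y => f (g y)) = fun y => (fderiv ℝ f (g y)).comp (fderiv ℝ g y) :=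
    funext fun y => fderiv_comp y (hf1 _) (hg1 _)
  have k : HasFDerivAt (fun y => fderiv ℝ f (g y)) _ x :=
    (hf2 (g x)).hasFDerivAt.comp x (hg1 x).hasFDerivAt
  rw [e, (k.clm_comp (hg2 x).hasFDerivAt).fderiv]
  simp [add_comm]

theorem quad_fderiv (c : F) (a : E →L[ℝ] F) (B : E →L[ℝ] E →L[ℝ] F) :
    (fderiv ℝ fun x => c + a x + B x x) = fun x => a + (B + B.flip) x := by
  funext x
  have := ((a.hasFDerivAt (x := x)).const_add c).add
    (B.hasFDerivAt.clm_apply (hasFDerivAt_id x))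
  refine this.fderiv.trans ?_
  ext v
  simp

theorem quad_snd (c : F) (a : E →L[ℝ] F) (B : E →L[ℝ] E →L[ℝ] F) (x : E) :
    fderiv ℝ (fderiv ℝ fun x => c + a x + B x x) x = B + B.flip := by
  rw [quad_fderiv]
  exact ((B + B.flip).hasFDerivAt.const_add a).fderiv

theorem quad_smooth (c : F) (a : E →L[ℝ] F) (B : E →L[ℝ] E →L[ℝ] F) :
    ContDiff ℝ ∞ fun x => c + a x + B x x :=
  (contDiff_const.add a.contDiff).add (B.contDiff.clm_apply contDiff_id)

theorem pos_form [FiniteDimensional ℝ E] (B : E →L[ℝ] E →L[ℝ] ℝ) (h : ∀ v, v ≠ 0 → 0 < B v v) :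
    ∃ μ : ℝ, 0 < μ ∧ ∀ v, μ * ‖v‖ ^ 2 ≤ B v v := by
  have : ProperSpace E := FiniteDimensional.proper ℝ E
  obtain ⟨μ, h0, hμ⟩ := (isCompact_sphere (0 : E) 1).exists_forall_le'
    (f := fun v => B v v) (by fun_prop) (a := 0)
    fun v hv => h v (ne_zero_of_mem_unit_sphere ⟨v, hv⟩)
  refine ⟨μ, h0, fun v => ?_⟩
  rcases eq_or_ne v 0 with rfl | hv
  · simp
  have hn : 0 < ‖v‖ := norm_pos_iff.2 hv
  have := hμ (‖v‖⁻¹ • v) (by simp [norm_smul, hn.ne'])
  simp only [map_smul, smul_apply, smul_eq_mul] at this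
  rw [← le_div_iff₀ (by positivity)]
  refine this.trans_eq ?_
  field_simp

theorem cutoff_small [FiniteDimensional ℝ E] {e : E → ℝ} (he : ContDiff ℝ ∞ e) (h0 : e 0 = 0)
    (h1 : fderiv ℝ e 0 = 0) (h2 : fderiv ℝ (fderiv ℝ e) 0 = 0) {ε : ℝ} (hε : 0 < ε) :
    ∃ e' : E → ℝ, ContDiff ℝ ∞ e' ∧ e' =ᶠ[𝓝 0] e ∧ (∀ x, 1 ≤ ‖x‖ → e' x = 0) ∧
      ∀ x v, |fderiv ℝ (fderiv ℝ e') x v v| ≤ ε * ‖v‖ ^ 2 := by
  let χ : ContDiffBump (0 : E) := ⟨1 / 2, 1, by norm_num, by norm_num⟩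
  have hχ : ContDiff ℝ ∞ χ := χ.contDiff
  have hb : ∀ i : ℕ, ∃ C : ℝ, 0 ≤ C ∧ ∀ x, ‖iteratedFDeriv ℝ i χ x‖ ≤ C := fun i => by
    obtain ⟨C, hC⟩ := (hχ.continuous_iteratedFDeriv (m := i) (by norm_cast; simp)
      ).bounded_above_of_compact_support (χ.hasCompactSupport.iteratedFDeriv i)
    exact ⟨C, (norm_nonneg _).trans (hC 0), hC⟩
  choose C hC0 hC using hb
  have he1 : ContDiff ℝ ∞ (fderiv ℝ e) := he.fderiv_right (m := ∞) (by simp)
  obtain ⟨L, hL0, hL⟩ := lip_ball (he1.fderiv_right (m := 1) (by norm_cast)) 1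
  obtain ⟨δ, hδ, hδ1, hδε⟩ : ∃ δ : ℝ, 0 < δ ∧ δ ≤ 1 ∧ (C 0 + 2 * C 1 + C 2) * L * δ ≤ ε := by
    have := hC0 0
    have := hC0 1
    have := hC0 2
    refine ⟨min 1 (ε / ((C 0 + 2 * C 1 + C 2) * L + 1)), by positivity, min_le_left _ _, ?_⟩
    refine (mul_le_mul_of_nonneg_left (min_le_right _ _) (by positivity)).trans ?_
    rw [← mul_div_assoc, div_le_iff₀ (by positivity)]
    nlinarith
  have b2 : ∀ x, ‖x‖ ≤ δ → ‖fderiv ℝ (fderiv ℝ e) x‖ ≤ L * δ := fun x hx => by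
    have := hL x 0 (hx.trans hδ1) (by simp)
    rw [h2, sub_zero, sub_zero] at this
    exact this.trans (by gcongr)
  have b1 : ∀ x, ‖x‖ ≤ δ → ‖fderiv ℝ e x‖ ≤ L * δ * δ := fun x hx => by
    have := mv_ball (fun z => (he1.differentiable (by simp) z).hasFDerivAt) b2 hx (y := 0)
      (by simpa using hδ.le)
    rw [h1, sub_zero, sub_zero] at this
    exact this.trans (by gcongr)
  have b0 : ∀ x, ‖x‖ ≤ δ → ‖e x‖ ≤ L * δ * δ * δ := fun x hx => by
    have := mv_ball (fun z => (he.differentiable (by simp) z).hasFDerivAt) b1 hx (y := 0)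
      (by simpa using hδ.le)
    rw [h0, sub_zero, sub_zero] at this
    exact this.trans (by gcongr)
  let s : E →L[ℝ] E := δ⁻¹ • ContinuousLinearMap.id ℝ E
  have hs : ‖s‖ ≤ δ⁻¹ := ContinuousLinearMap.opNorm_le_bound _ (by positivity) fun x => by
    simp [s, norm_smul, abs_of_pos hδ]
  have hχs : ContDiff ℝ ∞ (χ ∘ s) := hχ.comp s.contDiff
  have hz : ∀ x, δ ≤ ‖x‖ → (χ ∘ s) x * e x = 0 := fun x hx => by
    have : χ (s x) = 0 := χ.zero_of_le_dist (by
      simpa [χ, s, norm_smul, abs_of_pos hδ] using (le_inv_mul_iff₀ hδ).2 (by simpa using hx))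
    simp [this]
  have c1 : ∀ (i : ℕ) x, ‖iteratedFDeriv ℝ i (χ ∘ s) x‖ ≤ C i * δ⁻¹ ^ i := fun i x => by
    rw [s.iteratedFDeriv_comp_right hχ x (by norm_cast; simp)]
    refine (ContinuousMultilinearMap.norm_compContinuousLinearMap_le _ _).trans ?_
    rw [Finset.prod_const, Finset.card_univ, Fintype.card_fin]
    have := hC0 i
    gcongr
    exact hC i _
  refine ⟨fun x => (χ ∘ s) x * e x, hχs.mul he, ?_, fun x hx => hz x (hδ1.trans hx),
    fun x v => ?_⟩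
  · have : ∀ᶠ x in 𝓝 (0 : E), χ (s x) = 1 :=
      (s.continuous.tendsto' 0 0 (map_zero s)).eventually χ.eventuallyEq_one
    filter_upwards [this] with x hx
    simp [hx]
  rcases le_or_gt ‖x‖ δ with hx | hx
  · have k := norm_iteratedFDeriv_mul_le hχs he x (n := 2) (by norm_cast)
    have k2 := (iteratedFDeriv ℝ 2 (fun y => (χ ∘ s) y * e y) x).le_opNorm fun _ => v
    rw [iteratedFDeriv_two_apply, Finset.prod_const, Finset.card_univ, Fintype.card_fin] at k2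
    refine k2.trans (mul_le_mul_of_nonneg_right (k.trans (le_trans ?_ hδε)) (by positivity))
    have d0 : ‖iteratedFDeriv ℝ 0 e x‖ ≤ L * δ * δ * δ := by
      rw [norm_iteratedFDeriv_zero]; exact b0 x hx
    have d1 : ‖iteratedFDeriv ℝ 1 e x‖ ≤ L * δ * δ := by
      rw [← norm_iteratedFDeriv_fderiv, norm_iteratedFDeriv_zero]; exact b1 x hx
    have d2 : ‖iteratedFDeriv ℝ 2 e x‖ ≤ L * δ := by
      rw [← norm_iteratedFDeriv_fderiv, ← norm_iteratedFDeriv_fderiv, norm_iteratedFDeriv_zero]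
      exact b2 x hx
    have := hC0 0
    have := hC0 1
    have := hC0 2
    simp only [Finset.sum_range_succ, Finset.range_zero, Finset.sum_empty, zero_add]
    calc _ ≤ (Nat.choose 2 0 : ℝ) * (C 0 * δ⁻¹ ^ 0) * (L * δ) +
          (Nat.choose 2 1 : ℝ) * (C 1 * δ⁻¹ ^ 1) * (L * δ * δ) +
          (Nat.choose 2 2 : ℝ) * (C 2 * δ⁻¹ ^ 2) * (L * δ * δ * δ) := by
          gcongr <;> exact c1 _ _
      _ = _ := by
          simp only [Nat.choose]
          push_cast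
          field_simp
  · have k : (fun y => (χ ∘ s) y * e y) =ᶠ[𝓝 x] fun _ => 0 := by
      filter_upwards [(isOpen_lt continuous_const continuous_norm).mem_nhds hx] with y hy
        using hz y (le_of_lt hy)
    rw [k.fderiv.fderiv_eq]
    simp only [fderiv_fun_const, Pi.zero_def, Pi.zero_apply, zero_apply, abs_zero]
    positivity

theorem not_min {ρ : E → ℝ} {x : E} (h : fderiv ℝ ρ x ≠ 0) : x ∈ closure {y | ρ y < ρ x} := by
  by_contra hx
  refine h (IsLocalMin.fderiv_eq_zero ?_)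
  filter_upwards [isClosed_closure.isOpen_compl.mem_nhds hx] with y hy
  exact not_lt.1 fun h' => hy (subset_closure h')

theorem loc_glob [FiniteDimensional ℝ E] {r : E → ℝ} (hr : ContDiff ℝ ∞ r) (h0 : r 0 = 0)
    (h1 : fderiv ℝ r 0 ≠ 0) (h2 : ∀ v, v ≠ 0 → 0 < fderiv ℝ (fderiv ℝ r) 0 v v) :
    ∃ ρ : E → ℝ, ContDiff ℝ ∞ ρ ∧ (∀ x v, v ≠ 0 → 0 < fderiv ℝ (fderiv ℝ ρ) x v v) ∧
      Bornology.IsBounded {x | ρ x ≤ 0} ∧ (∃ x, ρ x < 0) ∧ ρ =ᶠ[𝓝 0] r := by
  set a := fderiv ℝ r 0 with ha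
  set B := fderiv ℝ (fderiv ℝ r) 0 with hB
  obtain ⟨μ, hμ0, hμ⟩ := pos_form B h2
  set T : E → ℝ := fun x => 0 + a x + ((1 / 2 : ℝ) • B) x x with hT
  have hTs : ContDiff ℝ ∞ T := quad_smooth _ _ _
  have hsym : (1 / 2 : ℝ) • B + ((1 / 2 : ℝ) • B).flip = B := by
    ext v w
    have := (hr.contDiffAt (x := 0)).isSymmSndFDerivAt (by simp; norm_cast) v w
    simp only [add_apply, ContinuousLinearMap.flip_apply, smul_apply, smul_eq_mul]
    linarith
  have hT2 : ∀ x, fderiv ℝ (fderiv ℝ T) x = B := fun x => (quad_snd _ _ _ x).trans hsym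
  have sub2 : ∀ {f g : E → ℝ}, ContDiff ℝ ∞ f → ContDiff ℝ ∞ g → ∀ x,
      fderiv ℝ (fderiv ℝ (f + g)) x = fderiv ℝ (fderiv ℝ f) x + fderiv ℝ (fderiv ℝ g) x := by
    intro f g hf hg x
    have : fderiv ℝ (f + g) = fderiv ℝ f + fderiv ℝ g := funext fun y =>
      fderiv_add (hf.differentiable (by simp) y) (hg.differentiable (by simp) y)
    rw [this]
    exact fderiv_add ((hf.fderiv_right (m := 1) (by norm_cast)).differentiable one_ne_zero x)
      ((hg.fderiv_right (m := 1) (by norm_cast)).differentiable one_ne_zero x)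
  obtain ⟨e, e1, e2, e3, e4⟩ := cutoff_small (e := r - T) (hr.sub hTs) (by simp [h0, hT])
    (by
      rw [fderiv_sub (hr.differentiable (by simp) 0) (hTs.differentiable (by simp) 0), hT,
        quad_fderiv]
      simp [ha])
    (by
      have := sub2 hTs (hr.sub hTs) 0
      rw [show (T + fun x => r x - T x) = r by ext; simp, hT2, ← hB] at this
      exact left_eq_add.1 this) (half_pos hμ0)
  have hg : T + e =ᶠ[𝓝 0] r := by
    filter_upwards [e2] with x hx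
    simp [hx]
  refine ⟨T + e, hTs.add e1, fun x v hv => ?_, ?_, ?_, hg⟩
  · rw [sub2 hTs e1, hT2, add_apply, add_apply]
    have := norm_pos_iff.2 hv
    have : 0 < μ * ‖v‖ ^ 2 := by positivity
    linarith [hμ v, (abs_le.1 (e4 x v)).1]
  · refine (isBounded_closedBall (x := (0 : E)) (r := max 1 (2 * ‖a‖ / μ))).subset fun x hx => ?_
    rw [mem_closedBall_zero_iff, le_max_iff]
    refine (le_or_gt ‖x‖ 1).imp id fun h => ?_
    have h3 : T x + e x ≤ 0 := hx
    rw [e3 x h.le] at h3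
    have h4 := (abs_le.1 (a.le_opNorm x)).1
    simp only [hT, smul_apply, smul_eq_mul] at h3
    rw [le_div_iff₀ hμ0]
    nlinarith [hμ x]
  · obtain ⟨x, hx⟩ := closure_nonempty_iff.1
      ⟨_, not_min (ρ := T + e) (x := 0) (by rwa [hg.fderiv_eq])⟩
    exact ⟨x, by rwa [mem_ofPred_eq, hg.eq_of_nhds, h0] at hx⟩

end Pool.Agent.Lib.MP_601e9e_an.Cv
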