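import Pool.Agent.Lib.MP_601e9e_an.Cv.Loc1
import Pool.Agent.Lib.MP_601e9e_an.Cv.Loc2

/-!
A strongly pseudoconvex hypersurface through the manifold; Narasimhan's change of coordinates.
-/

set_option autoImplicit false

open Complex Metric Set Filter Topology
open scoped ContDiff

namespace Pool.Agent.Lib.MP_601e9e_an.Cv

variable {n d : ℕ} {ρ : Vs n → Fin d → ℝ}

theorem exists_weight {L N : Vs n → ℝ} (hL : Continuous L) (hN : Continuous N)
    (hL2 : ∀ (t : ℝ) v, L (t • v) = t ^ 2 * L v) (hN2 : ∀ (t : ℝ) v, N (t • v) = t ^ 2 * N v)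
    (h0 : ∀ v, 0 ≤ N v) (h : ∀ v, v ≠ 0 → N v = 0 → 0 < L v) :
    ∃ A : ℝ, ∀ v, v ≠ 0 → 0 < L v + A * N v := by
  obtain ⟨m, hm⟩ := (isCompact_sphere (0 : Vs n) 1).elim_directed_cover
    (fun m : ℕ => {v | 0 < L v + m * N v})
    (fun m => isOpen_lt continuous_const (by fun_prop)) (fun v hv => by
      rcases (h0 v).eq_or_lt with h1 | h1
      · exact mem_iUnion.2 ⟨0, by simpa using h v (ne_zero_of_mem_unit_sphere ⟨v, hv⟩) h1.symm⟩
      · obtain ⟨m, hm⟩ := exists_nat_gt (-L v / N v)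
        rw [div_lt_iff₀ h1] at hm
        exact mem_iUnion.2 ⟨m, by rw [mem_ofPred_eq]; linarith⟩)
    (Monotone.directed_le fun a b hab v hv => by
      have : (a : ℝ) * N v ≤ b * N v := mul_le_mul_of_nonneg_right (by exact_mod_cast hab) (h0 v)
      rw [mem_ofPred_eq] at hv ⊢
      linarith)
  refine ⟨m, fun v hv => ?_⟩
  have hn : 0 < ‖v‖ := norm_pos_iff.2 hv
  have := hm (show ‖v‖⁻¹ • v ∈ sphere (0 : Vs n) 1 by simp [norm_smul, hn.ne'])
  rw [mem_ofPred_eq, hL2, hN2, mul_left_comm, ← mul_add] at this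
  exact (mul_pos_iff_of_pos_left (by positivity)).1 this

theorem levi_all (hρ : ContDiff ℝ ∞ ρ) {p : Vs n} (hp : ρ p = 0) (hg : Gen ρ p) {c : Fin d → ℝ}
    (hc : c ≠ 0) (hL : ∀ v : Vs n, v ≠ 0 → fderiv ℝ ρ p v = 0 → fderiv ℝ ρ p (I • v) = 0 →
      0 < ∑ j, c j * (fderiv ℝ (fderiv ℝ ρ) p v v j +
        fderiv ℝ (fderiv ℝ ρ) p (I • v) (I • v) j)) :
    ∃ r : Vs n → ℝ, ContDiff ℝ ∞ r ∧ (∀ x, ρ x = 0 → r x = 0) ∧
      (∃ w, fderiv ℝ r p w = 1 ∧ fderiv ℝ r p (I • w) = 0) ∧ ∀ v : Vs n, v ≠ 0 →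
        0 < fderiv ℝ (fderiv ℝ r) p v v + fderiv ℝ (fderiv ℝ r) p (I • v) (I • v) := by
  let ℓ : (Fin d → ℝ) →L[ℝ] ℝ := ∑ j, c j • ContinuousLinearMap.proj j
  let B : (Fin d → ℝ) →L[ℝ] (Fin d → ℝ) →L[ℝ] ℝ :=
    ∑ j, (ContinuousLinearMap.proj (R := ℝ) (φ := fun _ : Fin d => ℝ) j).smulRight
      (ContinuousLinearMap.proj j)
  have hℓ : ∀ y, ℓ y = ∑ j, c j * y j := fun y => by simp [ℓ]
  have hB : ∀ y, B y y = ∑ j, y j ^ 2 := fun y => by simp [B, sq]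
  have hB0 : ∀ y, 0 ≤ B y y := fun y => by rw [hB]; positivity
  have hB1 : ∀ y, B y y = 0 → y = 0 := fun y hy => funext fun j => by
    rw [hB, Finset.sum_eq_zero_iff_of_nonneg fun _ _ => sq_nonneg _] at hy
    simpa using hy j (Finset.mem_univ j)
  set a := fderiv ℝ ρ p with ha
  set H := fderiv ℝ (fderiv ℝ ρ) p with hH
  obtain ⟨A, hA⟩ := exists_weight (L := fun v => ℓ (H v v) + ℓ (H (I • v) (I • v)))
    (N := fun v => B (a v) (a v) + B (a (I • v)) (a (I • v))) (by fun_prop) (by fun_prop)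
    (fun t v => by simp only [smul_comm I t, map_smul, smul_apply, smul_eq_mul]; ring)
    (fun t v => by simp only [smul_comm I t, map_smul, smul_apply, smul_eq_mul]; ring)
    (fun v => add_nonneg (hB0 _) (hB0 _)) fun v hv h0 => by
      obtain ⟨h1, h2⟩ := (add_eq_zero_iff_of_nonneg (hB0 _) (hB0 _)).1 h0
      simpa only [hℓ, mul_add, Finset.sum_add_distrib] using hL v hv (hB1 _ h1) (hB1 _ h2)
  have hΘ := quad_smooth 0 ℓ ((A / 2) • B)
  have h1 : ∀ v, fderiv ℝ (fun x => 0 + ℓ (ρ x) + ((A / 2) • B) (ρ x) (ρ x)) p v = ℓ (a v) := by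
    intro v
    rw [fderiv_fun_comp p (hΘ.differentiable (by simp) _) (hρ.differentiable (by simp) p),
      quad_fderiv, hp]
    simp [ha]
  have h2 : ∀ v, fderiv ℝ (fderiv ℝ fun x => 0 + ℓ (ρ x) + ((A / 2) • B) (ρ x) (ρ x)) p v v =
      ℓ (H v v) + A * B (a v) (a v) := by
    intro v
    rw [snd_comp hΘ hρ, quad_snd, quad_fderiv, hp]
    simp only [add_apply, ContinuousLinearMap.flip_apply, smul_apply, smul_eq_mul, map_zero,
      add_zero, ← ha, ← hH]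
    ring
  refine ⟨_, hΘ.comp hρ, fun x hx => by simp [hx], ?_, fun v hv => ?_⟩
  · obtain ⟨j, hj⟩ := Function.ne_iff.1 hc
    obtain ⟨w, hw⟩ := hg (Pi.single j (c j)⁻¹, 0)
    refine ⟨w, (h1 w).trans ?_, (h1 _).trans ?_⟩
    · rw [show a w = _ from congrArg Prod.fst hw, hℓ, Finset.sum_eq_single j
        (fun i _ hi => by simp [hi]) (by simp)]
      simpa using mul_inv_cancel₀ hj
    · rw [show a (I • w) = _ from congrArg Prod.snd hw, map_zero]
  · refine (hA v hv).trans_eq (Eq.trans ?_ (congrArg₂ (· + ·) (h2 v) (h2 (I • v))).symm)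
    ring

theorem narasimhan {r : Vs n → ℝ} (hr : ContDiff ℝ ∞ r) {p w : Vs n} (h1 : fderiv ℝ r p w = 1)
    (h2 : fderiv ℝ r p (I • w) = 0) (hL : ∀ v : Vs n, v ≠ 0 →
      0 < fderiv ℝ (fderiv ℝ r) p v v + fderiv ℝ (fderiv ℝ r) p (I • v) (I • v)) :
    ∃ ψ : Vs n → Vs n, ContDiff ℂ ∞ ψ ∧ ψ 0 = p ∧
      HasFDerivAt ψ (ContinuousLinearMap.id ℂ (Vs n)) 0 ∧
      ∀ v, v ≠ 0 → 0 < fderiv ℝ (fderiv ℝ fun x => r (ψ x)) 0 v v := by
  set B := fderiv ℝ (fderiv ℝ r) p with hB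
  have hI : ∀ v : Vs n, I • I • v = -v := fun v => by rw [smul_smul, I_mul_I, neg_smul, one_smul]
  let J : Vs n →L[ℝ] Vs n := (I • ContinuousLinearMap.id ℂ (Vs n)).restrictScalars ℝ
  let s := (ContinuousLinearMap.smulRightL ℝ (Vs n) (Vs n)).flip
  let Q : Vs n →L[ℝ] Vs n →L[ℝ] Vs n :=
    (s w).comp ((1 / 4 : ℝ) • (B.bilinearComp J J - B)) + (s (I • w)).comp ((1 / 4 : ℝ) •
      (B.comp J + B.bilinearComp (ContinuousLinearMap.id ℝ _) J))
  have hQ : ∀ v u, Q v u = (1 / 4 * (B (I • v) (I • u) - B v u)) • w +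
      (1 / 4 * (B (I • v) u + B v (I • u))) • I • w := fun v u => rfl
  have q1 : ∀ u, ∃ A : Vs n →L[ℂ] Vs n, A.restrictScalars ℝ = Q.flip u := fun u =>
    cxlin _ fun v => by
      simp only [ContinuousLinearMap.flip_apply, hQ, hI, smul_add, smul_comm I (_ : ℝ), map_neg,
        neg_apply]
      module
  have q2 : ∀ v, ∃ A : Vs n →L[ℂ] Vs n, A.restrictScalars ℝ = Q v := fun v =>
    cxlin _ fun u => by
      simp only [hQ, hI, smul_add, smul_comm I (_ : ℝ), map_neg]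
      module
  let Q₀ : Vs n →ₗ[ℂ] Vs n →ₗ[ℂ] Vs n := LinearMap.mk₂ ℂ (fun v u => Q v u)
    (fun _ _ _ => by simp) (fun c v u => by
      obtain ⟨A, hA⟩ := q1 u
      have e : ∀ v, Q v u = A v := fun v => (congrArg (fun L => L v) hA).symm
      rw [e, e, map_smul])
    (fun _ _ _ => by simp) fun c v u => by
      obtain ⟨A, hA⟩ := q2 v
      have e : ∀ u, Q v u = A u := fun u => (congrArg (fun L => L u) hA).symm
      rw [e, e, map_smul]
  let Q₁ : Vs n →L[ℂ] Vs n →L[ℂ] Vs n := LinearMap.toContinuousLinearMap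
    ((LinearMap.toContinuousLinearMap (𝕜 := ℂ) (E := Vs n) (F' := Vs n)).toLinearMap.comp Q₀)
  have hψ := quad_smooth p (ContinuousLinearMap.id ℝ (Vs n)) Q
  have hψ1 := quad_fderiv p (ContinuousLinearMap.id ℝ (Vs n)) Q
  refine ⟨fun x => p + ContinuousLinearMap.id ℝ (Vs n) x + Q x x,
    (contDiff_const.add contDiff_id).add (Q₁.contDiff.clm_apply contDiff_id), by simp,
    hasFDerivAt_of_restrictScalars ℝ (hψ.differentiable (by simp) 0).hasFDerivAt ?_,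
    fun v hv => ?_⟩
  · rw [hψ1]
    ext1 v
    simp
  · rw [snd_comp hr hψ, quad_snd, hψ1]
    simp only [map_zero, add_zero, ContinuousLinearMap.id_apply, add_apply,
      ContinuousLinearMap.flip_apply, hQ, map_add, map_smul, h1, h2, smul_eq_mul, ← hB]
    linarith [hL v hv]

end Pool.Agent.Lib.MP_601e9e_an.Cv
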