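import Pool.Agent.Lib.MP_601e9e_an.Cv.Loc3
import Pool.Agent.Lib.MP_601e9e_an.Cv.Geo0
import Pool.Agent.Lib.MP_601e9e_an.Cv.Geo1
import Pool.Agent.Lib.MP_601e9e_an.Cv.Iter2

/-!
Local embeddings of finite smoothness into spheres.
-/

set_option autoImplicit false

open Complex Metric Set Filter Topology
open scoped ContDiff

namespace Pool.Agent.Lib.MP_601e9e_an.Cv

variable {n d : ℕ}

theorem loc_solve (k : ℕ) {ρ : Vs n → Fin d → ℝ} (hρ : ContDiff ℝ ∞ ρ) {p : Vs n} (hp : ρ p = 0)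
    (hg : Gen ρ p) {c : Fin d → ℝ} (hc : c ≠ 0)
    (hL : ∀ v : Vs n, v ≠ 0 → fderiv ℝ ρ p v = 0 → fderiv ℝ ρ p (I • v) = 0 →
      0 < ∑ j, c j * (fderiv ℝ (fderiv ℝ ρ) p v v j +
        fderiv ℝ (fderiv ℝ ρ) p (I • v) (I • v) j)) {u : Vs n → ℝ} (hu : ContDiff ℝ ∞ u) :
    ∃ (U : Set (Vs n)) (a : ℝ) (κ : Type) (_ : Fintype κ) (g : Vs n → κ → ℂ), IsOpen U ∧ p ∈ U ∧
      0 < a ∧ (∀ x ∈ U, Gen ρ x) ∧ ContDiffOn ℝ k g (U ∩ {x | ρ x = 0}) ∧
      DifferentiableOn ℂ g (U ∩ {x | ρ x = 0}) ∧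
      ∀ x ∈ U ∩ {x | ρ x = 0}, nsq (g x) + a ^ 2 * u x = 1 := by
  obtain ⟨r, r1, r2, ⟨w, w1, w2⟩, r3⟩ := levi_all hρ hp hg hc hL
  obtain ⟨ψ, p1, p2, p3, p4⟩ := narasimhan r1 w1 w2 r3
  have p5 : ContDiff ℝ ∞ ψ := p1.restrict_scalars ℝ
  have hn : 1 ≤ n := by
    rcases n with _ | n
    · rw [Subsingleton.elim w 0, map_zero] at w1
      exact absurd w1 zero_ne_one
    · omega
  obtain ⟨τ, t1, t2, t3, t4, t5⟩ := loc_glob (r := fun x => r (ψ x)) (r1.comp p5)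
    (by rw [p2]; exact r2 p hp) (fun h => by
      have e : HasFDerivAt (fun x => r (ψ x)) _ 0 := HasFDerivAt.comp (0 : Vs n)
        (by rw [p2]; exact (r1.differentiable (by simp) p).hasFDerivAt) (p3.restrictScalars ℝ)
      have := congrArg (fun L => L w) (e.fderiv.symm.trans h)
      simp [w1] at this) p4
  obtain ⟨R, K₀, hC⟩ := exists_Cvx t1 t2 t3 t4
  obtain ⟨K, hG⟩ := hC.geo
  obtain ⟨b, hb⟩ := hC.isCompact.exists_bound_of_continuousOn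
    (f := fun x => u (ψ x)) (hu.comp p5).continuous.continuousOn
  obtain ⟨a, ha, hab⟩ : ∃ a : ℝ, 0 < a ∧ a ^ 2 * |b| < 1 := by
    refine ⟨(|b| + 1)⁻¹, by positivity, ?_⟩
    rw [inv_pow, inv_mul_lt_iff₀ (by positivity)]
    nlinarith [abs_nonneg b]
  obtain ⟨κ, _, g, g1, g2, g3⟩ := hG.solve hn (k + 1) (e := fun x => 1 - a ^ 2 * u (ψ x))
    (contDiff_const.sub (contDiff_const.mul (hu.comp p5))) fun x hx => by
      have : a ^ 2 * u (ψ x) ≤ a ^ 2 * |b| := mul_le_mul_of_nonneg_left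
        ((le_abs_self _).trans ((hb x hx).trans (le_abs_self b))) (by positivity)
      linarith
  have q1 : ContDiffAt ℂ (k + 1 : ℕ) ψ 0 := p1.contDiffAt.of_le (by exact_mod_cast le_top)
  have q2 : HasFDerivAt ψ (ContinuousLinearEquiv.refl ℂ (Vs n) : Vs n →L[ℂ] Vs n) 0 := p3
  have q3 : ((k + 1 : ℕ) : WithTop ℕ∞) ≠ 0 := by simp
  set φ := q1.localInverse q2 q3 with hφ
  have f1 : ContDiffAt ℂ (k + 1 : ℕ) φ p := p2 ▸ q1.to_localInverse q2 q3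
  have f2 : φ p = 0 := p2 ▸ q1.localInverse_apply_image q2 q3
  have f3 : ∀ᶠ z in 𝓝 p, ψ (φ z) = z :=
    p2 ▸ (q1.hasStrictFDerivAt' q2 q3).eventually_right_inverse
  have f4 : ∀ᶠ z in 𝓝 p, τ (φ z) = r (ψ (φ z)) :=
    (show Tendsto φ (𝓝 p) (𝓝 0) from f2 ▸ f1.continuousAt.tendsto).eventually t5
  obtain ⟨U, hU, hUo, hpU⟩ := _root_.eventually_nhds_iff.1
    ((f1.eventually (by simp)).and (f3.and (f4.and (hg.eventually hρ))))
  have m0 : ∀ x ∈ U ∩ {x | ρ x = 0}, τ (φ x) = 0 := fun x hx => by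
    rw [(hU x hx.1).2.2.1, (hU x hx.1).2.1, r2 x hx.2]
  have m1 : MapsTo φ (U ∩ {x | ρ x = 0}) {x | τ x ≤ 0} := fun x hx => (m0 x hx).le
  refine ⟨U, a, κ, inferInstance, fun z => g (φ z), hUo, hpU, ha, fun x hx => (hU x hx).2.2.2,
    (g2.comp (fun x hx => ((hU x hx.1).1.restrict_scalars ℝ).contDiffWithinAt) m1).of_le
      (by exact_mod_cast Nat.le_succ k), fun x hx => ?_, fun x hx => ?_⟩
  · refine DifferentiableWithinAt.comp x (diffOn_closure (S := {x | τ x ≤ 0})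
      (isOpen_lt t1.continuous continuous_const) (fun y (hy : τ y < 0) => hy.le) g1
      (g2.of_le (by exact_mod_cast Nat.le_add_left 1 k)) (m1 hx) ?_)
      ((hU x hx.1).1.differentiableAt q3).differentiableWithinAt m1
    have := not_min (ρ := τ) (x := φ x) fun h => hC.nsq_ne (m0 x hx) (by simp [nsq, gr, h])
    rwa [m0 x hx] at this
  · rw [g3 _ (m0 x hx), (hU x hx.1).2.1]
    ring

theorem loc_main (k : ℕ) {ρ : Vs n → Fin d → ℝ} (hρ : ContDiff ℝ ∞ ρ) {p : Vs n} (hp : ρ p = 0)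
    (hg : Function.Surjective fun v : Vs n => (fderiv ℝ ρ p v, fderiv ℝ ρ p (I • v)))
    {c : Fin d → ℝ} (hc : c ≠ 0)
    (hL : ∀ v : Vs n, v ≠ 0 → fderiv ℝ ρ p v = 0 → fderiv ℝ ρ p (I • v) = 0 →
      0 < ∑ j, c j * (fderiv ℝ (fderiv ℝ ρ) p v v j +
        fderiv ℝ (fderiv ℝ ρ) p (I • v) (I • v) j)) :
    ∃ (U : Set (Vs n)) (N : ℕ) (f : Vs n → Fin N → ℂ), IsOpen U ∧ p ∈ U ∧
      ContDiffOn ℝ k f (U ∩ {z | ρ z = 0}) ∧ DifferentiableOn ℂ f (U ∩ {z | ρ z = 0}) ∧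
      (∀ z ∈ U ∩ {z | ρ z = 0}, ∑ j, ‖f z j‖ ^ 2 = 1) ∧
      (∃ π : (Fin N → ℂ) →L[ℂ] Vs n, ∀ z, π (f z) = z) ∧
      ∃ j : Fin N, ∀ V : Set (Vs n), IsOpen V → (V ∩ (U ∩ {z | ρ z = 0})).Nonempty →
        ∀ P : MvPolynomial (Option (Fin n)) ℂ, (∀ z ∈ V ∩ (U ∩ {z | ρ z = 0}),
          MvPolynomial.eval (fun o => Option.elim o (f z j) fun i => z i) P = 0) → P = 0 := by
  obtain ⟨i₀⟩ : Nonempty (Fin n) := by
    by_contra hn
    rw [not_nonempty_iff] at hn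
    obtain ⟨w, hw⟩ := hg (c, 0)
    exact hc ((congrArg Prod.fst hw).symm.trans (by rw [Subsingleton.elim w 0]; exact map_zero _))
  have h0 : ContDiff ℂ ∞ fun z : Vs n => cexp (z i₀) := by fun_prop
  obtain ⟨U, a, κ, _, g, hU, hpU, ha, hG, g1, g2, g3⟩ := loc_solve k hρ hp hg hc hL
    (u := fun z => ‖cexp (z i₀)‖ ^ 2 + nsq z) (((h0.restrict_scalars ℝ).norm_sq ℂ).add
      (ContDiff.sum fun j _ => (contDiff_apply ℝ ℂ j).norm_sq ℂ))
  have ha' : (a : ℂ) ≠ 0 := ofReal_ne_zero.2 ha.ne'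
  let Φ : Vs n → Option (Fin n ⊕ κ) → ℂ := fun z o =>
    o.elim (a * cexp (z i₀)) (Sum.elim (fun i => a * z i) (g z))
  let e := Fintype.equivFin (Option (Fin n ⊕ κ))
  refine ⟨U, _, fun z j => Φ z (e.symm j), hU, hpU, contDiffOn_pi.2 fun j => ?_,
    differentiableOn_pi.2 fun j => ?_, fun z hz => ?_, ⟨ContinuousLinearMap.pi fun i =>
      (a : ℂ)⁻¹ • ContinuousLinearMap.proj (e (some (Sum.inl i))), fun z => funext fun i => ?_⟩,
    e none, fun V hV ⟨x, hx⟩ P hP => ?_⟩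
  · rcases e.symm j with _ | i | i
    · exact (contDiff_const.mul ((h0.restrict_scalars ℝ).of_le
        (by exact_mod_cast le_top))).contDiffOn
    · exact (contDiff_const.mul (contDiff_apply ℝ ℂ i)).contDiffOn
    · exact contDiffOn_pi.1 g1 i
  · rcases e.symm j with _ | i | i
    · exact ((h0.differentiable (by simp)).const_mul _).differentiableOn
    · exact ((differentiable_apply i).const_mul _).differentiableOn
    · exact differentiableOn_pi.1 g2 i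
  · rw [e.symm.sum_comp (fun o => ‖Φ z o‖ ^ 2), Fintype.sum_option, Fintype.sum_sum_type,
      ← g3 z hz]
    simp only [Φ, Option.elim, Sum.elim_inl, Sum.elim_inr, norm_mul, mul_pow, norm_real,
      Real.norm_eq_abs, sq_abs, nsq, ← Finset.mul_sum]
    ring
  · simp [Φ, ha']
  · refine gen_transc hρ (hV.inter hU) (fun y hy => hG y hy.2) ⟨hx.1, hx.2.1⟩ hx.2.2 i₀ ha' P
      fun y hy hy0 => ?_
    have := hP y ⟨hy.1, hy.2, hy0⟩
    simp only [Equiv.symm_apply_apply] at this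
    exact this

end Pool.Agent.Lib.MP_601e9e_an.Cv
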