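import Pool.Agent.Lib.MP_601e9e_an.Cv.RealPt
import Pool.Agent.Lib.MP_601e9e_an.Trans

/-!
Transcendence on open pieces of the boundary.
-/

set_option autoImplicit false

open Complex Metric Set ComplexConjugate
open scoped ContDiff

namespace Pool.Agent.Lib.MP_601e9e_an.Cv

variable {n m : ℕ} {ρ : Vs n → ℝ} {R K σ : ℝ}

theorem Geo.entire_zero (h : Geo ρ R K) {Φ : Vs n → ℂ} (hΦ : Differentiable ℂ Φ) {U : Set (Vs n)}
    (hU : IsOpen U) (hne : (U ∩ {x | ρ x = 0}).Nonempty)
    (h0 : ∀ x ∈ U ∩ {x | ρ x = 0}, Φ x = 0) (X : Vs n) : Φ X = 0 := by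
  obtain ⟨p, hpU, hp⟩ := hne
  obtain ⟨ε, hε, hb⟩ := Metric.isOpen_iff.1 hU p hpU
  obtain ⟨C, hC, hr⟩ := h.real_pt
  obtain ⟨σ₀, hσ₀, hr⟩ := hr 1 le_rfl
  have hC0 : 0 < C := one_pos.trans_le hC
  obtain ⟨σ, hσ, hσ1, hσ2⟩ : ∃ σ : ℝ, 0 < σ ∧ σ ≤ σ₀ ∧ σ * C < ε := by
    refine ⟨min σ₀ (ε / (2 * C)), lt_min hσ₀ (by positivity), min_le_left _ _, ?_⟩
    calc min σ₀ (ε / (2 * C)) * C ≤ ε / (2 * C) * C :=
          mul_le_mul_of_nonneg_right (min_le_right _ _) hC0.le
      _ = ε / 2 := by field_simp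
      _ < ε := half_lt_self hε
  have h1 : ∀ v : Vs n, ‖v‖ ≤ 1 → ∀ w : ℂ, Φ (ch ρ σ p (v, w)) = 0 := by
    intro v hv w
    have hd : Differentiable ℂ fun w : ℂ => Φ (ch ρ σ p (v, w)) :=
      hΦ.comp ((differentiable_ch p).comp (by fun_prop))
    have ha : AnalyticOnNhd ℂ (fun w : ℂ => Φ (ch ρ σ p (v, w))) univ :=
      analyticOnNhd_univ_iff_differentiable.2 hd
    have hZ : Icc (-1 : ℝ) 1 ⊆
        re '' {w : ℂ | w ∈ closedBall (0 : ℂ) C ∧ Φ (ch ρ σ p (v, w)) = 0} := by
      intro s hs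
      obtain ⟨x, hx, e, hxC⟩ := hr σ p (v, (s : ℂ)) hσ hσ1 hp (by
        rw [Prod.norm_def, max_le_iff, norm_real, Real.norm_eq_abs, abs_le]
        exact ⟨hv, hs⟩)
      rw [one_pow, mul_one] at hxC
      have e1 : pj (gr ρ p) (co ρ σ p x).1 = pj (gr ρ p) v := congrArg Prod.fst e
      have e2 : (((co ρ σ p x).2.re : ℝ) : ℂ) = (((s : ℂ).re : ℝ) : ℂ) := congrArg Prod.snd e
      have e3 : ch ρ σ p (v, (co ρ σ p x).2) = x := by
        conv_rhs => rw [← ch_co (ρ := ρ) hσ.ne' p x]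
        rw [ch, ch, e1]
      refine ⟨(co ρ σ p x).2, ⟨mem_closedBall_zero_iff.2 ((norm_snd_le _).trans hxC), ?_⟩,
        by simpa using ofReal_injective e2⟩
      rw [e3]
      refine h0 x ⟨hb ?_, hx⟩
      have h2 := (norm_fst_le _).trans hxC
      rw [norm_co_fst hσ, div_le_iff₀ hσ] at h2
      rw [mem_ball, dist_eq_norm]
      linarith
    have hinf : {w : ℂ | w ∈ closedBall (0 : ℂ) C ∧ Φ (ch ρ σ p (v, w)) = 0}.Infinite :=
      Set.Infinite.of_image re ((Set.Icc_infinite (by norm_num)).mono hZ)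
    obtain ⟨z, -, hz⟩ := hinf.exists_accPt_of_subset_isCompact (isCompact_closedBall (0 : ℂ) C)
      fun w hw => hw.1
    exact ha.eqOn_zero_of_preconnected_of_frequently_eq_zero isPreconnected_univ (mem_univ z)
      ((accPt_iff_frequently_nhdsNE.1 hz).mono fun w hw => hw.2) (mem_univ w)
  have hd : Differentiable ℂ fun u : ℂ =>
      Φ (ch ρ σ p (u • (co ρ σ p X).1, (co ρ σ p X).2)) :=
    hΦ.comp ((differentiable_ch p).comp (by fun_prop))
  have hc : Continuous fun t : ℝ => ‖(t : ℂ) • (co ρ σ p X).1‖ := by fun_prop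
  have he : ∀ᶠ t : ℝ in nhds 0, ‖(t : ℂ) • (co ρ σ p X).1‖ < 1 :=
    hc.continuousAt.eventually_lt continuousAt_const (by simp)
  have := trans_line hd (he.mono fun t ht => h1 _ ht.le _) 1
  rwa [one_smul, Prod.mk.eta, ch_co hσ.ne'] at this

theorem Geo.transcendental (h : Geo ρ R K) (j : Fin n) {c : ℂ} (hc : c ≠ 0) {U : Set (Vs n)}
    (hU : IsOpen U) (hne : (U ∩ {x | ρ x = 0}).Nonempty) (P : MvPolynomial (Option (Fin n)) ℂ)
    (h0 : ∀ x ∈ U ∩ {x | ρ x = 0},
      MvPolynomial.eval (fun o => o.elim (c * cexp (x j)) fun i => x i) P = 0) : P = 0 := by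
  have hΦ := h.entire_zero (trans_diff
    (fun (o : Option (Fin n)) (Z : Vs n) => o.elim (c * cexp (Z j)) fun i => Z i) (by
      rintro (_ | i)
      · exact (differentiable_apply j).cexp.const_mul c
      · exact differentiable_apply i) P) hU hne h0
  refine MvPolynomial.funext_set (fun _ => ({0} : Set ℂ)ᶜ)
    (fun _ => (Set.toFinite _).infinite_compl) fun x hx => ?_
  have hx0 : x none ≠ 0 := fun e => hx none (mem_univ _) e
  have hc0 : x none / c ≠ 0 := div_ne_zero hx0 hc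
  let g : Option (Fin n) → Polynomial ℂ := fun o =>
    o.elim (Polynomial.C (x none)) fun i =>
      if i = j then Polynomial.X else Polynomial.C (x (some i))
  have hR : MvPolynomial.aeval g P = 0 := by
    refine Polynomial.eq_zero_of_infinite_isRoot _ (Set.infinite_of_injective_forall_mem
      (f := fun m : ℕ => log (x none / c) + m * (2 * Real.pi * I)) (fun m m' e => ?_) fun m => ?_)
    · exact_mod_cast mul_right_cancel₀ two_pi_I_ne_zero (add_left_cancel e)
    · have := hΦ fun i => if i = j then log (x none / c) + m * (2 * Real.pi * I) else x (some i)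
      rw [mem_ofPred_eq, Polynomial.IsRoot.def, trans_eval, ← this]
      congr 2
      funext o
      rcases o with _ | i
      · simp only [g, Option.elim, if_true, exp_add, exp_log hc0, exp_nat_mul_two_pi_mul_I,
          Polynomial.eval_C, mul_one]
        rw [mul_div_cancel₀ _ hc]
      · simp only [g, Option.elim]
        split_ifs <;> simp
  have := trans_eval g P (x (some j))
  rw [hR, Polynomial.eval_zero] at this
  rw [map_zero, this]
  congr 2
  funext o
  rcases o with _ | i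
  · simp only [g, Option.elim, Polynomial.eval_C]
  · simp only [g, Option.elim]
    split_ifs with hi
    · simp [hi]
    · simp

end Pool.Agent.Lib.MP_601e9e_an.Cv
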