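import Pool.Agent.Lib.MP_601e9e_an.Cv.Iter2
import Pool.Agent.Lib.MP_601e9e_an.Cv.Geo0
import Pool.Agent.Lib.MP_601e9e_an.Cv.Geo1
import Pool.Agent.Lib.MP_601e9e_an.Cv.Trans2

/-!
Completion of an entire map to a map with prescribed length on the boundary.
-/

set_option autoImplicit false

open Complex Metric Set ComplexConjugate
open scoped ContDiff

namespace Pool.Agent.Lib.MP_601e9e_an.Cv

variable {n m : ℕ} {ρ : Vs n → ℝ} {R K σ : ℝ}

/-- Every small multiple of an entire map `H` can be completed. -/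
theorem Geo.complete (h : Geo ρ R K) (hn : 1 ≤ n) (k : ℕ) {e : Vs n → ℝ} (he : ContDiff ℝ ∞ e)
    (h0 : ∀ x, ρ x = 0 → 0 < e x) {ι : Type} [Fintype ι] {H : Vs n → ι → ℂ}
    (hH : ContDiff ℂ ∞ H) : ∃ (N : ℕ) (c : ℂ) (j : ι → Fin N)
      (f : Vs n → EuclideanSpace ℂ (Fin N)), c ≠ 0 ∧ DifferentiableOn ℂ f {x | ρ x < 0} ∧
        ContDiffOn ℝ k f {x | ρ x ≤ 0} ∧ (∀ x, ρ x = 0 → ‖f x‖ ^ 2 = e x) ∧
        ∀ x i, f x (j i) = c * H x i := by
  have hHr : ContDiff ℝ ∞ H := hH.restrict_scalars ℝ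
  have hq : ContDiff ℝ ∞ fun x => nsq (H x) :=
    ContDiff.sum fun i _ => (contDiff_pi.1 hHr i).norm_sq ℂ
  obtain ⟨δ, hδ, hδe⟩ := h.isCompact.exists_forall_le' he.continuous.continuousOn
    (a := 0) fun x hx => h0 x hx
  obtain ⟨B, hB⟩ := h.isCompact.exists_bound_of_continuousOn hq.continuous.continuousOn
  have hB1 : 0 < |B| + 1 := by positivity
  obtain ⟨c, hc0, hc⟩ : ∃ c : ℝ, 0 < c ∧ c ^ 2 * (|B| + 1) = δ :=
    ⟨√(δ / (|B| + 1)), Real.sqrt_pos.2 (by positivity), by
      rw [Real.sq_sqrt (by positivity), div_mul_cancel₀ _ hB1.ne']⟩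
  obtain ⟨κ, _, g, hg1, hg2, hg3⟩ := h.solve hn k (e := fun x => e x - c ^ 2 * nsq (H x))
    (he.sub (contDiff_const.mul hq)) fun x hx => by
      have h1 := (le_abs_self _).trans ((hB x hx).trans (le_abs_self B))
      have h2 := hδe x hx
      have h3 : 0 < c ^ 2 := by positivity
      nlinarith
  let Φ : Vs n → ι ⊕ κ → ℂ := fun x => Sum.elim (fun i => c * H x i) (g x)
  let q := Fintype.equivFin (ι ⊕ κ)
  refine ⟨_, c, fun i => q (Sum.inl i), fun x => WithLp.toLp 2 fun j => Φ x (q.symm j),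
    ofReal_ne_zero.2 hc0.ne', ?_, ?_, fun x hx => ?_, fun x i => ?_⟩
  · refine differentiableOn_euclidean.2 fun j => ?_
    change DifferentiableOn ℂ (fun x => Φ x (q.symm j)) _
    rcases q.symm j with i | i
    · exact (((contDiff_pi.1 hH i).differentiable (by simp)).const_mul _).differentiableOn
    · exact differentiableOn_pi.1 hg1 i
  · refine (contDiffOn_piLp 2).2 fun j => ?_
    change ContDiffOn ℝ k (fun x => Φ x (q.symm j)) _
    rcases q.symm j with i | i
    · exact ((contDiff_const.mul (contDiff_pi.1 hHr i)).of_le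
        (by exact_mod_cast le_top)).contDiffOn
    · exact contDiffOn_pi.1 hg2 i
  · rw [EuclideanSpace.norm_sq_eq]
    change ∑ j, ‖Φ x (q.symm j)‖ ^ 2 = _
    rw [q.symm.sum_comp (fun a => ‖Φ x a‖ ^ 2), Fintype.sum_sum_type]
    have h1 := hg3 x hx
    simp only [nsq] at h1
    simp only [Φ, Sum.elim_inl, Sum.elim_inr, norm_mul, mul_pow, norm_real, Real.norm_eq_abs,
      sq_abs, ← Finset.mul_sum]
    linarith
  · change Φ x (q.symm (q (Sum.inl i))) = _
    rw [q.symm_apply_apply]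
    rfl

/-- second derivative of a composition with a linear map -/
theorem hess_comp {E F : Type} [NormedAddCommGroup E] [NormedSpace ℝ E] [NormedAddCommGroup F]
    [NormedSpace ℝ F] {f : F → ℝ} (hf : ContDiff ℝ ∞ f) (A : E →L[ℝ] F) (x v w : E) :
    fderiv ℝ (fderiv ℝ fun y => f (A y)) x v w = fderiv ℝ (fderiv ℝ f) (A x) (A v) (A w) := by
  have h1 : (fderiv ℝ fun y => f (A y)) = fun y => (fderiv ℝ f (A y)).comp A := by
    funext y
    exact ((hf.differentiable (by simp) (A y)).hasFDerivAt.comp y A.hasFDerivAt).fderiv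
  have h2 : DifferentiableAt ℝ (fderiv ℝ f) (A x) :=
    (hf.fderiv_right (m := ∞) (by simp)).differentiable (by simp) _
  have h3 : HasFDerivAt (fun y => (fderiv ℝ f (A y)).comp A) _ x :=
    (h2.hasFDerivAt.comp x A.hasFDerivAt).clm_comp (hasFDerivAt_const A x)
  rw [h1, h3.fderiv]
  simp

/-- the strict maximum principle for a map with a left inverse -/
theorem strict_max {E F : Type} [NormedAddCommGroup E] [NormedSpace ℂ E] [Nontrivial E]
    [NormedAddCommGroup F] [NormedSpace ℂ F] [StrictConvexSpace ℝ F] {r : E → ℝ} (hr : Continuous r)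
    (hb : Bornology.IsBounded {x | r x ≤ 0}) {f : E → F} (hd : DifferentiableOn ℂ f {x | r x < 0})
    (hc : ContinuousOn f {x | r x ≤ 0}) (hi : InjOn f {x | r x ≤ 0}) {c : ℝ}
    (h : ∀ x, r x = 0 → ‖f x‖ ^ 2 ≤ c) {x : E} (hx : r x < 0) : ‖f x‖ ^ 2 < c := by
  have ho : IsOpen {x | r x < 0} := isOpen_lt hr continuous_const
  have hcl := closure_lt_subset_le hr (continuous_const (y := (0 : ℝ)))
  have hle : ∀ y, r y < 0 → ‖f y‖ ≤ √c := fun y hy =>
    Complex.norm_le_of_forall_mem_frontier_norm_le (U := {x | r x < 0})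
      (hb.subset fun z (hz : r z < 0) => le_of_lt hz)
      ⟨hd, hc.mono hcl⟩ (fun z hz => Real.le_sqrt_of_sq_le
        (h z (frontier_lt_subset_eq hr continuous_const hz))) (subset_closure hy)
  by_contra hcon
  have h1 : √c ≤ ‖f x‖ := Real.sqrt_le_iff.2 ⟨norm_nonneg _, not_lt.1 hcon⟩
  have hn := ho.mem_nhds hx
  have h2 := Complex.eventually_eq_of_isLocalMax_norm (f := f) (c := x)
    (by filter_upwards [hn] with z hz using hd.differentiableAt (ho.mem_nhds hz))
    (by filter_upwards [hn] with z hz using (hle z hz).trans h1)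
  have h3 : ∀ᶠ y in nhds x, y = x := by
    filter_upwards [hn, h2] with z hz h3 using hi (le_of_lt hz) hx.le h3
  have : (nhdsWithin x {x}ᶜ).NeBot := Module.punctured_nhds_neBot ℂ E x
  obtain ⟨y, h4, h5⟩ := ((h3.filter_mono nhdsWithin_le_nhds).and
    (self_mem_nhdsWithin (s := {x}ᶜ))).exists
  exact h5 h4

end Pool.Agent.Lib.MP_601e9e_an.Cv
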