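import Pool.Agent.Lib.MP_601e9e_an.Cv.Defs

/-!
Homogeneous polynomials with bounds, and the real Taylor formula.
-/

set_option autoImplicit false

open Complex Metric Set ComplexConjugate
open scoped ContDiff

namespace Pool.Agent.Lib.MP_601e9e_an.Cv

variable {n m : ℕ} {ρ : Vs n → ℝ} {R K σ : ℝ}

section
variable {V W : Type} [NormedAddCommGroup V] [NormedSpace ℝ V] [NormedAddCommGroup W]
  [NormedSpace ℝ W] {i j : ℕ} {B B' : ℝ} {Q Q' : V → ℂ}

theorem PN.congr (h : PN i B Q) (e : ∀ X, Q' X = Q X) : PN i B Q' := by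
  rw [show Q' = Q from funext e]
  exact h

theorem PN.nonneg (h : PN i B Q) : 0 ≤ B := by
  induction h with
  | const c => exact norm_nonneg c
  | mul φ _ ih => positivity
  | add _ _ ih ih' => positivity
  | mono _ hB ih => exact ih.trans hB

theorem PN.norm_le (h : PN i B Q) (X : V) : ‖Q X‖ ≤ B * ‖X‖ ^ i := by
  induction h with
  | const c => simp
  | @mul φ i B Q h ih =>
    rw [norm_mul, pow_succ']
    calc ‖φ X‖ * ‖Q X‖ ≤ (‖φ‖ * ‖X‖) * (B * ‖X‖ ^ i) :=
          mul_le_mul (φ.le_opNorm X) ih (norm_nonneg _) (by positivity)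
      _ = _ := by ring
  | add _ _ ih ih' =>
    rw [add_mul]
    exact (norm_add_le _ _).trans (add_le_add ih ih')
  | mono _ hB ih => exact ih.trans (mul_le_mul_of_nonneg_right hB (by positivity))

theorem PN.zero (i : ℕ) : PN i 0 fun _ : V => (0 : ℂ) := by
  induction i with
  | zero => simpa using PN.const (V := V) 0
  | succ i ih => simpa using PN.mul (0 : V →L[ℝ] ℂ) ih

theorem PN.smul (h : PN i B Q) (c : ℂ) : PN i (‖c‖ * B) fun X => c * Q X := by
  induction h with
  | const a => simpa using PN.const (V := V) (c * a)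
  | @mul φ i B Q h ih =>
    refine ((PN.mul φ ih).mono (le_of_eq (by ring))).congr fun X => by ring
  | add _ _ ih ih' =>
    refine ((ih.add ih').mono (le_of_eq (by ring))).congr fun X => by ring
  | mono _ hB ih => exact ih.mono (mul_le_mul_of_nonneg_left hB (norm_nonneg _))

theorem PN.sum {ι : Type} (s : Finset ι) {b : ι → ℝ} {f : ι → V → ℂ}
    (h : ∀ a ∈ s, PN i (b a) (f a)) : PN i (∑ a ∈ s, b a) fun X => ∑ a ∈ s, f a X := by
  classical
  induction s using Finset.induction_on with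
  | empty => simpa using PN.zero (V := V) i
  | insert a s ha ih =>
    simp only [Finset.sum_insert ha]
    exact (h a (Finset.mem_insert_self _ _)).add
      (ih fun a' ha' => h a' (Finset.mem_insert_of_mem ha'))

theorem PN.comp (h : PN i B Q) (T : W →L[ℝ] V) : PN i (B * ‖T‖ ^ i) fun X => Q (T X) := by
  induction h with
  | const a => simpa using PN.const (V := W) a
  | @mul φ i B Q h ih =>
    refine (PN.mul (φ.comp T) ih).mono ?_
    have := h.nonneg
    calc ‖φ.comp T‖ * (B * ‖T‖ ^ i) ≤ (‖φ‖ * ‖T‖) * (B * ‖T‖ ^ i) := by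
          gcongr
          exact φ.opNorm_comp_le T
      _ = _ := by ring
  | add _ _ ih ih' => exact (ih.add ih').mono (le_of_eq (by ring))
  | mono _ hB ih => exact ih.mono (mul_le_mul_of_nonneg_right hB (by positivity))

theorem PN.mul' (h : PN i B Q) (h' : PN j B' Q') : PN (i + j) (B * B') fun X => Q X * Q' X := by
  induction h with
  | const a => simpa using h'.smul a
  | @mul φ i B Q h ih =>
    rw [show i + 1 + j = i + j + 1 by ring]
    exact ((PN.mul φ ih).mono (le_of_eq (by ring))).congr fun X => by ring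
  | add _ _ ih ih' => exact ((ih.add ih').mono (le_of_eq (by ring))).congr fun X => by ring
  | mono _ hB ih => exact ih.mono (mul_le_mul_of_nonneg_right hB h'.nonneg)

theorem PN.div (h : PN i B Q) (s : V →L[ℝ] ℝ) (e : V) {D : ℝ} (hD : 1 ≤ D) (he : ‖e‖ ≤ D)
    (hT : ∀ X, ‖X - s X • e‖ ≤ D * ‖X‖) :
    ∃ Q₁ : V → ℂ, PN (i - 1) (i * D ^ i * B) Q₁ ∧ ∀ X, Q X - Q (X - s X • e) = s X * Q₁ X := by
  let T : V →L[ℝ] V := ContinuousLinearMap.id ℝ V - s.smulRight e
  have hTa : ∀ X, T X = X - s X • e := fun X => rfl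
  have hTn : ‖T‖ ≤ D := ContinuousLinearMap.opNorm_le_bound _ (by linarith) hT
  induction h with
  | const a => exact ⟨fun _ => 0, by simpa using PN.zero (V := V) 0, fun X => by simp⟩
  | @mul φ i B Q h ih =>
    obtain ⟨Q₁, h1, h2⟩ := ih
    have hB := h.nonneg
    have h3 := (h.comp T).smul (φ e)
    have h4 : ‖φ e‖ * (B * ‖T‖ ^ i) ≤ D ^ (i + 1) * (‖φ‖ * B) := by
      calc ‖φ e‖ * (B * ‖T‖ ^ i) ≤ (‖φ‖ * D) * (B * D ^ i) := by
            gcongr
            exact (φ.le_opNorm e).trans (by gcongr)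
        _ = _ := by ring
    rcases Nat.eq_zero_or_pos i with rfl | hi
    · refine ⟨fun X => φ e * Q (T X), h3.mono (by simpa using h4), fun X => ?_⟩
      have h5 : Q₁ X = 0 := by simpa using h1.norm_le X
      have h6 := h2 X
      rw [h5, mul_zero] at h6
      simp only [map_sub, map_smul, hTa, real_smul]
      linear_combination φ X * h6
    · obtain ⟨i, rfl⟩ : ∃ j, i = j + 1 := ⟨i - 1, by omega⟩
      refine ⟨fun X => φ X * Q₁ X + φ e * Q (T X), ((PN.mul φ h1).add h3).mono ?_, fun X => ?_⟩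
      · have h5 : D ^ (i + 1) ≤ D ^ (i + 1 + 1) := pow_le_pow_right₀ hD (by omega)
        have h6 : ‖φ‖ * (((i + 1 : ℕ) : ℝ) * D ^ (i + 1) * B) ≤
            ‖φ‖ * (((i + 1 : ℕ) : ℝ) * D ^ (i + 1 + 1) * B) := by gcongr
        push_cast at h6 ⊢
        linarith
      · simp only [map_sub, map_smul, hTa, real_smul]
        linear_combination φ X * h2 X
  | add _ _ ih ih' =>
    obtain ⟨Q₁, h1, h2⟩ := ih
    obtain ⟨Q₂, h3, h4⟩ := ih'
    exact ⟨fun X => Q₁ X + Q₂ X, (h1.add h3).mono (le_of_eq (by ring)), fun X => by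
      linear_combination h2 X + h4 X⟩
  | mono _ hB ih =>
    obtain ⟨Q₁, h1, h2⟩ := ih
    exact ⟨Q₁, h1.mono (mul_le_mul_of_nonneg_left hB (by positivity)), h2⟩

end

/-- the real coordinates -/
noncomputable def rc (a : Fin n × Bool) : Vs n →L[ℝ] ℂ :=
  ofRealCLM.comp ((if a.2 then reCLM else imCLM).comp (ContinuousLinearMap.proj a.1))

/-- the real basis -/
noncomputable def rb (a : Fin n × Bool) : Vs n := Pi.single a.1 (if a.2 then 1 else I)

theorem norm_rc (a : Fin n × Bool) : ‖rc a‖ ≤ 1 := by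
  refine ContinuousLinearMap.opNorm_le_bound _ zero_le_one fun v => ?_
  have := norm_le_pi_norm v a.1
  rcases a with ⟨j, _ | _⟩
  · simpa [rc] using (abs_im_le_norm (v j)).trans this
  · simpa [rc] using (abs_re_le_norm (v j)).trans this

theorem norm_rb (a : Fin n × Bool) : ‖rb a‖ = 1 := by
  rcases a with ⟨j, _ | _⟩ <;> simp [rb, Pi.norm_single]

theorem sum_rb (v : Vs n) : v = ∑ a : Fin n × Bool, (rc a v).re • rb a := by
  ext i
  simp only [Fintype.sum_prod_type, Fintype.sum_bool, Finset.sum_apply, Pi.add_apply,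
    Pi.smul_apply, rb, rc, Pi.single_apply]
  rw [Finset.sum_eq_single i (fun j _ hj => by simp [Ne.symm hj]) (by simp)]
  simp

theorem rc_re (a : Fin n × Bool) (v : Vs n) : (((rc a v).re : ℝ) : ℂ) = rc a v := by
  simp [rc]

theorem PN.of_multilinear {i : ℕ} (A : ContinuousMultilinearMap ℝ (fun _ : Fin i => Vs n) ℝ) :
    PN i ((2 * n) ^ i * ‖A‖) fun v : Vs n => (A (fun _ => v) : ℂ) := by
  induction i with
  | zero =>
    have h := PN.const (V := Vs n) (A 0 : ℂ)
    refine (h.mono ?_).congr fun v => ?_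
    · simp only [pow_zero, one_mul, norm_real]
      simpa using A.le_opNorm 0
    · congr 2
      exact Subsingleton.elim _ _
  | succ i ih =>
    have h := PN.sum (i := i + 1) Finset.univ fun (a : Fin n × Bool) _ =>
      PN.mul (rc a) (ih (A.curryLeft (rb a)))
    refine (h.mono ?_).congr fun v => ?_
    · have h1 : ∀ a : Fin n × Bool, ‖rc a‖ * ((2 * n) ^ i * ‖A.curryLeft (rb a)‖) ≤
          (2 * n) ^ i * ‖A‖ := fun a => by
        have h2 : ‖A.curryLeft (rb a)‖ ≤ ‖A‖ := by
          have := A.curryLeft.le_opNorm (rb a)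
          rwa [norm_rb, mul_one, ContinuousMultilinearMap.curryLeft_norm] at this
        calc ‖rc a‖ * ((2 * n) ^ i * ‖A.curryLeft (rb a)‖) ≤ 1 * ((2 * n) ^ i * ‖A‖) := by
              gcongr
              exact norm_rc a
          _ = _ := one_mul _
      refine (Finset.sum_le_sum fun a _ => h1 a).trans (le_of_eq ?_)
      simp [pow_succ]
      ring
    · have e : A (fun _ => v) = A.curryLeft v fun _ => v := by
        rw [ContinuousMultilinearMap.curryLeft_apply]
        congr 1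
        funext k
        refine Fin.cases rfl (fun _ => rfl) k
      rw [e]
      conv_lhs => arg 1; arg 1; rw [sum_rb v]
      simp only [map_sum, map_smul, sum_apply, smul_apply,
        smul_eq_mul, ofReal_sum, ofReal_mul, rc_re]

theorem taylor_PN {f : Vs n → ℝ} (hf : ContDiff ℝ ∞ f) (M : ℕ) (R : ℝ) : ∃ C : ℝ, 0 ≤ C ∧
    ∀ p, ‖p‖ ≤ R → ∃ P : ℕ → Vs n → ℂ, (∀ i ≤ M, PN i C (P i)) ∧ (∀ v, P 0 v = f p) ∧
      (∀ v, P 1 v = fderiv ℝ f p v) ∧ ∀ v, ‖v‖ ≤ 2 * R →
        ‖(f (p + v) : ℂ) - ∑ i ∈ Finset.range (M + 1), P i v‖ ≤ C * ‖v‖ ^ (M + 1) := by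
  have hb : ∀ i : ℕ, ∃ C : ℝ, 0 ≤ C ∧ ∀ x : Vs n, ‖x‖ ≤ 3 * R → ‖iteratedFDeriv ℝ i f x‖ ≤ C :=
    fun i => by
      obtain ⟨C, hC⟩ := (isCompact_closedBall (0 : Vs n) (3 * R)).exists_bound_of_continuousOn
        (hf.continuous_iteratedFDeriv (m := i) (by exact_mod_cast le_top)).continuousOn
      exact ⟨max C 0, le_max_right _ _, fun x hx =>
        (hC x (mem_closedBall_zero_iff.2 hx)).trans (le_max_left _ _)⟩
  choose C hC0 hC using hb
  have hfac : ∀ i : ℕ, ‖((i.factorial : ℝ)⁻¹ : ℝ)‖ ≤ 1 := fun i => by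
    rw [norm_inv, Real.norm_natCast]
    exact inv_le_one_of_one_le₀ (by exact_mod_cast Nat.factorial_pos i)
  have hnn : ∀ i ∈ Finset.range (M + 1), (0 : ℝ) ≤ (2 * n) ^ i * C i := fun i _ => by
    have := hC0 i
    positivity
  have hS := Finset.sum_nonneg hnn
  refine ⟨∑ i ∈ Finset.range (M + 1), (2 * n) ^ i * C i + C (M + 1),
    add_nonneg hS (hC0 _), fun p hp => ?_⟩
  have hR : 0 ≤ R := (norm_nonneg _).trans hp
  refine ⟨fun i v => (((i.factorial : ℝ)⁻¹ : ℝ) : ℂ) * (iteratedFDeriv ℝ i f p (fun _ => v) : ℝ),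
    fun i hi => ((PN.of_multilinear _).smul _).mono ?_, fun v => by simp, fun v => by simp,
    fun v hv => ?_⟩
  · have h1 := Finset.single_le_sum hnn (Finset.mem_range.2 (Nat.lt_succ_of_le hi))
    have h2 := hC i p (by linarith)
    rw [norm_real]
    calc ‖((i.factorial : ℝ)⁻¹ : ℝ)‖ * ((2 * n) ^ i * ‖iteratedFDeriv ℝ i f p‖)
        ≤ 1 * ((2 * n) ^ i * C i) := by
          gcongr
          exact hfac i
      _ ≤ _ := by linarith [hC0 (M + 1)]
  · have h := map_add_eq_sum_add_integral_iteratedFDeriv (f := f) (x := p) (y := v) (n := M)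
      fun t _ => hf.contDiffAt.of_le (by exact_mod_cast le_top)
    have h1 : ‖∫ t in (0 : ℝ)..1, (1 - t) ^ M • iteratedFDeriv ℝ (M + 1) f (p + t • v)
        (fun _ => v)‖ ≤ C (M + 1) * ‖v‖ ^ (M + 1) * |1 - 0| := by
      refine intervalIntegral.norm_integral_le_of_norm_le_const fun t ht => ?_
      rw [uIoc_of_le zero_le_one] at ht
      have h2 : ‖p + t • v‖ ≤ 3 * R := by
        refine (norm_add_le _ _).trans ?_
        rw [norm_smul, Real.norm_of_nonneg ht.1.le]
        nlinarith [ht.2, norm_nonneg v]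
      have h3 := (iteratedFDeriv ℝ (M + 1) f (p + t • v)).le_opNorm fun _ => v
      rw [Finset.prod_const, Finset.card_univ, Fintype.card_fin] at h3
      have h4 : ‖(1 - t) ^ M‖ ≤ 1 := by
        rw [norm_pow, Real.norm_of_nonneg (by linarith [ht.2])]
        exact pow_le_one₀ (by linarith [ht.2]) (by linarith [ht.1])
      rw [norm_smul]
      calc _ ≤ 1 * (C (M + 1) * ‖v‖ ^ (M + 1)) := by
            gcongr
            exact h3.trans (by gcongr; exact hC _ _ h2)
        _ = _ := one_mul _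
    rw [h]
    simp only [smul_eq_mul, ofReal_add, ofReal_sum, ofReal_mul, add_sub_cancel_left] at h1 ⊢
    rw [norm_mul, norm_real, norm_real]
    have h5 := mul_nonneg hS (pow_nonneg (norm_nonneg v) (M + 1))
    calc _ ≤ 1 * (C (M + 1) * ‖v‖ ^ (M + 1) * |1 - 0|) :=
          mul_le_mul (hfac M) h1 (norm_nonneg _) zero_le_one
      _ ≤ _ := by
          simp only [sub_zero, abs_one, mul_one, one_mul, add_mul]
          linarith

end Pool.Agent.Lib.MP_601e9e_an.Cv
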