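import Pool.Agent.Lib.MP_601e9e_an.Cv.Defs

/-!
Sums of peaks.
-/

set_option autoImplicit false

open Complex Metric Set ComplexConjugate
open scoped ContDiff

namespace Pool.Agent.Lib.MP_601e9e_an.Cv

variable {n m : ℕ} {ρ : Vs n → ℝ} {R K σ : ℝ}

theorem nsq_pe {M : ℕ} {B Co : Type} [Fintype B] [Fintype Co] (A : ℕ) (c : Co)
    (nv : (Fin M → Bs n) → B → ℂ) (Y : Xs n) :
    nsq (pe A c nv Y) = ker (2 * A) Y * nsq (∑ w, num w Y • nv w) := by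
  generalize hV : (∑ w, num w Y • nv w) = V
  unfold nsq
  rw [Fintype.sum_prod_type, Finset.sum_eq_single c, Finset.mul_sum]
  · refine Finset.sum_congr rfl fun b _ => ?_
    simp only [pe, hV, if_true, ker, norm_mul, norm_inv, norm_pow, mul_pow, inv_pow, ← pow_mul,
      mul_comm A 2]
  · intro c' _ hc
    refine Finset.sum_eq_zero fun b _ => ?_
    simp [pe, hc]
  · intro h
    exact absurd (Finset.mem_univ _) h

theorem pe_diff {M : ℕ} {B Co : Type} [Fintype B] [Fintype Co] (A : ℕ) (c : Co)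
    (nv : (Fin M → Bs n) → B → ℂ) : DifferentiableOn ℂ (pe A c nv) {Y | qq Y ≠ 0} := by
  refine differentiableOn_pi.2 fun cb => ?_
  by_cases h : cb.1 = c
  · simp only [pe, h, if_true, Finset.sum_apply, Pi.smul_apply, smul_eq_mul]
    refine DifferentiableOn.mul (DifferentiableOn.inv ?_ ?_) ?_
    · exact (differentiable_qq.pow A).differentiableOn
    · exact fun X hX => pow_ne_zero _ hX
    · refine DifferentiableOn.fun_sum fun w _ => ?_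
      exact ((differentiable_num w).mul_const _).differentiableOn
  · simp only [pe, h, if_false]
    exact differentiableOn_const _

theorem peaks2_num_le (M : ℕ) (hK : 1 ≤ K) {Y : Xs n} (h1 : 1 / 2 ≤ ‖qq Y‖)
    (h2 : ‖Y‖ ≤ K * ‖qq Y‖) :
    nsq (fun w : Fin M → Bs n => num w Y) ≤ ((((n : ℝ) + 3) * K) ^ M * ‖qq Y‖ ^ M) ^ 2 := by
  have hn : (0 : ℝ) ≤ n := Nat.cast_nonneg n
  have h0 : 0 ≤ ‖qq Y‖ ^ 2 - 2 * rho Y := by
    rw [← dn_sum_bas]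
    positivity
  have a1 : ‖Y.2‖ ^ 2 ≤ (K * ‖qq Y‖) ^ 2 :=
    pow_le_pow_left₀ (norm_nonneg _) ((norm_snd_le Y).trans h2) 2
  have a2 : ‖Y.1‖ ^ 2 ≤ (K * ‖qq Y‖) ^ 2 :=
    pow_le_pow_left₀ (norm_nonneg _) ((norm_fst_le Y).trans h2) 2
  have a3 : nsq Y.1 ≤ n * (K * ‖qq Y‖) ^ 2 := by
    have := nsq_le_card Y.1
    rw [Fintype.card_fin] at this
    exact this.trans (mul_le_mul_of_nonneg_left a2 hn)
  have a4 : 1 / 2 ≤ K * ‖qq Y‖ := by nlinarith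
  have a5 : 1 ≤ 4 * (K * ‖qq Y‖) ^ 2 := by nlinarith
  have a6 : ‖qq Y‖ ^ 2 - 2 * rho Y ≤ (((n : ℝ) + 3) * K * ‖qq Y‖) ^ 2 := by
    rw [nn_eq, mul_assoc, mul_pow ((n : ℝ) + 3)]
    nlinarith [mul_nonneg hn (sq_nonneg (K * ‖qq Y‖)),
      mul_nonneg (sq_nonneg (n : ℝ)) (sq_nonneg (K * ‖qq Y‖)), sq_nonneg (K * ‖qq Y‖)]
  rw [nsq_num, ← mul_pow, ← pow_mul, mul_comm M 2, pow_mul]
  exact pow_le_pow_left₀ h0 a6 M

theorem peaks2_pe_le {M : ℕ} {B Co : Type} [Fintype B] [Fintype Co] (A' : ℕ) (c : Co) {μ : ℝ}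
    {nv : (Fin M → Bs n) → B → ℂ}
    (hn : ∀ x : (Fin M → Bs n) → ℂ, nsq (∑ w, x w • nv w) ≤ μ ^ 2 * nsq x) (hK : 1 ≤ K)
    {Y : Xs n} (h1 : 1 / 2 ≤ ‖qq Y‖) (h2 : ‖Y‖ ≤ K * ‖qq Y‖) :
    nsq (pe (M + A') c nv Y) ≤ (μ * (((n : ℝ) + 3) * K) ^ M * ker A' Y) ^ 2 := by
  rw [nsq_pe]
  have hq : 0 < ‖qq Y‖ := by linarith
  have h3 : nsq (∑ w, num w Y • nv w) ≤ μ ^ 2 * ((((n : ℝ) + 3) * K) ^ M * ‖qq Y‖ ^ M) ^ 2 :=
    (hn fun w => num w Y).trans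
      (mul_le_mul_of_nonneg_left (peaks2_num_le M hK h1 h2) (sq_nonneg μ))
  refine (mul_le_mul_of_nonneg_left h3 (ker_nonneg _ _)).trans (le_of_eq ?_)
  generalize (((n : ℝ) + 3) * K) ^ M = E
  unfold ker
  field_simp
  ring

theorem peaks2_ip_eq_zero {M : ℕ} {B Co : Type} [Fintype B] [Fintype Co] (A : ℕ) {c c' : Co}
    (h : c ≠ c') (nv nv' : (Fin M → Bs n) → B → ℂ) (Y Y' : Xs n) :
    ip (pe A c nv Y) (pe A c' nv' Y') = 0 := by
  unfold ip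
  refine Finset.sum_eq_zero fun cb _ => ?_
  by_cases h1 : cb.1 = c
  · have h2 : ¬ cb.1 = c' := fun h2 => h (h1.symm.trans h2)
    simp only [pe, h2, if_false, map_zero, mul_zero]
  · simp only [pe, h1, if_false, zero_mul]

theorem peaks2_sum_ker {Γ : Type} [Fintype Γ] {a : ℕ} (ha : 2 * n ≤ a) {Y : Γ → Xs n} {S : ℝ}
    (hY : ∀ γ, 1 / 2 ≤ ‖qq (Y γ)‖) (hS : ∑ γ, ker (2 * n) (Y γ) ≤ S) :
    ∑ γ, ker a (Y γ) ≤ 2 ^ (a - 2 * n) * S := by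
  refine (Finset.sum_le_sum fun γ _ => ker_le ha (hY γ)).trans ?_
  rw [← Finset.mul_sum]
  exact mul_le_mul_of_nonneg_left hS (by positivity)

theorem peaks2 (n M A' : ℕ) (hA : 2 * n + 1 ≤ A') {K : ℝ} (hK : 1 ≤ K) : ∃ C : ℝ, 0 < C ∧
    ∀ (Γ Co B : Type) [Fintype Γ] [Fintype Co] [Fintype B] (col : Γ → Co)
      (nv : Γ → (Fin M → Bs n) → B → ℂ) (Y : Γ → Xs n) (μ S s : ℝ), 0 ≤ μ → 0 < s →
      (∀ γ (x : (Fin M → Bs n) → ℂ), nsq (∑ w, x w • nv γ w) ≤ μ ^ 2 * nsq x) →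
      (∀ γ, 1 / 2 ≤ ‖qq (Y γ)‖ ∧ ‖Y γ‖ ≤ K * ‖qq (Y γ)‖) → ∑ γ, ker (2 * n) (Y γ) ≤ S →
      (∀ γ γ', γ ≠ γ' → col γ = col γ' → s ≤ ‖qq (Y γ)‖ ∨ s ≤ ‖qq (Y γ')‖) →
      ∑ γ, nsq (pe (M + A') (col γ) (nv γ) (Y γ)) ≤ C * μ ^ 2 * S ∧
        |nsq (∑ γ, pe (M + A') (col γ) (nv γ) (Y γ)) -
          ∑ γ, nsq (pe (M + A') (col γ) (nv γ) (Y γ))| ≤ C * μ ^ 2 * S ^ 2 / s := by
  obtain ⟨a, rfl⟩ : ∃ a, A' = a + 1 := ⟨A' - 1, by omega⟩
  have hE : 0 < (((n : ℝ) + 3) * K) ^ M := by positivity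
  have hle := fun (B Co : Type) [Fintype B] [Fintype Co] (c : Co) (μ : ℝ)
    (nv : (Fin M → Bs n) → B → ℂ) hn (Y : Xs n) h1 h2 =>
    peaks2_pe_le (M := M) (μ := μ) (nv := nv) (Y := Y) (a + 1) c hn hK h1 h2
  generalize (((n : ℝ) + 3) * K) ^ M = E at hE hle
  set C1 : ℝ := 2 ^ (2 * (a + 1) - 2 * n) with hC1
  set C2 : ℝ := 2 ^ (a - 2 * n) with hC2
  have p1 : 0 < C1 := by positivity
  have p2 : 0 < C2 := by positivity
  refine ⟨E ^ 2 * (C1 + 2 * C2 ^ 2), by positivity, ?_⟩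
  intro Γ Co B _ _ _ col nv Y μ S s hμ hs hn hY hS hsep
  have hS0 : 0 ≤ S := (Finset.sum_nonneg fun γ _ => ker_nonneg _ _).trans hS
  have s1 := peaks2_sum_ker (a := 2 * (a + 1)) (by omega) (fun γ => (hY γ).1) hS
  have s2 := peaks2_sum_ker (a := a) (by omega) (fun γ => (hY γ).1) hS
  rw [← hC1] at s1
  rw [← hC2] at s2
  have hb := fun γ => hle B Co (col γ) μ (nv γ) (hn γ) (Y γ) (hY γ).1 (hY γ).2
  constructor
  · calc ∑ γ, nsq (pe (M + (a + 1)) (col γ) (nv γ) (Y γ))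
        ≤ ∑ γ, (μ * E) ^ 2 * ker (2 * (a + 1)) (Y γ) := by
          refine Finset.sum_le_sum fun γ _ => ?_
          have := hb γ
          rwa [mul_pow, pk_ker_sq] at this
      _ = (μ * E) ^ 2 * ∑ γ, ker (2 * (a + 1)) (Y γ) := by rw [Finset.mul_sum]
      _ ≤ (μ * E) ^ 2 * (C1 * S) := mul_le_mul_of_nonneg_left s1 (sq_nonneg _)
      _ = E ^ 2 * C1 * μ ^ 2 * S := by ring
      _ ≤ _ := by
          gcongr
          exact le_add_of_nonneg_right (by positivity)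
  · have hw : (0 : ℝ) ≤ (μ * E) ^ 2 * (2 / s) := by positivity
    have key := sums_offdiag_fin (fun γ => pe (M + (a + 1)) (col γ) (nv γ) (Y γ))
      (fun γ => ker a (Y γ)) _ hw (fun γ γ' hne => ?_) Finset.univ
    · refine key.trans ?_
      have h0 : 0 ≤ ∑ γ, ker a (Y γ) := Finset.sum_nonneg fun γ _ => ker_nonneg _ _
      calc (μ * E) ^ 2 * (2 / s) * (∑ γ, ker a (Y γ)) ^ 2
          ≤ (μ * E) ^ 2 * (2 / s) * (C2 * S) ^ 2 := by gcongr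
        _ = E ^ 2 * (2 * C2 ^ 2) * μ ^ 2 * S ^ 2 / s := by ring
        _ ≤ _ := by
            gcongr
            exact le_add_of_nonneg_left p1.le
    · by_cases hc : col γ = col γ'
      · have hi := pk_inv_mul_le hs (hY γ).1 (hY γ').1 (hsep γ γ' hne hc)
        refine (norm_ip_le_mul (mul_nonneg (by positivity) (ker_nonneg _ _))
          (mul_nonneg (by positivity) (ker_nonneg _ _)) (hb γ) (hb γ')).trans ?_
        rw [pk_ker_succ, pk_ker_succ]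
        have k1 := ker_nonneg a (Y γ)
        have k2 := ker_nonneg a (Y γ')
        calc μ * E * (ker a (Y γ) * ‖qq (Y γ)‖⁻¹) * (μ * E * (ker a (Y γ') * ‖qq (Y γ')‖⁻¹))
            = (μ * E) ^ 2 * (‖qq (Y γ)‖⁻¹ * ‖qq (Y γ')‖⁻¹) * (ker a (Y γ) * ker a (Y γ')) := by
              ring
          _ ≤ _ := by gcongr
      · rw [peaks2_ip_eq_zero _ hc, norm_zero]
        exact mul_nonneg hw (mul_nonneg (ker_nonneg _ _) (ker_nonneg _ _))

theorem peaks2_ip_pe {M : ℕ} {B Co : Type} [Fintype B] [Fintype Co] (A : ℕ) (c : Co)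
    (nv : (Fin M → Bs n) → B → ℂ) (Y : Xs n) (u : Co × B → ℂ) :
    ip u (pe A c nv Y) = ip (fun b => u (c, b)) ((qq Y ^ A)⁻¹ • ∑ w, num w Y • nv w) := by
  unfold ip
  rw [Fintype.sum_prod_type, Finset.sum_eq_single c]
  · refine Finset.sum_congr rfl fun b _ => ?_
    simp only [pe, if_true, Pi.smul_apply, smul_eq_mul]
  · intro c' _ hc
    refine Finset.sum_eq_zero fun b _ => ?_
    simp only [pe, if_neg hc, map_zero, mul_zero]
  · intro h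
    exact absurd (Finset.mem_univ _) h

theorem peaks2_nsq_block {M : ℕ} {B Co : Type} [Fintype B] [Fintype Co] (A : ℕ) (c : Co)
    (nv : (Fin M → Bs n) → B → ℂ) (Y : Xs n) :
    nsq ((qq Y ^ A)⁻¹ • ∑ w, num w Y • nv w) = nsq (pe A c nv Y) := by
  have h := peaks2_ip_pe A c nv Y (pe A c nv Y)
  have e : (fun b => pe A c nv Y (c, b)) = (qq Y ^ A)⁻¹ • ∑ w, num w Y • nv w := by
    funext b
    simp only [pe, if_true, Pi.smul_apply, smul_eq_mul]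
  rw [e, ip_self, ip_self] at h
  exact_mod_cast h.symm

theorem cross2 (n M k A' : ℕ) (hA : k + 1 + 2 * n ≤ A') {K : ℝ} (hK : 1 ≤ K) : ∃ C : ℝ, 0 < C ∧
    ∀ (Γ Co B : Type) [Fintype Γ] [Fintype Co] [Fintype B] (col : Γ → Co)
      (nv : Γ → (Fin M → Bs n) → B → ℂ) (Y Z : Γ → Xs n) (μ S β : ℝ) (u : Co × B → ℂ)
      (v : Γ → Option (Idx (Lt n) k) → Co × B → ℂ), 0 ≤ μ → 0 ≤ β →
      (∀ γ (x : (Fin M → Bs n) → ℂ), nsq (∑ w, x w • nv γ w) ≤ μ ^ 2 * nsq x) →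
      (∀ γ, 1 / 2 ≤ ‖qq (Z γ)‖ ∧ ‖Z γ‖ ≤ K * ‖qq (Z γ)‖ ∧ ‖Y γ‖ ≤ 3 * K * ‖qq (Z γ)‖) →
      ∑ γ, ker (2 * n) (Z γ) ≤ S →
      (∀ γ, ‖u - v γ none - ∑ a, mon cx (wd a) (Y γ) • v γ (some a)‖ ≤ β * ‖Y γ‖ ^ (k + 1)) →
      (∀ γ a w, ip (fun b => v γ a (col γ, b)) (nv γ w) = 0) →
      ‖ip u (∑ γ, pe (M + A') (col γ) (nv γ) (Z γ))‖ ≤ C * Fintype.card B * β * μ * S := by
  obtain ⟨a, rfl⟩ : ∃ a, A' = k + 1 + a := ⟨A' - (k + 1), by omega⟩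
  have hE : 0 < (((n : ℝ) + 3) * K) ^ M := by positivity
  have hle := fun (B Co : Type) [Fintype B] [Fintype Co] (c : Co) (μ : ℝ)
    (nv : (Fin M → Bs n) → B → ℂ) hn (Y : Xs n) h1 h2 =>
    peaks2_pe_le (M := M) (μ := μ) (nv := nv) (Y := Y) (k + 1 + a) c hn hK h1 h2
  generalize (((n : ℝ) + 3) * K) ^ M = E at hE hle
  have hK0 : 0 < K := by linarith
  refine ⟨(3 * K) ^ (k + 1) * E * 2 ^ (a - 2 * n), by positivity, ?_⟩
  intro Γ Co B _ _ _ col nv Y Z μ S β u v hμ hβ hn hZ hS hjet horth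
  have s2 := peaks2_sum_ker (a := a) (by omega) (fun γ => (hZ γ).1) hS
  have hC : 0 ≤ (3 * K) ^ (k + 1) * E * Fintype.card B * β * μ := by positivity
  have key : ∀ γ, ‖ip u (pe (M + (k + 1 + a)) (col γ) (nv γ) (Z γ))‖ ≤
      (3 * K) ^ (k + 1) * E * Fintype.card B * β * μ * ker a (Z γ) := fun γ => by
    have hR := hjet γ
    set W := u - v γ none - ∑ a, mon cx (wd a) (Y γ) • v γ (some a) with hW
    have h0 : ∀ o, ip (v γ o) (pe (M + (k + 1 + a)) (col γ) (nv γ) (Z γ)) = 0 := fun o => by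
      rw [peaks2_ip_pe, ip_smul_right, cross_ip_sum_right]
      simp only [ip_smul_right, horth, mul_zero, Finset.sum_const_zero]
    have e : ip u (pe (M + (k + 1 + a)) (col γ) (nv γ) (Z γ)) =
        ip W (pe (M + (k + 1 + a)) (col γ) (nv γ) (Z γ)) := by
      rw [hW, ip_sub_left, ip_sub_left, cross_ip_sum_left]
      simp only [ip_smul_left, h0, mul_zero, Finset.sum_const_zero, sub_zero]
    rw [e, peaks2_ip_pe]
    have hq : 0 < ‖qq (Z γ)‖ := by linarith [(hZ γ).1]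
    have hYn := (hZ γ).2.2
    have hR2 : ‖W‖ ≤ β * (3 * K * ‖qq (Z γ)‖) ^ (k + 1) := hR.trans (by gcongr)
    have hR3 : ‖fun b => W (col γ, b)‖ ≤ β * (3 * K * ‖qq (Z γ)‖) ^ (k + 1) :=
      (pi_norm_le_iff_of_nonneg (by positivity)).2 fun b =>
        (norm_le_pi_norm W (col γ, b)).trans hR2
    have hc : (Fintype.card B : ℝ) ≤ (Fintype.card B : ℝ) ^ 2 := by
      exact_mod_cast Nat.le_self_pow two_ne_zero _
    have hu : nsq (fun b => W (col γ, b)) ≤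
        (Fintype.card B * (β * (3 * K * ‖qq (Z γ)‖) ^ (k + 1))) ^ 2 := by
      refine (nsq_le_card _).trans ?_
      rw [mul_pow (Fintype.card B : ℝ)]
      gcongr
    have hv := hle B Co (col γ) μ (nv γ) (hn γ) (Z γ) (hZ γ).1 (hZ γ).2.1
    rw [← peaks2_nsq_block] at hv
    have hk := ker_nonneg (k + 1 + a) (Z γ)
    refine (norm_ip_le_mul (by positivity) (by positivity) hu hv).trans (le_of_eq ?_)
    unfold ker
    rw [mul_pow (3 * K), pow_add _ (k + 1) a]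
    field_simp
  refine (sums_ip_sum u _ _).trans ((Finset.sum_le_sum fun γ _ => key γ).trans ?_)
  rw [← Finset.mul_sum]
  refine (mul_le_mul_of_nonneg_left s2 hC).trans (le_of_eq ?_)
  ring

end Pool.Agent.Lib.MP_601e9e_an.Cv
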