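import Pool.Agent.Lib.MP_601e9e_an.Cv.Defs

/-!
The sums of the kernels over a net vary slowly.
-/

set_option autoImplicit false

open Complex Metric Set ComplexConjugate
open scoped ContDiff

namespace Pool.Agent.Lib.MP_601e9e_an.Cv

variable {n m : ℕ} {ρ : Vs n → ℝ} {R K σ : ℝ}

theorem slow_pow {a b δ M : ℝ} (hb : 0 ≤ b) (hba : b ≤ a) (hM : a ≤ M) (hδ : 0 ≤ δ)
    (h : a ≤ b + δ * M) (e : ℕ) : a ^ e ≤ b ^ e + e * δ * M ^ e := by
  have ha := hb.trans hba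
  have hM0 := ha.trans hM
  induction e with
  | zero => simp
  | succ e ih =>
    have h1 : b ^ e ≤ M ^ e := pow_le_pow_left₀ hb (hba.trans hM) e
    have h2 : 0 ≤ b ^ e := by positivity
    have h3 : 0 ≤ e * δ * M ^ e := by positivity
    calc a ^ (e + 1) = a ^ e * a := pow_succ _ _
      _ ≤ (b ^ e + e * δ * M ^ e) * a := by gcongr
      _ = b ^ e * a + e * δ * M ^ e * a := by ring
      _ ≤ b ^ e * (b + δ * M) + e * δ * M ^ e * M := by gcongr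
      _ = b ^ (e + 1) + b ^ e * (δ * M) + e * δ * M ^ e * M := by ring
      _ ≤ b ^ (e + 1) + M ^ e * (δ * M) + e * δ * M ^ e * M := by gcongr
      _ = _ := by push_cast; ring

theorem slow_sq (a b : ℂ) {u v : ℝ} (ha : ‖a‖ ≤ u) (h : ‖b - a‖ ≤ v) :
    ‖a‖ ^ 2 ≤ ‖b‖ ^ 2 + 2 * u * v := by
  have h1 : ‖a‖ - ‖b‖ ≤ v := (norm_sub_norm_le a b).trans (by rwa [norm_sub_rev])
  have h2 := (norm_nonneg _).trans h
  have h3 := norm_nonneg a
  nlinarith [sq_nonneg (‖a‖ - ‖b‖), mul_le_mul_of_nonneg_left h1 h3,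
    mul_le_mul_of_nonneg_right ha h2]

theorem slow_nn_one (X : Xs n) : 1 ≤ ‖qq X‖ ^ 2 - 2 * rho X := by
  rw [nn_eq]
  linarith [sq_nonneg ‖X.2‖, nsq_nonneg X.1]

theorem slow_nn_le {X : Xs n} (h1 : 1 / 2 ≤ ‖qq X‖) (h2 : ‖X‖ ≤ K * ‖qq X‖) :
    ‖qq X‖ ^ 2 - 2 * rho X ≤ (4 + K ^ 2 * (1 + 2 * n)) * ‖qq X‖ ^ 2 := by
  rw [nn_eq]
  have a1 : ‖X.2‖ ^ 2 ≤ (K * ‖qq X‖) ^ 2 :=
    pow_le_pow_left₀ (norm_nonneg _) ((norm_snd_le X).trans h2) 2
  have a2 : ‖X.1‖ ^ 2 ≤ (K * ‖qq X‖) ^ 2 :=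
    pow_le_pow_left₀ (norm_nonneg _) ((norm_fst_le X).trans h2) 2
  have a3 := nsq_le_card X.1
  rw [Fintype.card_fin] at a3
  have a4 := mul_le_mul_of_nonneg_left a2 (Nat.cast_nonneg (α := ℝ) n)
  nlinarith

theorem slow_kk_ge (e A : ℕ) (X : Xs n) : ker (2 * A) X ≤ kk e A X :=
  le_mul_of_one_le_left (ker_nonneg _ _) (one_le_pow₀ (slow_nn_one X))

theorem slow_kk_nonneg (e A : ℕ) (X : Xs n) : 0 ≤ kk e A X :=
  (ker_nonneg _ _).trans (slow_kk_ge e A X)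

theorem slow_kk_le (e A : ℕ) {X : Xs n} (h1 : 1 / 2 ≤ ‖qq X‖) (h2 : ‖X‖ ≤ K * ‖qq X‖) :
    kk e A X ≤ (4 + K ^ 2 * (1 + 2 * n)) ^ e * (‖qq X‖ ^ (2 * e) * ker (2 * A) X) := by
  rw [kk, pow_mul, ← mul_assoc, ← mul_pow]
  exact mul_le_mul_of_nonneg_right (pow_le_pow_left₀ (zero_le_one.trans (slow_nn_one X))
    (slow_nn_le h1 h2) e) (ker_nonneg _ _)

theorem kk_perturb (n e A : ℕ) {K : ℝ} (hK : 1 ≤ K) : ∃ C η₀ : ℝ, 0 < C ∧ 0 < η₀ ∧
    ∀ (X X' : Xs n) (η : ℝ), 1 / 2 ≤ ‖qq X‖ → ‖X‖ ≤ K * ‖qq X‖ → 0 ≤ η → η ≤ η₀ →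
      ‖X' - X‖ ≤ η * ‖qq X‖ →
      kk e A X ≤ kk e A X' + C * η * (‖qq X‖ ^ (2 * e) * ker (2 * A) X) := by
  refine ⟨(e * (2 * K * (1 + 2 * n)) + 2 * A + 1) * (4 + K ^ 2 * (1 + 2 * n)) ^ e, 1 / 2,
    by positivity, by norm_num, fun X X' η h1 h2 h3 h4 h5 => ?_⟩
  have d2 : ‖X'.2 - X.2‖ ≤ η * ‖qq X‖ := (norm_snd_le (X' - X)).trans h5
  have d1 : ∀ j, ‖X'.1 j - X.1 j‖ ≤ η * ‖qq X‖ := fun j =>
    ((norm_le_pi_norm (X' - X).1 j).trans (norm_fst_le _)).trans h5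
  have dq : ‖qq X' - qq X‖ ≤ η * ‖qq X‖ := by
    rw [show qq X' - qq X = -I * (X'.2 - X.2) by simp only [qq]; ring, norm_mul, norm_neg, norm_I,
      one_mul]
    exact d2
  have q1 := abs_le.1 ((abs_norm_sub_norm_le _ _).trans dq)
  have n1 := slow_sq X.2 X'.2 ((norm_snd_le X).trans h2) d2
  have n2 : nsq X.1 ≤ nsq X'.1 + n * (2 * (K * ‖qq X‖) * (η * ‖qq X‖)) := by
    have := Finset.sum_le_sum fun j (_ : j ∈ Finset.univ) =>
      slow_sq (X.1 j) (X'.1 j) (((norm_le_pi_norm X.1 j).trans (norm_fst_le X)).trans h2) (d1 j)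
    rw [Finset.sum_add_distrib, Finset.sum_const, Finset.card_univ, Fintype.card_fin,
      nsmul_eq_mul] at this
    exact this
  have n3 := slow_nn_le h1 h2
  have n4 := slow_nn_one X
  have n5 := slow_nn_one X'
  have n6 : ‖qq X‖ ^ 2 - 2 * rho X ≤
      ‖qq X'‖ ^ 2 - 2 * rho X' + 2 * K * (1 + 2 * n) * η * ‖qq X‖ ^ 2 := by
    rw [nn_eq, nn_eq]
    nlinarith
  have k0 := ker_nonneg (2 * A) X
  have k0' := ker_nonneg (2 * A) X'
  have k1 : ker (2 * A) X ≤ ker (2 * A) X' + 2 * A * η * ker (2 * A) X := by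
    have b1 := one_add_mul_le_pow (a := -η) (by linarith) (2 * A)
    have b2 : (1 + -η) ^ (2 * A) * ker (2 * A) X ≤ ker (2 * A) X' := by
      have p0 : 0 < ‖qq X‖ := by linarith
      have p1 : 0 < ‖qq X'‖ := by nlinarith [q1.1]
      rw [ker, ker, ← div_eq_mul_inv, ← one_div, div_le_div_iff₀ (by positivity) (by positivity),
        one_mul, ← mul_pow]
      refine pow_le_pow_left₀ (mul_nonneg (by linarith) p1.le) ?_ _
      nlinarith [q1.2, mul_nonneg h3 h3]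
    push_cast at b1
    nlinarith [mul_le_mul_of_nonneg_right b1 k0]
  rw [kk, kk, pow_mul]
  generalize ‖qq X‖ ^ 2 - 2 * rho X = N at *
  generalize ‖qq X'‖ ^ 2 - 2 * rho X' = N' at *
  generalize ker (2 * A) X = k at *
  generalize ker (2 * A) X' = k' at *
  have hB : (1 : ℝ) ≤ 4 + K ^ 2 * (1 + 2 * n) := by
    have : (0 : ℝ) ≤ K ^ 2 * (1 + 2 * n) := by positivity
    linarith
  have hD : (0 : ℝ) ≤ 2 * K * (1 + 2 * n) := by positivity
  generalize 4 + K ^ 2 * (1 + 2 * (n : ℝ)) = B at *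
  generalize 2 * K * (1 + 2 * (n : ℝ)) = D at *
  have hq : 0 ≤ ‖qq X‖ ^ 2 := by positivity
  generalize ‖qq X‖ ^ 2 = Q at *
  have b0 : 0 ≤ min N N' := le_min (by linarith) (by linarith)
  have hδ : 0 ≤ D * η := by positivity
  have m1 : D * η * Q ≤ D * η * (B * Q) := by gcongr; exact le_mul_of_one_le_left hq hB
  have m0 : 0 ≤ D * η * Q := by positivity
  have p1 := slow_pow b0 (min_le_left _ _) n3 hδ
    (by rcases min_choice N N' with h | h <;> rw [h] <;> linarith) e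
  have p2 : min N N' ^ e ≤ N' ^ e := pow_le_pow_left₀ b0 (min_le_right _ _) e
  have p3 : min N N' ^ e ≤ (B * Q) ^ e := pow_le_pow_left₀ b0 ((min_le_left _ _).trans n3) e
  have p4 : 0 ≤ min N N' ^ e := by positivity
  have p5 : 0 ≤ η * ((B * Q) ^ e * k) := by positivity
  calc N ^ e * k ≤ (min N N' ^ e + e * (D * η) * (B * Q) ^ e) * k := by gcongr
    _ = min N N' ^ e * k + e * D * (η * ((B * Q) ^ e * k)) := by ring
    _ ≤ min N N' ^ e * (k' + 2 * A * η * k) + e * D * (η * ((B * Q) ^ e * k)) := by gcongr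
    _ = min N N' ^ e * k' + min N N' ^ e * (2 * A * η * k) +
        e * D * (η * ((B * Q) ^ e * k)) := by ring
    _ ≤ N' ^ e * k' + (B * Q) ^ e * (2 * A * η * k) + e * D * (η * ((B * Q) ^ e * k)) +
        η * ((B * Q) ^ e * k) := by
      have : min N N' ^ e * k' ≤ N' ^ e * k' := by gcongr
      have : min N N' ^ e * (2 * A * η * k) ≤ (B * Q) ^ e * (2 * A * η * k) := by gcongr
      linarith
    _ = _ := by rw [mul_pow]; ring

theorem Geo.slow (h : Geo ρ R K) {Cn : ℝ} (hC : 1 ≤ Cn) (e A : ℕ)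
    (hA : 2 * n + 1 + 2 * e ≤ 2 * A) : ∃ c C : ℝ, 0 < c ∧ 0 < C ∧
    ∀ (σ : ℝ) (l L : ℕ) (Γ Co : Type) [Fintype Γ] (pt : Γ → Vs n) (wt : Γ → ℝ) (col : Γ → Co),
      IsNet ρ R Cn σ l L pt wt col {x | ρ x = 0} → 0 < σ → σ ≤ 1 → 1 ≤ l → ∀ x, ρ x = 0 →
      c * (l : ℝ) ^ (2 * n) ≤ SK ρ σ e A pt wt x ∧ SK ρ σ e A pt wt x ≤ C * (l : ℝ) ^ (2 * n) ∧
        |∑ γ, wt γ * kk e A (co ρ σ (pt γ) x) / SK ρ σ e A pt wt (pt γ) - 1| ≤
          C * (1 / l + σ) := by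
  classical
  obtain ⟨C₁, η₀, hC₁, hη₀, hp⟩ := kk_perturb n e A h.K_ge
  obtain ⟨a, ha⟩ := Nat.exists_eq_add_of_le hA
  have hK := h.K_pos
  obtain ⟨B, hB, hBe⟩ : ∃ B : ℝ, 0 < B ∧ B = (4 + K ^ 2 * (1 + 2 * n)) ^ e :=
    ⟨_, by positivity, rfl⟩
  obtain ⟨W, hW, hWe⟩ : ∃ W : ℝ, 0 < W ∧ W = 2 ^ a * Cn := ⟨_, by positivity, rfl⟩
  obtain ⟨c, hc, hce⟩ : ∃ c : ℝ, 0 < c ∧ c = 1 / 2 * (Cn ^ (2 * A))⁻¹ := ⟨_, by positivity, rfl⟩
  obtain ⟨S, hS, hSe⟩ : ∃ S : ℝ, 0 < S ∧ S = 2 * B * W / η₀ + 2 * (C₁ + B) * W :=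
    ⟨_, by positivity, rfl⟩
  refine ⟨c, 2 * B * W + S * Cn * (2 + K) / c ^ 2 * B * W, hc, by positivity, ?_⟩
  intro σ l L Γ Co _ pt wt col N hσ _ hl
  have hl0 : (0 : ℝ) < l := by exact_mod_cast hl
  have hΛ : (0 : ℝ) < (l : ℝ) ^ (2 * n) := by positivity
  have half : ∀ γ x, ρ x = 0 → 1 / 2 ≤ ‖qq (co ρ σ (pt γ) x)‖ := fun γ x hx =>
    h.half_le hσ (N.mem γ) (h.mem_Ob hσ hx.le)
  have cole : ∀ γ x, ρ x = 0 → ‖co ρ σ (pt γ) x‖ ≤ K * ‖qq (co ρ σ (pt γ) x)‖ := fun γ x hx =>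
    h.cole σ _ _ hσ (N.mem γ) (h.mem_Ob hσ hx.le)
  obtain ⟨w, hw⟩ : ∃ w : Γ → Vs n → ℝ, ∀ γ x, w γ x = ‖qq (co ρ σ (pt γ) x)‖ *
    (‖qq (co ρ σ (pt γ) x)‖ ^ (2 * e) * ker (2 * A) (co ρ σ (pt γ) x)) := ⟨_, fun _ _ => rfl⟩
  have w0 : ∀ γ x, 0 ≤ w γ x := fun γ x => by
    rw [hw]
    have := ker_nonneg (2 * A) (co ρ σ (pt γ) x)
    positivity
  have wsum : ∀ x, ρ x = 0 → ∑ γ, w γ x ≤ W * (l : ℝ) ^ (2 * n) := fun x hx => by
    have u := N.up x (h.mem_Ob hσ hx.le)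
    calc ∑ γ, w γ x ≤ ∑ γ, 2 ^ a * ker (2 * n) (co ρ σ (pt γ) x) := by
          refine Finset.sum_le_sum fun γ _ => ?_
          have k1 := ker_mul (half γ x hx) (2 * n + a) (2 * e + 1)
          have k2 := ker_le (Nat.le_add_right (2 * n) a) (half γ x hx)
          rw [Nat.add_sub_cancel_left] at k2
          rw [show 2 * n + a + (2 * e + 1) = 2 * A by omega] at k1
          rw [hw]
          refine le_of_eq_of_le ?_ (k1.le.trans k2)
          ring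
      _ ≤ W * (l : ℝ) ^ (2 * n) := by
          rw [← Finset.mul_sum, hWe, mul_assoc]
          gcongr
  have w1 : ∀ γ x, ρ x = 0 → ‖qq (co ρ σ (pt γ) x)‖ ^ (2 * e) * ker (2 * A) (co ρ σ (pt γ) x) ≤
      2 * w γ x := fun γ x hx => by
    have k0 := ker_nonneg (2 * A) (co ρ σ (pt γ) x)
    have : 0 ≤ ‖qq (co ρ σ (pt γ) x)‖ ^ (2 * e) * ker (2 * A) (co ρ σ (pt γ) x) := by positivity
    rw [hw]
    nlinarith [half γ x hx]
  have w2 : ∀ γ x, ρ x = 0 → kk e A (co ρ σ (pt γ) x) ≤ 2 * B * w γ x := fun γ x hx => by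
    have := slow_kk_le e A (half γ x hx) (cole γ x hx)
    rw [← hBe] at this
    nlinarith [mul_le_mul_of_nonneg_left (w1 γ x hx) hB.le]
  have w3 : ∀ γ x, ρ x = 0 → ‖qq (co ρ σ (pt γ) x)‖ * kk e A (co ρ σ (pt γ) x) ≤ B * w γ x :=
    fun γ x hx => by
    have := slow_kk_le e A (half γ x hx) (cole γ x hx)
    rw [← hBe] at this
    rw [hw]
    nlinarith [mul_le_mul_of_nonneg_left this (norm_nonneg (qq (co ρ σ (pt γ) x)))]
  have t0 : ∀ γ x, 0 ≤ wt γ * kk e A (co ρ σ (pt γ) x) := fun γ x =>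
    mul_nonneg (N.wt0 γ) (slow_kk_nonneg e A _)
  have low : ∀ x, ρ x = 0 → c * (l : ℝ) ^ (2 * n) ≤ SK ρ σ e A pt wt x := fun x hx => by
    obtain ⟨s, hs, hs'⟩ := N.low x hx
    calc c * (l : ℝ) ^ (2 * n) ≤ ∑ _γ ∈ s, c := by
          rw [Finset.sum_const, nsmul_eq_mul, mul_comm]
          gcongr
      _ ≤ ∑ γ ∈ s, wt γ * kk e A (co ρ σ (pt γ) x) := by
          refine Finset.sum_le_sum fun γ hγ => ?_
          rw [hce]
          refine mul_le_mul (hs' γ hγ).1 (le_trans ?_ (slow_kk_ge e A _)) (by positivity) (N.wt0 γ)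
          have := half γ x hx
          have p0 : 0 < ‖qq (co ρ σ (pt γ) x)‖ := by linarith
          rw [ker]
          gcongr
          exact (hs' γ hγ).2
      _ ≤ _ := Finset.sum_le_sum_of_subset_of_nonneg (Finset.subset_univ s) fun γ _ _ => t0 γ x
  have upp : ∀ x, ρ x = 0 → SK ρ σ e A pt wt x ≤ 2 * B * W * (l : ℝ) ^ (2 * n) := fun x hx => by
    calc SK ρ σ e A pt wt x ≤ ∑ γ, 2 * B * w γ x := Finset.sum_le_sum fun γ _ =>
          (mul_le_of_le_one_left (slow_kk_nonneg e A _) (N.wt1 γ)).trans (w2 γ x hx)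
      _ ≤ _ := by
          rw [← Finset.mul_sum, mul_assoc (2 * B)]
          exact mul_le_mul_of_nonneg_left (wsum x hx) (by positivity)
  have sh : ∀ x y, ρ x = 0 → ρ y = 0 → SK ρ σ e A pt wt x ≤ SK ρ σ e A pt wt y +
      S * (Cn * (1 / l + ‖x - y‖ + σ)) * (l : ℝ) ^ (2 * n) := fun x y hx hy => by
    obtain ⟨s, b, hb, h1, h2⟩ := N.shift x y hx hy
    have hη : 0 ≤ Cn * (1 / l + ‖x - y‖ + σ) := by positivity
    generalize Cn * (1 / l + ‖x - y‖ + σ) = η at *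
    have y0 : 0 ≤ SK ρ σ e A pt wt y := Finset.sum_nonneg fun γ _ => t0 γ y
    have z1 : 0 ≤ 2 * B * W / η₀ * η * (l : ℝ) ^ (2 * n) := by positivity
    have z2 : 0 ≤ 2 * (C₁ + B) * W * η * (l : ℝ) ^ (2 * n) := by positivity
    rw [hSe, add_mul, add_mul]
    rcases le_total η₀ η with hc | hc
    · have : 2 * B * W ≤ 2 * B * W / η₀ * η := by
        rw [div_mul_eq_mul_div, le_div_iff₀ hη₀]
        gcongr
      nlinarith [upp x hx, mul_le_mul_of_nonneg_right this hΛ.le]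
    · have k : ∀ γ, wt γ * kk e A (co ρ σ (pt γ) x) ≤
          (if γ ∈ s then wt (b γ) * kk e A (co ρ σ (pt (b γ)) y) else 0) +
            2 * (C₁ + B) * η * w γ x := fun γ => by
        have k0 := slow_kk_nonneg e A (co ρ σ (pt γ) x)
        have a0 : 0 ≤ η * w γ x := mul_nonneg hη (w0 γ x)
        split_ifs with hγ
        · have a1 := hp _ _ η (half γ x hx) (cole γ x hx) hη hc (h1 γ hγ).1
          have a2 : C₁ * η * (‖qq (co ρ σ (pt γ) x)‖ ^ (2 * e) * ker (2 * A) (co ρ σ (pt γ) x)) ≤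
              C₁ * η * (2 * w γ x) := mul_le_mul_of_nonneg_left (w1 γ x hx) (by positivity)
          have a3 := mul_le_mul_of_nonneg_right (h1 γ hγ).2 k0
          have a4 := mul_le_mul_of_nonneg_left (a1.trans (add_le_add_right a2 _)) (N.wt0 (b γ))
          have a5 := mul_le_mul_of_nonneg_left (w2 γ x hx) hη
          have a6 : wt (b γ) * (C₁ * η * (2 * w γ x)) ≤ C₁ * η * (2 * w γ x) :=
            mul_le_of_le_one_left (by have := w0 γ x; positivity) (N.wt1 _)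
          nlinarith
        · have a3 := mul_le_mul_of_nonneg_right (h2 γ hγ) k0
          have a5 := mul_le_mul_of_nonneg_left (w3 γ x hx) hη
          nlinarith [mul_nonneg hC₁.le a0, mul_nonneg hB.le a0]
      have k1 : ∑ γ, (if γ ∈ s then wt (b γ) * kk e A (co ρ σ (pt (b γ)) y) else 0) ≤
          SK ρ σ e A pt wt y := by
        rw [← Finset.sum_filter, ← Finset.sum_image (g := b)
          (f := fun γ => wt γ * kk e A (co ρ σ (pt γ) y))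
          (fun γ hγ γ' hγ' => hb (Finset.mem_filter.1 hγ).2 (Finset.mem_filter.1 hγ').2)]
        exact Finset.sum_le_sum_of_subset_of_nonneg (Finset.subset_univ _) fun γ _ _ => t0 γ y
      have k2 := Finset.sum_le_sum fun γ (_ : γ ∈ Finset.univ) => k γ
      rw [Finset.sum_add_distrib, ← Finset.mul_sum] at k2
      have k3 := mul_le_mul_of_nonneg_left (wsum x hx)
        (show 0 ≤ 2 * (C₁ + B) * η by positivity)
      have k4 : SK ρ σ e A pt wt x = ∑ γ, wt γ * kk e A (co ρ σ (pt γ) x) := rfl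
      nlinarith
  intro x hx
  have hτ : 0 < 1 / (l : ℝ) + σ := by positivity
  have z3 : 0 ≤ S * Cn * (2 + K) / c ^ 2 * B * W := by positivity
  refine ⟨low x hx, (upp x hx).trans (by gcongr; linarith), ?_⟩
  have sx : 0 < SK ρ σ e A pt wt x := (mul_pos hc hΛ).trans_le (low x hx)
  have e1 : (1 : ℝ) = ∑ γ, wt γ * kk e A (co ρ σ (pt γ) x) / SK ρ σ e A pt wt x := by
    rw [← Finset.sum_div]
    exact (div_self sx.ne').symm
  have k : ∀ γ, |wt γ * kk e A (co ρ σ (pt γ) x) / SK ρ σ e A pt wt (pt γ) -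
      wt γ * kk e A (co ρ σ (pt γ) x) / SK ρ σ e A pt wt x| ≤
      S * Cn * (2 + K) / c ^ 2 * B * (1 / l + σ) / (l : ℝ) ^ (2 * n) * w γ x := fun γ => by
    have sp : 0 < SK ρ σ e A pt wt (pt γ) := (mul_pos hc hΛ).trans_le (low _ (N.mem γ))
    have d1 := h.dist_le hσ (N.mem γ) (h.mem_Ob hσ hx.le)
    have q0 := half γ x hx
    have d2 : 1 / l + ‖x - pt γ‖ + σ ≤ (2 + K) * (1 / l + σ) * ‖qq (co ρ σ (pt γ) x)‖ := by
      have l0 : (0 : ℝ) ≤ 1 / l := by positivity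
      have : 0 ≤ K * (1 / l) * ‖qq (co ρ σ (pt γ) x)‖ := by positivity
      nlinarith [mul_le_mul_of_nonneg_left q0 hτ.le]
    have d3 : |SK ρ σ e A pt wt x - SK ρ σ e A pt wt (pt γ)| ≤
        S * (Cn * ((2 + K) * (1 / l + σ) * ‖qq (co ρ σ (pt γ) x)‖)) * (l : ℝ) ^ (2 * n) := by
      have s1 := sh x (pt γ) hx (N.mem γ)
      have s2 := sh (pt γ) x (N.mem γ) hx
      rw [norm_sub_rev] at s2
      have s3 : S * (Cn * (1 / l + ‖x - pt γ‖ + σ)) * (l : ℝ) ^ (2 * n) ≤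
          S * (Cn * ((2 + K) * (1 / l + σ) * ‖qq (co ρ σ (pt γ) x)‖)) * (l : ℝ) ^ (2 * n) := by
        gcongr
      rw [abs_le]
      constructor <;> linarith
    have t1 : wt γ * kk e A (co ρ σ (pt γ) x) ≤ kk e A (co ρ σ (pt γ) x) :=
      mul_le_of_le_one_left (slow_kk_nonneg e A _) (N.wt1 γ)
    rw [div_sub_div _ _ sp.ne' sx.ne', mul_comm (SK ρ σ e A pt wt (pt γ)) (wt γ * _), ← mul_sub,
      abs_div, abs_mul, abs_of_nonneg (t0 γ x), abs_of_pos (mul_pos sp sx)]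
    have k0 := slow_kk_nonneg e A (co ρ σ (pt γ) x)
    calc _ ≤ kk e A (co ρ σ (pt γ) x) * (S * (Cn * ((2 + K) * (1 / l + σ) *
          ‖qq (co ρ σ (pt γ) x)‖)) * (l : ℝ) ^ (2 * n)) /
          (c * (l : ℝ) ^ (2 * n) * (c * (l : ℝ) ^ (2 * n))) := by
          gcongr
          · exact low _ (N.mem γ)
          · exact low x hx
      _ = S * Cn * (2 + K) / c ^ 2 * (1 / l + σ) / (l : ℝ) ^ (2 * n) *
          (‖qq (co ρ σ (pt γ) x)‖ * kk e A (co ρ σ (pt γ) x)) := by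
          field_simp
      _ ≤ S * Cn * (2 + K) / c ^ 2 * (1 / l + σ) / (l : ℝ) ^ (2 * n) * (B * w γ x) :=
          mul_le_mul_of_nonneg_left (w3 γ x hx) (by positivity)
      _ = _ := by ring
  conv_lhs => rw [e1, ← Finset.sum_sub_distrib]
  refine (Finset.abs_sum_le_sum_abs _ _).trans ((Finset.sum_le_sum fun γ _ => k γ).trans ?_)
  rw [← Finset.mul_sum]
  calc _ ≤ S * Cn * (2 + K) / c ^ 2 * B * (1 / l + σ) / (l : ℝ) ^ (2 * n) *
        (W * (l : ℝ) ^ (2 * n)) := mul_le_mul_of_nonneg_left (wsum x hx) (by positivity)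
    _ = S * Cn * (2 + K) / c ^ 2 * B * W * (1 / l + σ) := by field_simp
    _ ≤ _ := by
      gcongr
      have : 0 ≤ 2 * B * W := by positivity
      linarith

end Pool.Agent.Lib.MP_601e9e_an.Cv
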