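import Pool.Agent.Lib.MP_601e9e_an.Cv.Peaks2
import Pool.Agent.Lib.MP_601e9e_an.Cv.Slow

/-!
One step, before the choice of the parameters.
-/

set_option autoImplicit false

open Complex Metric Set ComplexConjugate
open scoped ContDiff

namespace Pool.Agent.Lib.MP_601e9e_an.Cv

variable {n m : ℕ} {ρ : Vs n → ℝ} {R K σ : ℝ}

/-- The contribution of one point of the net. -/
theorem step2_diag {M : ℕ} {B Co : Type} [Fintype B] [Fintype Co] (A : ℕ) (c : Co)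
    (nv : (Fin M → Bs n) → B → ℂ) (Y : Xs n) (ω₁ ω₂ : Idx (Lt n ⊕ Lt n) M → Fin M → Bs n)
    (hw : ∀ a (X : Xs n), mon c2 (wd a) (X, star X) = num (ω₁ a) X * conj (num (ω₂ a) X))
    (v : Idx (Lt n ⊕ Lt n) M → ℂ) {θ t r e₀ e₁ : ℝ} (ht : 0 ≤ t)
    (hn : ∀ u : (Fin M → Bs n) → ℂ, nsq (∑ w, u w • nv w) =
      θ * nsq u + t * (e₁ - 1 / 4) * ‖u fun _ => Sum.inl none‖ ^ 2 +
        (∑ a, u (ω₁ a) * conj (u (ω₂ a)) * ((t : ℂ) * v a)).re)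
    (hR : ‖(e₀ : ℂ) - e₁ - hp v Y‖ ≤ r) :
    |nsq (pe A c nv Y) - (θ * kk M A Y + (e₀ - 1 / 4) * (t * kk 0 A Y))| ≤
      r * t * ker (2 * A) Y := by
  rw [nsq_pe, hn, nsq_num, num_const]
  have e2 : (∑ a, num (ω₁ a) Y * conj (num (ω₂ a) Y) * ((t : ℂ) * v a)).re =
      t * (hp v Y).re := by
    rw [← re_ofReal_mul, hp, Finset.mul_sum]
    congr 1
    exact Finset.sum_congr rfl fun a _ => by rw [hw]; ring
  have h3 := (abs_re_le_norm _).trans hR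
  rw [sub_re, sub_re, ofReal_re, ofReal_re] at h3
  rw [e2, norm_one, one_pow, mul_one, kk, kk, pow_zero, one_mul]
  have e4 : ∀ k P T : ℝ, k * (θ * P + t * (e₁ - 1 / 4) + t * T) -
      (θ * (P * k) + (e₀ - 1 / 4) * (t * k)) = -((e₀ - e₁ - T) * t * k) := by
    intro k P T
    ring
  have hk := ker_nonneg (2 * A) Y
  rw [e4, abs_neg, abs_mul, abs_mul, abs_of_nonneg ht, abs_of_nonneg hk]
  gcongr

theorem step2_close {S t b d : ℝ} (ht : |t| ≤ b) (h : |S - 1| ≤ d) : |t * S - t| ≤ b * d := by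
  rw [show t * S - t = t * (S - 1) by ring, abs_mul]
  exact mul_le_mul ht h (abs_nonneg _) ((abs_nonneg _).trans ht)

theorem Geo.step (h : Geo ρ R K) {Cn : ℝ} (hC : 1 ≤ Cn) (Λ : ℝ) (M k : ℕ) : ∃ C : ℝ, 1 ≤ C ∧
    ∀ (σ : ℝ) (l L : ℕ) (Γ Co : Type) [Fintype Γ] [Fintype Co] (pt : Γ → Vs n) (wt : Γ → ℝ)
      (col : Γ → Co) (τ β β' : ℝ) (F : Vs n → Co × Bl n M k → ℂ) (e : Vs n → ℝ),
      IsNet ρ R Cn σ l L pt wt col {x | ρ x = 0} → 0 < σ → σ ≤ 1 → 1 ≤ l → 0 ≤ β → 0 ≤ β' →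
      τ ^ 2 ≤ 1 / 8 → (∀ x, ρ x = 0 → 1 / 2 ≤ e x ∧ e x ≤ Λ) → JE ρ M σ e (1 / C) β' →
      JF ρ R k σ F β →
      ∃ g : Vs n → Co × Bl n M k → ℂ, DifferentiableOn ℂ g (Ob ρ R σ) ∧
        (∀ X ∈ Ob ρ R σ, nsq (g X) ≤ C * (1 + (l : ℝ) ^ (2 * n + 2) / ((L : ℝ) + 1))) ∧
        (∀ X ∈ Ob ρ R σ, ∀ Ξ ∈ Ob ρ R σ,
          (∀ p, ρ p = 0 → ‖qq (co ρ σ p X)‖ ≤ 3 * ‖qq (co ρ σ p Ξ)‖) →
          ‖ip (F X) (g Ξ)‖ ≤ C * β * (l : ℝ) ^ n) ∧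
        ∀ x, ρ x = 0 → |e x - nsq (g x) - τ ^ 2| ≤
          C * (β' + 1 / l + σ + (l : ℝ) ^ (2 * n + 2) / ((L : ℝ) + 1)) := by
  classical
  have hK := h.K_ge
  obtain ⟨A', hA'⟩ : ∃ A', A' = k + M + 2 * n + 2 := ⟨_, rfl⟩
  obtain ⟨a₃, ha₃⟩ : ∃ a₃, 2 * (M + A') = a₃ + (M + 1) := ⟨M + 2 * A' - 1, by omega⟩
  obtain ⟨CP, hCP, hP⟩ := peaks2 n M A' (by omega) hK
  obtain ⟨CX, hCX, hX⟩ := cross2 n M k A' (by omega) hK
  obtain ⟨c₁, U₁, hc₁, hU₁, hs₁⟩ := h.slow hC M (M + A') (by omega)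
  obtain ⟨c₀, U₀, hc₀, hU₀, hs₀⟩ := h.slow hC 0 (M + A') (by omega)
  obtain ⟨μ₀, hμ₀⟩ : ∃ μ₀ : ℝ, μ₀ = 1 + 1 / (2 * c₁) + |Λ| / c₀ := ⟨_, rfl⟩
  have hμa : 0 < 1 / (2 * c₁) := by positivity
  have hμb : 0 ≤ |Λ| / c₀ := by positivity
  have hμ1 : 1 ≤ μ₀ := by linarith
  have hμ2 : 1 / (2 * c₁) + |Λ| / c₀ ≤ μ₀ ^ 2 := by
    have := le_self_pow₀ hμ1 two_ne_zero
    linarith
  have hCn : 0 < Cn := by linarith
  have t1 : 0 < 8 * U₁ / c₀ := by positivity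
  have t2 : 0 < CP * μ₀ ^ 2 * Cn ^ 3 := by positivity
  have t3 : 0 ≤ CX * Fintype.card (Bl n M k) * μ₀ * Cn := by positivity
  have t4 : 0 < K ^ (M + 1) * 2 ^ (a₃ - 2 * n) * Cn / c₀ := by positivity
  have t5 : 0 ≤ |Λ| * U₀ := by positivity
  obtain ⟨C, hCd⟩ : ∃ C : ℝ, C = 1 + 8 * U₁ / c₀ + CP * μ₀ ^ 2 * Cn ^ 3 +
    CX * Fintype.card (Bl n M k) * μ₀ * Cn + K ^ (M + 1) * 2 ^ (a₃ - 2 * n) * Cn / c₀ +
    U₁ + |Λ| * U₀ := ⟨_, rfl⟩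
  refine ⟨C, by linarith, ?_⟩
  intro σ l L Γ Co _ _ pt wt col τ β β' F e hnet hσ hσ1 hl hβ hβ' hτ he hJE hJF
  have hC0 : 0 < C := by linarith
  have hl1 : (1 : ℝ) ≤ l := by exact_mod_cast hl
  have hl0 : (0 : ℝ) < l := by linarith
  obtain ⟨N, hN⟩ : ∃ N : ℝ, N = (l : ℝ) ^ (2 * n) := ⟨_, rfl⟩
  have hN0 : 0 < N := by rw [hN]; positivity
  have hS₁ := hs₁ σ l L Γ Co pt wt col hnet hσ hσ1 hl
  have hS₀ := hs₀ σ l L Γ Co pt wt col hnet hσ hσ1 hl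
  have hup := hnet.up
  rw [← hN] at hS₁ hS₀ hup
  obtain ⟨S₁, hd₁⟩ : ∃ S₁ : Γ → ℝ, ∀ γ, S₁ γ = SK ρ σ M (M + A') pt wt (pt γ) :=
    ⟨_, fun _ => rfl⟩
  obtain ⟨S₀, hd₀⟩ : ∃ S₀ : Γ → ℝ, ∀ γ, S₀ γ = SK ρ σ 0 (M + A') pt wt (pt γ) :=
    ⟨_, fun _ => rfl⟩
  simp only [← hd₁] at hS₁
  simp only [← hd₀] at hS₀
  have l₁ : ∀ γ, c₁ * N ≤ S₁ γ := fun γ => by rw [hd₁]; exact (hS₁ _ (hnet.mem γ)).1
  have u₁ : ∀ γ, S₁ γ ≤ U₁ * N := fun γ => by rw [hd₁]; exact (hS₁ _ (hnet.mem γ)).2.1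
  have l₀ : ∀ γ, c₀ * N ≤ S₀ γ := fun γ => by rw [hd₀]; exact (hS₀ _ (hnet.mem γ)).1
  have p₁ : ∀ γ, 0 < S₁ γ := fun γ => lt_of_lt_of_le (by positivity) (l₁ γ)
  have p₀ : ∀ γ, 0 < S₀ γ := fun γ => lt_of_lt_of_le (by positivity) (l₀ γ)
  have hτ0 := sq_nonneg τ
  have hw0 := hnet.wt0
  have hw1 := hnet.wt1
  have ht0 : ∀ γ, 0 ≤ wt γ / S₀ γ := fun γ => div_nonneg (hw0 γ) (p₀ γ).le
  have ht1 : ∀ γ, wt γ / S₀ γ ≤ 1 / (c₀ * N) := fun γ => by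
    gcongr
    · exact hw1 γ
    · exact l₀ γ
  choose vT hvT hvR using fun γ : Γ => hJE (pt γ) (hnet.mem γ)
  choose vJ hvJ using fun γ : Γ => hJF (pt γ) (hnet.mem γ)
  choose ω₁ ω₂ hω using fun a : Idx (Lt n ⊕ Lt n) M => exists_words (wd a) (wd_length a).2
  have hθ : ∀ γ, ∑ a, ‖((wt γ / S₀ γ : ℝ) : ℂ) * vT γ a‖ ≤ (1 / 4 - τ ^ 2) * (wt γ / S₁ γ) :=
    fun γ => by
    simp only [norm_mul, norm_real, Real.norm_of_nonneg (ht0 γ)]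
    rw [← Finset.mul_sum]
    have h1 : 8 * U₁ ≤ C * c₀ := by
      rw [← div_le_iff₀ hc₀]
      linarith
    have h2 := hw0 γ
    calc wt γ / S₀ γ * ∑ a, ‖vT γ a‖ ≤ wt γ / (c₀ * N) * (1 / C) := by
          gcongr
          · exact l₀ γ
          · exact hvT γ
      _ = wt γ * (1 / (C * c₀ * N)) := by field_simp
      _ ≤ wt γ * (1 / (8 * U₁ * N)) := by gcongr
      _ = 1 / 8 * (wt γ / (U₁ * N)) := by field_simp
      _ ≤ (1 / 4 - τ ^ 2) * (wt γ / S₁ γ) := by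
          gcongr
          · linarith
          · linarith
          · exact p₁ γ
          · exact u₁ γ
  choose nv hn1 hn2 hn3 using fun γ : Γ =>
    gram (fun _ : Fin M => (Sum.inl none : Bs n)) ω₁ ω₂
      (fun a => ((wt γ / S₀ γ : ℝ) : ℂ) * vT γ a) ((1 / 4 - τ ^ 2) * (wt γ / S₁ γ))
      (wt γ / S₀ γ * (e (pt γ) - 1 / 4)) (hθ γ)
      (mul_nonneg (ht0 γ) (by linarith [(he _ (hnet.mem γ)).1]))
      (fun a b => vJ γ a (col γ, b))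
  obtain ⟨μ, hμ⟩ : ∃ μ : ℝ, μ = μ₀ / (l : ℝ) ^ n := ⟨_, rfl⟩
  have hμ0 : 0 ≤ μ := by rw [hμ]; positivity
  have hμN : μ ^ 2 * N = μ₀ ^ 2 := by
    rw [hμ, hN, div_pow, ← pow_mul, mul_comm n 2]
    field_simp
  have hμl : μ * N = μ₀ * (l : ℝ) ^ n := by
    rw [hμ, hN, two_mul, pow_add]
    field_simp
  have hn : ∀ γ (x : (Fin M → Bs n) → ℂ), nsq (∑ w, x w • nv γ w) ≤ μ ^ 2 * nsq x := by
    intro γ x
    refine (hn2 γ x).trans (mul_le_mul_of_nonneg_right ?_ (nsq_nonneg x))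
    have h0 : wt γ / S₁ γ ≤ 1 / (c₁ * N) := by
      gcongr
      · exact hw1 γ
      · exact l₁ γ
    have h0' : 0 ≤ wt γ / S₁ γ := div_nonneg (hw0 γ) (p₁ γ).le
    have h1 : (1 / 4 - τ ^ 2) * (wt γ / S₁ γ) ≤ 1 / 4 * (1 / (c₁ * N)) :=
      mul_le_mul (by linarith) h0 h0' (by norm_num)
    have h2 : wt γ / S₀ γ * (e (pt γ) - 1 / 4) ≤ 1 / (c₀ * N) * |Λ| :=
      mul_le_mul (ht1 γ) (by linarith [(he _ (hnet.mem γ)).2, le_abs_self Λ])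
        (by linarith [(he _ (hnet.mem γ)).1]) (by positivity)
    have h3 : μ ^ 2 = μ₀ ^ 2 / N := by rw [← hμN]; field_simp
    have h4 : 2 * (1 / 4 * (1 / (c₁ * N))) + 1 / (c₀ * N) * |Λ| =
        (1 / (2 * c₁) + |Λ| / c₀) / N := by
      field_simp
      ring
    have h5 : (1 / (2 * c₁) + |Λ| / c₀) / N ≤ μ₀ ^ 2 / N := by
      gcongr
    linarith
  obtain ⟨E, hE⟩ : ∃ E : ℝ, E = (l : ℝ) ^ (2 * n + 2) / ((L : ℝ) + 1) := ⟨_, rfl⟩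
  have hE0 : 0 ≤ E := by rw [hE]; positivity
  rw [← hE]
  have hq : ∀ X ∈ Ob ρ R σ, ∀ γ, 1 / 2 ≤ ‖qq (co ρ σ (pt γ) X)‖ ∧
      ‖co ρ σ (pt γ) X‖ ≤ K * ‖qq (co ρ σ (pt γ) X)‖ := fun X hXO γ =>
    ⟨h.half_le hσ (hnet.mem γ) hXO, h.cole σ _ X hσ (hnet.mem γ) hXO⟩
  have hpk : ∀ X ∈ Ob ρ R σ,
      ∑ γ, nsq (pe (M + A') (col γ) (nv γ) (co ρ σ (pt γ) X)) ≤ CP * μ₀ ^ 2 * Cn ^ 3 ∧
      |nsq (∑ γ, pe (M + A') (col γ) (nv γ) (co ρ σ (pt γ) X)) -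
        ∑ γ, nsq (pe (M + A') (col γ) (nv γ) (co ρ σ (pt γ) X))| ≤
          CP * μ₀ ^ 2 * Cn ^ 3 * E := by
    intro X hXO
    obtain ⟨h1, h2⟩ := hP Γ Co (Bl n M k) col nv (fun γ => co ρ σ (pt γ) X) μ (Cn * N)
      (((L : ℝ) + 1) / (Cn * (l : ℝ) ^ 2)) hμ0 (by positivity) hn (hq X hXO) (hup X hXO)
      fun γ γ' h1 h2 => hnet.sep γ γ' h1 h2 X hXO
    refine ⟨h1.trans ?_, h2.trans (le_of_eq ?_)⟩
    · have e1 : CP * μ ^ 2 * (Cn * N) = CP * μ₀ ^ 2 * Cn := by rw [← hμN]; ring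
      rw [e1]
      gcongr
      exact le_self_pow₀ hC (by norm_num)
    · rw [hE, pow_add, ← hN, ← hμN]
      field_simp
  refine ⟨fun X => ∑ γ, pe (M + A') (col γ) (nv γ) (co ρ σ (pt γ) X), ?_, fun X hXO => ?_,
    fun X hXO Ξ hΞ hcmp => ?_, fun x hx => ?_⟩
  · refine DifferentiableOn.fun_sum fun γ _ => ?_
    refine (pe_diff (M + A') (col γ) (nv γ)).comp (differentiable_co (pt γ)).differentiableOn
      fun X hXO h0 => ?_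
    have := (hq X hXO γ).1
    rw [h0, norm_zero] at this
    linarith
  · obtain ⟨h3, h4⟩ := hpk X hXO
    have h5 := (abs_le.1 h4).2
    have h6 : CP * μ₀ ^ 2 * Cn ^ 3 ≤ C := by linarith
    have h7 := mul_le_mul_of_nonneg_right h6 hE0
    linarith
  · have h1 := hX Γ Co (Bl n M k) col nv (fun γ => co ρ σ (pt γ) X) (fun γ => co ρ σ (pt γ) Ξ) μ
      (Cn * N) β (F X) vJ hμ0 hβ hn
      (fun γ => ⟨(hq Ξ hΞ γ).1, (hq Ξ hΞ γ).2, (hq X hXO γ).2.trans (by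
        have := mul_le_mul_of_nonneg_left (hcmp _ (hnet.mem γ)) h.K_pos.le
        linarith)⟩)
      (hup Ξ hΞ) (fun γ => hvJ γ X hXO) hn3
    refine h1.trans ?_
    have h2 : CX * Fintype.card (Bl n M k) * μ₀ * Cn ≤ C := by linarith
    calc CX * Fintype.card (Bl n M k) * β * μ * (Cn * N)
        = CX * Fintype.card (Bl n M k) * Cn * β * (μ * N) := by ring
      _ = CX * Fintype.card (Bl n M k) * μ₀ * Cn * β * (l : ℝ) ^ n := by rw [hμl]; ring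
      _ ≤ _ := by gcongr
  · have hxO : x ∈ Ob ρ R σ := h.mem_Ob hσ hx.le
    obtain ⟨-, h4⟩ := hpk x hxO
    have hd : ∀ γ, |nsq (pe (M + A') (col γ) (nv γ) (co ρ σ (pt γ) x)) -
        ((1 / 4 - τ ^ 2) * (wt γ * kk M (M + A') (co ρ σ (pt γ) x) / S₁ γ) +
          (e x - 1 / 4) * (wt γ * kk 0 (M + A') (co ρ σ (pt γ) x) / S₀ γ))| ≤
        β' * K ^ (M + 1) * 2 ^ (a₃ - 2 * n) / (c₀ * N) * ker (2 * n) (co ρ σ (pt γ) x) := by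
      intro γ
      have h1 := step2_diag (M + A') (col γ) (nv γ) (co ρ σ (pt γ) x) ω₁ ω₂ hω (vT γ) (ht0 γ)
        (hn1 γ) (hvR γ x hx)
      obtain ⟨q1, q2⟩ := hq x hxO γ
      obtain ⟨Y, hY⟩ : ∃ Y, Y = co ρ σ (pt γ) x := ⟨_, rfl⟩
      rw [← hY] at h1 q1 q2 ⊢
      have e1 : (1 / 4 - τ ^ 2) * (wt γ * kk M (M + A') Y / S₁ γ) +
          (e x - 1 / 4) * (wt γ * kk 0 (M + A') Y / S₀ γ) =
          (1 / 4 - τ ^ 2) * (wt γ / S₁ γ) * kk M (M + A') Y +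
          (e x - 1 / 4) * (wt γ / S₀ γ * kk 0 (M + A') Y) := by ring
      rw [e1]
      refine h1.trans ?_
      have h2 := ker_le (show 2 * n ≤ a₃ by omega) q1
      have h3 := ker_nonneg (a₃ + (M + 1)) Y
      rw [ha₃]
      calc β' * ‖Y‖ ^ (M + 1) * (wt γ / S₀ γ) * ker (a₃ + (M + 1)) Y
          ≤ β' * (K * ‖qq Y‖) ^ (M + 1) * (1 / (c₀ * N)) * ker (a₃ + (M + 1)) Y := by
            have a1 := ht0 γ
            have a2 := ht1 γ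
            have a3 : ‖Y‖ ^ (M + 1) ≤ (K * ‖qq Y‖) ^ (M + 1) :=
              pow_le_pow_left₀ (norm_nonneg _) q2 _
            refine mul_le_mul_of_nonneg_right (mul_le_mul ?_ a2 a1 ?_) h3
            · exact mul_le_mul_of_nonneg_left a3 hβ'
            · positivity
        _ = β' * K ^ (M + 1) / (c₀ * N) * (ker (a₃ + (M + 1)) Y * ‖qq Y‖ ^ (M + 1)) := by
            rw [mul_pow]; ring
        _ = β' * K ^ (M + 1) / (c₀ * N) * ker a₃ Y := by rw [ker_mul q1]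
        _ ≤ β' * K ^ (M + 1) / (c₀ * N) * (2 ^ (a₃ - 2 * n) * ker (2 * n) Y) := by gcongr
        _ = _ := by ring
    have hs := (Finset.abs_sum_le_sum_abs _ Finset.univ).trans
      (Finset.sum_le_sum fun γ _ => hd γ)
    rw [Finset.sum_sub_distrib, Finset.sum_add_distrib, ← Finset.mul_sum, ← Finset.mul_sum,
      ← Finset.mul_sum] at hs
    have k0 : β' * K ^ (M + 1) * 2 ^ (a₃ - 2 * n) / (c₀ * N) *
        ∑ γ, ker (2 * n) (co ρ σ (pt γ) x) ≤ C * β' := by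
      have h1 : K ^ (M + 1) * 2 ^ (a₃ - 2 * n) * Cn / c₀ ≤ C := by linarith
      calc _ ≤ β' * K ^ (M + 1) * 2 ^ (a₃ - 2 * n) / (c₀ * N) * (Cn * N) := by
            gcongr
            exact hup x hxO
        _ = K ^ (M + 1) * 2 ^ (a₃ - 2 * n) * Cn / c₀ * β' := by field_simp
        _ ≤ _ := by gcongr
    obtain ⟨b1, b2⟩ := he x hx
    have k1 := step2_close (t := 1 / 4 - τ ^ 2) (b := 1)
      (by rw [abs_le]; constructor <;> linarith) (hS₁ x hx).2.2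
    have k2 := step2_close (t := e x - 1 / 4) (b := |Λ|)
      (by rw [abs_of_nonneg (by linarith)]; linarith [le_abs_self Λ]) (hS₀ x hx).2.2
    have k3 : (U₁ + |Λ| * U₀) * (1 / l + σ) ≤ C * (1 / l + σ) := by
      gcongr
      linarith
    have h6 : CP * μ₀ ^ 2 * Cn ^ 3 ≤ C := by linarith
    have k8 := mul_le_mul_of_nonneg_right h6 hE0
    rw [abs_le] at hs k1 k2 h4 ⊢
    constructor <;> linarith [hs.1, hs.2, k1.1, k1.2, k2.1, k2.2, h4.1, h4.2]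

end Pool.Agent.Lib.MP_601e9e_an.Cv
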