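import Pool.Agent.Lib.MP_601e9e_an.Cv.PNb
import Pool.Agent.Lib.MP_601e9e_an.Trans

/-!
Polynomials written with words.
-/

set_option autoImplicit false

open Complex Metric Set ComplexConjugate
open scoped ContDiff

namespace Pool.Agent.Lib.MP_601e9e_an.Cv

variable {n m : ℕ} {ρ : Vs n → ℝ} {R K σ : ℝ}

theorem norm_star_Xs (X : Xs n) : ‖star X‖ = ‖X‖ := by simp [Prod.norm_def]

theorem norm_pair (X : Xs n) : ‖(X, star X)‖ = ‖X‖ := by
  rw [Prod.norm_def, norm_star_Xs, max_self]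

/-- a letter as a real linear map -/
noncomputable def lc (a : Lt n ⊕ Lt n) : Xs n →L[ℝ] ℂ :=
  LinearMap.mkContinuous
    { toFun := fun X => c2 a (X, star X)
      map_add' := fun X Y => by rcases a with (_ | i) | (_ | i) <;> simp [c2, cx]
      map_smul' := fun t X => by rcases a with (_ | i) | (_ | i) <;> simp [c2, cx] } 1
    fun X => by simpa [norm_pair] using norm_c2_le a (X, star X)

theorem lc_apply (a : Lt n ⊕ Lt n) (X : Xs n) : lc a X = c2 a (X, star X) := rfl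

theorem norm_lc (a : Lt n ⊕ Lt n) : ‖lc a‖ ≤ 1 :=
  LinearMap.mkContinuous_norm_le _ zero_le_one _

/-- a real linear map is a combination of the letters -/
theorem exists_letters (φ : Xs n →L[ℝ] ℂ) : ∃ c : Lt n ⊕ Lt n → ℂ, (∀ a, ‖c a‖ ≤ ‖φ‖) ∧
    ∀ X, φ X = ∑ a, c2 a (X, star X) * c a := by
  have hb : ∀ a : Lt n, ‖φ (ex a)‖ ≤ ‖φ‖ ∧ ‖φ (I • ex a)‖ ≤ ‖φ‖ := fun a => by
    have h1 := norm_ex_le a
    have h2 : ‖I • ex a‖ ≤ 1 := by rwa [norm_smul, norm_I, one_mul]
    exact ⟨φ.unit_le_opNorm _ h1, φ.unit_le_opNorm _ h2⟩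
  refine ⟨Sum.elim (fun a => (φ (ex a) - I * φ (I • ex a)) / 2)
    fun a => (φ (ex a) + I * φ (I • ex a)) / 2, ?_, fun X => ?_⟩
  · rintro (a | a)
    · have := norm_sub_le (φ (ex a)) (I * φ (I • ex a))
      rw [norm_mul, norm_I, one_mul] at this
      simp only [Sum.elim_inl, norm_div, Complex.norm_two]
      linarith [(hb a).1, (hb a).2]
    · have := norm_add_le (φ (ex a)) (I * φ (I • ex a))
      rw [norm_mul, norm_I, one_mul] at this
      simp only [Sum.elim_inr, norm_div, Complex.norm_two]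
      linarith [(hb a).1, (hb a).2]
  · conv_lhs => rw [← sum_cx X, map_sum]
    rw [Fintype.sum_sum_type, ← Finset.sum_add_distrib]
    refine Finset.sum_congr rfl fun a _ => ?_
    have e : cx a X • ex a = (cx a X).re • ex a + (cx a X).im • (I • ex a) := by
      conv_lhs => rw [← re_add_im (cx a X), add_smul, mul_smul]
      rfl
    rw [e, map_add, map_smul, map_smul]
    simp only [c2, Sum.elim_inl, Sum.elim_inr, dn_cx_star, real_smul]
    have e1 : conj (cx a X) = (cx a X).re - (cx a X).im * I := by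
      apply Complex.ext <;> simp
    have e2 := re_add_im (cx a X)
    rw [e1]
    linear_combination ((φ (ex a) - I * φ (I • ex a)) / 2) * e2 +
      ((cx a X).im * φ (I • ex a)) * I_mul_I

theorem exists_idx {ι : Type} : ∀ {M : ℕ} (l : List ι), 1 ≤ l.length → l.length ≤ M →
    ∃ a : Idx ι M, wd a = l
  | 0, l, h1, h2 => by omega
  | _ + 1, [], h1, _ => by simp at h1
  | _ + 1, [i], _, _ => ⟨(none, i), rfl⟩
  | _ + 1, i :: j :: l, _, h2 => by
    obtain ⟨a, ha⟩ := exists_idx (j :: l) (by simp) (Nat.le_of_succ_le_succ h2)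
    exact ⟨(some a, i), by simp [wd, ha]⟩

section
variable {M : ℕ} {B B' : ℝ} {f f' : Xs n → ℂ}

theorem word_PN (l : List (Lt n ⊕ Lt n)) :
    PN l.length 1 fun X : Xs n => mon c2 l (X, star X) := by
  induction l with
  | nil => simpa [mon] using PN.const (V := Xs n) 1
  | cons a l ih =>
    exact ((PN.mul (lc a) ih).mono (by simpa using norm_lc a)).congr fun X =>
      tay_mon_cons _ _ _ _

theorem WD.nonneg (h : WD M B f) : 0 ≤ B := by
  obtain ⟨v, h1, -⟩ := h
  exact (Finset.sum_nonneg fun _ _ => norm_nonneg _).trans h1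

theorem WD.zero (M : ℕ) : WD M 0 fun _ : Xs n => (0 : ℂ) :=
  ⟨fun _ => 0, by simp, fun X => by simp [hp]⟩

theorem WD.mono (h : WD M B f) (hB : B ≤ B') : WD M B' f := by
  obtain ⟨v, h1, h2⟩ := h
  exact ⟨v, h1.trans hB, h2⟩

theorem WD.congr (h : WD M B f) (e : ∀ X, f' X = f X) : WD M B f' := by
  rw [show f' = f from funext e]
  exact h

theorem WD.add (h : WD M B f) (h' : WD M B' f') : WD M (B + B') fun X => f X + f' X := by
  obtain ⟨v, h1, h2⟩ := h
  obtain ⟨v', h3, h4⟩ := h'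
  refine ⟨fun a => v a + v' a, ?_, fun X => ?_⟩
  · refine (Finset.sum_le_sum fun a _ => norm_add_le _ _).trans ?_
    rw [Finset.sum_add_distrib]
    linarith
  · simp only [h2, h4, hp, mul_add, Finset.sum_add_distrib]

theorem WD.smul (h : WD M B f) (c : ℂ) : WD M (‖c‖ * B) fun X => c * f X := by
  obtain ⟨v, h1, h2⟩ := h
  refine ⟨fun a => c * v a, ?_, fun X => ?_⟩
  · simp only [norm_mul, ← Finset.mul_sum]
    gcongr
  · simp only [h2, hp, Finset.mul_sum]
    exact Finset.sum_congr rfl fun a _ => by ring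

theorem WD.sum {ι : Type} (s : Finset ι) {b : ι → ℝ} {g : ι → Xs n → ℂ}
    (h : ∀ a ∈ s, WD M (b a) (g a)) : WD M (∑ a ∈ s, b a) fun X => ∑ a ∈ s, g a X := by
  classical
  induction s using Finset.induction_on with
  | empty => simpa using WD.zero (n := n) M
  | insert a s ha ih =>
    simp only [Finset.sum_insert ha]
    exact (h a (Finset.mem_insert_self _ _)).add
      (ih fun a' ha' => h a' (Finset.mem_insert_of_mem ha'))

theorem word_WD (l : List (Lt n ⊕ Lt n)) (h1 : 1 ≤ l.length) (hM : l.length ≤ M) :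
    WD M 1 fun X : Xs n => mon c2 l (X, star X) := by
  classical
  obtain ⟨a, rfl⟩ := exists_idx l h1 hM
  refine ⟨Pi.single a 1, ?_, fun X => ?_⟩
  · rw [Finset.sum_eq_single a (fun b _ hb => by simp [hb]) (by simp)]
    simp
  · rw [hp, Finset.sum_eq_single a (fun b _ hb => by simp [hb]) (by simp)]
    simp

theorem PN.wd_aux {i : ℕ} (h : PN i B f) : ∀ l : List (Lt n ⊕ Lt n), 1 ≤ l.length + i →
    l.length + i ≤ M → WD M ((2 * (n + 1)) ^ i * B) fun X => mon c2 l (X, star X) * f X := by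
  induction h with
  | const c =>
    intro l h1 h2
    exact (((word_WD l h1 h2).smul c).mono (by simp)).congr fun X => mul_comm _ _
  | @mul φ i B Q h ih =>
    intro l h1 h2
    obtain ⟨c, hc1, hc2⟩ := exists_letters φ
    have hB := h.nonneg
    have h3 := WD.sum Finset.univ fun (a : Lt n ⊕ Lt n) _ =>
      (ih (a :: l) (by simp; omega) (by simp; omega)).smul (c a)
    refine (h3.mono ?_).congr fun X => ?_
    · refine (Finset.sum_le_sum (g := fun _ => ‖φ‖ * ((2 * (n + 1)) ^ i * B))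
        fun a _ => by gcongr; exact hc1 a).trans (le_of_eq ?_)
      simp [pow_succ]
      ring
    · simp only [hc2 X, Finset.sum_mul, Finset.mul_sum]
      exact Finset.sum_congr rfl fun a _ => by rw [tay_mon_cons]; ring
  | add _ _ ih ih' =>
    intro l h1 h2
    exact (((ih l h1 h2).add (ih' l h1 h2)).mono (le_of_eq (by ring))).congr fun X => by ring
  | mono _ hB ih =>
    intro l h1 h2
    exact (ih l h1 h2).mono (mul_le_mul_of_nonneg_left hB (by positivity))

theorem PN.wd {i : ℕ} (h : PN i B f) (h1 : 1 ≤ i) (hM : i ≤ M) :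
    WD M ((2 * (n + 1)) ^ i * B) f :=
  (h.wd_aux [] (by simpa using h1) (by simpa using hM)).congr fun X => by simp [mon]

theorem WD.norm_le_of (h : WD M B f) {X : Xs n} {t : ℝ} (ht : ∀ i, 1 ≤ i → i ≤ M → ‖X‖ ^ i ≤ t)
    (ht0 : 0 ≤ t) : ‖f X‖ ≤ B * t := by
  obtain ⟨v, h1, h2⟩ := h
  rw [h2, hp]
  refine (norm_sum_le _ _).trans ((Finset.sum_le_sum (g := fun a => ‖v a‖ * t)
    fun a _ => ?_).trans ?_)
  · have := (word_PN (wd a)).norm_le X
    rw [norm_mul, mul_comm]
    gcongr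
    linarith [ht _ (wd_length a).1 (wd_length a).2]
  · rw [← Finset.sum_mul]
    gcongr

theorem WD.norm_le (h : WD M B f) {X : Xs n} (hX : 1 ≤ ‖X‖) : ‖f X‖ ≤ B * ‖X‖ ^ (M + 1) :=
  h.norm_le_of (fun i _ hi => pow_le_pow_right₀ hX (by omega)) (by positivity)

theorem WD.norm_le_max (h : WD M B f) {X : Xs n} {t : ℝ} (ht : 1 ≤ t) (hX : ‖X‖ ≤ t) :
    ‖f X‖ ≤ B * t ^ (M + 1) :=
  h.norm_le_of (fun i _ hi => (pow_le_pow_left₀ (norm_nonneg _) hX i).trans
    (pow_le_pow_right₀ ht (by omega))) (by positivity)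

end

theorem WD.comp (n M : ℕ) (D : ℝ) : ∃ C : ℝ, 1 ≤ C ∧ ∀ (B : ℝ) (f : Xs n → ℂ)
    (T : Xs n →L[ℝ] Xs n), (∀ X, ‖T X‖ ≤ D * ‖X‖) → WD M B f → WD M (C * B) fun X => f (T X) := by
  have hn : (1 : ℝ) ≤ 2 * (n + 1) := by linarith [Nat.cast_nonneg (α := ℝ) n]
  have hD : (1 : ℝ) ≤ max D 1 := le_max_right _ _
  refine ⟨(2 * (n + 1)) ^ M * max D 1 ^ M, one_le_mul_of_one_le_of_one_le (one_le_pow₀ hn)
    (one_le_pow₀ hD), fun B f T hT ⟨v, h1, h2⟩ => ?_⟩
  have hTn : ‖T‖ ≤ max D 1 := ContinuousLinearMap.opNorm_le_bound _ (by linarith) fun X =>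
    (hT X).trans (by gcongr; exact le_max_left _ _)
  have h3 := WD.sum Finset.univ fun (a : Idx (Lt n ⊕ Lt n) M) _ =>
    (((word_PN (wd a)).comp T).wd (wd_length a).1 (wd_length a).2).smul (v a)
  refine (h3.mono ?_).congr fun X => ?_
  · refine (Finset.sum_le_sum (g := fun a => ‖v a‖ * ((2 * (n + 1)) ^ M * max D 1 ^ M))
      fun a _ => ?_).trans ?_
    · have h4 := pow_le_pow_right₀ hn (wd_length a).2
      have h5 := (pow_le_pow_left₀ (norm_nonneg _) hTn _).trans
        (pow_le_pow_right₀ hD (wd_length a).2)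
      rw [one_mul]
      gcongr
    · rw [← Finset.sum_mul, mul_comm]
      gcongr
  · rw [h2, hp]
    exact Finset.sum_congr rfl fun a _ => mul_comm _ _

theorem hp_smul {M : ℕ} (v : Idx (Lt n ⊕ Lt n) M → ℂ) (t : ℝ) (X : Xs n) :
    hp v ((t : ℂ) • X) = hp (fun a => (t : ℂ) ^ (wd a).length * v a) X := by
  have e : ((t : ℂ) • X, star ((t : ℂ) • X)) = (t : ℂ) • (X, star X) := by simp
  unfold hp
  rw [e]
  exact Finset.sum_congr rfl fun a _ => by rw [tay_mon_smul c2 c2_smul]; ring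

theorem continuous_hp {M : ℕ} (v : Idx (Lt n ⊕ Lt n) M → ℂ) : Continuous (hp v) := by
  have h : ∀ l : List (Lt n ⊕ Lt n), Continuous fun X : Xs n => mon c2 l (X, star X) := by
    intro l
    induction l with
    | nil => simpa [mon] using continuous_const
    | cons a l ih =>
      simp only [tay_mon_cons]
      exact (lc a).continuous.mul ih
  exact continuous_finsetSum _ fun a _ => (h _).mul continuous_const

theorem hp_zero {M : ℕ} {v : Idx (Lt n ⊕ Lt n) M → ℂ} (h : ∀ X, ‖X‖ ≤ 1 → hp v X = 0) (X : Xs n) :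
    hp v X = 0 := by
  have hd : Differentiable ℂ fun s : ℂ => hp (fun a => s ^ (wd a).length * v a) X := by
    unfold hp
    fun_prop
  have hc : Continuous fun t : ℝ => ‖(t : ℂ) • X‖ := by fun_prop
  have he : ∀ᶠ t : ℝ in nhds 0, ‖(t : ℂ) • X‖ < 1 :=
    hc.continuousAt.eventually_lt continuousAt_const (by simp)
  simpa using trans_line hd (by
    filter_upwards [he] with t ht
    rw [← hp_smul]
    exact h _ ht.le) 1

theorem exists_section {E F : Type} [NormedAddCommGroup E] [NormedSpace ℂ E]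
    [FiniteDimensional ℂ E] [NormedAddCommGroup F] [NormedSpace ℂ F] (Φ : E →ₗ[ℂ] F) :
    ∃ C : ℝ, 0 ≤ C ∧ ∀ v, ∃ v', Φ v' = Φ v ∧ ‖v'‖ ≤ C * ‖Φ v‖ := by
  obtain ⟨s, hs⟩ := Φ.rangeRestrict.exists_rightInverse_of_surjective Φ.range_rangeRestrict
  obtain ⟨C, hC, h⟩ := (LinearMap.toContinuousLinearMap s).bound
  refine ⟨C, hC.le, fun v => ⟨s (Φ.rangeRestrict v), ?_, h (Φ.rangeRestrict v)⟩⟩
  exact congrArg Subtype.val (LinearMap.congr_fun hs (Φ.rangeRestrict v))

theorem coef_bound (n M : ℕ) : ∃ C : ℝ, 1 ≤ C ∧ ∀ (B₀ B r : ℝ) (f : Xs n → ℂ), 1 ≤ r →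
    WD M B₀ f → (∀ X, ‖X‖ ≤ r → ‖f X‖ ≤ B) → WD M (C * B / r) f := by
  let Φ : (Idx (Lt n ⊕ Lt n) M → ℂ) →ₗ[ℂ] C(closedBall (0 : Xs n) 1, ℂ) :=
    { toFun := fun v => ⟨fun X => hp v X, (continuous_hp v).comp continuous_subtype_val⟩
      map_add' := fun v w => by
        ext X
        simp [hp, mul_add, Finset.sum_add_distrib]
      map_smul' := fun c v => by
        ext X
        simp [hp, Finset.mul_sum, mul_left_comm] }
  have hΦ : ∀ v X, Φ v X = hp v X := fun _ _ => rfl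
  obtain ⟨C, hC, hs⟩ := exists_section Φ
  clear_value Φ
  refine ⟨1 + Fintype.card (Idx (Lt n ⊕ Lt n) M) * C, le_add_of_nonneg_right (by positivity),
    fun B₀ B r f hr ⟨v, _, h2⟩ hB => ?_⟩
  have hr0 : 0 < r := by linarith
  have hB0 : 0 ≤ B := (norm_nonneg _).trans (hB 0 (by simpa using hr0.le))
  obtain ⟨v', h3, h4⟩ := hs fun a => (r : ℂ) ^ (wd a).length * v a
  have h5 : ‖Φ fun a => (r : ℂ) ^ (wd a).length * v a‖ ≤ B := by
    refine (ContinuousMap.norm_le _ hB0).2 fun X => ?_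
    rw [hΦ, ← hp_smul, ← h2]
    refine hB _ ?_
    rw [norm_smul, norm_real, Real.norm_of_nonneg hr0.le]
    exact mul_le_of_le_one_right hr0.le (mem_closedBall_zero_iff.1 X.2)
  have h6 : ∀ X, hp v' X = hp (fun a => (r : ℂ) ^ (wd a).length * v a) X := fun X => by
    have h7 : ∀ X, hp (fun a => v' a - (r : ℂ) ^ (wd a).length * v a) X =
        hp v' X - hp (fun a => (r : ℂ) ^ (wd a).length * v a) X := fun X => by
      simp only [hp, mul_sub, Finset.sum_sub_distrib]
    rw [← sub_eq_zero, ← h7]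
    refine hp_zero (fun Y hY => ?_) X
    rw [h7, sub_eq_zero]
    have h8 := DFunLike.congr_fun h3 ⟨Y, mem_closedBall_zero_iff.2 hY⟩
    rwa [hΦ, hΦ] at h8
  refine ⟨fun a => ((r⁻¹ : ℝ) : ℂ) ^ (wd a).length * v' a, ?_, fun X => ?_⟩
  · refine (Finset.sum_le_sum (g := fun _ => C * B / r) fun a _ => ?_).trans ?_
    · have h7 : ‖v' a‖ ≤ C * B := (norm_le_pi_norm v' a).trans (h4.trans (by gcongr))
      have h8 : r⁻¹ ^ (wd a).length ≤ r⁻¹ :=
        pow_le_of_le_one (by positivity) (inv_le_one_of_one_le₀ hr) (by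
          have := (wd_length a).1
          omega)
      rw [norm_mul, norm_pow, norm_real, Real.norm_of_nonneg (by positivity), div_eq_inv_mul]
      gcongr
    · rw [Finset.sum_const, Finset.card_univ, nsmul_eq_mul, ← mul_div_assoc, ← mul_assoc]
      gcongr
      linarith
  · rw [← hp_smul, h6, ← hp_smul, smul_smul, ← ofReal_mul, mul_inv_cancel₀ hr0.ne', ofReal_one,
      one_smul, h2]

end Pool.Agent.Lib.MP_601e9e_an.Cv
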